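import Pool.Agent.Lib.MP_fb152f_pr.Defs

/-!
# Alive1: the recursion of the greedy algorithm (40 minutes)

Proof of `alive_iff`.  For `i ∈ W` put `rank r = #{(a, b) ∈ W ×ˢ W : |x a - x b| < r}`.
Claim: for all `n`, all `r` with `rank r ≤ n` and all `i ∈ W`,
`aliveN x c W n r i ↔ aliveN x c W (n+1) r i`.  Induction on `n` (unfold one step on both sides):
if `j ∈ W` and `|x i - x j| < r` then `rank |x i - x j| < rank r`, because the pair `(i, j)` is
counted for `r` and not for `|x i - x j|`; so the induction hypothesis applies to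
`aliveN x c W n |x i - x j|` at `i` and at `j` (for `n = 0` there is no such `j`: the pair `(i, j)`
itself would be counted).  As `rank r ≤ W.card ^ 2`, `alive = aliveN (W.card^2)` equals
`aliveN (W.card^2 + 1)`, and this is the statement.

`alive_anti`: immediate from `alive_iff`.

`alive_unique`: strong induction on `rank r`, using `alive_iff` and the hypothesis on `A`.
-/

set_option autoImplicit false

namespace FB

variable {ι : Type*}

/-- the number of pairs at a distance `< r` -/
noncomputable def alive1_rank (x : ι → ℝ) (W : Finset ι) (r : ℝ) : ℕ := by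
  classical
  exact ((W ×ˢ W).filter fun q => |x q.1 - x q.2| < r).card

theorem alive1_rank_le (x : ι → ℝ) (W : Finset ι) (r : ℝ) : alive1_rank x W r ≤ W.card ^ 2 := by
  classical
  unfold alive1_rank
  refine (Finset.card_filter_le _ _).trans ?_
  rw [Finset.card_product, pow_two]

theorem alive1_rank_lt {x : ι → ℝ} {W : Finset ι} {r : ℝ} {i j : ι} (hi : i ∈ W) (hj : j ∈ W)
    (h : |x i - x j| < r) : alive1_rank x W |x i - x j| < alive1_rank x W r := by
  classical
  unfold alive1_rank
  refine Finset.card_lt_card ?_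
  rw [Finset.ssubset_iff_of_subset]
  · refine ⟨(i, j), ?_, ?_⟩
    · rw [Finset.mem_filter, Finset.mem_product]
      exact ⟨⟨hi, hj⟩, h⟩
    · rw [Finset.mem_filter]
      intro h1
      exact lt_irrefl _ h1.2
  · intro q hq
    rw [Finset.mem_filter] at hq ⊢
    exact ⟨hq.1, hq.2.trans h⟩

theorem alive1_stable {x : ι → ℝ} {c : ι → Bool} {W : Finset ι} (n : ℕ) :
    ∀ r : ℝ, alive1_rank x W r ≤ n → ∀ i ∈ W,
      (aliveN x c W n r i ↔ aliveN x c W (n + 1) r i) := by
  induction n with
  | zero =>
    intro r hr i hi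
    refine ⟨fun _ j hj _ _ hd => ?_, fun _ => trivial⟩
    have := alive1_rank_lt (x := x) hi hj hd
    omega
  | succ n ih =>
    intro r hr i hi
    constructor
    · intro h j hj hji hc hd hcon
      have h1 := alive1_rank_lt (x := x) hi hj hd
      have h2 : alive1_rank x W |x i - x j| ≤ n := by omega
      exact h j hj hji hc hd ⟨(ih _ h2 i hi).2 hcon.1, (ih _ h2 j hj).2 hcon.2⟩
    · intro h j hj hji hc hd hcon
      have h1 := alive1_rank_lt (x := x) hi hj hd
      have h2 : alive1_rank x W |x i - x j| ≤ n := by omega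
      exact h j hj hji hc hd ⟨(ih _ h2 i hi).1 hcon.1, (ih _ h2 j hj).1 hcon.2⟩

theorem alive_iff {x : ι → ℝ} {c : ι → Bool} {W : Finset ι} {r : ℝ} {i : ι} (hi : i ∈ W) :
    alive x c W r i ↔ ∀ j ∈ W, j ≠ i → Compat (c i) (c j) → |x i - x j| < r →
      ¬ (alive x c W |x i - x j| i ∧ alive x c W |x i - x j| j) :=
  alive1_stable (W.card ^ 2) r (alive1_rank_le x W r) i hi

theorem alive_anti {x : ι → ℝ} {c : ι → Bool} {W : Finset ι} {r r' : ℝ} {i : ι} (hi : i ∈ W)
    (h : r' ≤ r) (ha : alive x c W r i) : alive x c W r' i := by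
  rw [alive_iff hi] at ha ⊢
  intro j hj hji hc hd
  exact ha j hj hji hc (hd.trans_le h)

/-- Two compatible points which are both alive before `r` have distance at least `r`. -/
theorem alive_sep {x : ι → ℝ} {c : ι → Bool} {W : Finset ι} {r : ℝ} {i j : ι} (hi : i ∈ W)
    (hj : j ∈ W) (hij : i ≠ j) (hc : Compat (c i) (c j)) (hai : alive x c W r i)
    (haj : alive x c W r j) : r ≤ |x i - x j| := by
  by_contra hcon
  push Not at hcon
  exact (alive_iff hi).1 hai j hj hij.symm hc hcon
    ⟨alive_anti hi hcon.le hai, alive_anti hj hcon.le haj⟩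

/-- Uniqueness of the solution of the recursion up to the level `r0`. -/
theorem alive_unique {x : ι → ℝ} {c : ι → Bool} {W : Finset ι} {r0 : ℝ} {A : ℝ → ι → Prop}
    (hA : ∀ r ≤ r0, ∀ i ∈ W, (A r i ↔ ∀ j ∈ W, j ≠ i → Compat (c i) (c j) → |x i - x j| < r →
      ¬ (A |x i - x j| i ∧ A |x i - x j| j))) :
    ∀ r ≤ r0, ∀ i ∈ W, (A r i ↔ alive x c W r i) := by
  have key : ∀ n : ℕ, ∀ r ≤ r0, alive1_rank x W r ≤ n → ∀ i ∈ W,
      (A r i ↔ alive x c W r i) := by
    intro n
    induction n with
    | zero =>
      intro r hr hn i hi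
      rw [hA r hr i hi, alive_iff hi]
      constructor
      · intro h j hj hji hc hd
        have := alive1_rank_lt (x := x) hi hj hd
        omega
      · intro h j hj hji hc hd
        have := alive1_rank_lt (x := x) hi hj hd
        omega
    | succ n ih =>
      intro r hr hn i hi
      rw [hA r hr i hi, alive_iff hi]
      constructor
      · intro h j hj hji hc hd hcon
        have h1 := alive1_rank_lt (x := x) hi hj hd
        have h2 := ih |x i - x j| (hd.le.trans hr) (by omega)
        exact h j hj hji hc hd ⟨(h2 i hi).2 hcon.1, (h2 j hj).2 hcon.2⟩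
      · intro h j hj hji hc hd hcon
        have h1 := alive1_rank_lt (x := x) hi hj hd
        have h2 := ih |x i - x j| (hd.le.trans hr) (by omega)
        exact h j hj hji hc hd ⟨(h2 i hi).1 hcon.1, (h2 j hj).1 hcon.2⟩
  intro r hr i hi
  exact key _ r hr le_rfl i hi

end FB
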