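import Pool.Agent.Lib.MP_fb152f_pr.Alive1

/-!
# Alive2: invariance and locality (40 minutes)

All three follow from `alive_unique` (put the restriction of one side as `A` and check the
recursion with `alive_iff`).

* `alive_congr`: distances and colours are preserved by `e`, hence the recursion as well.
  (`A r i := alive x' c' (W.image e) r (e i)`.)
* `alive_local`: if all points of `W' \ W` are at distance `≥ r` from all points of `W`, then they
  play no role up to the level `r`.
* `alive_of_far`: if all other points of `W` are at distance `≥ r` from `i` then `i` is alive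
  before `r` (directly from `alive_iff`).
-/

set_option autoImplicit false

namespace FB

theorem alive_congr {ι ι' : Type*} [DecidableEq ι'] {x : ι → ℝ} {c : ι → Bool} {W : Finset ι}
    {x' : ι' → ℝ} {c' : ι' → Bool} {e : ι → ι'} (he : Set.InjOn e (W : Set ι))
    (hx : ∀ i ∈ W, ∀ j ∈ W, |x' (e i) - x' (e j)| = |x i - x j|)
    (hc : ∀ i ∈ W, c' (e i) = c i) (r : ℝ) {i : ι} (hi : i ∈ W) :
    alive x' c' (W.image e) r (e i) ↔ alive x c W r i := by
  refine alive_unique (x := x) (c := c) (W := W) (r0 := r)
    (A := fun r i => alive x' c' (W.image e) r (e i)) ?_ r le_rfl i hi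
  intro s _ i hi
  refine (alive_iff (Finset.mem_image_of_mem e hi)).trans ⟨?_, ?_⟩
  · intro h j hj hji hcc hd hcon
    refine h (e j) (Finset.mem_image_of_mem e hj) (fun hh => hji (he hj hi hh)) ?_ ?_ ?_
    · rw [hc i hi, hc j hj]
      exact hcc
    · rw [hx i hi j hj]
      exact hd
    · rw [hx i hi j hj]
      exact hcon
  · intro h j' hj' hji hcc hd hcon
    obtain ⟨j, hj, rfl⟩ := Finset.mem_image.mp hj'
    rw [hx i hi j hj] at hd hcon
    rw [hc i hi, hc j hj] at hcc
    exact h j hj (fun hh => hji (by rw [hh])) hcc hd hcon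

theorem alive_local {ι : Type*} {x : ι → ℝ} {c : ι → Bool} {W W' : Finset ι} (hW : W ⊆ W')
    {r : ℝ} (hfar : ∀ i ∈ W, ∀ j ∈ W', j ∉ W → r ≤ |x i - x j|) {r' : ℝ} (hr : r' ≤ r) {i : ι}
    (hi : i ∈ W) : alive x c W' r' i ↔ alive x c W r' i := by
  refine alive_unique (x := x) (c := c) (W := W) (r0 := r)
    (A := fun r i => alive x c W' r i) ?_ r' hr i hi
  intro s hs i hi
  refine (alive_iff (hW hi)).trans ⟨?_, ?_⟩
  · intro h j hj
    exact h j (hW hj)
  · intro h j hj hji hcc hd hcon
    by_cases hjW : j ∈ W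
    · exact h j hjW hji hcc hd hcon
    · have := hfar i hi j hj hjW
      linarith

theorem alive_of_far {ι : Type*} {x : ι → ℝ} {c : ι → Bool} {W : Finset ι} {r : ℝ} {i : ι}
    (hi : i ∈ W) (hfar : ∀ j ∈ W, j ≠ i → r ≤ |x i - x j|) : alive x c W r i := by
  rw [alive_iff hi]
  intro j hj hji _ hd
  have := hfar j hj hji
  linarith

end FB
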