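import Pool.Agent.Lib.MP_fb152f_pr.Zz

/-!
# Av: averages of random set functions and their products (75 minutes)

`Av G g`: `G ℓ A` depends only on the lengths in `A`, is measurable and bounded in `ℓ`, and its mean
over i.i.d. exponential lengths is `|A|! * coeff |A| g`.

`Av.mul`: `(G ℓ * H ℓ) A = ∑_{B ⊆ A} G ℓ B * H ℓ (A \ B)`; `G ℓ B` and `H ℓ (A \ B)` depend on
disjoint sets of coordinates, so they are independent and the mean of the product is the product
of the means (`iIndepFun_pi`, `iIndepFun.indepFun_finset`, `IndepFun.integral_mul_eq_mul_integral`;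
write `G ℓ B` as a function of the restriction of `ℓ` to `B`, e.g. `G (extension by 0) B`).
Then `∑_{B ⊆ A} |B|! |A \ B|! g_|B| h_|A\B| = |A|! ∑_{i+j=|A|} g_i h_j`
(`Finset.sum_powerset_apply_card`, `Nat.choose` times factorials) `= |A|! coeff |A| (g * h)`.
-/

set_option autoImplicit false
set_option linter.unusedSectionVars false

namespace FB

open MeasureTheory

variable {ι : Type*} [DecidableEq ι] [Fintype ι]

structure Av (G : (ι → ℝ) → SF ι) (g : PowerSeries ℝ) : Prop where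
  loc : ∀ (A : Finset ι) (ℓ ℓ' : ι → ℝ), (∀ i ∈ A, ℓ i = ℓ' i) → G ℓ A = G ℓ' A
  meas : ∀ A, Measurable fun ℓ => G ℓ A
  bdd : ∀ A, ∃ C, ∀ ℓ, |G ℓ A| ≤ C
  mean : ∀ A : Finset ι, ∫ ℓ, G ℓ A ∂(expPi ι) =
    (A.card.factorial : ℝ) * PowerSeries.coeff A.card g

theorem Av.integrable {G : (ι → ℝ) → SF ι} {g : PowerSeries ℝ} (h : Av G g) (A : Finset ι) :
    Integrable (fun ℓ => G ℓ A) (expPi ι) := by
  obtain ⟨C, hC⟩ := h.bdd A
  exact Integrable.of_bound (h.meas A).aestronglyMeasurable C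
    (Filter.Eventually.of_forall fun ℓ => hC ℓ)

/-- extension by zero -/
noncomputable def avExt (B : Finset ι) (y : B → ℝ) : ι → ℝ := fun i => if h : i ∈ B then y ⟨i, h⟩ else 0

theorem avExt_measurable (B : Finset ι) : Measurable (avExt B) := by
  refine measurable_pi_lambda _ fun i => ?_
  unfold avExt
  by_cases h : i ∈ B
  · simp only [h, dif_pos]
    exact measurable_pi_apply _
  · simp only [h, dif_neg, not_false_eq_true]
    exact measurable_const

theorem Av.indep {G H : (ι → ℝ) → SF ι} {g h : PowerSeries ℝ} (hG : Av G g) (hH : Av H h)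
    {A B : Finset ι} (hAB : Disjoint A B) :
    ∫ ℓ, G ℓ A * H ℓ B ∂(expPi ι) = (∫ ℓ, G ℓ A ∂(expPi ι)) * ∫ ℓ, H ℓ B ∂(expPi ι) := by
  have h1 : ProbabilityTheory.iIndepFun (fun (i : ι) (ℓ : ι → ℝ) => ℓ i) (expPi ι) := by
    unfold expPi
    exact ProbabilityTheory.iIndepFun_pi (X := fun _ x => x) fun _ => aemeasurable_id
  have h2 := h1.indepFun_finset A B hAB fun i => measurable_pi_apply i
  have h3 := h2.comp ((hG.meas A).comp (avExt_measurable A)) ((hH.meas B).comp (avExt_measurable B))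
  have e1 : (((fun ℓ => G ℓ A) ∘ avExt A) ∘ fun (ℓ : ι → ℝ) (i : A) => ℓ i) = fun ℓ => G ℓ A := by
    funext ℓ
    refine hG.loc A _ _ fun i hi => ?_
    unfold avExt
    rw [dif_pos hi]
  have e2 : (((fun ℓ => H ℓ B) ∘ avExt B) ∘ fun (ℓ : ι → ℝ) (i : B) => ℓ i) = fun ℓ => H ℓ B := by
    funext ℓ
    refine hH.loc B _ _ fun i hi => ?_
    unfold avExt
    rw [dif_pos hi]
  rw [e1, e2] at h3
  exact h3.integral_fun_mul_eq_mul_integral (hG.meas A).aestronglyMeasurable
    (hH.meas B).aestronglyMeasurable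

theorem Av.mul {G H : (ι → ℝ) → SF ι} {g h : PowerSeries ℝ} (hG : Av G g) (hH : Av H h) :
    Av (fun ℓ => G ℓ * H ℓ) (g * h) := by
  refine ⟨fun A ℓ ℓ' hl => ?_, fun A => ?_, fun A => ?_, fun A => ?_⟩
  · rw [SF.mul_apply, SF.mul_apply]
    refine Finset.sum_congr rfl fun B hB => ?_
    rw [hG.loc B ℓ ℓ' fun i hi => hl i (Finset.mem_powerset.mp hB hi),
      hH.loc (A \ B) ℓ ℓ' fun i hi => hl i (Finset.mem_sdiff.mp hi).1]
  · simp only [SF.mul_apply]
    exact Finset.measurable_sum _ fun B _ => (hG.meas B).mul (hH.meas (A \ B))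
  · choose C hC using hG.bdd
    choose D hD using hH.bdd
    refine ⟨∑ B ∈ A.powerset, C B * D (A \ B), fun ℓ => ?_⟩
    rw [SF.mul_apply]
    refine (Finset.abs_sum_le_sum_abs _ _).trans (Finset.sum_le_sum fun B _ => ?_)
    rw [abs_mul]
    exact mul_le_mul (hC B ℓ) (hD _ ℓ) (abs_nonneg _) ((abs_nonneg _).trans (hC B ℓ))
  · simp only [SF.mul_apply]
    rw [integral_finsetSum]
    · have e1 : ∀ B ∈ A.powerset, ∫ ℓ, G ℓ B * H ℓ (A \ B) ∂(expPi ι) =
          (fun k : ℕ => ((k.factorial : ℝ) * PowerSeries.coeff k g) *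
            (((A.card - k).factorial : ℝ) * PowerSeries.coeff (A.card - k) h)) B.card := by
        intro B hB
        rw [hG.indep hH Finset.disjoint_sdiff, hG.mean, hH.mean,
          Finset.card_sdiff_of_subset (Finset.mem_powerset.mp hB)]
      refine (Finset.sum_congr rfl e1).trans ?_
      refine (Finset.sum_powerset_apply_card (fun k : ℕ => ((k.factorial : ℝ) *
        PowerSeries.coeff k g) * (((A.card - k).factorial : ℝ) *
          PowerSeries.coeff (A.card - k) h))).trans ?_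
      rw [PowerSeries.coeff_mul, Finset.Nat.sum_antidiagonal_eq_sum_range_succ
          (fun i j => PowerSeries.coeff i g * PowerSeries.coeff j h), Finset.mul_sum]
      refine Finset.sum_congr rfl fun k hk => ?_
      have hk' : k ≤ A.card := Nat.lt_succ_iff.mp (Finset.mem_range.mp hk)
      have e2 : ((A.card.choose k : ℕ) : ℝ) * (k.factorial : ℝ) * ((A.card - k).factorial : ℝ) =
          (A.card.factorial : ℝ) := by
        exact_mod_cast Nat.choose_mul_factorial_mul_factorial hk'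
      rw [nsmul_eq_mul, ← e2]
      ring
    · intro B _
      obtain ⟨C, hC⟩ := hG.bdd B
      obtain ⟨D, hD⟩ := hH.bdd (A \ B)
      refine Integrable.of_bound ((hG.meas B).mul (hH.meas (A \ B))).aestronglyMeasurable (C * D)
        (Filter.Eventually.of_forall fun ℓ => ?_)
      rw [Real.norm_eq_abs, abs_mul]
      exact mul_le_mul (hC ℓ) (hD ℓ) (abs_nonneg _) ((abs_nonneg _).trans (hC ℓ))

theorem Av.add {G H : (ι → ℝ) → SF ι} {g h : PowerSeries ℝ} (hG : Av G g) (hH : Av H h) :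
    Av (fun ℓ => G ℓ + H ℓ) (g + h) := by
  refine ⟨fun A ℓ ℓ' hl => ?_, fun A => ?_, fun A => ?_, fun A => ?_⟩
  · rw [SF.add_apply, SF.add_apply, hG.loc A ℓ ℓ' hl, hH.loc A ℓ ℓ' hl]
  · exact (hG.meas A).add (hH.meas A)
  · obtain ⟨C, hC⟩ := hG.bdd A
    obtain ⟨D, hD⟩ := hH.bdd A
    exact ⟨C + D, fun ℓ => (abs_add_le _ _).trans (add_le_add (hC ℓ) (hD ℓ))⟩
  · simp only [SF.add_apply]
    rw [integral_add (hG.integrable A) (hH.integrable A), hG.mean, hH.mean, map_add]
    ring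

theorem Av.sub {G H : (ι → ℝ) → SF ι} {g h : PowerSeries ℝ} (hG : Av G g) (hH : Av H h) :
    Av (fun ℓ => G ℓ - H ℓ) (g - h) := by
  refine ⟨fun A ℓ ℓ' hl => ?_, fun A => ?_, fun A => ?_, fun A => ?_⟩
  · rw [SF.sub_apply, SF.sub_apply, hG.loc A ℓ ℓ' hl, hH.loc A ℓ ℓ' hl]
  · exact (hG.meas A).sub (hH.meas A)
  · obtain ⟨C, hC⟩ := hG.bdd A
    obtain ⟨D, hD⟩ := hH.bdd A
    exact ⟨C + D, fun ℓ => (abs_sub _ _).trans (add_le_add (hC ℓ) (hD ℓ))⟩
  · simp only [SF.sub_apply]
    rw [integral_sub (hG.integrable A) (hH.integrable A), hG.mean, hH.mean, map_sub]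
    ring

theorem Av.one : Av (fun _ : ι → ℝ => (1 : SF ι)) 1 := by
  refine ⟨fun _ _ _ _ => rfl, fun _ => measurable_const, fun A => ⟨_, fun _ => le_rfl⟩,
    fun A => ?_⟩
  rw [integral_const, PowerSeries.coeff_one, SF.one_apply]
  by_cases hA : A = ∅
  · subst hA
    simp
  · have h1 : A.card ≠ 0 := fun h => hA (Finset.card_eq_zero.mp h)
    simp [hA]

theorem Av.four : Av (fun _ : ι → ℝ => (4 : SF ι)) 4 := by
  have e1 : (4 : SF ι) = (1 + 1) + (1 + 1) := by norm_num
  have e2 : (4 : PowerSeries ℝ) = (1 + 1) + (1 + 1) := by norm_num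
  rw [e1, e2]
  exact (Av.one.add Av.one).add (Av.one.add Av.one)

end FB
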