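import Pool.Agent.Lib.MP_fb152f_pr.Meas

/-!
# GenAE: exponential gaps are generic almost surely (50 minutes)

Positivity: `expMeasure 1 (Iic 0) = 0` and the coordinates of `expPi ι` have law `expMeasure 1`.
Injectivity of `slen ℓ`: there are finitely many pairs `A ≠ B` of finite sets; take `i` in exactly
one of them, say in `A \ B`; given the other coordinates the equation `slen ℓ A = slen ℓ B`
determines `ℓ i`, which has probability 0 (`expMeasure 1` has a density, so no atoms).  Formally: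
the set `{ℓ | slen ℓ A = slen ℓ B}` is a proper affine subspace (kernel of the nonzero linear map
`slen · A - slen · B`), hence has Lebesgue measure 0 (`Measure.addHaar_submodule` /
`addHaar_affineSubspace`), and `expPi ι ≪ volume` (`expMeasure 1 ≪ volume`,
`Measure.pi` of absolutely continuous measures), or Fubini in the coordinate `i`.
-/

set_option autoImplicit false

namespace FB

open MeasureTheory

theorem GenAE_pos : ∀ᵐ x ∂(ProbabilityTheory.expMeasure 1), 0 < x := by
  have h1 : (ProbabilityTheory.expMeasure 1) (Set.Iic 0) = 0 := by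
    have h2 := ProbabilityTheory.cdf_expMeasure_eq one_pos 0
    have h3 := ProbabilityTheory.ofReal_cdf (ProbabilityTheory.expMeasure 1) 0
    rw [← h3, h2]
    simp
  rw [ae_iff]
  convert h1 using 2
  ext x
  simp

instance GenAE_null : NullSingletonClass (ProbabilityTheory.expMeasure 1) := by
  unfold ProbabilityTheory.expMeasure ProbabilityTheory.gammaMeasure
  infer_instance

theorem GenAE_ne {ι : Type*} [Fintype ι] (i : ι) (g : (ι → ℝ) → ℝ) (hg : Measurable g)
    (hloc : ∀ ℓ ℓ' : ι → ℝ, (∀ j, j ≠ i → ℓ j = ℓ' j) → g ℓ = g ℓ') :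
    ∀ᵐ ℓ ∂(expPi ι), ℓ i ≠ g ℓ := by
  classical
  obtain ⟨p, hpi, hpn⟩ : ∃ p : ι → Prop, p i ∧ ∀ j, j ≠ i → ¬ p j :=
    ⟨fun j => j = i, rfl, fun _ h => h⟩
  let e := MeasurableEquiv.piEquivPiSubtypeProd (fun _ : ι => ℝ) p
  have hMP : MeasurePreserving e (expPi ι)
      ((Measure.pi fun _ : {j // p j} => ProbabilityTheory.expMeasure 1).prod
        (Measure.pi fun _ : {j // ¬ p j} => ProbabilityTheory.expMeasure 1)) :=
    measurePreserving_piEquivPiSubtypeProd (fun _ : ι => ProbabilityTheory.expMeasure 1) p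
  set H' : Set (({j // p j} → ℝ) × ({j // ¬ p j} → ℝ)) :=
    {z | z.1 ⟨i, hpi⟩ = g (e.symm z)} with hH'
  have hmeas : MeasurableSet H' := by
    refine measurableSet_eq_fun ?_ (hg.comp e.symm.measurable)
    exact (measurable_pi_apply _).comp measurable_fst
  have hset : {ℓ : ι → ℝ | ¬ ℓ i ≠ g ℓ} = e ⁻¹' H' := by
    ext ℓ
    rw [Set.mem_preimage, hH']
    have h1 : e.symm (e ℓ) = ℓ := e.symm_apply_apply ℓ
    have h2 : (e ℓ).1 ⟨i, hpi⟩ = ℓ i := rfl
    constructor
    · intro h
      have h' : ℓ i = g ℓ := not_not.1 h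
      change (e ℓ).1 ⟨i, hpi⟩ = g (e.symm (e ℓ))
      rw [h1, h2, h']
    · intro h
      have h' : (e ℓ).1 ⟨i, hpi⟩ = g (e.symm (e ℓ)) := h
      rw [h1, h2] at h'
      exact not_not.2 h'
  rw [ae_iff, hset, hMP.measure_preimage hmeas.nullMeasurableSet,
    Measure.prod_apply_symm hmeas]
  rw [lintegral_eq_zero_iff' (by
    exact (measurable_measure_prodMk_right hmeas).aemeasurable)]
  refine Filter.Eventually.of_forall fun y => ?_
  have hc : ∀ x : {j // p j} → ℝ, g (e.symm (x, y)) = g (e.symm (0, y)) := by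
    intro x
    apply hloc
    intro j hj
    change (if h : p j then x ⟨j, h⟩ else y ⟨j, h⟩) =
      (if h : p j then (0 : {j // p j} → ℝ) ⟨j, h⟩ else y ⟨j, h⟩)
    rw [dif_neg (hpn j hj), dif_neg (hpn j hj)]
  have hsub : (fun x => (x, y)) ⁻¹' H' ⊆
      {x : {j // p j} → ℝ | x ⟨i, hpi⟩ = g (e.symm (0, y))} := by
    intro x hx
    have hx' : x ⟨i, hpi⟩ = g (e.symm (x, y)) := hx
    rw [hc] at hx'
    exact hx'
  exact measure_mono_null hsub
    (Measure.pi_hyperplane (fun _ : {j // p j} => ProbabilityTheory.expMeasure 1) _ _)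

theorem GenAE_pair {ι : Type*} [Fintype ι] {i : ι} {A B : Finset ι} (hA : i ∈ A) (hB : i ∉ B) :
    ∀ᵐ ℓ ∂(expPi ι), slen ℓ A ≠ slen ℓ B := by
  classical
  have h1 := GenAE_ne i (fun ℓ => slen ℓ B - slen ℓ (A.erase i))
    ((measurable_slen B).sub (measurable_slen _)) (by
      intro ℓ ℓ' h
      unfold slen
      congr 1
      · exact Finset.sum_congr rfl fun j hj => h j (fun e => hB (e ▸ hj))
      · exact Finset.sum_congr rfl fun j hj => h j (Finset.ne_of_mem_erase hj))
  filter_upwards [h1] with ℓ hℓ he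
  apply hℓ
  have h2 : slen ℓ A = ℓ i + slen ℓ (A.erase i) := by
    unfold slen
    rw [Finset.add_sum_erase _ _ hA]
  rw [← he, h2]
  ring

theorem ae_generic (ι : Type*) [Fintype ι] : ∀ᵐ ℓ ∂(expPi ι), Generic ℓ := by
  classical
  have h1 : ∀ i : ι, ∀ᵐ ℓ ∂(expPi ι), 0 < ℓ i := fun i =>
    (Measure.tendsto_eval_ae_ae (μ := fun _ : ι => ProbabilityTheory.expMeasure 1)
      (i := i)).eventually GenAE_pos
  have h2 : ∀ q : Finset ι × Finset ι, ∀ᵐ ℓ ∂(expPi ι), slen ℓ q.1 = slen ℓ q.2 → q.1 = q.2 := by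
    rintro ⟨A, B⟩
    by_cases hAB : A = B
    · exact Filter.Eventually.of_forall fun _ _ => hAB
    · have h3 : (∃ i, i ∈ A ∧ i ∉ B) ∨ ∃ i, i ∈ B ∧ i ∉ A := by
        by_contra hcon
        push Not at hcon
        exact hAB (Finset.Subset.antisymm (fun i hi => hcon.1 i hi) (fun i hi => hcon.2 i hi))
      rcases h3 with ⟨i, hi, hi'⟩ | ⟨i, hi, hi'⟩
      · filter_upwards [GenAE_pair hi hi'] with ℓ hℓ he
        exact absurd he hℓ
      · filter_upwards [GenAE_pair hi hi'] with ℓ hℓ he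
        exact absurd he.symm hℓ
  filter_upwards [ae_all_iff.2 h1, ae_all_iff.2 h2] with ℓ ha hb
  exact ⟨ha, fun A B h => hb (A, B) h⟩

end FB
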