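import Pool.Agent.Lib.MP_fb152f_pr.Evo

/-!
# Ineq: the integrated inequalities for set functions (60 minutes)

Let `w1, ..., w4` be as in `evo hℓ r`, `t ∈ [0, π/2]`, `s1 = psi_B ≥ 0`, `s2 = psi_R ≥ 0`
(`psi_nonneg`), `μ = mr ℓ r t ≥ 0`.
(1) `s1' = w1 s1 + w2 s2`, `w1 ≥ 0`, `2 w2 = (w2 - w3) + (w2 + w3) ≥ 2 (1 + μ^2) ≥ 2`, so
`s1' S ≥ s2 S` for all `S`.  Integrate: `S` fixed, `s1` is differentiable with continuous lower
bound `s2` for the derivative (use `MeasureTheory`/`intervalIntegral` or: the function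
`s1 t - ∫_{t1}^t s2` is monotone on `[t1, t2]`, `monotoneOn_of_deriv_nonneg`, its derivative exists by
`intervalIntegral.integral_hasDerivAt_right` and `continuous_psi`).
(2) `(s1^2 - s2^2)' = 2 w1 s1^2 + 2 (w2 - w3) s1 s2 - 2 w4 s2^2
      ≥ 4 μ s1^2 + 4 (1 + μ^2) s1 s2`.  Integrate in the same way.
-/

set_option autoImplicit false
set_option linter.unusedSectionVars false

namespace FB

variable {ι : Type*} [DecidableEq ι] [Fintype ι]

theorem Ineq_two_mul (f : SF ι) (S : Finset ι) : (2 * f) S = 2 * f S := by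
  rw [two_mul, SF.add_apply]
  ring

theorem Ineq_one_nonneg (S : Finset ι) : 0 ≤ (1 : SF ι) S := by
  rw [SF.one_apply]
  split_ifs <;> norm_num

theorem Ineq_cont_mul {f g : ℝ → SF ι} (hf : ∀ S, Continuous fun t => f t S)
    (hg : ∀ S, Continuous fun t => g t S) (S : Finset ι) :
    Continuous fun t => (f t * g t) S := by
  simp only [SF.mul_apply]
  exact continuous_finsetSum _ fun A _ => (hf A).mul (hg (S \ A))

theorem Ineq_cont_add {f g : ℝ → SF ι} (hf : ∀ S, Continuous fun t => f t S)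
    (hg : ∀ S, Continuous fun t => g t S) (S : Finset ι) :
    Continuous fun t => (f t + g t) S := by
  simp only [SF.add_apply]
  exact (hf S).add (hg S)

theorem Ineq_cont_sub {f g : ℝ → SF ι} (hf : ∀ S, Continuous fun t => f t S)
    (hg : ∀ S, Continuous fun t => g t S) (S : Finset ι) :
    Continuous fun t => (f t - g t) S := by
  simp only [SF.sub_apply]
  exact (hf S).sub (hg S)

theorem Ineq_w1 {ℓ : ι → ℝ} {r t : ℝ} (ht : t ∈ Set.Icc 0 (Real.pi / 2)) {w1 w2 w3 w4 : SF ι}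
    (hS : Sgn (mr ℓ r t) w1 w2 w3 w4) (S : Finset ι) : 0 ≤ w1 S := by
  refine le_trans ?_ (hS.h1 S)
  rw [Ineq_two_mul]
  have := mr_nonneg ht ℓ r S
  linarith

theorem Ineq_w2 {ℓ : ι → ℝ} {r t : ℝ} (ht : t ∈ Set.Icc 0 (Real.pi / 2)) {w1 w2 w3 w4 : SF ι}
    (hS : Sgn (mr ℓ r t) w1 w2 w3 w4) (S : Finset ι) : (1 : SF ι) S ≤ w2 S := by
  have h1 := hS.ha S
  have h2 := hS.hs S
  have h3 := sf_mul_nonneg (fun S => mr_nonneg ht ℓ r S) (fun S => mr_nonneg ht ℓ r S) S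
  rw [Ineq_two_mul, SF.add_apply, SF.sub_apply] at h1
  rw [SF.add_apply] at h2
  linarith

theorem ineq1 {ℓ : ι → ℝ} (hℓ : Generic ℓ) (r : ℝ) {t1 t2 : ℝ} (h0 : 0 ≤ t1) (h12 : t1 ≤ t2)
    (h2 : t2 ≤ Real.pi / 2) (S : Finset ι) :
    ∫ t in t1..t2, psi ℓ r t false S ≤ psi ℓ r t2 true S - psi ℓ r t1 true S := by
  obtain ⟨-, w1, w2, w3, w4, hE, hS⟩ := evo hℓ r
  refine intervalIntegral.integral_le_sub_of_hasDeriv_right_of_le h12
    (continuous_psi ℓ r true S).continuousOn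
    (fun t _ => (hE.d1 t S).hasDerivWithinAt)
    ((continuous_psi ℓ r false S).continuousOn.integrableOn_Icc) (fun t ht => ?_)
  have ht' : t ∈ Set.Icc 0 (Real.pi / 2) := ⟨h0.trans ht.1.le, ht.2.le.trans h2⟩
  rw [SF.add_apply]
  have h3 := sf_mul_nonneg (Ineq_w1 ht' (hS t ht')) (fun S => psi_nonneg ht' ℓ r true S) S
  have h4 := sf_mul_le_mul (f := (1 : SF ι)) (g := psi ℓ r t false) (f' := w2 t)
    (g' := psi ℓ r t false) Ineq_one_nonneg (fun S => psi_nonneg ht' ℓ r false S)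
    (Ineq_w2 ht' (hS t ht')) (fun _ => le_rfl) S
  rw [one_mul] at h4
  linarith

theorem ineq2 {ℓ : ι → ℝ} (hℓ : Generic ℓ) (r : ℝ) {t1 t2 : ℝ} (h0 : 0 ≤ t1) (h12 : t1 ≤ t2)
    (h2 : t2 ≤ Real.pi / 2) (S : Finset ι) :
    ∫ t in t1..t2, (4 * ((1 + mr ℓ r t * mr ℓ r t) * (psi ℓ r t true * psi ℓ r t false) +
        mr ℓ r t * (psi ℓ r t true * psi ℓ r t true)) : SF ι) S ≤
      (psi ℓ r t2 true * psi ℓ r t2 true - psi ℓ r t2 false * psi ℓ r t2 false : SF ι) S -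
      (psi ℓ r t1 true * psi ℓ r t1 true - psi ℓ r t1 false * psi ℓ r t1 false : SF ι) S := by
  obtain ⟨-, w1, w2, w3, w4, hE, hS⟩ := evo hℓ r
  have c1 := continuous_psi ℓ r true
  have c2 := continuous_psi ℓ r false
  have cm := continuous_mr ℓ r
  have cc : ∀ (f : SF ι) (S : Finset ι), Continuous fun _ : ℝ => f S := fun _ _ => continuous_const
  have hcontD : Continuous fun t =>
      (psi ℓ r t true * psi ℓ r t true - psi ℓ r t false * psi ℓ r t false : SF ι) S :=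
    Ineq_cont_sub (Ineq_cont_mul c1 c1) (Ineq_cont_mul c2 c2) S
  have hcontφ : Continuous fun t =>
      (4 * ((1 + mr ℓ r t * mr ℓ r t) * (psi ℓ r t true * psi ℓ r t false) +
        mr ℓ r t * (psi ℓ r t true * psi ℓ r t true)) : SF ι) S :=
    Ineq_cont_mul (cc 4) (Ineq_cont_add
      (Ineq_cont_mul (Ineq_cont_add (cc 1) (Ineq_cont_mul cm cm)) (Ineq_cont_mul c1 c2))
      (Ineq_cont_mul cm (Ineq_cont_mul c1 c1))) S
  refine intervalIntegral.integral_le_sub_of_hasDeriv_right_of_le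
    (g := fun t => (psi ℓ r t true * psi ℓ r t true - psi ℓ r t false * psi ℓ r t false : SF ι) S)
    h12 hcontD.continuousOn
    (fun t _ => ((((hE.d1 t).mul (hE.d1 t)).sub ((hE.d2 t).mul (hE.d2 t))) S).hasDerivWithinAt)
    (hcontφ.continuousOn.integrableOn_Icc) (fun t ht => ?_)
  have ht' : t ∈ Set.Icc 0 (Real.pi / 2) := ⟨h0.trans ht.1.le, ht.2.le.trans h2⟩
  have hSt := hS t ht'
  have p1 := fun S => psi_nonneg ht' ℓ r true S
  have p2 := fun S => psi_nonneg ht' ℓ r false S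
  have q1 : 0 ≤ ((w1 t - 2 * mr ℓ r t) * (psi ℓ r t true * psi ℓ r t true) : SF ι) S := by
    refine sf_mul_nonneg (fun S => ?_) (sf_mul_nonneg p1 p1) S
    rw [SF.sub_apply]
    exact sub_nonneg.mpr (hSt.h1 S)
  have q2 : 0 ≤ (((w2 t - w3 t) - 2 * (1 + mr ℓ r t * mr ℓ r t)) *
      (psi ℓ r t true * psi ℓ r t false) : SF ι) S := by
    refine sf_mul_nonneg (fun S => ?_) (sf_mul_nonneg p1 p2) S
    rw [SF.sub_apply]
    exact sub_nonneg.mpr (hSt.ha S)
  have q3 : 0 ≤ ((-w4 t) * (psi ℓ r t false * psi ℓ r t false) : SF ι) S := by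
    refine sf_mul_nonneg (fun S => ?_) (sf_mul_nonneg p2 p2) S
    rw [SF.neg_apply]
    exact neg_nonneg.mpr (hSt.h4 S)
  have e1 : ((w1 t * psi ℓ r t true + w2 t * psi ℓ r t false) * psi ℓ r t true +
      psi ℓ r t true * (w1 t * psi ℓ r t true + w2 t * psi ℓ r t false) -
      ((w3 t * psi ℓ r t true + w4 t * psi ℓ r t false) * psi ℓ r t false +
      psi ℓ r t false * (w3 t * psi ℓ r t true + w4 t * psi ℓ r t false)) : SF ι) =
      (4 * ((1 + mr ℓ r t * mr ℓ r t) * (psi ℓ r t true * psi ℓ r t false) +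
        mr ℓ r t * (psi ℓ r t true * psi ℓ r t true)) : SF ι) +
      2 * ((w1 t - 2 * mr ℓ r t) * (psi ℓ r t true * psi ℓ r t true) +
      ((w2 t - w3 t) - 2 * (1 + mr ℓ r t * mr ℓ r t)) *
      (psi ℓ r t true * psi ℓ r t false) +
      (-w4 t) * (psi ℓ r t false * psi ℓ r t false)) := by ring
  rw [e1, SF.add_apply, Ineq_two_mul, SF.add_apply, SF.add_apply]
  linarith

end FB
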