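import Pool.Agent.Lib.MP_fb152f_pr.Cord

/-!
# Weights: the weights of paths of colours
-/

set_option autoImplicit false

namespace FB

theorem v_nonneg {t : ℝ} (ht : t ∈ Set.Icc 0 (Real.pi / 2)) (a : Bool) : 0 ≤ v t a := by
  unfold v
  split_ifs
  · exact Real.sin_nonneg_of_mem_Icc ⟨ht.1, ht.2.trans (by linarith [Real.pi_pos])⟩
  · exact Real.cos_nonneg_of_mem_Icc ⟨by linarith [Real.pi_pos, ht.1], ht.2⟩

theorem v_le_one (t : ℝ) (a : Bool) : v t a ≤ 1 := by
  unfold v
  split_ifs
  · exact Real.sin_le_one t
  · exact Real.cos_le_one t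

theorem v_sq_add (t : ℝ) : v t true ^ 2 + v t false ^ 2 = 1 := by
  simp [v]

theorem continuous_v (a : Bool) : Continuous fun t => v t a := by
  unfold v
  split_ifs
  · exact Real.continuous_sin
  · exact Real.continuous_cos

theorem hasDerivAt_v_true (t : ℝ) : HasDerivAt (fun t => v t true) (v t false) t := by
  simpa [v] using Real.hasDerivAt_sin t

theorem hasDerivAt_v_false (t : ℝ) : HasDerivAt (fun t => v t false) (- v t true) t := by
  simpa [v] using Real.hasDerivAt_cos t

theorem pw_nonneg {t : ℝ} (ht : t ∈ Set.Icc 0 (Real.pi / 2)) (a : Bool) (cs : List Bool) :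
    0 ≤ pw t a cs := by
  induction cs generalizing a with
  | nil => simp [pw]
  | cons b cs ih =>
    simp only [pw]
    exact mul_nonneg (mul_nonneg (v_nonneg ht a) (v_nonneg ht b)) (ih b)

theorem continuous_pw (a : Bool) (cs : List Bool) : Continuous fun t => pw t a cs := by
  induction cs generalizing a with
  | nil => simpa [pw] using continuous_const
  | cons b cs ih =>
    simp only [pw]
    exact ((continuous_v a).mul (continuous_v b)).mul (ih b)

theorem pw_append (t : ℝ) (a : Bool) (cs ds : List Bool) :
    pw t a (cs ++ ds) = pw t a cs * pw t (ecol a cs) ds := by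
  induction cs generalizing a with
  | nil => simp [pw, ecol]
  | cons b cs ih =>
    simp only [List.cons_append, pw, ecol, ih b]
    ring

theorem pw_mul_v (t : ℝ) (a : Bool) (cs : List Bool) :
    pw t a cs * v t (ecol a cs) = v t a * (cs.map fun b => v t b ^ 2).prod := by
  induction cs generalizing a with
  | nil => simp [pw, ecol]
  | cons b cs ih =>
    simp only [pw, ecol, List.map_cons, List.prod_cons]
    rw [mul_assoc, ih b]
    ring

theorem sum_pw_v (t : ℝ) (a : Bool) (n : ℕ) :
    ∑ cs ∈ bl n, pw t a cs * v t (ecol a cs) = v t a := by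
  induction n generalizing a with
  | zero =>
    have : bl 0 = {[]} := by
      ext cs
      rw [mem_bl]
      simp
    rw [this]
    simp [pw, ecol]
  | succ n ih =>
    rw [sum_bl_succ]
    have h : ∀ b : Bool, ∑ cs ∈ bl n, pw t a (b :: cs) * v t (ecol a (b :: cs)) =
        v t a * v t b ^ 2 := by
      intro b
      simp only [pw, ecol]
      have h2 : ∀ cs ∈ bl n, v t a * v t b * pw t b cs * v t (ecol b cs) =
          (v t a * v t b) * (pw t b cs * v t (ecol b cs)) := by
        intro cs _
        ring
      rw [Finset.sum_congr rfl h2, ← Finset.mul_sum, ih b]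
      ring
    simp only [h, Fintype.sum_bool]
    have := v_sq_add t
    linear_combination (v t a) * this

theorem sum_pw_ind (t : ℝ) (a b : Bool) {n : ℕ} (hn : n ≠ 0) :
    ∑ cs ∈ bl n, pw t a cs * ind (ecol a cs = b) = v t a * v t b := by
  obtain ⟨n, rfl⟩ := Nat.exists_eq_succ_of_ne_zero hn
  clear hn
  induction n generalizing a with
  | zero =>
    rw [Nat.succ_eq_add_one, sum_bl_succ]
    have : bl 0 = {[]} := by
      ext cs
      rw [mem_bl]
      simp
    rw [this]
    simp only [Finset.sum_singleton, pw, ecol, Fintype.sum_bool]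
    cases b <;> simp [ind]
  | succ n ih =>
    rw [Nat.succ_eq_add_one, sum_bl_succ]
    have h : ∀ c : Bool, ∑ cs ∈ bl (n + 1), pw t a (c :: cs) * ind (ecol a (c :: cs) = b) =
        v t a * v t b * v t c ^ 2 := by
      intro c
      simp only [pw, ecol]
      have h2 : ∀ cs ∈ bl (n + 1), v t a * v t c * pw t c cs * ind (ecol c cs = b) =
          (v t a * v t c) * (pw t c cs * ind (ecol c cs = b)) := by
        intro cs _
        ring
      rw [Finset.sum_congr rfl h2, ← Finset.mul_sum]
      have := ih c
      rw [Nat.succ_eq_add_one] at this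
      rw [this]
      ring
    simp only [h, Fintype.sum_bool]
    have := v_sq_add t
    linear_combination (v t a * v t b) * this

end FB
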