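import Pool.Agent.Lib.MP_fb152f_pr.Defs

/-!
# Zz: monomials, order, derivatives in the ring of set functions (40 minutes)

* `zz_mul_apply`: in `(zz T * f) S = ∑_{A ⊆ S} zz T A * f (S \ A)` only `A = T` counts.
* `zz_mul_self`: `T ⊆ S` and `S \ T = T` is impossible for `T ≠ ∅`.
* order: all products of nonnegative set functions are nonnegative.
* `HD`: coefficientwise derivative; sums, products (finite sums of products), multiplication by
  real functions.
-/

set_option autoImplicit false

namespace FB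

variable {ι : Type*} [DecidableEq ι]

theorem zz_mul_apply (T : Finset ι) (f : SF ι) (S : Finset ι) :
    (zz T * f) S = if T ⊆ S then f (S \ T) else 0 := by
  rw [SF.mul_apply]
  by_cases h : T ⊆ S
  · rw [if_pos h, Finset.sum_eq_single T]
    · simp [zz]
    · intro A _ hA
      simp [zz, hA]
    · intro h'
      exact absurd (Finset.mem_powerset.mpr h) h'
  · rw [if_neg h]
    apply Finset.sum_eq_zero
    intro A hA
    have hA' : A ≠ T := by
      rintro rfl
      exact h (Finset.mem_powerset.mp hA)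
    simp [zz, hA']

theorem zz_mul_self {T : Finset ι} (hT : T ≠ ∅) : (zz T : SF ι) * zz T = 0 := by
  ext S
  rw [zz_mul_apply, SF.zero_apply]
  split_ifs with h
  · unfold zz
    rw [if_neg]
    intro h'
    apply hT
    obtain ⟨x, hx⟩ | hx := T.eq_empty_or_nonempty.symm
    · have h1 : x ∈ S \ T := by
        rw [h']
        exact hx
      exact absurd hx (Finset.mem_sdiff.mp h1).2
    · exact hx
  · rfl

theorem sf_smul_eq (a : ℝ) (f : SF ι) : a • f = (a • (1 : SF ι)) * f := by
  ext S
  rw [SF.smul_apply, SF.mul_apply, Finset.sum_eq_single ∅]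
  · simp [SF.one_apply]
  · intro A _ hA
    simp [SF.one_apply, hA]
  · intro h
    exact absurd (Finset.empty_mem_powerset S) h

theorem sf_mul_nonneg {f g : SF ι} (hf : ∀ S, 0 ≤ f S) (hg : ∀ S, 0 ≤ g S) (S : Finset ι) :
    0 ≤ (f * g) S := by
  rw [SF.mul_apply]
  exact Finset.sum_nonneg (fun A _ => mul_nonneg (hf _) (hg _))

theorem sf_mul_le_mul {f g f' g' : SF ι} (hf : ∀ S, 0 ≤ f S) (hg : ∀ S, 0 ≤ g S)
    (hff : ∀ S, f S ≤ f' S) (hgg : ∀ S, g S ≤ g' S) (S : Finset ι) :
    (f * g) S ≤ (f' * g') S := by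
  rw [SF.mul_apply, SF.mul_apply]
  exact Finset.sum_le_sum (fun A _ => mul_le_mul (hff _) (hgg _) (hg _) ((hf _).trans (hff _)))

/-- Coefficientwise derivative. -/
def HD (f : ℝ → SF ι) (f' : SF ι) (t : ℝ) : Prop := ∀ S, HasDerivAt (fun t => f t S) (f' S) t

theorem HD.add {f g : ℝ → SF ι} {f' g' : SF ι} {t : ℝ} (hf : HD f f' t) (hg : HD g g' t) :
    HD (fun t => f t + g t) (f' + g') t := by
  intro S
  exact (hf S).add (hg S)

theorem HD.sub {f g : ℝ → SF ι} {f' g' : SF ι} {t : ℝ} (hf : HD f f' t) (hg : HD g g' t) :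
    HD (fun t => f t - g t) (f' - g') t := by
  intro S
  exact (hf S).sub (hg S)

theorem HD.mul {f g : ℝ → SF ι} {f' g' : SF ι} {t : ℝ} (hf : HD f f' t) (hg : HD g g' t) :
    HD (fun t => f t * g t) (f' * g t + f t * g') t := by
  intro S
  have h : HasDerivAt (fun t => ∑ A ∈ S.powerset, f t A * g t (S \ A))
      (∑ A ∈ S.powerset, (f' A * g t (S \ A) + f t A * g' (S \ A))) t :=
    HasDerivAt.fun_sum (fun A _ => (hf A).mul (hg (S \ A)))
  have e : (f' * g t + f t * g') S =
      ∑ A ∈ S.powerset, (f' A * g t (S \ A) + f t A * g' (S \ A)) := by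
    rw [SF.add_apply, SF.mul_apply, SF.mul_apply, Finset.sum_add_distrib]
  rw [e]
  exact h

theorem HD.smul {a : ℝ → ℝ} {a' : ℝ} {f : ℝ → SF ι} {f' : SF ι} {t : ℝ}
    (ha : HasDerivAt a a' t) (hf : HD f f' t) :
    HD (fun t => a t • f t) (a' • f t + a t • f') t := by
  intro S
  exact ha.mul (hf S)

theorem HD.const (f : SF ι) (t : ℝ) : HD (fun _ => f) 0 t := by
  intro S
  exact hasDerivAt_const t (f S)

theorem HD.unique {f : ℝ → SF ι} {f' g' : SF ι} {t : ℝ} (hf : HD f f' t) (hg : HD f g' t) :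
    f' = g' := by
  ext S
  exact (hf S).unique (hg S)

end FB
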