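import Pool.Agent.Lib.MP_fb152f_pr.Segs
import Pool.Agent.Lib.MP_fb152f_pr.Weights
import Pool.Agent.Lib.MP_fb152f_pr.Zz

/-!
# Base: small levels, constancy, processed sets, sign, continuity (75 minutes)

* `psi_base`, `Pm_base`: if no non-empty `T` has `slen ℓ T < r` then all starts and ends are alive
  before `r` (`SA_iff`, `EA_iff`: `llen (l.take k)` is `slen` of the label set of `l.take k`, which
  is non-empty by `Blk`; labels of `l ∈ cord S` are distinct), so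
  `psi S = |S|! ∑_{cs ∈ bl |S|} pw v = |S|! v_a` (`sum_cord_colours`, `sum_pw_v`) and
  `Pm S = |S|! v_a v_b` for `S ≠ ∅` (`sum_pw_ind`); `Pm ∅ = [a = b]`.
* `processed`: if `S ≠ ∅`, `slen ℓ S < r`, `Compat a b`, then `Pm ℓ r t a b S = 0` (`SA_EA_far`,
  `llen ℓ l = slen ℓ S`).
* sign and continuity: sums of products of nonnegative/continuous functions.
* `mr_anti`: `mr` is nonnegative and non-decreasing in `r`, for `t ∈ [0, π/2]`.
-/

set_option autoImplicit false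
set_option linter.unusedSectionVars false

namespace FB

variable {ι : Type*} [DecidableEq ι]

theorem Base_ind_true {p : Prop} (h : p) : ind p = 1 := by
  unfold ind
  exact if_pos h

theorem Base_ind_false {p : Prop} (h : ¬ p) : ind p = 0 := by
  unfold ind
  exact if_neg h

theorem Base_ind_nonneg (p : Prop) : 0 ≤ ind p := by
  by_cases h : p
  · rw [Base_ind_true h]
    exact zero_le_one
  · rw [Base_ind_false h]

theorem Base_ind_mono {p q : Prop} (h : p → q) : ind p ≤ ind q := by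
  by_cases hp : p
  · rw [Base_ind_true hp, Base_ind_true (h hp)]
  · rw [Base_ind_false hp]
    exact Base_ind_nonneg q

theorem Base_far {ℓ : ι → ℝ} {r : ℝ}
    (hr : ∀ T : Finset ι, T ≠ ∅ → r ≤ slen ℓ T) {l : List (ι × Bool)}
    (hl : (l.map Prod.fst).Nodup) (hne : l ≠ []) : r ≤ llen ℓ l := by
  have h1 : l ∈ cord (l.map Prod.fst).toFinset := mem_cord.mpr ⟨hl, rfl⟩
  rw [slen_of_mem_cord ℓ h1]
  refine hr _ fun h => hne ?_
  rw [List.toFinset_eq_empty_iff, List.map_eq_nil_iff] at h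
  exact h

theorem Base_nodup_take {l : List (ι × Bool)} (hl : (l.map Prod.fst).Nodup) (k : ℕ) :
    ((l.take k).map Prod.fst).Nodup := by
  rw [List.map_take]
  exact hl.sublist (List.take_sublist _ _)

theorem Base_nodup_drop {l : List (ι × Bool)} (hl : (l.map Prod.fst).Nodup) (k : ℕ) :
    ((l.drop k).map Prod.fst).Nodup := by
  rw [List.map_drop]
  exact hl.sublist (List.drop_sublist _ _)

theorem Base_SA {ℓ : ι → ℝ} (hpos : ∀ i, 0 < ℓ i) {r : ℝ}
    (hr : ∀ T : Finset ι, T ≠ ∅ → r ≤ slen ℓ T) (a : Bool) {l : List (ι × Bool)}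
    (hl : (l.map Prod.fst).Nodup) : SA ℓ a l r := by
  rw [SA_iff hpos]
  intro k _ h1 h2 _
  exact absurd (Base_far hr (Base_nodup_take hl k) h2.1) (not_le.mpr h1)

theorem Base_EA {ℓ : ι → ℝ} (hpos : ∀ i, 0 < ℓ i) {r : ℝ}
    (hr : ∀ T : Finset ι, T ≠ ∅ → r ≤ slen ℓ T) (a : Bool) {l : List (ι × Bool)}
    (hl : (l.map Prod.fst).Nodup) : EA ℓ a l r := by
  rw [EA_iff hpos]
  intro k _ h1 h2 _
  exact absurd (Base_far hr (Base_nodup_drop hl k) h2.1) (not_le.mpr h1)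

theorem psi_base {ℓ : ι → ℝ} (hpos : ∀ i, 0 < ℓ i) {r : ℝ}
    (hr : ∀ T : Finset ι, T ≠ ∅ → r ≤ slen ℓ T) (t : ℝ) (a : Bool) (S : Finset ι) :
    psi ℓ r t a S = v t a * (S.card.factorial : ℝ) := by
  have h1 := sum_cord_colours S fun cs => pw t a cs * v t (ecol a cs)
  rw [sum_pw_v] at h1
  rw [mul_comm, ← h1]
  unfold psi
  refine Finset.sum_congr rfl fun l hl => ?_
  rw [Base_ind_true (Base_SA hpos hr a (mem_cord.mp hl).1), mul_one]

theorem Pm_empty (ℓ : ι → ℝ) (r t : ℝ) (a b : Bool) :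
    Pm ℓ r t a b ∅ = if a = b then 1 else 0 := by
  unfold Pm
  rw [cord_empty, Finset.sum_singleton]
  show (1 : ℝ) * ind (a = b ∧ SA ℓ a [] r ∧ EA ℓ a [] r) = _
  rw [one_mul]
  by_cases h : a = b
  · rw [if_pos h, Base_ind_true ⟨h, aliveL_nil ℓ a r, aliveL_nil ℓ a r⟩]
  · rw [if_neg h, Base_ind_false fun h1 => h h1.1]

theorem psi_empty (ℓ : ι → ℝ) (r t : ℝ) (a : Bool) : psi ℓ r t a ∅ = v t a := by
  unfold psi
  rw [cord_empty, Finset.sum_singleton]
  show (1 : ℝ) * v t a * ind (SA ℓ a [] r) = _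
  rw [Base_ind_true (p := SA ℓ a [] r) (aliveL_nil ℓ a r), one_mul, mul_one]

theorem Pm_base {ℓ : ι → ℝ} (hpos : ∀ i, 0 < ℓ i) {r : ℝ}
    (hr : ∀ T : Finset ι, T ≠ ∅ → r ≤ slen ℓ T) (t : ℝ) (a b : Bool) (S : Finset ι) :
    Pm ℓ r t a b S = if S = ∅ then (if a = b then 1 else 0)
      else v t a * v t b * (S.card.factorial : ℝ) := by
  by_cases hS : S = ∅
  · subst hS
    rw [if_pos rfl, Pm_empty]
  · have h1 := sum_cord_colours S fun cs => pw t a cs * ind (ecol a cs = b)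
    rw [sum_pw_ind t a b fun h => hS (Finset.card_eq_zero.mp h)] at h1
    rw [if_neg hS, mul_comm (v t a * v t b), ← h1]
    unfold Pm
    refine Finset.sum_congr rfl fun l hl => ?_
    congr 2
    apply propext
    exact ⟨fun h => h.1, fun h => ⟨h, Base_SA hpos hr a (mem_cord.mp hl).1,
      Base_EA hpos hr a (mem_cord.mp hl).1⟩⟩

theorem processed {ℓ : ι → ℝ} (hpos : ∀ i, 0 < ℓ i) {r : ℝ} {S : Finset ι} (hS : S ≠ ∅)
    (hr : slen ℓ S < r) (t : ℝ) {a b : Bool} (hc : Compat a b) : Pm ℓ r t a b S = 0 := by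
  unfold Pm
  refine Finset.sum_eq_zero fun l hl => ?_
  rw [Base_ind_false, mul_zero]
  rintro ⟨h1, h2, h3⟩
  have hne : l ≠ [] := by
    rintro rfl
    exact hS (Finset.card_eq_zero.mp (length_of_mem_cord hl).symm)
  have h4 := SA_EA_far hpos hne (by rw [h1]; exact hc) h2 h3
  rw [slen_of_mem_cord ℓ hl] at h4
  exact absurd h4 (not_le.mpr hr)

theorem psi_nonneg {t : ℝ} (ht : t ∈ Set.Icc 0 (Real.pi / 2)) (ℓ : ι → ℝ) (r : ℝ) (a : Bool)
    (S : Finset ι) : 0 ≤ psi ℓ r t a S :=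
  Finset.sum_nonneg fun _ _ => mul_nonneg (mul_nonneg (pw_nonneg ht a _) (v_nonneg ht _))
    (Base_ind_nonneg _)

theorem Pm_nonneg {t : ℝ} (ht : t ∈ Set.Icc 0 (Real.pi / 2)) (ℓ : ι → ℝ) (r : ℝ) (a b : Bool)
    (S : Finset ι) : 0 ≤ Pm ℓ r t a b S :=
  Finset.sum_nonneg fun _ _ => mul_nonneg (pw_nonneg ht a _) (Base_ind_nonneg _)

theorem mk_nonneg {t : ℝ} (ht : t ∈ Set.Icc 0 (Real.pi / 2)) (ℓ : ι → ℝ) (a b : Bool)
    (T : Finset ι) : 0 ≤ mk ℓ t a b T :=
  mul_nonneg (Base_ind_nonneg _) (Pm_nonneg ht ℓ _ a b T)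

theorem mr_nonneg {t : ℝ} (ht : t ∈ Set.Icc 0 (Real.pi / 2)) (ℓ : ι → ℝ) (r : ℝ)
    (S : Finset ι) : 0 ≤ mr ℓ r t S :=
  mul_nonneg (Base_ind_nonneg _) (mk_nonneg ht ℓ _ _ S)

theorem mr_mono {t : ℝ} (ht : t ∈ Set.Icc 0 (Real.pi / 2)) (ℓ : ι → ℝ) {r r' : ℝ} (h : r ≤ r')
    (S : Finset ι) : mr ℓ r t S ≤ mr ℓ r' t S :=
  mul_le_mul_of_nonneg_right (Base_ind_mono fun h1 => h1.trans_le h) (mk_nonneg ht ℓ _ _ S)

theorem continuous_psi (ℓ : ι → ℝ) (r : ℝ) (a : Bool) (S : Finset ι) :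
    Continuous fun t => psi ℓ r t a S := by
  unfold psi
  exact continuous_finsetSum _ fun l _ =>
    ((continuous_pw a _).mul (continuous_v _)).mul continuous_const

theorem continuous_Pm (ℓ : ι → ℝ) (r : ℝ) (a b : Bool) (S : Finset ι) :
    Continuous fun t => Pm ℓ r t a b S := by
  unfold Pm
  exact continuous_finsetSum _ fun l _ => (continuous_pw a _).mul continuous_const

theorem continuous_mr (ℓ : ι → ℝ) (r : ℝ) (S : Finset ι) :
    Continuous fun t => mr ℓ r t S := by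
  unfold mr mk
  exact continuous_const.mul (continuous_const.mul (continuous_Pm ℓ _ _ _ S))

end FB
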