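import Pool.Agent.Lib.MP_fb152f_pr.Segs
import Pool.Agent.Lib.MP_fb152f_pr.Weights
import Pool.Agent.Lib.MP_fb152f_pr.Base

/-!
# Loss: the loss of blue points between two levels (60 minutes)

For `r ≤ r'`, `t ∈ [0, π/2]`: `psi_B(r) - psi_B(r') ≤ (mr r' - mr r) * psi_R(r)` coefficientwise.
Pointwise for `l ∈ cord S` (start blue): if `SA l r` and not `SA l r'` then (`SA_iff` for `r'`)
there is `k ≤ l.length` with `d = llen (l.take k) < r'`, `Blk (l.take k)` and `SA (l.drop k) d`,
and (`SA_iff` for `r`) `r ≤ d`; the colour of `k` is red (start blue, compatible), and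
`SA_anti` gives `SA (l.drop k) r`.  So
`ind (SA l r) - ind (SA l r') ≤ ∑_k ind (ecol true (l.take k) = false ∧ r ≤ llen (l.take k) < r' ∧
 Blk true (l.take k)) * ind (SA false (l.drop k) r)`.
Multiply by the weight (`pw_append`), sum over `cord S`, `cut_lemma`, and
`mr r' A - mr r A = ∑_{l1 ∈ cord A} pw t true (l1) * ind (...)` (`llen = slen` on `cord A`; for
`A = ∅` both sides are 0).
-/

set_option autoImplicit false

namespace FB

variable {ι : Type*} [DecidableEq ι]

theorem Loss_ind_nonneg (p : Prop) : 0 ≤ ind p := by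
  unfold ind
  split_ifs <;> norm_num

theorem Loss_ind_of {p : Prop} (h : p) : ind p = 1 := by
  unfold ind
  rw [if_pos h]

theorem Loss_ind_not {p : Prop} (h : ¬ p) : ind p = 0 := by
  unfold ind
  rw [if_neg h]

/-- the weight of the first block -/
noncomputable def Loss_g (ℓ : ι → ℝ) (r r' t : ℝ) (l1 : List (ι × Bool)) : ℝ :=
  pw t true (l1.map Prod.snd) * ind (ecol true (l1.map Prod.snd) = false ∧ r ≤ llen ℓ l1 ∧
    llen ℓ l1 < r' ∧ Blk ℓ true l1)

theorem Loss_mr {ℓ : ι → ℝ} {r r' : ℝ} (h : r ≤ r') (t : ℝ) (A : Finset ι) :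
    (mr ℓ r' t - mr ℓ r t) A = ∑ l1 ∈ cord A, Loss_g ℓ r r' t l1 := by
  rw [SF.sub_apply]
  unfold mr mk Pm
  rw [← sub_mul, Finset.mul_sum, Finset.mul_sum]
  refine Finset.sum_congr rfl fun l hl => ?_
  have hlen : llen ℓ l = slen ℓ A := slen_of_mem_cord ℓ hl
  have hA : A ≠ ∅ ↔ l ≠ [] := by
    rw [← (mem_cord.mp hl).2, Ne, Ne, List.toFinset_eq_empty_iff, List.map_eq_nil_iff]
  unfold Loss_g Blk
  rw [hlen]
  by_cases h1 : slen ℓ A < r
  · have h2 : slen ℓ A < r' := h1.trans_le h
    rw [Loss_ind_of h1, Loss_ind_of h2, sub_self, zero_mul,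
      Loss_ind_not (fun hh => not_le.2 h1 hh.2.1), mul_zero]
  · rw [Loss_ind_not h1, sub_zero]
    have h1' : r ≤ slen ℓ A := not_lt.1 h1
    by_cases h2 : slen ℓ A < r'
    · rw [Loss_ind_of h2, one_mul]
      by_cases h3 : ecol true (l.map Prod.snd) = false
      · have hc : Compat true false := fun hh => Bool.noConfusion hh.2
        by_cases h4 : A ≠ ∅
        · rw [Loss_ind_of ⟨h4, hc⟩, one_mul]
          congr 1
          rw [h3]
          by_cases h5 : SA ℓ true l (slen ℓ A) ∧ EA ℓ true l (slen ℓ A)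
          · rw [Loss_ind_of ⟨rfl, h5.1, h5.2⟩, Loss_ind_of ⟨rfl, h1', h2, hA.1 h4, hc, h5.1, h5.2⟩]
          · rw [Loss_ind_not (fun hh => h5 ⟨hh.2.1, hh.2.2⟩),
              Loss_ind_not (fun hh => h5 ⟨hh.2.2.2.2.2.1, hh.2.2.2.2.2.2⟩)]
        · rw [Loss_ind_not (fun hh => h4 hh.1), zero_mul,
            Loss_ind_not (fun hh => h4 (hA.2 hh.2.2.2.1)), mul_zero]
      · have e1 : ind (ecol true (l.map Prod.snd) = false ∧ SA ℓ true l (slen ℓ A) ∧
            EA ℓ true l (slen ℓ A)) = 0 := Loss_ind_not fun hh => h3 hh.1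
        rw [e1, mul_zero, mul_zero, Loss_ind_not (fun hh => h3 hh.1), mul_zero]
    · rw [Loss_ind_not h2, zero_mul, Loss_ind_not (fun hh => h2 hh.2.2.1), mul_zero]

omit [DecidableEq ι] in
theorem Loss_point {ℓ : ι → ℝ} (hpos : ∀ i, 0 < ℓ i) {r r' : ℝ} {t : ℝ}
    (ht : t ∈ Set.Icc 0 (Real.pi / 2)) (l : List (ι × Bool)) :
    pw t true (l.map Prod.snd) * v t (ecol true (l.map Prod.snd)) * ind (SA ℓ true l r) -
      pw t true (l.map Prod.snd) * v t (ecol true (l.map Prod.snd)) * ind (SA ℓ true l r') ≤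
    ∑ k ∈ Finset.range (l.length + 1), Loss_g ℓ r r' t (l.take k) *
      (pw t false ((l.drop k).map Prod.snd) * v t (ecol false ((l.drop k).map Prod.snd)) *
        ind (SA ℓ false (l.drop k) r)) := by
  have hterm : ∀ k ∈ Finset.range (l.length + 1), 0 ≤ Loss_g ℓ r r' t (l.take k) *
      (pw t false ((l.drop k).map Prod.snd) * v t (ecol false ((l.drop k).map Prod.snd)) *
        ind (SA ℓ false (l.drop k) r)) := by
    intro k _
    refine mul_nonneg (mul_nonneg (pw_nonneg ht _ _) (Loss_ind_nonneg _))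
      (mul_nonneg (mul_nonneg (pw_nonneg ht _ _) (v_nonneg ht _)) (Loss_ind_nonneg _))
  have hw : 0 ≤ pw t true (l.map Prod.snd) * v t (ecol true (l.map Prod.snd)) :=
    mul_nonneg (pw_nonneg ht _ _) (v_nonneg ht _)
  by_cases h1 : SA ℓ true l r
  · by_cases h2 : SA ℓ true l r'
    · rw [Loss_ind_of h1, Loss_ind_of h2, sub_self]
      exact Finset.sum_nonneg hterm
    · rw [Loss_ind_of h1, Loss_ind_not h2, mul_one, mul_zero, sub_zero]
      have h3 := h2
      rw [SA_iff hpos] at h3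
      push Not at h3
      obtain ⟨k, hk, hkr, hB, hS⟩ := h3
      have h4 : r ≤ llen ℓ (l.take k) := by
        by_contra hcon
        push Not at hcon
        exact (SA_iff hpos true l r).1 h1 k hk hcon hB hS
      have hcol : ecol true ((l.take k).map Prod.snd) = false := by
        have h5 := hB.2.1
        by_contra hcon
        rw [Bool.not_eq_false] at hcon
        exact h5 ⟨rfl, hcon⟩
      rw [hcol] at hS
      have hS' : SA ℓ false (l.drop k) r := SA_anti h4 hS
      refine le_trans (le_of_eq ?_) (Finset.single_le_sum hterm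
        (Finset.mem_range.2 (Nat.lt_succ_iff.2 hk)))
      unfold Loss_g
      rw [Loss_ind_of ⟨hcol, h4, hkr, hB⟩, Loss_ind_of hS', mul_one, mul_one]
      have e1 : l.map Prod.snd = (l.take k).map Prod.snd ++ (l.drop k).map Prod.snd := by
        rw [← List.map_append, List.take_append_drop]
      conv_lhs => rw [e1, pw_append, ecol_append, hcol]
      ring
  · rw [Loss_ind_not h1, mul_zero, zero_sub]
    have h3 : 0 ≤ pw t true (l.map Prod.snd) * v t (ecol true (l.map Prod.snd)) *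
        ind (SA ℓ true l r') := mul_nonneg hw (Loss_ind_nonneg _)
    have h4 := Finset.sum_nonneg hterm
    linarith

theorem loss {ℓ : ι → ℝ} (hpos : ∀ i, 0 < ℓ i) {r r' : ℝ} (h : r ≤ r') {t : ℝ}
    (ht : t ∈ Set.Icc 0 (Real.pi / 2)) (S : Finset ι) :
    psi ℓ r t true S - psi ℓ r' t true S ≤ ((mr ℓ r' t - mr ℓ r t) * psi ℓ r t false) S := by
  have e1 : ((mr ℓ r' t - mr ℓ r t) * psi ℓ r t false) S =
      ∑ l ∈ cord S, ∑ k ∈ Finset.range (l.length + 1), Loss_g ℓ r r' t (l.take k) *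
      (pw t false ((l.drop k).map Prod.snd) * v t (ecol false ((l.drop k).map Prod.snd)) *
        ind (SA ℓ false (l.drop k) r)) := by
    rw [cut_lemma S fun l1 l2 => Loss_g ℓ r r' t l1 *
      (pw t false (l2.map Prod.snd) * v t (ecol false (l2.map Prod.snd)) *
        ind (SA ℓ false l2 r)), SF.mul_apply]
    refine Finset.sum_congr rfl fun A _ => ?_
    rw [Loss_mr h, psi, Finset.sum_mul]
    refine Finset.sum_congr rfl fun l1 _ => ?_
    rw [Finset.mul_sum]
  rw [e1]
  unfold psi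
  rw [← Finset.sum_sub_distrib]
  exact Finset.sum_le_sum fun l _ => Loss_point hpos ht l

end FB
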