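import Pool.Agent.Lib.MP_fb152f_pr.AvSwap
import Pool.Agent.Lib.MP_fb152f_pr.GenAE
import Pool.Agent.Lib.MP_fb152f_pr.Ineq
import Pool.Agent.Lib.MP_fb152f_pr.Loss

/-!
# AvI1: the first averaged inequality and the loss inequality (50 minutes)

Take `ι = Fin n`, `S = univ` (`card = n`), integrate `ineq1` and `loss` over `expPi (Fin n)`
(`ae_generic`, `integral_mono_ae`, `swap_avg`) and divide by `n!` (`Av.mean` for `av_psi`,
`av_mr`, `Av.mul`, `Av.sub`; `coeff n (beS r t a) = be n r t a`).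
-/

set_option autoImplicit false

namespace FB

open MeasureTheory

theorem AvI1_mean (n : ℕ) {G : (Fin n → ℝ) → SF (Fin n)} {g : PowerSeries ℝ} (h : Av G g) :
    ∫ ℓ, G ℓ Finset.univ ∂(expPi (Fin n)) = (n.factorial : ℝ) * PowerSeries.coeff n g := by
  have h1 := h.mean Finset.univ
  rwa [Finset.card_univ, Fintype.card_fin] at h1

theorem AvI1_coeff (n : ℕ) (r t : ℝ) (a : Bool) :
    PowerSeries.coeff n (beS r t a) = be n r t a := by
  unfold beS
  exact PowerSeries.coeff_mk _ _

theorem be_ineq1 (n : ℕ) (r : ℝ) {t1 t2 : ℝ} (h0 : 0 ≤ t1) (h12 : t1 ≤ t2)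
    (h2 : t2 ≤ Real.pi / 2) :
    ∫ t in t1..t2, be n r t false ≤ be n r t2 true - be n r t1 true := by
  have hpos : (0 : ℝ) < n.factorial := Nat.cast_pos.mpr n.factorial_pos
  obtain ⟨hI, hS⟩ := swap_avg (ι := Fin n)
    (H := fun t ℓ => psi ℓ r t false Finset.univ)
    (fun ℓ => continuous_psi ℓ r false _) (fun t => (av_psi r t false).meas _)
    (by
      obtain ⟨C, hC⟩ := ub_psi (ι := Fin n) r false Finset.univ
      exact ⟨C, fun t ℓ => hC (ℓ, t)⟩) h12
  have hle : ∫ ℓ, (∫ t in t1..t2, psi ℓ r t false Finset.univ) ∂(expPi (Fin n)) ≤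
      ∫ ℓ, (psi ℓ r t2 true Finset.univ - psi ℓ r t1 true Finset.univ) ∂(expPi (Fin n)) := by
    refine integral_mono_ae hI (((av_psi r t2 true).integrable _).sub
      ((av_psi r t1 true).integrable _)) ?_
    filter_upwards [ae_generic (Fin n)] with ℓ hℓ
    exact ineq1 hℓ r h0 h12 h2 _
  have e1 : ∀ t, ∫ ℓ, psi ℓ r t false Finset.univ ∂(expPi (Fin n)) =
      (n.factorial : ℝ) * be n r t false := fun t => by
    rw [AvI1_mean n (av_psi r t false), AvI1_coeff]
  rw [hS, integral_sub ((av_psi r t2 true).integrable _) ((av_psi r t1 true).integrable _),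
    AvI1_mean n (av_psi r t2 true), AvI1_mean n (av_psi r t1 true), AvI1_coeff, AvI1_coeff] at hle
  simp only [e1] at hle
  rw [intervalIntegral.integral_const_mul, ← mul_sub] at hle
  exact le_of_mul_le_mul_left hle hpos

theorem be_loss (n : ℕ) {r r' : ℝ} (h : r ≤ r') {t : ℝ} (ht : t ∈ Set.Icc 0 (Real.pi / 2)) :
    be n r t true - be n r' t true ≤
      PowerSeries.coeff n ((muS r' t - muS r t) * beS r t false) := by
  have hpos : (0 : ℝ) < n.factorial := Nat.cast_pos.mpr n.factorial_pos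
  have hA : Av (fun ℓ : Fin n → ℝ => (mr ℓ r' t - mr ℓ r t) * psi ℓ r t false)
      ((muS r' t - muS r t) * beS r t false) :=
    ((av_mr r' t).sub (av_mr r t)).mul (av_psi r t false)
  have hle : ∫ ℓ, (psi ℓ r t true Finset.univ - psi ℓ r' t true Finset.univ) ∂(expPi (Fin n)) ≤
      ∫ ℓ, ((mr ℓ r' t - mr ℓ r t) * psi ℓ r t false) Finset.univ ∂(expPi (Fin n)) := by
    refine integral_mono_ae (((av_psi r t true).integrable _).sub
      ((av_psi r' t true).integrable _)) (hA.integrable _) ?_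
    filter_upwards [ae_generic (Fin n)] with ℓ hℓ
    exact loss hℓ.1 h ht _
  rw [integral_sub ((av_psi r t true).integrable _) ((av_psi r' t true).integrable _),
    AvI1_mean n (av_psi r t true), AvI1_mean n (av_psi r' t true), AvI1_coeff, AvI1_coeff,
    AvI1_mean n hA, ← mul_sub] at hle
  exact le_of_mul_le_mul_left hle hpos

end FB
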