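import Pool.Agent.Lib.MP_fb152f_pr.AvSwap
import Pool.Agent.Lib.MP_fb152f_pr.GenAE
import Pool.Agent.Lib.MP_fb152f_pr.Ineq

/-!
# AvI2: the second averaged inequality (75 minutes)

Take `ι = Fin n`, `S = univ` (`card = n`), integrate `ineq2` over `expPi (Fin n)`
(`ae_generic`, `integral_mono_ae`, `swap_avg` with the bounds `UB`, the continuity
`continuous_sf_mul`, `continuous_psi`, `continuous_mr`, the measurability `Av.meas`) and divide by
`n!` (`Av.mean` for the products: `av_psi`, `av_mr`, `Av.mul`, `Av.add`, `Av.sub`, `Av.one`,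
`Av.four`).
-/

set_option autoImplicit false

namespace FB

open MeasureTheory

theorem AvI2_mean (n : ℕ) {G : (Fin n → ℝ) → SF (Fin n)} {g : PowerSeries ℝ} (h : Av G g) :
    ∫ ℓ, G ℓ Finset.univ ∂(expPi (Fin n)) = (n.factorial : ℝ) * PowerSeries.coeff n g := by
  have h1 := h.mean Finset.univ
  rwa [Finset.card_univ, Fintype.card_fin] at h1

theorem be_ineq2 (n : ℕ) (r : ℝ) {t1 t2 : ℝ} (h0 : 0 ≤ t1) (h12 : t1 ≤ t2)
    (h2 : t2 ≤ Real.pi / 2) :
    ∫ t in t1..t2, PowerSeries.coeff n
        (4 * ((1 + muS r t * muS r t) * (beS r t true * beS r t false) +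
          muS r t * (beS r t true * beS r t true))) ≤
      PowerSeries.coeff n (beS r t2 true * beS r t2 true - beS r t2 false * beS r t2 false) -
      PowerSeries.coeff n (beS r t1 true * beS r t1 true - beS r t1 false * beS r t1 false) := by
  have hpos : (0 : ℝ) < n.factorial := Nat.cast_pos.mpr n.factorial_pos
  have hAv : ∀ t, Av (fun ℓ : Fin n → ℝ =>
      (4 * ((1 + mr ℓ r t * mr ℓ r t) * (psi ℓ r t true * psi ℓ r t false) +
        mr ℓ r t * (psi ℓ r t true * psi ℓ r t true)) : SF (Fin n)))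
      (4 * ((1 + muS r t * muS r t) * (beS r t true * beS r t false) +
          muS r t * (beS r t true * beS r t true))) := fun t =>
    Av.four.mul (((Av.one.add ((av_mr r t).mul (av_mr r t))).mul
      ((av_psi r t true).mul (av_psi r t false))).add
      ((av_mr r t).mul ((av_psi r t true).mul (av_psi r t true))))
  have hAvR : ∀ t, Av (fun ℓ : Fin n → ℝ =>
      (psi ℓ r t true * psi ℓ r t true - psi ℓ r t false * psi ℓ r t false : SF (Fin n)))
      (beS r t true * beS r t true - beS r t false * beS r t false) := fun t =>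
    ((av_psi r t true).mul (av_psi r t true)).sub ((av_psi r t false).mul (av_psi r t false))
  have hub : UB (fun k : (Fin n → ℝ) × ℝ =>
      (4 * ((1 + mr k.1 r k.2 * mr k.1 r k.2) * (psi k.1 r k.2 true * psi k.1 r k.2 false) +
        mr k.1 r k.2 * (psi k.1 r k.2 true * psi k.1 r k.2 true)) : SF (Fin n))) :=
    (UB.const 4).mul ((((UB.const 1).add ((ub_mr r).mul (ub_mr r))).mul
      ((ub_psi r true).mul (ub_psi r false))).add
      ((ub_mr r).mul ((ub_psi r true).mul (ub_psi r true))))
  have hcont : ∀ (ℓ : Fin n → ℝ) (S : Finset (Fin n)), Continuous fun t =>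
      (4 * ((1 + mr ℓ r t * mr ℓ r t) * (psi ℓ r t true * psi ℓ r t false) +
        mr ℓ r t * (psi ℓ r t true * psi ℓ r t true)) : SF (Fin n)) S := by
    intro ℓ
    have c1 : ∀ S, Continuous fun t => mr ℓ r t S := continuous_mr ℓ r
    have c2 : ∀ a S, Continuous fun t => psi ℓ r t a S := fun a S => continuous_psi ℓ r a S
    have c3 : ∀ S, Continuous fun t => (mr ℓ r t * mr ℓ r t) S := continuous_sf_mul c1 c1
    have c4 : ∀ S, Continuous fun t => (1 + mr ℓ r t * mr ℓ r t) S := fun S => by
      simp only [SF.add_apply]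
      exact continuous_const.add (c3 S)
    have c5 := continuous_sf_mul c4 (continuous_sf_mul (c2 true) (c2 false))
    have c6 := continuous_sf_mul c1 (continuous_sf_mul (c2 true) (c2 true))
    refine continuous_sf_mul (fun S => continuous_const) ?_
    intro S
    simp only [SF.add_apply]
    exact (c5 S).add (c6 S)
  obtain ⟨hI, hS⟩ := swap_avg (ι := Fin n)
    (H := fun t ℓ => (4 * ((1 + mr ℓ r t * mr ℓ r t) * (psi ℓ r t true * psi ℓ r t false) +
        mr ℓ r t * (psi ℓ r t true * psi ℓ r t true)) : SF (Fin n)) Finset.univ)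
    (fun ℓ => hcont ℓ _) (fun t => (hAv t).meas _)
    (by
      obtain ⟨C, hC⟩ := hub Finset.univ
      exact ⟨C, fun t ℓ => hC (ℓ, t)⟩) h12
  have hle : ∫ ℓ, (∫ t in t1..t2, (4 * ((1 + mr ℓ r t * mr ℓ r t) *
        (psi ℓ r t true * psi ℓ r t false) +
        mr ℓ r t * (psi ℓ r t true * psi ℓ r t true)) : SF (Fin n)) Finset.univ)
        ∂(expPi (Fin n)) ≤
      ∫ ℓ, ((psi ℓ r t2 true * psi ℓ r t2 true - psi ℓ r t2 false * psi ℓ r t2 false :
          SF (Fin n)) Finset.univ -
        (psi ℓ r t1 true * psi ℓ r t1 true - psi ℓ r t1 false * psi ℓ r t1 false :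
          SF (Fin n)) Finset.univ) ∂(expPi (Fin n)) := by
    refine integral_mono_ae hI (((hAvR t2).integrable _).sub ((hAvR t1).integrable _)) ?_
    filter_upwards [ae_generic (Fin n)] with ℓ hℓ
    exact ineq2 hℓ r h0 h12 h2 _
  rw [hS, integral_sub ((hAvR t2).integrable _) ((hAvR t1).integrable _),
    AvI2_mean n (hAvR t2), AvI2_mean n (hAvR t1)] at hle
  have e1 : ∀ t, ∫ ℓ, (4 * ((1 + mr ℓ r t * mr ℓ r t) *
        (psi ℓ r t true * psi ℓ r t false) +
        mr ℓ r t * (psi ℓ r t true * psi ℓ r t true)) : SF (Fin n)) Finset.univ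
        ∂(expPi (Fin n)) =
      (n.factorial : ℝ) * PowerSeries.coeff n
        (4 * ((1 + muS r t * muS r t) * (beS r t true * beS r t false) +
          muS r t * (beS r t true * beS r t true))) := fun t => AvI2_mean n (hAv t)
  simp only [e1] at hle
  rw [intervalIntegral.integral_const_mul, ← mul_sub] at hle
  exact le_of_mul_le_mul_left hle hpos

end FB
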