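import Pool.Agent.Lib.MP_fb152f_pr.EvoDefs

/-!
# Constr: the constraints on processed sets (60 minutes, pure algebra)

`D` = predicate on finite sets, closed under subsets (the processed sets).  On `D`:
`P12 = 0`, `P22 = 1_∅`, for all `t`, and `P11 = 1 + K P11` at the given `t`.
For `S ∈ D` all `A ⊆ S` are in `D`, so products can be computed on `D` (in
`(f * g) S = ∑_{A ⊆ S} f A * g (S \ A)` only values on `D` occur).
(1) `t ↦ (P22 t) S` is constant, so its derivative `(2 w3 P12 + w4 (2 P22 - 1)) S = w4 S` is 0.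
(2) `t ↦ (2 P12 t) S` is constant, so
`0 = (2 w1 P12 + w2 (2 P22 - 1) + (2 P11 - 1) w3 + 2 P12 w4) S = (w2 + (2 P11 - 1) w3) S`.
Put `2 α = w2 - w3`, `2 σ = w2 + w3`.  On `D`: `w2 + (2 P11 - 1) w3 = 2 P11 σ - 2 (P11 - 1) α`, and
`P11 - 1 = K P11`, so `P11 (2 σ - 2 K α) = 0` on `D`.  As `P11 ∅ = 1` (from `P11 = 1 + K P11` and
`K ∅ = 0`), strong induction on `S` gives `2 σ = 2 K α` on `D`.
So on `D`: `w2 + w3 = K (w2 - w3)`, which is `≥ 0` if `K ≥ 0` and `w2 - w3 ≥ 0`.
-/

set_option autoImplicit false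

namespace FB

variable {ι : Type*} [DecidableEq ι]

/-- equality on `D` -/
def Constr_EqOn (D : Finset ι → Prop) (f g : SF ι) : Prop := ∀ S, D S → f S = g S

theorem Constr_mul {D : Finset ι → Prop} (hD : ∀ S A : Finset ι, D S → A ⊆ S → D A)
    {f f' g g' : SF ι} (hf : Constr_EqOn D f f') (hg : Constr_EqOn D g g') :
    Constr_EqOn D (f * g) (f' * g') := by
  intro S hS
  rw [SF.mul_apply, SF.mul_apply]
  refine Finset.sum_congr rfl fun A hA => ?_
  rw [hf A (hD S A hS (Finset.mem_powerset.mp hA)), hg (S \ A) (hD S _ hS Finset.sdiff_subset)]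

theorem Constr_add {D : Finset ι → Prop} {f f' g g' : SF ι} (hf : Constr_EqOn D f f')
    (hg : Constr_EqOn D g g') : Constr_EqOn D (f + g) (f' + g') := by
  intro S hS
  rw [SF.add_apply, SF.add_apply, hf S hS, hg S hS]

theorem Constr_sub {D : Finset ι → Prop} {f f' g g' : SF ι} (hf : Constr_EqOn D f f')
    (hg : Constr_EqOn D g g') : Constr_EqOn D (f - g) (f' - g') := by
  intro S hS
  rw [SF.sub_apply, SF.sub_apply, hf S hS, hg S hS]

theorem Constr_rfl {D : Finset ι → Prop} (f : SF ι) : Constr_EqOn D f f := fun _ _ => rfl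

/-- the derivative of a constant is zero -/
theorem Constr_const {f : ℝ → SF ι} {f' : SF ι} {t : ℝ} (h : HD f f' t) {S : Finset ι} {a : ℝ}
    (hf : ∀ t, f t S = a) : f' S = 0 := by
  have h1 : HasDerivAt (fun t => f t S) (f' S) t := h S
  have h2 : (fun t => f t S) = fun _ => a := funext hf
  rw [h2] at h1
  exact h1.unique (hasDerivAt_const t a)

theorem constr_w4 {P11 P12 P22 s1 s2 w1 w2 w3 w4 : ℝ → SF ι}
    (h : EqState P11 P12 P22 s1 s2 w1 w2 w3 w4) {D : Finset ι → Prop}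
    (hD : ∀ S A : Finset ι, D S → A ⊆ S → D A)
    (h12 : ∀ t, ∀ S, D S → P12 t S = 0) (h22 : ∀ t, ∀ S, D S → P22 t S = (1 : SF ι) S)
    (t : ℝ) {S : Finset ι} (hS : D S) : w4 t S = 0 := by
  have h1 := Constr_const (h.d22 t) (S := S) (a := (1 : SF ι) S) fun t => h22 t S hS
  have e12 : Constr_EqOn D (P12 t) 0 := h12 t
  have e22 : Constr_EqOn D (P22 t) 1 := h22 t
  have h2 : Constr_EqOn D (2 * (w3 t * P12 t) + w4 t * (2 * P22 t - 1))
      (2 * (w3 t * 0) + w4 t * (2 * 1 - 1)) :=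
    Constr_add (Constr_mul hD (Constr_rfl _) (Constr_mul hD (Constr_rfl _) e12))
      (Constr_mul hD (Constr_rfl _) (Constr_sub (Constr_mul hD (Constr_rfl _) e22) (Constr_rfl _)))
  have h3 := h2 S hS
  have h4 : (2 * (w3 t * 0) + w4 t * (2 * 1 - 1) : SF ι) = w4 t := by ring
  rw [h4] at h3
  rw [← h3]
  exact h1

theorem constr_sigma {P11 P12 P22 s1 s2 w1 w2 w3 w4 : ℝ → SF ι}
    (h : EqState P11 P12 P22 s1 s2 w1 w2 w3 w4) {D : Finset ι → Prop}
    (hD : ∀ S A : Finset ι, D S → A ⊆ S → D A)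
    (h12 : ∀ t, ∀ S, D S → P12 t S = 0) (h22 : ∀ t, ∀ S, D S → P22 t S = (1 : SF ι) S)
    (t : ℝ) {K : SF ι} (hK : ∀ S, 0 ≤ K S) (hK0 : K ∅ = 0)
    (h11 : ∀ S, D S → P11 t S = (1 : SF ι) S + (K * P11 t) S)
    (hα : ∀ S, D S → 0 ≤ (w2 t - w3 t) S) {S : Finset ι} (hS : D S) :
    0 ≤ (w2 t + w3 t) S := by
  have e12 : Constr_EqOn D (P12 t) 0 := h12 t
  have e22 : Constr_EqOn D (P22 t) 1 := h22 t
  have e11 : Constr_EqOn D (P11 t) (1 + K * P11 t) := fun S hS => h11 S hS
  -- the second constraint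
  have h1 : Constr_EqOn D (w2 t + (2 * P11 t - 1) * w3 t) 0 := by
    intro S hS
    have h2 := Constr_const (h.d12 t) (S := S) (a := 0) fun t => by
      have h6 : Constr_EqOn D (P12 t) (0 : SF ι) := h12 t
      have h3 : Constr_EqOn D (2 * P12 t) (2 * 0) := Constr_mul hD (Constr_rfl (2 : SF ι)) h6
      have h7 := h3 S hS
      rw [mul_zero] at h7
      exact h7
    have h3 : Constr_EqOn D (2 * (w1 t * P12 t) + w2 t * (2 * P22 t - 1) +
        (2 * P11 t - 1) * w3 t + 2 * (P12 t * w4 t))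
        (2 * (w1 t * 0) + w2 t * (2 * 1 - 1) + (2 * P11 t - 1) * w3 t + 2 * (0 * w4 t)) :=
      Constr_add (Constr_add (Constr_add
        (Constr_mul hD (Constr_rfl _) (Constr_mul hD (Constr_rfl _) e12))
        (Constr_mul hD (Constr_rfl _)
          (Constr_sub (Constr_mul hD (Constr_rfl _) e22) (Constr_rfl _)))) (Constr_rfl _))
        (Constr_mul hD (Constr_rfl _) (Constr_mul hD e12 (Constr_rfl _)))
    have h4 := h3 S hS
    have h5 : (2 * (w1 t * 0) + w2 t * (2 * 1 - 1) + (2 * P11 t - 1) * w3 t +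
        2 * (0 * w4 t) : SF ι) = w2 t + (2 * P11 t - 1) * w3 t := by ring
    rw [h5] at h4
    rw [← h4, h2]
    rfl
  have h2 : Constr_EqOn D (P11 t * ((w2 t + w3 t) - K * (w2 t - w3 t))) 0 := by
    have h3 : w2 t + (2 * P11 t - 1) * w3 t =
        P11 t * (w2 t + w3 t) + (1 - P11 t) * (w2 t - w3 t) := by ring
    have h4 : P11 t * ((w2 t + w3 t) - K * (w2 t - w3 t)) =
        P11 t * (w2 t + w3 t) + (1 - (1 + K * P11 t)) * (w2 t - w3 t) := by ring
    intro S hS
    have h5 : Constr_EqOn D (P11 t * (w2 t + w3 t) + (1 - P11 t) * (w2 t - w3 t))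
        (P11 t * (w2 t + w3 t) + (1 - (1 + K * P11 t)) * (w2 t - w3 t)) :=
      Constr_add (Constr_rfl _) (Constr_mul hD (Constr_sub (Constr_rfl _) e11) (Constr_rfl _))
    rw [h4, ← h5 S hS, ← h3]
    exact h1 S hS
  have h0 : P11 t ∅ = 1 := by
    have h3 := h11 ∅ (hD S ∅ hS (Finset.empty_subset _))
    rw [h3, SF.mul_apply, Finset.powerset_empty, Finset.sum_singleton, hK0, zero_mul, add_zero,
      SF.one_apply, if_pos rfl]
  have h3 : ∀ n : ℕ, ∀ S : Finset ι, S.card = n → D S →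
      ((w2 t + w3 t) - K * (w2 t - w3 t)) S = 0 := by
    intro n
    induction n using Nat.strong_induction_on with
    | _ n ih =>
      intro S hn hS
      have h4 : (P11 t * ((w2 t + w3 t) - K * (w2 t - w3 t))) S = 0 := h2 S hS
      rw [SF.mul_apply, Finset.sum_eq_single ∅] at h4
      · rw [h0, one_mul, Finset.sdiff_empty] at h4
        exact h4
      · intro A hA hne
        have hA' := Finset.mem_powerset.mp hA
        have hc : (S \ A).card < n := by
          rw [← hn]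
          apply Finset.card_lt_card
          rw [Finset.ssubset_iff_subset_ne]
          refine ⟨Finset.sdiff_subset, fun hcon => ?_⟩
          obtain ⟨a, ha⟩ := Finset.nonempty_iff_ne_empty.mpr hne
          have h5 : a ∈ S \ A := by rw [hcon]; exact hA' ha
          exact (Finset.mem_sdiff.mp h5).2 ha
        rw [ih _ hc (S \ A) rfl (hD S _ hS Finset.sdiff_subset), mul_zero]
      · intro h5
        exact absurd (Finset.empty_mem_powerset S) h5
  have h4 := h3 _ S rfl hS
  rw [SF.sub_apply, sub_eq_zero] at h4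
  rw [h4, SF.mul_apply]
  refine Finset.sum_nonneg fun A hA => mul_nonneg (hK A) ?_
  exact hα _ (hD S _ hS Finset.sdiff_subset)

end FB
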