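import Pool.Agent.Lib.MP_fb152f_pr.Point
import Pool.Agent.Lib.MP_fb152f_pr.Weights
import Pool.Agent.Lib.MP_fb152f_pr.Zz

/-!
# Cross: the crossing rules (90 minutes)

`mk_eq`: `mk ℓ t a b T = ∑_{l ∈ cord T} pw t a (l.map snd) * ind (ecol a (l.map snd) = b ∧
Blk ℓ a l)` for `T ≠ ∅` (definition of `mk`, `Pm`; `llen ℓ l = slen ℓ T` for `l ∈ cord T`,
`l ≠ []` because `T ≠ ∅`; if the colour `b` is the end colour then `Compat a b` is the condition in
`Blk`).

`cross_psi`: evaluate at `S`, use `point_SA` for every `l ∈ cord S` (`mem_cord` gives the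
distinct labels), `cut_first` for the sum over the cuts (the weight `pw t a (l.map snd)` is
`pw t a cs1 * pw t (ecol a cs1) cs2`, `pw_append`, `ecol_append`), split the sum over `l1 ∈ cord T`
according to the colour `c = ecol a (l1.map snd)`; `(zz T * f) S = if T ⊆ S then f (S \ T) else 0`
(`zz_mul_apply`).

`cross_Pm`: the same with `point_PP`, `cut_first` and `cut_last`; the last term is
`mk ℓ t a b T` at `S = T`.
-/

set_option autoImplicit false
set_option linter.unusedSectionVars false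

namespace FB

variable {ι : Type*} [DecidableEq ι]

theorem Cross_ind_true {p : Prop} (h : p) : ind p = 1 := by
  unfold ind
  exact if_pos h

theorem Cross_ind_false {p : Prop} (h : ¬ p) : ind p = 0 := by
  unfold ind
  exact if_neg h

theorem Cross_ind_and (p q : Prop) : ind (p ∧ q) = ind p * ind q := by
  by_cases hp : p
  · by_cases hq : q
    · rw [Cross_ind_true ⟨hp, hq⟩, Cross_ind_true hp, Cross_ind_true hq, one_mul]
    · rw [Cross_ind_false (fun h => hq h.2), Cross_ind_false hq, mul_zero]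
  · rw [Cross_ind_false (fun h => hp h.1), Cross_ind_false hp, zero_mul]

theorem Cross_split (c : Bool) (g : Bool → ℝ) :
    g c = ind (c = true) * g true + ind (c = false) * g false := by
  cases c
  · rw [Cross_ind_false (p := false = true) (by decide), Cross_ind_true rfl]
    ring
  · rw [Cross_ind_false (p := true = false) (by decide), Cross_ind_true rfl]
    ring

theorem Cross_ecol_append (a : Bool) (cs ds : List Bool) :
    ecol a (cs ++ ds) = ecol (ecol a cs) ds := by
  induction cs generalizing a with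
  | nil => rfl
  | cons b cs ih => exact ih b

theorem Cross_blk (ℓ : ι → ℝ) (a : Bool) {T : Finset ι} (hT : T ≠ ∅) {l : List (ι × Bool)}
    (hl : l ∈ cord T) : Blk ℓ a l ↔ Compat a (ecol a (l.map Prod.snd)) ∧
      SA ℓ a l (slen ℓ T) ∧ EA ℓ a l (slen ℓ T) := by
  unfold Blk
  rw [slen_of_mem_cord ℓ hl]
  constructor
  · exact fun h => h.2
  · intro h
    refine ⟨?_, h⟩
    rintro rfl
    have h1 := length_of_mem_cord hl
    exact hT (Finset.card_eq_zero.mp h1.symm)

theorem mk_eq (ℓ : ι → ℝ) (t : ℝ) (a b : Bool) {T : Finset ι} (hT : T ≠ ∅) :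
    mk ℓ t a b T = ∑ l ∈ cord T, pw t a (l.map Prod.snd) *
      ind (ecol a (l.map Prod.snd) = b ∧ Blk ℓ a l) := by
  unfold mk Pm
  rw [Finset.mul_sum]
  refine Finset.sum_congr rfl fun l hl => ?_
  have h1 := Cross_blk ℓ a hT hl
  by_cases hb : ecol a (l.map Prod.snd) = b
  · by_cases hc : Compat a b
    · rw [Cross_ind_true ⟨hT, hc⟩, one_mul]
      congr 2
      apply propext
      rw [h1, hb]
      constructor
      · rintro ⟨h2, h3⟩
        exact ⟨h2, hc, h3⟩
      · rintro ⟨h2, -, h3⟩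
        exact ⟨h2, h3⟩
    · rw [Cross_ind_false (fun h => hc h.2), zero_mul, Cross_ind_false, mul_zero]
      rintro ⟨-, h2⟩
      rw [h1, hb] at h2
      exact hc h2.1
  · rw [Cross_ind_and (_ = b), Cross_ind_and (_ = b), Cross_ind_false hb]
    ring

/-- sum over the block, split according to the colour of its end -/
theorem Cross_block (ℓ : ι → ℝ) (t : ℝ) (a : Bool) {T : Finset ι} (hT : T ≠ ∅) (g : Bool → ℝ) :
    ∑ l ∈ cord T, pw t a (l.map Prod.snd) * ind (Blk ℓ a l) * g (ecol a (l.map Prod.snd)) =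
      mk ℓ t a true T * g true + mk ℓ t a false T * g false := by
  rw [mk_eq ℓ t a true hT, mk_eq ℓ t a false hT, Finset.sum_mul, Finset.sum_mul,
    ← Finset.sum_add_distrib]
  refine Finset.sum_congr rfl fun l _ => ?_
  rw [Cross_ind_and, Cross_ind_and, Cross_split (ecol a (l.map Prod.snd)) g]
  ring

theorem cross_psi {ℓ : ι → ℝ} (hℓ : Generic ℓ) {T : Finset ι} (hT : T ≠ ∅) {r : ℝ}
    (hr : slen ℓ T < r) (hmax : ∀ T' : Finset ι, slen ℓ T' < r → T' = T ∨ slen ℓ T' < slen ℓ T)
    (t : ℝ) (a : Bool) :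
    psi ℓ r t a = psi ℓ (slen ℓ T) t a - zz T *
      (mk ℓ t a true T • psi ℓ (slen ℓ T) t true + mk ℓ t a false T • psi ℓ (slen ℓ T) t false) := by
  classical
  ext S
  rw [SF.sub_apply, zz_mul_apply, SF.add_apply, SF.smul_apply, SF.smul_apply]
  have key := cut_first S T fun l1 l2 =>
    pw t a (l1.map Prod.snd) * ind (Blk ℓ a l1) *
      (pw t (ecol a (l1.map Prod.snd)) (l2.map Prod.snd) *
        v t (ecol (ecol a (l1.map Prod.snd)) (l2.map Prod.snd)) *
        ind (SA ℓ (ecol a (l1.map Prod.snd)) l2 (slen ℓ T)))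
  have e1 : ∀ U : Finset ι, (∑ l1 ∈ cord T, ∑ l2 ∈ cord U,
      pw t a (l1.map Prod.snd) * ind (Blk ℓ a l1) *
      (pw t (ecol a (l1.map Prod.snd)) (l2.map Prod.snd) *
        v t (ecol (ecol a (l1.map Prod.snd)) (l2.map Prod.snd)) *
        ind (SA ℓ (ecol a (l1.map Prod.snd)) l2 (slen ℓ T)))) =
      mk ℓ t a true T * psi ℓ (slen ℓ T) t true U + mk ℓ t a false T * psi ℓ (slen ℓ T) t false U := by
    intro U
    rw [← Cross_block ℓ t a hT fun c => psi ℓ (slen ℓ T) t c U]
    refine Finset.sum_congr rfl fun l1 _ => ?_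
    unfold psi
    rw [Finset.mul_sum]
  rw [e1] at key
  rw [← key]
  unfold psi
  rw [← Finset.sum_sub_distrib]
  refine Finset.sum_congr rfl fun l hl => ?_
  rw [point_SA hℓ hT hr hmax a (mem_cord.mp hl).1, mul_sub, Finset.mul_sum]
  congr 1
  refine Finset.sum_congr rfl fun k _ => ?_
  split_ifs with h
  · have e2 : l.map Prod.snd = (l.take k).map Prod.snd ++ (l.drop k).map Prod.snd := by
      rw [← List.map_append, List.take_append_drop]
    rw [e2, pw_append, Cross_ecol_append]
    ring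
  · ring

theorem cross_Pm {ℓ : ι → ℝ} (hℓ : Generic ℓ) {T : Finset ι} (hT : T ≠ ∅) {r : ℝ}
    (hr : slen ℓ T < r) (hmax : ∀ T' : Finset ι, slen ℓ T' < r → T' = T ∨ slen ℓ T' < slen ℓ T)
    (t : ℝ) (a b : Bool) :
    Pm ℓ r t a b = Pm ℓ (slen ℓ T) t a b - zz T *
      ((mk ℓ t a true T • Pm ℓ (slen ℓ T) t true b +
        mk ℓ t a false T • Pm ℓ (slen ℓ T) t false b) +
       (mk ℓ t true b T • Pm ℓ (slen ℓ T) t a true +
        mk ℓ t false b T • Pm ℓ (slen ℓ T) t a false)) + mk ℓ t a b T • zz T := by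
  classical
  ext S
  rw [SF.add_apply, SF.sub_apply, zz_mul_apply, SF.add_apply, SF.add_apply, SF.add_apply,
    SF.smul_apply, SF.smul_apply, SF.smul_apply, SF.smul_apply, SF.smul_apply]
  have key := cut_first S T fun l1 l2 =>
    pw t a (l1.map Prod.snd) * ind (Blk ℓ a l1) *
      (pw t (ecol a (l1.map Prod.snd)) (l2.map Prod.snd) *
        ind (ecol (ecol a (l1.map Prod.snd)) (l2.map Prod.snd) = b ∧
          SA ℓ (ecol a (l1.map Prod.snd)) l2 (slen ℓ T) ∧
          EA ℓ (ecol a (l1.map Prod.snd)) l2 (slen ℓ T)))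
  have key2 := cut_last S T fun l1 l2 =>
    pw t a (l1.map Prod.snd) * ind (SA ℓ a l1 (slen ℓ T) ∧ EA ℓ a l1 (slen ℓ T)) *
      (pw t (ecol a (l1.map Prod.snd)) (l2.map Prod.snd) *
        ind (ecol (ecol a (l1.map Prod.snd)) (l2.map Prod.snd) = b ∧
          Blk ℓ (ecol a (l1.map Prod.snd)) l2))
  have e1 : ∀ U : Finset ι, (∑ l1 ∈ cord T, ∑ l2 ∈ cord U,
      pw t a (l1.map Prod.snd) * ind (Blk ℓ a l1) *
      (pw t (ecol a (l1.map Prod.snd)) (l2.map Prod.snd) *
        ind (ecol (ecol a (l1.map Prod.snd)) (l2.map Prod.snd) = b ∧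
          SA ℓ (ecol a (l1.map Prod.snd)) l2 (slen ℓ T) ∧
          EA ℓ (ecol a (l1.map Prod.snd)) l2 (slen ℓ T)))) =
      mk ℓ t a true T * Pm ℓ (slen ℓ T) t true b U +
        mk ℓ t a false T * Pm ℓ (slen ℓ T) t false b U := by
    intro U
    rw [← Cross_block ℓ t a hT fun c => Pm ℓ (slen ℓ T) t c b U]
    refine Finset.sum_congr rfl fun l1 _ => ?_
    unfold Pm
    rw [Finset.mul_sum]
  have e2 : ∀ U : Finset ι, (∑ l1 ∈ cord U, ∑ l2 ∈ cord T,
      pw t a (l1.map Prod.snd) * ind (SA ℓ a l1 (slen ℓ T) ∧ EA ℓ a l1 (slen ℓ T)) *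
      (pw t (ecol a (l1.map Prod.snd)) (l2.map Prod.snd) *
        ind (ecol (ecol a (l1.map Prod.snd)) (l2.map Prod.snd) = b ∧
          Blk ℓ (ecol a (l1.map Prod.snd)) l2))) =
      mk ℓ t true b T * Pm ℓ (slen ℓ T) t a true U +
        mk ℓ t false b T * Pm ℓ (slen ℓ T) t a false U := by
    intro U
    unfold Pm
    rw [Finset.mul_sum, Finset.mul_sum, ← Finset.sum_add_distrib]
    refine Finset.sum_congr rfl fun l1 _ => ?_
    rw [← Finset.mul_sum, ← mk_eq ℓ t (ecol a (l1.map Prod.snd)) b hT,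
      Cross_split (ecol a (l1.map Prod.snd)) fun c => mk ℓ t c b T, Cross_ind_and (_ = true),
      Cross_ind_and (_ = false)]
    ring
  rw [e1] at key
  rw [e2] at key2
  have e3 : (if T ⊆ S then
      (mk ℓ t a true T * Pm ℓ (slen ℓ T) t true b (S \ T) +
        mk ℓ t a false T * Pm ℓ (slen ℓ T) t false b (S \ T)) +
      (mk ℓ t true b T * Pm ℓ (slen ℓ T) t a true (S \ T) +
        mk ℓ t false b T * Pm ℓ (slen ℓ T) t a false (S \ T)) else 0) =
      (if T ⊆ S then mk ℓ t a true T * Pm ℓ (slen ℓ T) t true b (S \ T) +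
        mk ℓ t a false T * Pm ℓ (slen ℓ T) t false b (S \ T) else 0) +
      (if T ⊆ S then mk ℓ t true b T * Pm ℓ (slen ℓ T) t a true (S \ T) +
        mk ℓ t false b T * Pm ℓ (slen ℓ T) t a false (S \ T) else 0) := by
    split_ifs
    · rfl
    · ring
  have e4 : mk ℓ t a b T * (zz T : SF ι) S = ∑ l ∈ cord S, pw t a (l.map Prod.snd) *
      (ind (ecol a (l.map Prod.snd) = b) *
        (if (l.map Prod.fst).toFinset = T then ind (Blk ℓ a l) else 0)) := by
    by_cases hST : S = T
    · subst hST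
      have hz : (zz S : SF ι) S = 1 := if_pos rfl
      rw [hz, mul_one, mk_eq ℓ t a b hT]
      refine Finset.sum_congr rfl fun l hl => ?_
      rw [if_pos (mem_cord.mp hl).2, Cross_ind_and]
    · have hz : (zz T : SF ι) S = 0 := if_neg hST
      rw [hz, mul_zero]
      refine (Finset.sum_eq_zero fun l hl => ?_).symm
      rw [if_neg fun h => hST ((mem_cord.mp hl).2.symm.trans h)]
      ring
  rw [e3, ← key, ← key2, e4]
  unfold Pm
  rw [← Finset.sum_add_distrib, ← Finset.sum_sub_distrib, ← Finset.sum_add_distrib]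
  refine Finset.sum_congr rfl fun l hl => ?_
  have hs : ∀ k, l.map Prod.snd = (l.take k).map Prod.snd ++ (l.drop k).map Prod.snd := by
    intro k
    rw [← List.map_append, List.take_append_drop]
  have hp := point_PP hℓ hT hr hmax a (mem_cord.mp hl).1
  rw [Cross_ind_and (ecol a (l.map Prod.snd) = b), hp,
    Cross_ind_and (ecol a (l.map Prod.snd) = b)]
  have e5 : (∑ k ∈ Finset.range (l.length + 1),
      (if ((l.take k).map Prod.fst).toFinset = T then
        pw t a ((l.take k).map Prod.snd) * ind (Blk ℓ a (l.take k)) *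
        (pw t (ecol a ((l.take k).map Prod.snd)) ((l.drop k).map Prod.snd) *
        ind (ecol (ecol a ((l.take k).map Prod.snd)) ((l.drop k).map Prod.snd) = b ∧
          SA ℓ (ecol a ((l.take k).map Prod.snd)) (l.drop k) (slen ℓ T) ∧
          EA ℓ (ecol a ((l.take k).map Prod.snd)) (l.drop k) (slen ℓ T))) else 0)) =
      pw t a (l.map Prod.snd) * (ind (ecol a (l.map Prod.snd) = b) *
      ∑ k ∈ Finset.range (l.length + 1),
        (if ((l.take k).map Prod.fst).toFinset = T then
          ind (Blk ℓ a (l.take k)) *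
            ind (SA ℓ (ecol a ((l.take k).map Prod.snd)) (l.drop k) (slen ℓ T) ∧
              EA ℓ (ecol a ((l.take k).map Prod.snd)) (l.drop k) (slen ℓ T)) else 0)) := by
    rw [Finset.mul_sum, Finset.mul_sum]
    refine Finset.sum_congr rfl fun k _ => ?_
    split_ifs
    · rw [Cross_ind_and (_ = b), hs k, pw_append, Cross_ecol_append]
      ring
    · ring
  have e6 : (∑ k ∈ Finset.range (l.length + 1),
      (if ((l.drop k).map Prod.fst).toFinset = T then
        pw t a ((l.take k).map Prod.snd) *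
          ind (SA ℓ a (l.take k) (slen ℓ T) ∧ EA ℓ a (l.take k) (slen ℓ T)) *
        (pw t (ecol a ((l.take k).map Prod.snd)) ((l.drop k).map Prod.snd) *
        ind (ecol (ecol a ((l.take k).map Prod.snd)) ((l.drop k).map Prod.snd) = b ∧
          Blk ℓ (ecol a ((l.take k).map Prod.snd)) (l.drop k))) else 0)) =
      pw t a (l.map Prod.snd) * (ind (ecol a (l.map Prod.snd) = b) *
      ∑ k ∈ Finset.range (l.length + 1),
        (if ((l.drop k).map Prod.fst).toFinset = T then
          ind (SA ℓ a (l.take k) (slen ℓ T) ∧ EA ℓ a (l.take k) (slen ℓ T)) *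
            ind (Blk ℓ (ecol a ((l.take k).map Prod.snd)) (l.drop k)) else 0)) := by
    rw [Finset.mul_sum, Finset.mul_sum]
    refine Finset.sum_congr rfl fun k _ => ?_
    split_ifs
    · rw [Cross_ind_and (_ = b), hs k, pw_append, Cross_ecol_append]
      ring
    · ring
  rw [e5, e6]
  ring

end FB
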