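import Pool.Agent.Lib.MP_fb152f_pr.Segs
import Pool.Agent.Lib.MP_fb152f_pr.Weights
import Pool.Agent.Lib.MP_fb152f_pr.Zz

/-!
# Kay: decomposition of the blue-blue function at the first living point (75 minutes)

`kk ℓ r t S`: sum over `l ∈ cord S`, `l ≠ []`, of the weight of the configurations
`(true, l)` with blue end, both ends alive before `r` and no interior point alive before `r`.

`kay`: for `slen ℓ S < r`: `Pm BB S = [S = ∅] + (kk * Pm BB) S`.
Pointwise, for `l ∈ cord S`, `l ≠ []`:
`ind (ecol = true ∧ SA l ∧ EA l) = ∑_{k ≤ l.length} ind (KP (l.take k)) *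
  ind (ecol true (l.drop k) = true ∧ SA true (l.drop k) r ∧ EA true (l.drop k) r)`.
where `KP l1` : `l1 ≠ []`, end of `l1` blue, `SA l1 r`, `EA l1 r`, no interior point of `l1` alive
before `r`.
If the left side is 1, let `k ≥ 1` be the first point `≥ 1` which is alive before `r` (in `l`;
it exists because the end `l.length` is alive).  Its colour is blue: otherwise it is compatible
with the start and `alive_sep` gives `r ≤ lpos k ≤ slen ℓ S < r`.  By `lb_iff`: `EA (l.take k) r`,
`SA true (l.drop k) r`; by `lb_left` the points `j ≤ k` are alive in `l` iff they are alive in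
`l.take k`; by `lb_EA` the end is alive in `l.drop k`.  So the term `k` is 1.  Conversely if the term
`k` is 1 then (`lb_iff`, `lb_left`, `lb_EA`) the point `k` is alive in `l`, the start and the end
of `l` are alive in `l`, the interior points of `l.take k` are not alive in `l`: so the left side is
1 and `k` is the first living point, hence unique.
Then `cut_lemma`, `pw_append`, and `(kk * Pm BB) S = ∑_{A ⊆ S} kk A * Pm BB (S \ A)`.
-/

set_option autoImplicit false
set_option linter.unusedSectionVars false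

namespace FB

variable {ι : Type*} [DecidableEq ι]

/-- Both ends blue and alive before `r`, no interior point alive before `r`. -/
def KP (ℓ : ι → ℝ) (r : ℝ) (l : List (ι × Bool)) : Prop :=
  l ≠ [] ∧ ecol true (l.map Prod.snd) = true ∧ SA ℓ true l r ∧ EA ℓ true l r ∧
    ∀ k, 0 < k → k < l.length → ¬ aliveL ℓ true l r k

/-- First return function. -/
noncomputable def kk (ℓ : ι → ℝ) (r t : ℝ) : SF ι := fun S =>
  ∑ l ∈ cord S, pw t true (l.map Prod.snd) * ind (KP ℓ r l)

theorem Kay_ind_true {p : Prop} (h : p) : ind p = 1 := by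
  unfold ind
  exact if_pos h

theorem Kay_ind_false {p : Prop} (h : ¬ p) : ind p = 0 := by
  unfold ind
  exact if_neg h

theorem Kay_ind_nonneg (p : Prop) : 0 ≤ ind p := by
  by_cases h : p
  · rw [Kay_ind_true h]
    exact zero_le_one
  · rw [Kay_ind_false h]

theorem Kay_ind_and (p q : Prop) : ind p * ind q = ind (p ∧ q) := by
  by_cases hp : p
  · by_cases hq : q
    · rw [Kay_ind_true (p := p ∧ q) ⟨hp, hq⟩, Kay_ind_true hp, Kay_ind_true hq, one_mul]
    · rw [Kay_ind_false (p := p ∧ q) (fun h => hq h.2), Kay_ind_false hq, mul_zero]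
  · rw [Kay_ind_false (p := p ∧ q) (fun h => hp h.1), Kay_ind_false hp, zero_mul]

theorem kk_nonneg {t : ℝ} (ht : t ∈ Set.Icc 0 (Real.pi / 2)) (ℓ : ι → ℝ) (r : ℝ)
    (S : Finset ι) : 0 ≤ kk ℓ r t S :=
  Finset.sum_nonneg fun _ _ => mul_nonneg (pw_nonneg ht true _) (Kay_ind_nonneg _)

/-- The rest after the cut. -/
def KayQ (ℓ : ι → ℝ) (r : ℝ) (l : List (ι × Bool)) : Prop :=
  ecol true (l.map Prod.snd) = true ∧ SA ℓ true l r ∧ EA ℓ true l r

theorem Kay_first {ℓ : ι → ℝ} (hpos : ∀ i, 0 < ℓ i) {r : ℝ} {l : List (ι × Bool)}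
    (hr : llen ℓ l < r) {k : ℕ} (hk : k ≤ l.length) :
    (KP ℓ r (l.take k) ∧ KayQ ℓ r (l.drop k)) ↔
      (KayQ ℓ r l ∧ 0 < k ∧ aliveL ℓ true l r k ∧
        ∀ j, 0 < j → j < k → ¬ aliveL ℓ true l r j) := by
  have hlen : (l.take k).length = k := by
    rw [List.length_take, Nat.min_eq_left hk]
  have hecol : ecol true (l.map Prod.snd) =
      ecol (ecol true ((l.take k).map Prod.snd)) ((l.drop k).map Prod.snd) := by
    rw [← ecol_append, ← List.map_append, List.take_append_drop]
  constructor
  · rintro ⟨⟨a1, a2, a3, a4, a5⟩, b1, b2, b3⟩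
    have hk0 : 0 < k := by
      rcases Nat.eq_zero_or_pos k with h | h
      · subst h
        exact absurd List.take_zero a1
      · exact h
    have hS : SA ℓ (ecol true ((l.take k).map Prod.snd)) (l.drop k) r := by
      rw [a2]
      exact b2
    have hE : EA ℓ (ecol true ((l.take k).map Prod.snd)) (l.drop k) r := by
      rw [a2]
      exact b3
    refine ⟨⟨?_, (Segs_cut_SA hpos true l k a4 hS).mpr a3,
      (Segs_cut_EA hpos true l k a4 hS).mpr hE⟩, hk0, (Segs_cut hpos true l r hk).mpr ⟨a4, hS⟩, ?_⟩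
    · rw [hecol, a2]
      exact b1
    · intro j hj hjk hal
      have h1 := lb_left hpos true (l.take k) (l.drop k) le_rfl a4 hS (j := j)
        (by rw [hlen]; exact hjk.le)
      rw [List.take_append_drop] at h1
      exact a5 j hj (by rw [hlen]; exact hjk) (h1.mp hal)
  · rintro ⟨⟨b1, b2, b3⟩, hk0, hal, hmin⟩
    obtain ⟨c1, c2⟩ := (Segs_cut hpos true l r hk).mp hal
    have hcol : ecol true ((l.take k).map Prod.snd) = true := by
      by_contra hne
      rw [Bool.not_eq_true] at hne
      have h0 : (0 : ℕ) ≠ k := hk0.ne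
      have h3 := alive_sep (x := lpos ℓ l) (c := lcol true l)
        (W := Finset.range (l.length + 1))
        (Finset.mem_range.mpr (Nat.succ_pos _)) (Finset.mem_range.mpr (Nat.lt_succ_iff.mpr hk)) h0
        (by
          rintro ⟨-, h⟩
          change ecol true ((l.take k).map Prod.snd) = true at h
          rw [hne] at h
          exact absurd h (by decide)) b2 hal
      rw [Segs_dist_left hpos] at h3
      have h4 : llen ℓ l = llen ℓ (l.take k) + llen ℓ (l.drop k) := by
        rw [← Segs_llen_append, List.take_append_drop]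
      have h5 := Segs_llen_nonneg hpos (l.drop k)
      linarith
    have hS1 := (Segs_cut_SA hpos true l k c1 c2).mp b2
    have hE1 := (Segs_cut_EA hpos true l k c1 c2).mp b3
    refine ⟨⟨?_, hcol, hS1, c1, ?_⟩, ?_, ?_, ?_⟩
    · intro h
      rw [h, List.length_nil] at hlen
      omega
    · intro j hj hjk hal2
      rw [hlen] at hjk
      have h1 := lb_left hpos true (l.take k) (l.drop k) le_rfl c1 c2 (j := j)
        (by rw [hlen]; exact hjk.le)
      rw [List.take_append_drop] at h1
      exact hmin j hj hjk (h1.mpr hal2)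
    · rw [hecol, hcol] at b1
      exact b1
    · rw [hcol] at c2
      exact c2
    · rw [hcol] at hE1
      exact hE1

theorem Kay_point {ℓ : ι → ℝ} (hpos : ∀ i, 0 < ℓ i) {r : ℝ} {l : List (ι × Bool)}
    (hne : l ≠ []) (hr : llen ℓ l < r) :
    ind (KayQ ℓ r l) = ∑ k ∈ Finset.range (l.length + 1),
      ind (KP ℓ r (l.take k)) * ind (KayQ ℓ r (l.drop k)) := by
  classical
  by_cases hQ : KayQ ℓ r l
  · have hex : ∃ k, 0 < k ∧ aliveL ℓ true l r k :=
      ⟨l.length, List.length_pos_of_ne_nil hne, hQ.2.2⟩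
    have hk0 := (Nat.find_spec hex).1
    have hka := (Nat.find_spec hex).2
    have hkl : Nat.find hex ≤ l.length :=
      Nat.find_min' hex ⟨List.length_pos_of_ne_nil hne, hQ.2.2⟩
    have hmin : ∀ j, 0 < j → j < Nat.find hex → ¬ aliveL ℓ true l r j :=
      fun j hj hjk hal => Nat.find_min hex hjk ⟨hj, hal⟩
    rw [Kay_ind_true hQ, Finset.sum_eq_single (Nat.find hex)]
    · rw [Kay_ind_and, Kay_ind_true ((Kay_first hpos hr hkl).mpr ⟨hQ, hk0, hka, hmin⟩)]
    · intro k' hk' hne'
      rw [Kay_ind_and, Kay_ind_false]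
      intro hP
      obtain ⟨-, h1, h2, h3⟩ :=
        (Kay_first hpos hr (Nat.lt_succ_iff.mp (Finset.mem_range.mp hk'))).mp hP
      rcases lt_trichotomy k' (Nat.find hex) with h | h | h
      · exact hmin k' h1 h h2
      · exact hne' h
      · exact h3 _ hk0 h hka
    · intro h
      exact absurd (Finset.mem_range.mpr (Nat.lt_succ_iff.mpr hkl)) h
  · rw [Kay_ind_false hQ]
    refine (Finset.sum_eq_zero fun k hk => ?_).symm
    rw [Kay_ind_and, Kay_ind_false]
    intro hP
    exact hQ ((Kay_first hpos hr (Nat.lt_succ_iff.mp (Finset.mem_range.mp hk))).mp hP).1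

theorem Kay_kk_empty (ℓ : ι → ℝ) (r t : ℝ) : kk ℓ r t ∅ = 0 := by
  unfold kk
  rw [cord_empty, Finset.sum_singleton, Kay_ind_false, mul_zero]
  rintro ⟨h, -⟩
  exact h rfl

theorem kay {ℓ : ι → ℝ} (hpos : ∀ i, 0 < ℓ i) {r : ℝ} {S : Finset ι} (hr : slen ℓ S < r)
    (t : ℝ) : Pm ℓ r t true true S = (1 : SF ι) S + (kk ℓ r t * Pm ℓ r t true true) S := by
  by_cases hS : S = ∅
  · subst hS
    rw [SF.mul_apply, Finset.powerset_empty, Finset.sum_singleton, Kay_kk_empty, zero_mul,
      add_zero, SF.one_apply, if_pos rfl]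
    unfold Pm
    rw [cord_empty, Finset.sum_singleton]
    show (1 : ℝ) * ind (true = true ∧ SA ℓ true [] r ∧ EA ℓ true [] r) = 1
    rw [Kay_ind_true ⟨rfl, aliveL_nil ℓ true r, aliveL_nil ℓ true r⟩, one_mul]
  · rw [SF.one_apply, if_neg hS, zero_add, SF.mul_apply]
    have key := cut_lemma S fun l1 l2 =>
      (pw t true (l1.map Prod.snd) * ind (KP ℓ r l1)) *
        (pw t true (l2.map Prod.snd) * ind (KayQ ℓ r l2))
    have e1 : ∀ A ∈ S.powerset, kk ℓ r t A * Pm ℓ r t true true (S \ A) =
        ∑ l1 ∈ cord A, ∑ l2 ∈ cord (S \ A),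
          (pw t true (l1.map Prod.snd) * ind (KP ℓ r l1)) *
          (pw t true (l2.map Prod.snd) * ind (KayQ ℓ r l2)) := by
      intro A _
      unfold kk Pm
      rw [Finset.sum_mul]
      refine Finset.sum_congr rfl fun l1 _ => ?_
      rw [Finset.mul_sum]
      rfl
    rw [Finset.sum_congr rfl e1, ← key]
    unfold Pm
    refine Finset.sum_congr rfl fun l hl => ?_
    have hne : l ≠ [] := by
      rintro rfl
      exact hS (Finset.card_eq_zero.mp (length_of_mem_cord hl).symm)
    have hp := Kay_point hpos hne (r := r) (by rw [slen_of_mem_cord ℓ hl]; exact hr)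
    change pw t true (l.map Prod.snd) * ind (KayQ ℓ r l) = _
    rw [hp, Finset.mul_sum]
    refine Finset.sum_congr rfl fun k _ => ?_
    by_cases hKP : KP ℓ r (l.take k)
    · have e2 : l.map Prod.snd = (l.take k).map Prod.snd ++ (l.drop k).map Prod.snd := by
        rw [← List.map_append, List.take_append_drop]
      rw [e2, pw_append, hKP.2.1]
      ring
    · rw [Kay_ind_false hKP]
      ring

end FB
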