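import Pool.Agent.Lib.MP_fb152f_pr.Step
import Pool.Agent.Lib.MP_fb152f_pr.Constr
import Pool.Agent.Lib.MP_fb152f_pr.Base
import Pool.Agent.Lib.MP_fb152f_pr.Kay
import Pool.Agent.Lib.MP_fb152f_pr.Cross

/-!
# Evo: the evolution equations with signs hold at every level `r` (120 minutes)

Strong induction on the number of non-empty `T` with `slen ℓ T < r`.

BASE (no such `T`): `psi_base`, `Pm_base`: `s1 = v_true q`, `s2 = v_false q`, `P_ab = δ_ab 1 +
v_a v_b (q - 1)` with the constant set function `q S = |S|!`, `1 S = [S = ∅]`.  Take `w1 = w4 = 0`,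
`w2 = 1`, `w3 = -1` (elements of the ring `SF ι`).  `v_true' = v_false`, `v_false' = -v_true`.
`mr ℓ r t = 0` (also `mr ∅ = 0` always), and the signs are clear (`w2 - w3 = 2`, `w2 + w3 = 0`).

STEP.  Let `T` be the non-empty set with `slen ℓ T < r` and `slen ℓ T` maximal, `r0 = slen ℓ T`
(`Generic`: `hmax` of `cross_psi` holds; for `T' = ∅`: `slen ∅ = 0 < r0`).  By induction the
statement holds at `r0`.  `Compat true true` is false, so `mk ℓ t true true T = 0`; put
`m = mk ℓ t true false T = Pm ℓ r0 t true false T` (`= mk ℓ t false true T` by symmetry at `r0`),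
`n = mk ℓ t false false T = Pm ℓ r0 t false false T`; they are differentiable in `t` (from the
equations `d12`, `d22` at `r0`).  By `cross_Pm`, `cross_psi` the functions at `r` are the functions
in `step`, symmetric again.  So `EqState` holds at `r` with the `w+` of `step`.

SIGNS at `t ∈ [0, π/2]`: `m, n ≥ 0`, `mr r = mr r0 + m z` (`z = zz T`), old signs:
`w1 ≥ 2 mr0 ≥ 0`, `w4 ≤ 0`, `w2 - w3 ≥ 2 (1 + mr0^2)`, `w2 + w3 ≥ 0` (as set functions).
(a) `w1+ = w1 + z m (w2 - w3) ≥ 2 mr0 + 2 m z`.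
(b) `w2+ - w3+ = (w2 - w3) + z (2 m w1 - 2 m w4 + n (w2 + w3))
     ≥ 2 (1 + mr0^2) + 4 m z mr0 = 2 (1 + (mr0 + m z)^2)` (`z^2 = 0`).
(c) `w4+ ≤ 0`: at a processed set (`slen S < r`) `w4+ S = 0` by `constr_w4` (applied at level `r`,
`D S := slen ℓ S < r`, `processed`, `Pm_empty`); at an unprocessed set `S` either `T ⊄ S` and
`w4+ S = w4 S ≤ 0`, or `T ⊆ S`, `S ≠ T`, and `w4+ S = w4 S - m (w2 - w3)(S \ T) - n' [S \ T = ∅]`
with `S \ T ≠ ∅`, so `≤ 0`.
(d) `w2+ + w3+ ≥ 0`: at a processed set by `constr_sigma` (`K = kk ℓ r t`, `kay`, `kk_nonneg`, (b));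
at an unprocessed set `S`: `w2+ + w3+ = (w2 + w3) + z (n (w2 - w3) - 2 m')`; if `T ⊆ S` then
`S ≠ T`, the term with `m'` does not contribute, and the rest is `≥ 0`.
-/

set_option autoImplicit false
set_option linter.unusedSectionVars false

namespace FB

variable {ι : Type*} [DecidableEq ι] [Fintype ι]

/-- The evolution statement at level `r`. -/
def EvoAt (ℓ : ι → ℝ) (r : ℝ) : Prop :=
  (∀ t, Pm ℓ r t true false = Pm ℓ r t false true) ∧
  ∃ w1 w2 w3 w4 : ℝ → SF ι,
    EqState (fun t => Pm ℓ r t true true) (fun t => Pm ℓ r t true false)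
      (fun t => Pm ℓ r t false false) (fun t => psi ℓ r t true) (fun t => psi ℓ r t false)
      w1 w2 w3 w4 ∧
    ∀ t ∈ Set.Icc 0 (Real.pi / 2), Sgn (mr ℓ r t) (w1 t) (w2 t) (w3 t) (w4 t)

theorem Evo_two_mul (f : SF ι) (S : Finset ι) : (2 * f) S = 2 * f S := by
  rw [two_mul, SF.add_apply]
  ring

theorem Evo_ind_true {p : Prop} (h : p) : ind p = 1 := by
  unfold ind
  exact if_pos h

theorem Evo_ind_false {p : Prop} (h : ¬ p) : ind p = 0 := by
  unfold ind
  exact if_neg h

theorem Evo_mk (ℓ : ι → ℝ) (t : ℝ) {a b : Bool} (hc : Compat a b) {T : Finset ι} (hT : T ≠ ∅) :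
    mk ℓ t a b T = Pm ℓ (slen ℓ T) t a b T := by
  unfold mk
  rw [Evo_ind_true ⟨hT, hc⟩, one_mul]

theorem Evo_mk_tt (ℓ : ι → ℝ) (t : ℝ) (T : Finset ι) : mk ℓ t true true T = 0 := by
  unfold mk
  rw [Evo_ind_false, zero_mul]
  rintro ⟨-, hc⟩
  exact hc ⟨rfl, rfl⟩

theorem Evo_mr_empty (ℓ : ι → ℝ) (r t : ℝ) : mr ℓ r t ∅ = 0 := by
  unfold mr mk
  rw [Evo_ind_false (p := (∅ : Finset ι) ≠ ∅ ∧ _) (fun h => h.1 rfl), zero_mul, mul_zero]

theorem Evo_mr_zero {ℓ : ι → ℝ} {r : ℝ} (hr : ∀ T : Finset ι, T ≠ ∅ → r ≤ slen ℓ T) (t : ℝ) :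
    mr ℓ r t = 0 := by
  ext S
  by_cases hS : S = ∅
  · subst hS
    rw [Evo_mr_empty]
    rfl
  · unfold mr
    rw [Evo_ind_false (not_lt.mpr (hr S hS)), zero_mul]
    rfl

theorem Evo_compat {a b : Bool} (h : a = false ∨ b = false) : Compat a b := by
  rintro ⟨rfl, rfl⟩
  simp at h

theorem Evo_slen_mono {ℓ : ι → ℝ} (hpos : ∀ i, 0 < ℓ i) {A S : Finset ι} (h : A ⊆ S) :
    slen ℓ A ≤ slen ℓ S :=
  Finset.sum_le_sum_of_subset_of_nonneg h fun i _ _ => (hpos i).le

theorem Evo_slen_pos {ℓ : ι → ℝ} (hpos : ∀ i, 0 < ℓ i) {S : Finset ι} (h : S ≠ ∅) :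
    0 < slen ℓ S :=
  Finset.sum_pos (fun i _ => hpos i) (Finset.nonempty_iff_ne_empty.mpr h)

theorem Evo_kk_empty (ℓ : ι → ℝ) (r t : ℝ) : kk ℓ r t ∅ = 0 := by
  unfold kk
  refine Finset.sum_eq_zero fun l hl => ?_
  have hl' : l = [] := by
    simpa [cord, cordN] using hl
  rw [Evo_ind_false, mul_zero]
  rintro ⟨h, -⟩
  exact h hl'

/-- The base of the induction. -/
theorem evo_base {ℓ : ι → ℝ} (hℓ : Generic ℓ) {r : ℝ}
    (hr : ∀ T : Finset ι, T ≠ ∅ → r ≤ slen ℓ T) : EvoAt ℓ r := by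
  have hP := Pm_base hℓ.1 hr
  have hs := psi_base hℓ.1 hr
  refine ⟨fun t => ?_, fun _ => 0, fun _ => 1, fun _ => -1, fun _ => 0, ⟨?_, ?_, ?_, ?_, ?_⟩, ?_⟩
  · ext S
    rw [hP, hP]
    by_cases hS : S = ∅
    · simp [hS]
    · simp only [hS, if_false]
      ring
  · intro t S
    have e1 : (0 * (2 * Pm ℓ r t true true - 1) + 2 * (1 * Pm ℓ r t true false) : SF ι) S
        = 2 * Pm ℓ r t true false S := by
      rw [zero_mul, zero_add, one_mul, Evo_two_mul]
    show HasDerivAt (fun t => Pm ℓ r t true true S) _ t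
    rw [e1]
    simp only [hP]
    by_cases hS : S = ∅
    · simp only [hS, if_true]
      simpa using hasDerivAt_const t (1 : ℝ)
    · simp only [hS, if_false]
      have h1 := ((Real.hasDerivAt_sin t).mul (Real.hasDerivAt_sin t)).mul_const
        (S.card.factorial : ℝ)
      simp only [v, if_true, Bool.false_eq_true, if_false]
      refine h1.congr_deriv ?_
      ring
  · intro t S
    have e1 : (2 * (0 * Pm ℓ r t true false) + 1 * (2 * Pm ℓ r t false false - 1) +
        (2 * Pm ℓ r t true true - 1) * -1 + 2 * (Pm ℓ r t true false * 0) : SF ι) S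
        = 2 * (Pm ℓ r t false false S - Pm ℓ r t true true S) := by
      have e2 : (2 * (0 * Pm ℓ r t true false) + 1 * (2 * Pm ℓ r t false false - 1) +
        (2 * Pm ℓ r t true true - 1) * -1 + 2 * (Pm ℓ r t true false * 0) : SF ι)
        = 2 * (Pm ℓ r t false false - Pm ℓ r t true true) := by ring
      rw [e2, Evo_two_mul, SF.sub_apply]
    show HasDerivAt (fun t => (2 * Pm ℓ r t true false) S) _ t
    rw [e1]
    simp only [Evo_two_mul, hP]
    by_cases hS : S = ∅
    · simp only [hS, if_true]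
      simpa using hasDerivAt_const t (0 : ℝ)
    · simp only [hS, if_false]
      have h1 := (((Real.hasDerivAt_sin t).mul (Real.hasDerivAt_cos t)).mul_const
        (S.card.factorial : ℝ)).const_mul 2
      simp only [v, if_true, Bool.false_eq_true, if_false]
      refine h1.congr_deriv ?_
      ring
  · intro t S
    have e1 : (2 * (-1 * Pm ℓ r t true false) + 0 * (2 * Pm ℓ r t false false - 1) : SF ι) S
        = -(2 * Pm ℓ r t true false S) := by
      have e2 : (2 * (-1 * Pm ℓ r t true false) + 0 * (2 * Pm ℓ r t false false - 1) : SF ι)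
        = -(2 * Pm ℓ r t true false) := by ring
      rw [e2, SF.neg_apply, Evo_two_mul]
    show HasDerivAt (fun t => Pm ℓ r t false false S) _ t
    rw [e1]
    simp only [hP]
    by_cases hS : S = ∅
    · simp only [hS, if_true]
      simpa using hasDerivAt_const t (1 : ℝ)
    · simp only [hS, if_false]
      have h1 := ((Real.hasDerivAt_cos t).mul (Real.hasDerivAt_cos t)).mul_const
        (S.card.factorial : ℝ)
      simp only [v, if_true, Bool.false_eq_true, if_false]
      refine h1.congr_deriv ?_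
      ring
  · intro t S
    have e1 : (0 * psi ℓ r t true + 1 * psi ℓ r t false : SF ι) S = psi ℓ r t false S := by
      rw [zero_mul, zero_add, one_mul]
    show HasDerivAt (fun t => psi ℓ r t true S) _ t
    rw [e1]
    simp only [hs]
    have h1 := (Real.hasDerivAt_sin t).mul_const (S.card.factorial : ℝ)
    simpa only [v, if_true, Bool.false_eq_true, if_false] using h1
  · intro t S
    have e1 : (-1 * psi ℓ r t true + 0 * psi ℓ r t false : SF ι) S = -psi ℓ r t true S := by
      rw [zero_mul, add_zero, neg_one_mul, SF.neg_apply]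
    show HasDerivAt (fun t => psi ℓ r t false S) _ t
    rw [e1]
    simp only [hs]
    have h1 := (Real.hasDerivAt_cos t).mul_const (S.card.factorial : ℝ)
    simp only [v, if_true, Bool.false_eq_true, if_false]
    refine h1.congr_deriv ?_
    ring
  · intro t _
    rw [Evo_mr_zero hr]
    refine ⟨fun S => ?_, fun S => ?_, fun S => ?_, fun S => ?_⟩
    · rw [mul_zero]
    · exact le_refl _
    · have e2 : (2 * (1 + 0 * 0) : SF ι) = 1 - -1 := by ring
      rw [e2]
    · have e2 : (1 + -1 : SF ι) = 0 := by ring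
      rw [e2]
      exact le_refl _

theorem Evo_mr_step {ℓ : ι → ℝ} {T : Finset ι} (hT : T ≠ ∅) {r : ℝ}
    (hr : slen ℓ T < r) (hmax : ∀ T' : Finset ι, slen ℓ T' < r → T' = T ∨ slen ℓ T' < slen ℓ T)
    (t : ℝ) : mr ℓ r t = mr ℓ (slen ℓ T) t + Pm ℓ (slen ℓ T) t true false T • zz T := by
  ext S
  rw [SF.add_apply, SF.smul_apply]
  by_cases hS : S = T
  · subst hS
    unfold mr
    rw [Evo_ind_true hr, Evo_ind_false (lt_irrefl _), Evo_mk ℓ t (Evo_compat (Or.inr rfl)) hT]
    simp [zz]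
  · have hz : (zz T : SF ι) S = 0 := if_neg hS
    rw [hz, mul_zero, add_zero]
    unfold mr
    by_cases h : slen ℓ S < r
    · rw [Evo_ind_true h]
      rcases hmax S h with h1 | h1
      · exact absurd h1 hS
      · rw [Evo_ind_true h1]
    · rw [Evo_ind_false h, Evo_ind_false (fun h1 => h (h1.trans hr))]

/-- The signs after a crossing, purely algebraic part. -/
theorem Evo_sgn_a {μ w1 w2 w3 w4 : SF ι} (hS : Sgn μ w1 w2 w3 w4) (hμ : ∀ S, 0 ≤ μ S)
    {T : Finset ι} (hT : T ≠ ∅) {m n m' : ℝ} (hm : 0 ≤ m) (hn : 0 ≤ n) :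
    (∀ S, (2 * (μ + m • zz T)) S ≤ (w1 + zz T * (m • (w2 - w3))) S) ∧
    (∀ S, (2 * (1 + (μ + m • zz T) * (μ + m • zz T))) S ≤
      ((w2 - zz T * (m • w4 - m • w1 - n • w2 + m' • (1 : SF ι))) -
        (w3 - zz T * (m • w1 + n • w3 - m • w4 + m' • (1 : SF ι)))) S) := by
  have hmm : ∀ S, 0 ≤ (μ * μ) S := sf_mul_nonneg hμ hμ
  have h1n : ∀ S : Finset ι, 0 ≤ (1 : SF ι) S := by
    intro S
    rw [SF.one_apply]
    split_ifs <;> norm_num
  have hα : ∀ S, 0 ≤ (w2 - w3) S := by
    intro S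
    refine le_trans ?_ (hS.ha S)
    rw [Evo_two_mul, SF.add_apply]
    have := hmm S
    have := h1n S
    linarith
  constructor
  · intro S
    rw [Evo_two_mul, SF.add_apply, SF.add_apply, zz_mul_apply, SF.smul_apply]
    have h1 := hS.h1 S
    rw [Evo_two_mul] at h1
    by_cases hST : S = T
    · subst hST
      have h2 := hS.ha ∅
      rw [Evo_two_mul, SF.add_apply, SF.one_apply, if_pos rfl] at h2
      have h3 := hmm ∅
      have hz : (zz S : SF ι) S = 1 := if_pos rfl
      rw [hz, if_pos (Finset.Subset.refl _), Finset.sdiff_self, SF.smul_apply]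
      nlinarith
    · have hz : (zz T : SF ι) S = 0 := if_neg hST
      rw [hz]
      by_cases hTS : T ⊆ S
      · rw [if_pos hTS, SF.smul_apply]
        have h2 := mul_nonneg hm (hα (S \ T))
        linarith
      · rw [if_neg hTS]
        linarith
  · intro S
    have e1 : (2 * (1 + (μ + m • zz T) * (μ + m • zz T)) : SF ι) =
        2 * (1 + μ * μ) + zz T * (4 * (m • μ)) := by
      have hz := zz_mul_self hT
      have e2 : m • (zz T : SF ι) = (m • (1 : SF ι)) * zz T := sf_smul_eq _ _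
      have e3 : m • μ = (m • (1 : SF ι)) * μ := sf_smul_eq _ _
      rw [e2, e3]
      linear_combination (2 * (m • (1 : SF ι)) * (m • (1 : SF ι))) * hz
    have e4 : ((w2 - zz T * (m • w4 - m • w1 - n • w2 + m' • (1 : SF ι))) -
        (w3 - zz T * (m • w1 + n • w3 - m • w4 + m' • (1 : SF ι)))) =
        (w2 - w3) + zz T * (2 * (m • w1) - 2 * (m • w4) + n • (w2 + w3)) := by
      rw [smul_add]
      ring
    rw [e1, e4, SF.add_apply, SF.add_apply, zz_mul_apply, zz_mul_apply]
    have h1 := hS.ha S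
    by_cases hTS : T ⊆ S
    · rw [if_pos hTS, if_pos hTS]
      have h2 := hS.h1 (S \ T)
      have h3 := hS.h4 (S \ T)
      have h4 := hS.hs (S \ T)
      rw [Evo_two_mul] at h2
      have e5 : (4 * (m • μ) : SF ι) (S \ T) = 4 * (m * μ (S \ T)) := by
        have : (4 * (m • μ) : SF ι) = 2 * (2 * (m • μ)) := by ring
        rw [this, Evo_two_mul, Evo_two_mul, SF.smul_apply]
        ring
      have e6 : (2 * (m • w1) - 2 * (m • w4) + n • (w2 + w3) : SF ι) (S \ T) =
          2 * (m * w1 (S \ T)) - 2 * (m * w4 (S \ T)) + n * (w2 + w3) (S \ T) := by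
        rw [SF.add_apply, SF.sub_apply, Evo_two_mul, Evo_two_mul, SF.smul_apply, SF.smul_apply,
          SF.smul_apply]
      rw [e5, e6]
      have h5 := mul_le_mul_of_nonneg_left h2 hm
      have h6 := mul_nonneg hm (neg_nonneg.mpr h3)
      have h7 := mul_nonneg hn h4
      linarith
    · rw [if_neg hTS, if_neg hTS]
      linarith

/-- The induction step. -/
theorem evo_step {ℓ : ι → ℝ} (hℓ : Generic ℓ) {T : Finset ι} (hT : T ≠ ∅) {r : ℝ}
    (hr : slen ℓ T < r) (hmax : ∀ T' : Finset ι, slen ℓ T' < r → T' = T ∨ slen ℓ T' < slen ℓ T)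
    (h : EvoAt ℓ (slen ℓ T)) : EvoAt ℓ r := by
  obtain ⟨hsym, w1, w2, w3, w4, hE, hS⟩ := h
  have k12 : ∀ t, mk ℓ t true false T = Pm ℓ (slen ℓ T) t true false T :=
    fun t => Evo_mk ℓ t (Evo_compat (Or.inr rfl)) hT
  have k21 : ∀ t, mk ℓ t false true T = Pm ℓ (slen ℓ T) t true false T := fun t => by
    rw [Evo_mk ℓ t (Evo_compat (Or.inl rfl)) hT, hsym]
  have k22 : ∀ t, mk ℓ t false false T = Pm ℓ (slen ℓ T) t false false T :=
    fun t => Evo_mk ℓ t (Evo_compat (Or.inl rfl)) hT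
  have hm : ∃ m' : ℝ → ℝ, ∀ t, HasDerivAt (fun t => Pm ℓ (slen ℓ T) t true false T) (m' t) t := by
    refine ⟨fun t => (1 / 2) * (2 * (w1 t * Pm ℓ (slen ℓ T) t true false) +
      w2 t * (2 * Pm ℓ (slen ℓ T) t false false - 1) +
      (2 * Pm ℓ (slen ℓ T) t true true - 1) * w3 t +
      2 * (Pm ℓ (slen ℓ T) t true false * w4 t)) T, fun t => ?_⟩
    have h1 : HasDerivAt (fun t => (2 * Pm ℓ (slen ℓ T) t true false) T) _ t := hE.d12 t T
    have h2 := h1.const_mul (1 / 2 : ℝ)
    refine h2.congr_of_eventuallyEq (Filter.Eventually.of_forall fun s => ?_)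
    simp only [Evo_two_mul]
    ring
  have hn : ∃ n' : ℝ → ℝ, ∀ t, HasDerivAt (fun t => Pm ℓ (slen ℓ T) t false false T) (n' t) t :=
    ⟨_, fun t => hE.d22 t T⟩
  obtain ⟨m', hm⟩ := hm
  obtain ⟨n', hn⟩ := hn
  have hE1 := step hE hT hm hn
  set m : ℝ → ℝ := fun t => Pm ℓ (slen ℓ T) t true false T with hmdef
  set n : ℝ → ℝ := fun t => Pm ℓ (slen ℓ T) t false false T with hndef
  have c11 : ∀ t, Pm ℓ r t true true = Pm ℓ (slen ℓ T) t true true -
      zz T * (2 * (m t • Pm ℓ (slen ℓ T) t true false)) := by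
    intro t
    rw [cross_Pm hℓ hT hr hmax, Evo_mk_tt, k12, k21, ← hsym]
    simp only [zero_smul, zero_add, add_zero]
    rw [← two_mul]
  have c12 : ∀ t, Pm ℓ r t true false = Pm ℓ (slen ℓ T) t true false -
      zz T * (m t • Pm ℓ (slen ℓ T) t false false + m t • Pm ℓ (slen ℓ T) t true true +
        n t • Pm ℓ (slen ℓ T) t true false) + m t • zz T := by
    intro t
    rw [cross_Pm hℓ hT hr hmax, Evo_mk_tt, k12, k22, zero_smul, zero_add, ← add_assoc]
  have c21 : ∀ t, Pm ℓ r t false true = Pm ℓ (slen ℓ T) t true false -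
      zz T * (m t • Pm ℓ (slen ℓ T) t false false + m t • Pm ℓ (slen ℓ T) t true true +
        n t • Pm ℓ (slen ℓ T) t true false) + m t • zz T := by
    intro t
    rw [cross_Pm hℓ hT hr hmax, Evo_mk_tt, k21, k22, zero_smul, zero_add, ← hsym]
    congr 3
    abel
  have c22 : ∀ t, Pm ℓ r t false false = Pm ℓ (slen ℓ T) t false false -
      zz T * (2 * (m t • Pm ℓ (slen ℓ T) t true false + n t • Pm ℓ (slen ℓ T) t false false)) +
        n t • zz T := by
    intro t
    rw [cross_Pm hℓ hT hr hmax, k12, k21, k22, ← hsym, ← two_mul]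
  have c1 : ∀ t, psi ℓ r t true = psi ℓ (slen ℓ T) t true -
      zz T * (m t • psi ℓ (slen ℓ T) t false) := by
    intro t
    rw [cross_psi hℓ hT hr hmax, Evo_mk_tt, k12, zero_smul, zero_add]
  have c2 : ∀ t, psi ℓ r t false = psi ℓ (slen ℓ T) t false -
      zz T * (m t • psi ℓ (slen ℓ T) t true + n t • psi ℓ (slen ℓ T) t false) := by
    intro t
    rw [cross_psi hℓ hT hr hmax, k21, k22]
  have hE2 : EqState (fun t => Pm ℓ r t true true) (fun t => Pm ℓ r t true false)
      (fun t => Pm ℓ r t false false) (fun t => psi ℓ r t true) (fun t => psi ℓ r t false)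
      (fun t => w1 t + zz T * (m t • (w2 t - w3 t)))
      (fun t => w2 t - zz T * (m t • w4 t - m t • w1 t - n t • w2 t + m' t • (1 : SF ι)))
      (fun t => w3 t - zz T * (m t • w1 t + n t • w3 t - m t • w4 t + m' t • (1 : SF ι)))
      (fun t => w4 t - zz T * (m t • (w2 t - w3 t) + n' t • (1 : SF ι))) := by
    have e11 := funext c11
    have e12 := funext c12
    have e22 := funext c22
    have e1 := funext c1
    have e2 := funext c2
    rw [e11, e12, e22, e1, e2]
    exact hE1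
  refine ⟨fun t => by rw [c12, c21], _, _, _, _, hE2, fun t ht => ?_⟩
  have hmt : 0 ≤ m t := Pm_nonneg ht ℓ _ _ _ _
  have hnt : 0 ≤ n t := Pm_nonneg ht ℓ _ _ _ _
  have hSt := hS t ht
  obtain ⟨ha1, ha2⟩ := Evo_sgn_a hSt (fun S => mr_nonneg ht ℓ _ S) hT (m' := m' t) hmt hnt
  rw [← Evo_mr_step hT hr hmax t] at ha1 ha2
  have h1n : ∀ S : Finset ι, 0 ≤ (1 : SF ι) S := by
    intro S
    rw [SF.one_apply]
    split_ifs <;> norm_num
  have hα : ∀ S, 0 ≤ (w2 t - w3 t) S := by
    intro S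
    refine le_trans ?_ (hSt.ha S)
    rw [Evo_two_mul, SF.add_apply]
    have := sf_mul_nonneg (fun S => mr_nonneg ht ℓ (slen ℓ T) S)
      (fun S => mr_nonneg ht ℓ (slen ℓ T) S) S
    have := h1n S
    linarith
  have hDsub : ∀ S A : Finset ι, slen ℓ S < r → A ⊆ S → slen ℓ A < r :=
    fun S A hS hA => (Evo_slen_mono hℓ.1 hA).trans_lt hS
  have hD12 : ∀ t, ∀ S : Finset ι, slen ℓ S < r → Pm ℓ r t true false S = 0 := by
    intro t S hS
    by_cases h0 : S = ∅
    · subst h0
      rw [Pm_empty]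
      simp
    · exact processed hℓ.1 h0 hS t (Evo_compat (Or.inr rfl))
  have hD22 : ∀ t, ∀ S : Finset ι, slen ℓ S < r → Pm ℓ r t false false S = (1 : SF ι) S := by
    intro t S hS
    by_cases h0 : S = ∅
    · subst h0
      rw [Pm_empty, SF.one_apply]
      simp
    · rw [processed hℓ.1 h0 hS t (Evo_compat (Or.inr rfl)), SF.one_apply, if_neg h0]
  have hne : ∀ S : Finset ι, ¬ slen ℓ S < r → T ⊆ S → S \ T ≠ ∅ := by
    intro S hS hTS h0
    have h1 : S = T := Finset.Subset.antisymm (Finset.sdiff_eq_empty_iff_subset.mp h0) hTS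
    rw [h1] at hS
    exact hS hr
  refine ⟨ha1, fun S => ?_, ha2, fun S => ?_⟩
  · by_cases hSr : slen ℓ S < r
    · exact (constr_w4 hE2 (D := fun S => slen ℓ S < r) hDsub hD12 hD22 t hSr).le
    · rw [SF.sub_apply, zz_mul_apply]
      by_cases hTS : T ⊆ S
      · rw [if_pos hTS, SF.add_apply, SF.smul_apply, SF.smul_apply, SF.one_apply,
          if_neg (hne S hSr hTS)]
        have h1 := hSt.h4 S
        have h2 := mul_nonneg hmt (hα (S \ T))
        linarith
      · rw [if_neg hTS]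
        have h1 := hSt.h4 S
        linarith
  · by_cases hSr : slen ℓ S < r
    · refine constr_sigma hE2 (D := fun S => slen ℓ S < r) hDsub hD12 hD22 t
        (K := kk ℓ r t) (kk_nonneg ht ℓ r) (Evo_kk_empty ℓ r t) (fun S hS => kay hℓ.1 hS t)
        (fun S _ => ?_) hSr
      refine le_trans ?_ (ha2 S)
      rw [Evo_two_mul, SF.add_apply]
      have := sf_mul_nonneg (fun S => mr_nonneg ht ℓ r S)
        (fun S => mr_nonneg ht ℓ r S) S
      have := h1n S
      linarith
    · have e5 : ((w2 t - zz T * (m t • w4 t - m t • w1 t - n t • w2 t + m' t • (1 : SF ι))) +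
          (w3 t - zz T * (m t • w1 t + n t • w3 t - m t • w4 t + m' t • (1 : SF ι)))) =
          (w2 t + w3 t) + zz T * (n t • (w2 t - w3 t) - 2 * (m' t • (1 : SF ι))) := by
        rw [smul_sub]
        ring
      rw [e5, SF.add_apply, zz_mul_apply]
      have h1 := hSt.hs S
      by_cases hTS : T ⊆ S
      · rw [if_pos hTS, SF.sub_apply, Evo_two_mul, SF.smul_apply, SF.smul_apply, SF.one_apply,
          if_neg (hne S hSr hTS)]
        have h2 := mul_nonneg hnt (hα (S \ T))
        linarith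
      · rw [if_neg hTS]
        linarith

theorem evo {ℓ : ι → ℝ} (hℓ : Generic ℓ) (r : ℝ) : EvoAt ℓ r := by
  classical
  have key : ∀ N : ℕ, ∀ r : ℝ,
      (Finset.univ.filter fun T : Finset ι => T ≠ ∅ ∧ slen ℓ T < r).card = N → EvoAt ℓ r := by
    intro N
    induction N using Nat.strong_induction_on with
    | _ N ih =>
      intro r hN
      by_cases h : ∃ T : Finset ι, T ≠ ∅ ∧ slen ℓ T < r
      · obtain ⟨T, hTm, hTmax⟩ := Finset.exists_max_image
          (Finset.univ.filter fun T : Finset ι => T ≠ ∅ ∧ slen ℓ T < r) (slen ℓ)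
          (by
            obtain ⟨T, hT⟩ := h
            exact ⟨T, Finset.mem_filter.mpr ⟨Finset.mem_univ _, hT⟩⟩)
        obtain ⟨hT, hTr⟩ := (Finset.mem_filter.mp hTm).2
        refine evo_step hℓ hT hTr (fun T' hT' => ?_) (ih _ ?_ (slen ℓ T) rfl)
        · by_cases h0 : T' = ∅
          · right
            subst h0
            have : slen ℓ (∅ : Finset ι) = 0 := Finset.sum_empty
            rw [this]
            exact Evo_slen_pos hℓ.1 hT
          · rcases (hTmax T' (Finset.mem_filter.mpr ⟨Finset.mem_univ _, h0, hT'⟩)).lt_or_eq with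
              h1 | h1
            · exact Or.inr h1
            · exact Or.inl (hℓ.2 h1)
        · rw [← hN]
          refine Finset.card_lt_card ?_
          refine (Finset.ssubset_iff_of_subset ?_).mpr ⟨T, hTm, ?_⟩
          · intro S hS
            obtain ⟨h1, h2⟩ := (Finset.mem_filter.mp hS).2
            exact Finset.mem_filter.mpr ⟨Finset.mem_univ _, h1, h2.trans hTr⟩
          · intro hc
            exact lt_irrefl _ (Finset.mem_filter.mp hc).2.2
      · refine evo_base hℓ fun T hT => ?_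
        by_contra hc
        exact h ⟨T, hT, not_le.mp hc⟩
  exact key _ r rfl

end FB
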