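import Pool.Agent.Lib.MP_fb152f_pr.Cross
import Pool.Agent.Lib.MP_fb152f_pr.Base

/-!
# Up: `psi_B^2 - psi_R^2` is non-decreasing in the level (60 minutes)

Induction on the number of non-empty `T` with `r ≤ slen ℓ T < r'`.
If there is none: `psi ℓ r t a = psi ℓ r' t a` (`psi_const`: for `l ∈ cord S` the conditions in
`SA_iff` for `r` and `r'` are the same, since `llen ℓ (l.take k)` is `slen` of the non-empty label set
of `l.take k`, for `k ≥ 1`).
Otherwise let `T` be the one with the largest `slen ℓ T`.  `cross_psi` from `slen ℓ T` to `r'`, with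
`mk ℓ t true true T = 0`, `m = mk ℓ t true false T = mk ℓ t false true T` (symmetry: `evo`),
`n = mk ℓ t false false T ≥ 0`, `z = zz T`, `z^2 = 0`, `s1, s2` the functions at the level
`slen ℓ T`: `s1+ = s1 - m z s2`, `s2+ = s2 - z (m s1 + n s2)`,
`(s1+)^2 - (s2+)^2 = s1^2 - s2^2 + 2 n z s2^2`, and the last term is `≥ 0`.
Then use the induction hypothesis for `r ≤ slen ℓ T`.
-/

set_option autoImplicit false
set_option linter.unusedSectionVars false

namespace FB

variable {ι : Type*} [DecidableEq ι] [Fintype ι]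

theorem Up_labels {ℓ : ι → ℝ} {l : List (ι × Bool)} (hl : (l.map Prod.fst).Nodup)
    (hne : l ≠ []) : ∃ T : Finset ι, T ≠ ∅ ∧ llen ℓ l = slen ℓ T := by
  refine ⟨(l.map Prod.fst).toFinset, fun h => hne ?_,
    slen_of_mem_cord ℓ (mem_cord.mpr ⟨hl, rfl⟩)⟩
  rw [List.toFinset_eq_empty_iff, List.map_eq_nil_iff] at h
  exact h

theorem psi_const {ℓ : ι → ℝ} (hpos : ∀ i, 0 < ℓ i) {r r' : ℝ} (h : r ≤ r')
    (hno : ∀ T : Finset ι, T ≠ ∅ → slen ℓ T < r' → slen ℓ T < r) (t : ℝ) (a : Bool) :
    psi ℓ r t a = psi ℓ r' t a := by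
  ext S
  unfold psi
  refine Finset.sum_congr rfl fun l hl => ?_
  congr 2
  apply propext
  constructor
  · intro h1
    rw [SA_iff hpos] at h1 ⊢
    intro k hk hlt hB
    obtain ⟨T, hT, hlT⟩ := Up_labels (ℓ := ℓ) (Base_nodup_take (mem_cord.mp hl).1 k) hB.1
    refine h1 k hk ?_ hB
    rw [hlT] at hlt ⊢
    exact hno T hT hlt
  · exact SA_anti h

theorem Up_two_mul (f : SF ι) (S : Finset ι) : (2 * f) S = 2 * f S := by
  rw [two_mul, SF.add_apply]
  ring

/-- The symmetry of `mk` is a hypothesis here (it comes from `evo`). -/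
theorem up_sf {ℓ : ι → ℝ} (hℓ : Generic ℓ) {t : ℝ} (ht : t ∈ Set.Icc 0 (Real.pi / 2))
    (hsym : ∀ T : Finset ι, mk ℓ t true false T = mk ℓ t false true T) {r r' : ℝ} (h : r ≤ r')
    (S : Finset ι) :
    (psi ℓ r t true * psi ℓ r t true - psi ℓ r t false * psi ℓ r t false : SF ι) S ≤
      (psi ℓ r' t true * psi ℓ r' t true - psi ℓ r' t false * psi ℓ r' t false : SF ι) S := by
  classical
  have key : ∀ N : ℕ, ∀ r' : ℝ, r ≤ r' →
      (Finset.univ.filter fun T : Finset ι => T ≠ ∅ ∧ r ≤ slen ℓ T ∧ slen ℓ T < r').card = N →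
      (psi ℓ r t true * psi ℓ r t true - psi ℓ r t false * psi ℓ r t false : SF ι) S ≤
      (psi ℓ r' t true * psi ℓ r' t true - psi ℓ r' t false * psi ℓ r' t false : SF ι) S := by
    intro N
    induction N using Nat.strong_induction_on with
    | _ N ih =>
      intro r' h hN
      by_cases hex : ∃ T : Finset ι, T ≠ ∅ ∧ r ≤ slen ℓ T ∧ slen ℓ T < r'
      · obtain ⟨T, hTm, hTmax⟩ := Finset.exists_max_image
          (Finset.univ.filter fun T : Finset ι => T ≠ ∅ ∧ r ≤ slen ℓ T ∧ slen ℓ T < r') (slen ℓ)
          (by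
            obtain ⟨T, hT⟩ := hex
            exact ⟨T, Finset.mem_filter.mpr ⟨Finset.mem_univ _, hT⟩⟩)
        obtain ⟨hT, hTr, hTr'⟩ := (Finset.mem_filter.mp hTm).2
        have hmax : ∀ T' : Finset ι, slen ℓ T' < r' → T' = T ∨ slen ℓ T' < slen ℓ T := by
          intro T' hT'
          by_cases h0 : T' = ∅
          · right
            subst h0
            have : slen ℓ (∅ : Finset ι) = 0 := Finset.sum_empty
            rw [this]
            exact Finset.sum_pos (fun i _ => hℓ.1 i) (Finset.nonempty_iff_ne_empty.mpr hT)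
          · by_cases h1 : r ≤ slen ℓ T'
            · rcases (hTmax T' (Finset.mem_filter.mpr
                ⟨Finset.mem_univ _, h0, h1, hT'⟩)).lt_or_eq with h2 | h2
              · exact Or.inr h2
              · exact Or.inl (hℓ.2 h2)
            · exact Or.inr ((not_le.mp h1).trans_le hTr)
        have hI := ih _ (by
          rw [← hN]
          refine Finset.card_lt_card ?_
          refine (Finset.ssubset_iff_of_subset ?_).mpr ⟨T, hTm, ?_⟩
          · intro S hS
            obtain ⟨h1, h2, h3⟩ := (Finset.mem_filter.mp hS).2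
            exact Finset.mem_filter.mpr ⟨Finset.mem_univ _, h1, h2, h3.trans hTr'⟩
          · intro hc
            exact lt_irrefl _ (Finset.mem_filter.mp hc).2.2.2) (slen ℓ T) hTr rfl
        refine hI.trans ?_
        have hmtt : mk ℓ t true true T = 0 := by
          unfold mk
          rw [Base_ind_false, zero_mul]
          rintro ⟨-, hc⟩
          exact hc ⟨rfl, rfl⟩
        have c1 := cross_psi hℓ hT hTr' hmax t true
        have c2 := cross_psi hℓ hT hTr' hmax t false
        rw [hmtt, zero_smul, zero_add] at c1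
        rw [← hsym] at c2
        have hz := zz_mul_self hT
        have e1 : (psi ℓ r' t true * psi ℓ r' t true - psi ℓ r' t false * psi ℓ r' t false : SF ι) =
            (psi ℓ (slen ℓ T) t true * psi ℓ (slen ℓ T) t true -
              psi ℓ (slen ℓ T) t false * psi ℓ (slen ℓ T) t false) +
            zz T * (2 * (mk ℓ t false false T •
              (psi ℓ (slen ℓ T) t false * psi ℓ (slen ℓ T) t false))) := by
          rw [c1, c2, sf_smul_eq (mk ℓ t true false T) (psi ℓ (slen ℓ T) t false),
            sf_smul_eq (mk ℓ t true false T) (psi ℓ (slen ℓ T) t true),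
            sf_smul_eq (mk ℓ t false false T) (psi ℓ (slen ℓ T) t false),
            sf_smul_eq (mk ℓ t false false T)
              (psi ℓ (slen ℓ T) t false * psi ℓ (slen ℓ T) t false)]
          generalize mk ℓ t true false T • (1 : SF ι) = m
          generalize mk ℓ t false false T • (1 : SF ι) = n
          generalize psi ℓ (slen ℓ T) t true = x
          generalize psi ℓ (slen ℓ T) t false = y
          linear_combination ((m * y) ^ 2 - (m * x + n * y) ^ 2) * hz
        rw [e1, SF.add_apply, zz_mul_apply]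
        have h5 : 0 ≤ (if T ⊆ S then (2 * (mk ℓ t false false T •
              (psi ℓ (slen ℓ T) t false * psi ℓ (slen ℓ T) t false)) : SF ι) (S \ T) else 0) := by
          split_ifs
          · rw [Up_two_mul, SF.smul_apply]
            have h6 := sf_mul_nonneg (fun S => psi_nonneg ht ℓ (slen ℓ T) false S)
              (fun S => psi_nonneg ht ℓ (slen ℓ T) false S) (S \ T)
            have h7 := mul_nonneg (mk_nonneg ht ℓ false false T) h6
            linarith
          · exact le_rfl
        linarith
      · have hno : ∀ T : Finset ι, T ≠ ∅ → slen ℓ T < r' → slen ℓ T < r := by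
          intro T hT hlt
          by_contra hc
          exact hex ⟨T, hT, not_lt.mp hc, hlt⟩
        rw [psi_const hℓ.1 h hno t true, psi_const hℓ.1 h hno t false]
  exact key _ r' h rfl

end FB
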