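import Pool.Agent.Lib.MP_fb152f_pr.AvPsi
import Pool.Agent.Lib.MP_fb152f_pr.GenAE
import Pool.Agent.Lib.MP_fb152f_pr.Up
import Pool.Agent.Lib.MP_fb152f_pr.Evo

/-!
# AvI5: the average of `up_sf` (30 minutes)

`ι = Fin n`, `S = univ`; integrate `up_sf` (symmetry of `mk` from `(evo hℓ (slen ℓ T)).1`,
definition of `mk`: both sides are `ind (T ≠ ∅ ∧ ..) * Pm ..`, both colour pairs are compatible)
over `expPi (Fin n)`, `ae_generic`, `Av.mul`, `Av.sub`, divide by `n!`.
-/

set_option autoImplicit false

namespace FB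

open MeasureTheory

theorem be_up (n : ℕ) {r r' : ℝ} (h : r ≤ r') {t : ℝ} (ht : t ∈ Set.Icc 0 (Real.pi / 2)) :
    PowerSeries.coeff n (beS r t true * beS r t true - beS r t false * beS r t false) ≤
      PowerSeries.coeff n (beS r' t true * beS r' t true - beS r' t false * beS r' t false) := by
  have hav : ∀ s : ℝ, Av (fun ℓ : Fin n → ℝ => psi ℓ s t true * psi ℓ s t true -
      psi ℓ s t false * psi ℓ s t false)
      (beS s t true * beS s t true - beS s t false * beS s t false) := fun s =>
    ((av_psi s t true).mul (av_psi s t true)).sub ((av_psi s t false).mul (av_psi s t false))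
  have h1 := (hav r).mean Finset.univ
  have h2 := (hav r').mean Finset.univ
  have h3 : ∫ ℓ : Fin n → ℝ, (psi ℓ r t true * psi ℓ r t true -
      psi ℓ r t false * psi ℓ r t false : SF (Fin n)) Finset.univ ∂(expPi (Fin n)) ≤
      ∫ ℓ : Fin n → ℝ, (psi ℓ r' t true * psi ℓ r' t true -
      psi ℓ r' t false * psi ℓ r' t false : SF (Fin n)) Finset.univ ∂(expPi (Fin n)) := by
    refine integral_mono_ae ((hav r).integrable _) ((hav r').integrable _) ?_
    filter_upwards [ae_generic (Fin n)] with ℓ hℓ
    refine up_sf hℓ ht ?_ h Finset.univ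
    intro T
    unfold mk
    rw [(evo hℓ (slen ℓ T)).1 t]
    have e : (T ≠ ∅ ∧ Compat true false) = (T ≠ ∅ ∧ Compat false true) := by
      simp [Compat]
    rw [e]
  rw [h1, h2, Finset.card_univ, Fintype.card_fin] at h3
  have hpos : (0 : ℝ) < (n.factorial : ℝ) := by exact_mod_cast n.factorial_pos
  exact le_of_mul_le_mul_left h3 hpos

end FB
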