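import Pool.Agent.Lib.MP_fb152f_pr.Meas

/-!
# Exch: relabelling and exchangeability (60 minutes)
-/

set_option autoImplicit false

namespace FB

open MeasureTheory

variable {ι : Type*}

theorem exch_lpos_congr {ℓ ℓ' : ι → ℝ} {l : List (ι × Bool)}
    (h : ∀ s ∈ l, ℓ s.1 = ℓ' s.1) : lpos ℓ l = lpos ℓ' l := by
  funext k
  unfold lpos
  congr 1
  refine List.map_congr_left fun s hs => ?_
  exact h s (List.mem_of_mem_take hs)

theorem SA_congr {ℓ ℓ' : ι → ℝ} {a : Bool} {l : List (ι × Bool)} {r : ℝ}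
    (h : ∀ s ∈ l, ℓ s.1 = ℓ' s.1) : SA ℓ a l r ↔ SA ℓ' a l r := by
  unfold SA aliveL
  rw [exch_lpos_congr h]

theorem EA_congr {ℓ ℓ' : ι → ℝ} {a : Bool} {l : List (ι × Bool)} {r : ℝ}
    (h : ∀ s ∈ l, ℓ s.1 = ℓ' s.1) : EA ℓ a l r ↔ EA ℓ' a l r := by
  unfold EA aliveL
  rw [exch_lpos_congr h]

theorem llen_congr {ℓ ℓ' : ι → ℝ} {l : List (ι × Bool)}
    (h : ∀ s ∈ l, ℓ s.1 = ℓ' s.1) : llen ℓ l = llen ℓ' l := by
  unfold llen
  congr 1
  exact List.map_congr_left fun s hs => h s hs

theorem exch_lpos_map {κ : Type*} (e : κ → ι) (ℓ : ι → ℝ) (l : List (κ × Bool)) :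
    lpos ℓ (l.map (Prod.map e id)) = lpos (ℓ ∘ e) l := by
  funext k
  unfold lpos
  rw [← List.map_take, List.map_map]
  rfl

theorem exch_lcol_map {κ : Type*} (e : κ → ι) (a : Bool) (l : List (κ × Bool)) :
    lcol a (l.map (Prod.map e id)) = lcol a l := by
  funext k
  unfold lcol
  rw [← List.map_take, List.map_map]
  rfl

theorem exch_SA_map {κ : Type*} (e : κ → ι) (ℓ : ι → ℝ) (a : Bool) (l : List (κ × Bool)) (r : ℝ) :
    SA ℓ a (l.map (Prod.map e id)) r ↔ SA (ℓ ∘ e) a l r := by
  unfold SA aliveL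
  rw [exch_lpos_map, exch_lcol_map, List.length_map]

theorem exch_EA_map {κ : Type*} (e : κ → ι) (ℓ : ι → ℝ) (a : Bool) (l : List (κ × Bool)) (r : ℝ) :
    EA ℓ a (l.map (Prod.map e id)) r ↔ EA (ℓ ∘ e) a l r := by
  unfold EA aliveL
  rw [exch_lpos_map, exch_lcol_map, List.length_map]

theorem exch_llen_map {κ : Type*} (e : κ → ι) (ℓ : ι → ℝ) (l : List (κ × Bool)) :
    llen ℓ (l.map (Prod.map e id)) = llen (ℓ ∘ e) l := by
  unfold llen
  rw [List.map_map]
  rfl

theorem expPi_map_inj [Fintype ι] {n : ℕ} {e : Fin n → ι} (he : Function.Injective e) :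
    (expPi ι).map (fun ℓ => ℓ ∘ e) = expPi (Fin n) := by
  unfold expPi
  rw [← Measure.infinitePi_eq_pi, ← Measure.infinitePi_eq_pi]
  exact Measure.map_infinitePi_infinitePi_of_inj
    (P := fun _ : ι => ProbabilityTheory.expMeasure 1) he

theorem std_length {n : ℕ} {cs : List Bool} (h : cs.length = n) : (std n cs).length = n := by
  unfold std
  simp [h]

theorem std_colours {n : ℕ} {cs : List Bool} (h : cs.length = n) :
    (std n cs).map Prod.snd = cs := by
  unfold std
  rw [List.map_snd_zip (by simp [h])]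

theorem exch_std (l : List (ι × Bool)) :
    l = (std l.length (l.map Prod.snd)).map (Prod.map (fun i => (l.get i).1) id) := by
  refine List.ext_getElem ?_ fun i h1 h2 => ?_
  · rw [List.length_map, std_length (by simp)]
  · unfold std
    simp

theorem exch_inj {l : List (ι × Bool)} (hl : (l.map Prod.fst).Nodup) :
    Function.Injective (fun i : Fin l.length => (l.get i).1) := by
  intro i j hij
  have h1 : ∀ i : Fin l.length, (l.get i).1 = (l.map Prod.fst)[(i : ℕ)]'(by simp) := by
    intro i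
    simp
  simp only [h1] at hij
  exact Fin.ext ((List.Nodup.getElem_inj_iff hl).1 hij)

theorem exch_real [Fintype ι] {l : List (ι × Bool)} (hl : (l.map Prod.fst).Nodup)
    {S : Set (Fin l.length → ℝ)} (hS : MeasurableSet S) :
    (expPi ι).real ((fun ℓ : ι → ℝ => ℓ ∘ fun i : Fin l.length => (l.get i).1) ⁻¹' S) =
      (expPi (Fin l.length)).real S := by
  have hm : Measurable fun ℓ : ι → ℝ => ℓ ∘ fun i : Fin l.length => (l.get i).1 := by
    rw [measurable_pi_iff]
    intro i
    exact measurable_pi_apply _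
  unfold Measure.real
  rw [← Measure.map_apply hm hS, expPi_map_inj (exch_inj hl)]

theorem exch_SA [Fintype ι] {l : List (ι × Bool)} (hl : (l.map Prod.fst).Nodup) (a : Bool)
    (r : ℝ) : (expPi ι).real {ℓ | SA ℓ a l r} =
      (expPi (Fin l.length)).real {ℓ | SA ℓ a (std l.length (l.map Prod.snd)) r} := by
  rw [← exch_real hl (measurableSet_SA measurable_const a _)]
  congr 1
  ext ℓ
  have h1 : SA ℓ a l r ↔
      SA ℓ a ((std l.length (l.map Prod.snd)).map (Prod.map (fun i => (l.get i).1) id)) r := by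
    rw [← exch_std l]
  exact h1.trans (exch_SA_map _ ℓ a _ r)

theorem exch_Blk [Fintype ι] {l : List (ι × Bool)} (hl : (l.map Prod.fst).Nodup) (q : Prop)
    (r : ℝ) : (expPi ι).real {ℓ | q ∧ llen ℓ l < r ∧ SA ℓ true l (llen ℓ l) ∧
        EA ℓ true l (llen ℓ l)} =
      (expPi (Fin l.length)).real {ℓ | q ∧
        llen ℓ (std l.length (l.map Prod.snd)) < r ∧
        SA ℓ true (std l.length (l.map Prod.snd)) (llen ℓ (std l.length (l.map Prod.snd))) ∧
        EA ℓ true (std l.length (l.map Prod.snd)) (llen ℓ (std l.length (l.map Prod.snd)))} := by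
  have hS : MeasurableSet {ℓ : Fin l.length → ℝ | q ∧
        llen ℓ (std l.length (l.map Prod.snd)) < r ∧
        SA ℓ true (std l.length (l.map Prod.snd)) (llen ℓ (std l.length (l.map Prod.snd))) ∧
        EA ℓ true (std l.length (l.map Prod.snd))
          (llen ℓ (std l.length (l.map Prod.snd)))} := by
    refine (MeasurableSet.const q).inter (MeasurableSet.inter ?_ (MeasurableSet.inter ?_ ?_))
    · exact measurableSet_lt (measurable_llen _) measurable_const
    · exact measurableSet_SA (measurable_llen _) true _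
    · exact measurableSet_EA (measurable_llen _) true _
  rw [← exch_real hl hS]
  congr 1
  ext ℓ
  have h0 : llen ℓ l = llen (ℓ ∘ fun i : Fin l.length => (l.get i).1)
      (std l.length (l.map Prod.snd)) := by
    conv_lhs => rw [exch_std l]
    exact exch_llen_map _ ℓ _
  have h1 : ∀ s : ℝ, SA ℓ true l s ↔ SA (ℓ ∘ fun i : Fin l.length => (l.get i).1) true
      (std l.length (l.map Prod.snd)) s := by
    intro s
    have h : SA ℓ true l s ↔
        SA ℓ true ((std l.length (l.map Prod.snd)).map (Prod.map (fun i => (l.get i).1) id)) s := by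
      rw [← exch_std l]
    exact h.trans (exch_SA_map _ ℓ true _ s)
  have h2 : ∀ s : ℝ, EA ℓ true l s ↔ EA (ℓ ∘ fun i : Fin l.length => (l.get i).1) true
      (std l.length (l.map Prod.snd)) s := by
    intro s
    have h : EA ℓ true l s ↔
        EA ℓ true ((std l.length (l.map Prod.snd)).map (Prod.map (fun i => (l.get i).1) id)) s := by
      rw [← exch_std l]
    exact h.trans (exch_EA_map _ ℓ true _ s)
  change (q ∧ llen ℓ l < r ∧ SA ℓ true l (llen ℓ l) ∧ EA ℓ true l (llen ℓ l)) ↔ _
  rw [h1, h2, h0]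
  rfl

end FB
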