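import Pool.Agent.Lib.MP_fb152f_pr.Av
import Pool.Agent.Lib.MP_fb152f_pr.Exch
import Pool.Agent.Lib.MP_fb152f_pr.Weights

/-!
# AvPsi: averages of `psi` and `mr` (60 minutes)

`av_psi`: `loc` by `SA_congr` (the labels of `l ∈ cord A` are in `A`, `mem_cord`); `meas` by
`measurableSet_SA` (constant level), `measurable_ind`; `bdd`: finite sum of constants times `ind`;
`mean`: `∫ psi = ∑_{l ∈ cord A} pw v P(SA ℓ a l r)`, by `exch_SA` the summand depends only on
`l.map snd` (`l.length = A.card`), use `sum_cord_colours` and the definition of `be`.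

`av_mr`: for `A = ∅` both sides are 0 (`mk` has the factor `ind (T ≠ ∅ ∧ ..)`, `mu 0 = 0`).  For
`A ≠ ∅`: `mr ℓ r t A = ∑_{l ∈ cord A} pw t true (l.map snd) * ind (ecol true (l.map snd) = false ∧
llen ℓ l < r ∧ SA ℓ true l (llen ℓ l) ∧ EA ℓ true l (llen ℓ l))` (`slen_of_mem_cord`); then the
same, with `exch_Blk`.
-/

set_option autoImplicit false
set_option linter.unusedSectionVars false

namespace FB

open MeasureTheory

variable {ι : Type*} [DecidableEq ι] [Fintype ι]

theorem AvPsi_ind_true {p : Prop} (h : p) : ind p = 1 := by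
  unfold ind
  exact if_pos h

theorem AvPsi_ind_false {p : Prop} (h : ¬ p) : ind p = 0 := by
  unfold ind
  exact if_neg h

theorem AvPsi_abs_ind (x : ℝ) (p : Prop) : |x * ind p| ≤ |x| := by
  by_cases h : p
  · rw [AvPsi_ind_true h, mul_one]
  · rw [AvPsi_ind_false h, mul_zero, abs_zero]
    exact abs_nonneg x

theorem AvPsi_int (c : ℝ) {p : (ι → ℝ) → Prop} (hp : MeasurableSet {ℓ | p ℓ}) :
    ∫ ℓ, c * ind (p ℓ) ∂(expPi ι) = c * (expPi ι).real {ℓ | p ℓ} := by
  rw [integral_const_mul, integral_ind hp]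

theorem AvPsi_integrable (c : ℝ) {p : (ι → ℝ) → Prop} (hp : MeasurableSet {ℓ | p ℓ}) :
    Integrable (fun ℓ => c * ind (p ℓ)) (expPi ι) :=
  Integrable.of_bound (measurable_const.mul (measurable_ind hp)).aestronglyMeasurable |c|
    (Filter.Eventually.of_forall fun _ => AvPsi_abs_ind c _)

theorem AvPsi_lab {A : Finset ι} {l : List (ι × Bool)} (hl : l ∈ cord A) {ℓ ℓ' : ι → ℝ}
    (h : ∀ i ∈ A, ℓ i = ℓ' i) : ∀ s ∈ l, ℓ s.1 = ℓ' s.1 := by
  intro s hs
  refine h s.1 ?_
  rw [← (mem_cord.mp hl).2, List.mem_toFinset]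
  exact List.mem_map_of_mem hs

theorem av_psi (r t : ℝ) (a : Bool) : Av (fun ℓ : ι → ℝ => psi ℓ r t a) (beS r t a) := by
  refine ⟨fun A ℓ ℓ' hl => ?_, fun A => ?_, fun A => ?_, fun A => ?_⟩
  · unfold psi
    refine Finset.sum_congr rfl fun l hl' => ?_
    congr 2
    exact propext (SA_congr (AvPsi_lab hl' hl))
  · unfold psi
    exact Finset.measurable_sum _ fun l _ =>
      measurable_const.mul (measurable_ind (measurableSet_SA measurable_const a l))
  · refine ⟨∑ l ∈ cord A, |pw t a (l.map Prod.snd) * v t (ecol a (l.map Prod.snd))|, fun ℓ => ?_⟩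
    unfold psi
    exact (Finset.abs_sum_le_sum_abs _ _).trans (Finset.sum_le_sum fun l _ => AvPsi_abs_ind _ _)
  · unfold psi
    rw [integral_finsetSum _ fun l _ =>
      AvPsi_integrable _ (measurableSet_SA measurable_const a l)]
    have e1 : ∀ l ∈ cord A, ∫ ℓ, pw t a (l.map Prod.snd) * v t (ecol a (l.map Prod.snd)) *
        ind (SA ℓ a l r) ∂(expPi ι) = (fun cs : List Bool => pw t a cs * v t (ecol a cs) *
          (expPi (Fin A.card)).real {ℓ | SA ℓ a (std A.card cs) r}) (l.map Prod.snd) := by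
      intro l hl
      rw [AvPsi_int _ (measurableSet_SA measurable_const a l), exch_SA (mem_cord.mp hl).1 a r,
        length_of_mem_cord hl]
    refine (Finset.sum_congr rfl e1).trans ?_
    rw [sum_cord_colours A fun cs : List Bool => pw t a cs * v t (ecol a cs) *
          (expPi (Fin A.card)).real {ℓ | SA ℓ a (std A.card cs) r}]
    unfold beS
    rw [PowerSeries.coeff_mk]
    rfl

theorem AvPsi_mr {A : Finset ι} (hA : A ≠ ∅) (ℓ : ι → ℝ) (r t : ℝ) :
    mr ℓ r t A = ∑ l ∈ cord A, pw t true (l.map Prod.snd) *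
      ind (ecol true (l.map Prod.snd) = false ∧ llen ℓ l < r ∧ SA ℓ true l (llen ℓ l) ∧
        EA ℓ true l (llen ℓ l)) := by
  have hc : Compat true false := by
    rintro ⟨-, h⟩
    exact absurd h (by decide)
  unfold mr mk Pm
  rw [AvPsi_ind_true (p := A ≠ ∅ ∧ Compat true false) ⟨hA, hc⟩, one_mul, Finset.mul_sum]
  refine Finset.sum_congr rfl fun l hl => ?_
  rw [slen_of_mem_cord ℓ hl]
  by_cases h : slen ℓ A < r
  · rw [AvPsi_ind_true h, one_mul]
    congr 2
    apply propext
    constructor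
    · rintro ⟨h1, h2, h3⟩
      exact ⟨h1, h, h2, h3⟩
    · rintro ⟨h1, -, h2, h3⟩
      exact ⟨h1, h2, h3⟩
  · rw [AvPsi_ind_false h, AvPsi_ind_false (p := _ ∧ slen ℓ A < r ∧ _) (fun h1 => h h1.2.1)]
    ring

theorem AvPsi_mr_empty (ℓ : ι → ℝ) (r t : ℝ) : mr ℓ r t ∅ = 0 := by
  unfold mr mk
  rw [AvPsi_ind_false (p := (∅ : Finset ι) ≠ ∅ ∧ _) (fun h => h.1 rfl), zero_mul, mul_zero]

theorem AvPsi_meas (r : ℝ) (q : Prop) (l : List (ι × Bool)) :
    MeasurableSet {ℓ : ι → ℝ | q ∧ llen ℓ l < r ∧ SA ℓ true l (llen ℓ l) ∧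
      EA ℓ true l (llen ℓ l)} := by
  refine (MeasurableSet.const q).inter (MeasurableSet.inter ?_ (MeasurableSet.inter ?_ ?_))
  · exact measurableSet_lt (measurable_llen l) measurable_const
  · exact measurableSet_SA (measurable_llen l) true l
  · exact measurableSet_EA (measurable_llen l) true l

theorem av_mr (r t : ℝ) : Av (fun ℓ : ι → ℝ => mr ℓ r t) (muS r t) := by
  refine ⟨fun A ℓ ℓ' hl => ?_, fun A => ?_, fun A => ?_, fun A => ?_⟩
  · by_cases hA : A = ∅
    · subst hA
      rw [AvPsi_mr_empty, AvPsi_mr_empty]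
    · rw [AvPsi_mr hA, AvPsi_mr hA]
      refine Finset.sum_congr rfl fun l hl' => ?_
      have h1 := AvPsi_lab hl' hl
      have e1 : (ecol true (l.map Prod.snd) = false ∧ llen ℓ l < r ∧ SA ℓ true l (llen ℓ l) ∧
        EA ℓ true l (llen ℓ l)) = (ecol true (l.map Prod.snd) = false ∧ llen ℓ' l < r ∧
          SA ℓ' true l (llen ℓ' l) ∧ EA ℓ' true l (llen ℓ' l)) := by
        rw [llen_congr h1]
        apply propext
        rw [SA_congr h1, EA_congr h1]
      rw [e1]
  · by_cases hA : A = ∅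
    · subst hA
      simp only [AvPsi_mr_empty]
      exact measurable_const
    · simp only [AvPsi_mr hA]
      exact Finset.measurable_sum _ fun l _ =>
        measurable_const.mul (measurable_ind (AvPsi_meas r _ l))
  · by_cases hA : A = ∅
    · subst hA
      refine ⟨0, fun ℓ => ?_⟩
      rw [AvPsi_mr_empty, abs_zero]
    · refine ⟨∑ l ∈ cord A, |pw t true (l.map Prod.snd)|, fun ℓ => ?_⟩
      rw [AvPsi_mr hA]
      exact (Finset.abs_sum_le_sum_abs _ _).trans (Finset.sum_le_sum fun l _ => AvPsi_abs_ind _ _)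
  · by_cases hA : A = ∅
    · subst hA
      simp only [AvPsi_mr_empty]
      rw [integral_zero]
      unfold muS
      rw [PowerSeries.coeff_mk]
      unfold mu
      symm
      apply mul_eq_zero_of_right
      refine Finset.sum_eq_zero fun cs _ => ?_
      have e1 : {ℓ : Fin (∅ : Finset ι).card → ℝ | (∅ : Finset ι).card ≠ 0 ∧
          ecol true cs = false ∧ llen ℓ (std (∅ : Finset ι).card cs) < r ∧
          SA ℓ true (std (∅ : Finset ι).card cs) (llen ℓ (std (∅ : Finset ι).card cs)) ∧
          EA ℓ true (std (∅ : Finset ι).card cs) (llen ℓ (std (∅ : Finset ι).card cs))} = ∅ :=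
        Set.eq_empty_iff_forall_notMem.mpr fun ℓ h => h.1 Finset.card_empty
      rw [e1, measureReal_empty, mul_zero]
    · have hn : A.card ≠ 0 := fun h => hA (Finset.card_eq_zero.mp h)
      simp only [AvPsi_mr hA]
      rw [integral_finsetSum _ fun l _ => AvPsi_integrable _ (AvPsi_meas r _ l)]
      have e1 : ∀ l ∈ cord A, ∫ ℓ, pw t true (l.map Prod.snd) *
          ind (ecol true (l.map Prod.snd) = false ∧ llen ℓ l < r ∧ SA ℓ true l (llen ℓ l) ∧
            EA ℓ true l (llen ℓ l)) ∂(expPi ι) = (fun cs : List Bool => pw t true cs *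
            (expPi (Fin A.card)).real {ℓ | A.card ≠ 0 ∧ ecol true cs = false ∧
              llen ℓ (std A.card cs) < r ∧ SA ℓ true (std A.card cs) (llen ℓ (std A.card cs)) ∧
              EA ℓ true (std A.card cs) (llen ℓ (std A.card cs))}) (l.map Prod.snd) := by
        intro l hl
        rw [AvPsi_int _ (AvPsi_meas r _ l),
          exch_Blk (mem_cord.mp hl).1 (ecol true (l.map Prod.snd) = false) r,
          length_of_mem_cord hl]
        simp only [ne_eq, hn, not_false_eq_true, true_and]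
      refine (Finset.sum_congr rfl e1).trans ?_
      rw [sum_cord_colours A fun cs : List Bool => pw t true cs *
            (expPi (Fin A.card)).real {ℓ | A.card ≠ 0 ∧ ecol true cs = false ∧
              llen ℓ (std A.card cs) < r ∧ SA ℓ true (std A.card cs) (llen ℓ (std A.card cs)) ∧
              EA ℓ true (std A.card cs) (llen ℓ (std A.card cs))}]
      unfold muS
      rw [PowerSeries.coeff_mk]
      rfl

end FB
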