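import Pool.Agent.Lib.MP_fb152f_pr.SepSF
import Pool.Agent.Lib.MP_fb152f_pr.AvPsi
import Pool.Agent.Lib.MP_fb152f_pr.GenAE

/-!
# AvSep: living red points are sparse, averages (40 minutes)

Integrate `sep_sf` (`ι = Fin n`, `S = univ`) over `expPi (Fin n)`: `Av.mul av_psi av_psi`, and
the mean of `slen ℓ univ` is `n` because the mean of `expMeasure 1` is 1 (`∫ x e^{-x} dx = 1`,
Gamma function; `integral_rpow_mul_exp_neg_mul_Ioi` or an inequality `≤ 1` from a layer cake
formula).  Divide by `n!`.
-/

set_option autoImplicit false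

namespace FB

open MeasureTheory ProbabilityTheory

theorem AvSep_pdf (x : ℝ) : (gammaPDF 1 1 x).toReal • x =
    (Set.Ioi (0 : ℝ)).indicator (fun x => Real.exp (-x) * x ^ ((2 : ℝ) - 1)) x := by
  rcases lt_trichotomy x 0 with h | h | h
  · have hn : x ∉ Set.Ioi (0 : ℝ) := fun h' => absurd h (not_lt.2 (le_of_lt (Set.mem_Ioi.1 h')))
    rw [gammaPDF_of_neg h, Set.indicator_of_notMem hn]
    simp
  · subst h
    simp
  · rw [Set.indicator_of_mem (show x ∈ Set.Ioi (0 : ℝ) from h), gammaPDF_of_nonneg h.le]
    have h1 : (2 : ℝ) - 1 = 1 := by norm_num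
    rw [h1, Real.rpow_one, ENNReal.toReal_ofReal]
    · simp
    · simp
      positivity

theorem mean_exp : Integrable (fun x : ℝ => x) (expMeasure 1) ∧ ∫ x, x ∂(expMeasure 1) = 1 := by
  have hm : Measurable (gammaPDF 1 1) := (measurable_gammaPDFReal 1 1).ennreal_ofReal
  have hlt : ∀ᵐ x ∂(volume : Measure ℝ), gammaPDF 1 1 x < ⊤ :=
    Filter.Eventually.of_forall fun x => by
      rw [gammaPDF_eq]
      exact ENNReal.ofReal_lt_top
  have hint : IntegrableOn (fun x : ℝ => Real.exp (-x) * x ^ ((2 : ℝ) - 1)) (Set.Ioi 0) :=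
    Real.GammaIntegral_convergent (by norm_num)
  unfold expMeasure gammaMeasure
  constructor
  · rw [integrable_withDensity_iff_integrable_smul' hm hlt]
    rw [← integrable_indicator_iff measurableSet_Ioi] at hint
    refine hint.congr (Filter.Eventually.of_forall fun x => ?_)
    exact (AvSep_pdf x).symm
  · rw [integral_withDensity_eq_integral_toReal_smul hm hlt]
    rw [integral_congr_ae (Filter.Eventually.of_forall fun x => AvSep_pdf x),
      integral_indicator measurableSet_Ioi, ← Real.Gamma_eq_integral (by norm_num : (0 : ℝ) < 2)]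
    exact Real.Gamma_two

theorem be_sep (n : ℕ) {r : ℝ} (hr : 0 < r) {t : ℝ} (ht : t ∈ Set.Icc 0 (Real.pi / 2)) :
    PowerSeries.coeff n (beS r t false * beS r t false) ≤ 1 + (n : ℝ) / r := by
  have hAv := (av_psi (ι := Fin n) r t false).mul (av_psi (ι := Fin n) r t false)
  have hmean := hAv.mean Finset.univ
  have hcard : (Finset.univ : Finset (Fin n)).card = n := by simp
  rw [hcard] at hmean
  have hcoord : ∀ i : Fin n, Integrable (fun ℓ : Fin n → ℝ => ℓ i) (expPi (Fin n)) ∧
      ∫ ℓ, ℓ i ∂(expPi (Fin n)) = 1 := by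
    intro i
    have hMP : MeasurePreserving (Function.eval i) (expPi (Fin n)) (expMeasure 1) :=
      measurePreserving_eval (fun _ : Fin n => expMeasure 1) i
    constructor
    · exact (hMP.integrable_comp mean_exp.1.aestronglyMeasurable).2 mean_exp.1
    · have h1 := integral_map (μ := expPi (Fin n)) hMP.measurable.aemeasurable
        (f := fun x : ℝ => x) (by rw [hMP.map_eq]; exact mean_exp.1.aestronglyMeasurable)
      rw [hMP.map_eq, mean_exp.2] at h1
      exact h1.symm
  have hslen : Integrable (fun ℓ : Fin n → ℝ => slen ℓ Finset.univ) (expPi (Fin n)) ∧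
      ∫ ℓ, slen ℓ Finset.univ ∂(expPi (Fin n)) = n := by
    constructor
    · unfold slen
      exact integrable_finsetSum _ fun i _ => (hcoord i).1
    · unfold slen
      rw [integral_finsetSum _ fun i _ => (hcoord i).1, Finset.sum_congr rfl fun i _ =>
        (hcoord i).2]
      simp
  have hle : ∫ ℓ, (psi ℓ r t false * psi ℓ r t false) (Finset.univ : Finset (Fin n))
      ∂(expPi (Fin n)) ≤ ∫ ℓ : Fin n → ℝ, (n.factorial : ℝ) * (1 + slen ℓ Finset.univ / r)
      ∂(expPi (Fin n)) := by
    refine integral_mono_ae (hAv.integrable Finset.univ) ?_ ?_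
    · exact (((integrable_const 1).add (hslen.1.div_const r)).const_mul _)
    · filter_upwards [ae_generic (Fin n)] with ℓ hℓ
      have h2 := sep_sf hℓ.1 hr ht (Finset.univ : Finset (Fin n))
      rw [hcard] at h2
      exact h2
  have hright : ∫ ℓ : Fin n → ℝ, (n.factorial : ℝ) * (1 + slen ℓ Finset.univ / r)
      ∂(expPi (Fin n)) = (n.factorial : ℝ) * (1 + (n : ℝ) / r) := by
    rw [integral_const_mul, integral_add (integrable_const 1) (hslen.1.div_const r),
      integral_div, hslen.2]
    simp
  rw [hright] at hle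
  have hpos : (0 : ℝ) < n.factorial := by exact_mod_cast n.factorial_pos
  have h3 : (n.factorial : ℝ) * PowerSeries.coeff n (beS r t false * beS r t false) ≤
      (n.factorial : ℝ) * (1 + (n : ℝ) / r) := by
    rw [← hmean]
    exact hle
  exact le_of_mul_le_mul_left h3 hpos

end FB
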