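import Pool.Agent.Lib.MP_fb152f_pr.AvPsi
import Pool.Agent.Lib.MP_fb152f_pr.Base

/-!
# AvSwap: exchange of the integrals over `t` and over the gaps, uniform bounds (60 minutes)

`swap_avg`: `H` is jointly measurable (`measurable_uncurry_of_continuous_of_measurable`) and
bounded, so it is integrable on `(volume.restrict (Ioc t1 t2)) × expPi ι`;
`MeasureTheory.integral_integral_swap`, `intervalIntegral.integral_of_le`.

Bounds: `|pw t a cs| ≤ 1`, `|v t a| ≤ 1`, `0 ≤ ind ≤ 1`, so `|psi S| ≤ (cord S).card` and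
`|mr S| ≤ (cord S).card`.  `UB` (uniformly bounded families of set functions) is closed under
products, sums, differences.
-/

set_option autoImplicit false
set_option linter.unusedSectionVars false

namespace FB

open MeasureTheory

variable {ι : Type*} [DecidableEq ι]

theorem swap_avg [Fintype ι] {H : ℝ → (ι → ℝ) → ℝ} (hc : ∀ ℓ, Continuous fun t => H t ℓ)
    (hm : ∀ t, Measurable (H t)) (hb : ∃ C, ∀ t ℓ, |H t ℓ| ≤ C) {t1 t2 : ℝ} (h12 : t1 ≤ t2) :
    Integrable (fun ℓ => ∫ t in t1..t2, H t ℓ) (expPi ι) ∧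
    ∫ ℓ, (∫ t in t1..t2, H t ℓ) ∂(expPi ι) = ∫ t in t1..t2, (∫ ℓ, H t ℓ ∂(expPi ι)) := by
  obtain ⟨C, hC⟩ := hb
  have hmeas : Measurable (Function.uncurry H) :=
    measurable_uncurry_of_continuous_of_measurable hc hm
  have hint : Integrable (Function.uncurry H)
      ((volume.restrict (Set.Ioc t1 t2)).prod (expPi ι)) :=
    Integrable.of_bound hmeas.aestronglyMeasurable C
      (Filter.Eventually.of_forall fun x => hC x.1 x.2)
  constructor
  · have h1 := hint.integral_prod_right
    refine h1.congr (Filter.Eventually.of_forall fun ℓ => ?_)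
    simp only [intervalIntegral.integral_of_le h12, Function.uncurry_apply_pair]
  · rw [intervalIntegral.integral_of_le h12]
    have h2 := integral_integral_swap hint
    simp only [intervalIntegral.integral_of_le h12]
    exact h2.symm

/-- Uniformly bounded. -/
def UB {κ : Type*} (G : κ → SF ι) : Prop := ∀ S, ∃ C, ∀ k, |G k S| ≤ C

theorem UB.mul {κ : Type*} {G H : κ → SF ι} (hG : UB G) (hH : UB H) :
    UB (fun k => G k * H k) := by
  intro S
  choose C hC using hG
  choose D hD using hH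
  refine ⟨∑ B ∈ S.powerset, C B * D (S \ B), fun k => ?_⟩
  show |(G k * H k) S| ≤ _
  rw [SF.mul_apply]
  refine (Finset.abs_sum_le_sum_abs _ _).trans (Finset.sum_le_sum fun B _ => ?_)
  rw [abs_mul]
  exact mul_le_mul (hC B k) (hD _ k) (abs_nonneg _) ((abs_nonneg _).trans (hC B k))

theorem UB.add {κ : Type*} {G H : κ → SF ι} (hG : UB G) (hH : UB H) :
    UB (fun k => G k + H k) := by
  intro S
  obtain ⟨C, hC⟩ := hG S
  obtain ⟨D, hD⟩ := hH S
  exact ⟨C + D, fun k => (abs_add_le _ _).trans (add_le_add (hC k) (hD k))⟩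

theorem UB.const {κ : Type*} (G : SF ι) : UB (fun _ : κ => G) :=
  fun S => ⟨|G S|, fun _ => le_rfl⟩

theorem AvSwap_v (t : ℝ) (a : Bool) : |v t a| ≤ 1 := by
  unfold v
  split_ifs
  · exact Real.abs_sin_le_one t
  · exact Real.abs_cos_le_one t

theorem AvSwap_pw (t : ℝ) (a : Bool) (cs : List Bool) : |pw t a cs| ≤ 1 := by
  induction cs generalizing a with
  | nil =>
    show |(1 : ℝ)| ≤ 1
    rw [abs_one]
  | cons b cs ih =>
    show |v t a * v t b * pw t b cs| ≤ 1
    rw [abs_mul, abs_mul]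
    have h1 := AvSwap_v t a
    have h2 := AvSwap_v t b
    have h3 := ih b
    have h4 := abs_nonneg (v t a)
    have h5 := abs_nonneg (v t b)
    have h6 := abs_nonneg (pw t b cs)
    exact mul_le_one₀ (mul_le_one₀ h1 h5 h2) h6 h3

theorem AvSwap_ind (x : ℝ) (p : Prop) : |x * ind p| ≤ |x| := by
  unfold ind
  split_ifs
  · rw [mul_one]
  · rw [mul_zero, abs_zero]
    exact abs_nonneg x

theorem AvSwap_ind' (p : Prop) (x : ℝ) : |ind p * x| ≤ |x| := by
  rw [mul_comm]
  exact AvSwap_ind x p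

theorem ub_psi (r : ℝ) (a : Bool) : UB (fun k : (ι → ℝ) × ℝ => psi k.1 r k.2 a) := by
  intro S
  refine ⟨∑ _l ∈ cord S, 1, fun k => ?_⟩
  unfold psi
  refine (Finset.abs_sum_le_sum_abs _ _).trans (Finset.sum_le_sum fun l _ => ?_)
  refine (AvSwap_ind _ _).trans ?_
  rw [abs_mul]
  exact mul_le_one₀ (AvSwap_pw _ _ _) (abs_nonneg _) (AvSwap_v _ _)

theorem ub_mr (r : ℝ) : UB (fun k : (ι → ℝ) × ℝ => mr k.1 r k.2) := by
  intro S
  refine ⟨∑ _l ∈ cord S, 1, fun k => ?_⟩
  unfold mr mk Pm
  refine (AvSwap_ind' _ _).trans ((AvSwap_ind' _ _).trans ?_)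
  refine (Finset.abs_sum_le_sum_abs _ _).trans (Finset.sum_le_sum fun l _ => ?_)
  exact (AvSwap_ind _ _).trans (AvSwap_pw _ _ _)

/-- Coefficientwise continuity is preserved by products. -/
theorem continuous_sf_mul {f g : ℝ → SF ι} (hf : ∀ S, Continuous fun t => f t S)
    (hg : ∀ S, Continuous fun t => g t S) (S : Finset ι) :
    Continuous fun t => (f t * g t) S := by
  simp only [SF.mul_apply]
  exact continuous_finsetSum _ fun A _ => (hf A).mul (hg (S \ A))

end FB
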