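import Pool.Agent.Lib.MP_fb152f_pr.Alive1

/-!
# Barrier: a point which is alive before `r` separates its two sides up to the level `r`
(60 minutes)

`W` finite, `x` strictly increasing on `W`, `k ∈ W`, `Wp = {j ∈ W : k ≤ j}`,
`Wm = {j ∈ W : j ≤ k}`.

(1) `barrier_right`.  Assume `alive x c W r k`.  Then for `r' ≤ r` and `i ∈ Wp`:
`alive x c W r' i ↔ alive x c Wp r' i`.  Use `alive_unique` on `Wp` with
`A r' i := alive x c W r' i` and `r0 = r`: one has to show that in the recursion of `alive x c W`
at `i ∈ Wp`, level `r' ≤ r`, the points `j ∈ W`, `j < k` give no condition, i.e. if `j < k`,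
`j ∈ W`, `Compat (c i) (c j)`, `d = |x i - x j| < r'` then not both `i` and `j` are alive (in `W`)
before `d`.  If `i = k` this is the recursion for the alive point `k` at level `r`.  If `k < i`:
put `d1 = |x j - x k| < d`, `d2 = |x k - x i| < d` (strict monotonicity).  Suppose `i, j` alive
before `d`; `k` is alive before `r > d`.  By `alive_anti` all three are alive before `d1` and `d2`.
If `Compat (c j) (c k)`, the recursion for `k` at level `r` with the point `j` is violated.  So `j`
and `k` are both blue, hence `i` is red, hence `Compat (c k) (c i)`, and the recursion for `k` at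
level `r` with the point `i` is violated.

(2) `barrier_left` is the mirror image (same proof, or apply (1) in `OrderDual` with `-x`).

(3) `barrier_iff`: `→` is (1), (2) for `i = k`.  `←`: if `k` is not alive in `W` before `r`, take
(recursion) `j ∈ W`, `j ≠ k`, `Compat (c k) (c j)`, `d = |x k - x j| < r`, `k` and `j` alive in `W`
before `d`.  Say `k < j`.  By (1) with level `d`: `k` and `j` are alive in `Wp` before `d`; this
contradicts the recursion for `k` in `Wp` at level `r`.
-/

set_option autoImplicit false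

namespace FB

variable {ι : Type*} [LinearOrder ι]

theorem barrier_right {x : ι → ℝ} {c : ι → Bool} {W : Finset ι}
    (hx : StrictMonoOn x (W : Set ι)) {r : ℝ} {k : ι} (hk : k ∈ W) (ha : alive x c W r k)
    {r' : ℝ} (hr : r' ≤ r) {i : ι} (hi : i ∈ W) (hki : k ≤ i) :
    alive x c W r' i ↔ alive x c (W.filter (k ≤ ·)) r' i := by
  refine alive_unique (x := x) (c := c) (W := W.filter (k ≤ ·)) (r0 := r)
    (A := fun r i => alive x c W r i) ?_ r' hr i (Finset.mem_filter.mpr ⟨hi, hki⟩)
  intro s hs i hi
  obtain ⟨hi, hki⟩ := Finset.mem_filter.mp hi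
  refine (alive_iff hi).trans ⟨?_, ?_⟩
  · intro h j hj
    exact h j (Finset.mem_filter.mp hj).1
  · intro h j hj hji hc hd hcon
    by_cases hkj : k ≤ j
    · exact h j (Finset.mem_filter.mpr ⟨hj, hkj⟩) hji hc hd hcon
    push Not at hkj
    have hkr := (alive_iff hk).mp ha
    rcases hki.eq_or_lt with rfl | hki
    · exact hkr j hj hji hc (hd.trans_le hs) hcon
    · have e1 : x j < x k := hx hj hk hkj
      have e2 : x k < x i := hx hk hi hki
      have e3 : |x i - x j| = x i - x j := abs_of_pos (by linarith)
      have e4 : |x k - x j| = x k - x j := abs_of_pos (by linarith)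
      have e5 : |x k - x i| = x i - x k := by rw [abs_sub_comm]; exact abs_of_pos (by linarith)
      rw [e3] at hd hcon
      by_cases hc1 : Compat (c k) (c j)
      · refine hkr j hj (ne_of_lt hkj) hc1 (by rw [e4]; linarith) ⟨?_, ?_⟩
        · exact alive_anti hk (by rw [e4]; linarith) ha
        · exact alive_anti hj (by rw [e4]; linarith) hcon.2
      · refine hkr i hi (ne_of_gt hki) ?_ (by rw [e5]; linarith) ⟨?_, ?_⟩
        · intro hh
          apply hc1
          intro hh2
          exact hc ⟨hh.2, hh2.2⟩
        · exact alive_anti hk (by rw [e5]; linarith) ha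
        · exact alive_anti hi (by rw [e5]; linarith) hcon.1

theorem barrier_left {x : ι → ℝ} {c : ι → Bool} {W : Finset ι}
    (hx : StrictMonoOn x (W : Set ι)) {r : ℝ} {k : ι} (hk : k ∈ W) (ha : alive x c W r k)
    {r' : ℝ} (hr : r' ≤ r) {i : ι} (hi : i ∈ W) (hki : i ≤ k) :
    alive x c W r' i ↔ alive x c (W.filter (· ≤ k)) r' i := by
  refine alive_unique (x := x) (c := c) (W := W.filter (· ≤ k)) (r0 := r)
    (A := fun r i => alive x c W r i) ?_ r' hr i (Finset.mem_filter.mpr ⟨hi, hki⟩)
  intro s hs i hi
  obtain ⟨hi, hki⟩ := Finset.mem_filter.mp hi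
  refine (alive_iff hi).trans ⟨?_, ?_⟩
  · intro h j hj
    exact h j (Finset.mem_filter.mp hj).1
  · intro h j hj hji hc hd hcon
    by_cases hkj : j ≤ k
    · exact h j (Finset.mem_filter.mpr ⟨hj, hkj⟩) hji hc hd hcon
    push Not at hkj
    have hkr := (alive_iff hk).mp ha
    rcases hki.eq_or_lt with rfl | hki
    · exact hkr j hj hji hc (hd.trans_le hs) hcon
    · have e1 : x k < x j := hx hk hj hkj
      have e2 : x i < x k := hx hi hk hki
      have e3 : |x i - x j| = x j - x i := by rw [abs_sub_comm]; exact abs_of_pos (by linarith)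
      have e4 : |x k - x j| = x j - x k := by rw [abs_sub_comm]; exact abs_of_pos (by linarith)
      have e5 : |x k - x i| = x k - x i := abs_of_pos (by linarith)
      rw [e3] at hd hcon
      by_cases hc1 : Compat (c k) (c j)
      · refine hkr j hj (ne_of_gt hkj) hc1 (by rw [e4]; linarith) ⟨?_, ?_⟩
        · exact alive_anti hk (by rw [e4]; linarith) ha
        · exact alive_anti hj (by rw [e4]; linarith) hcon.2
      · refine hkr i hi (ne_of_lt hki) ?_ (by rw [e5]; linarith) ⟨?_, ?_⟩
        · intro hh
          apply hc1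
          intro hh2
          exact hc ⟨hh.2, hh2.2⟩
        · exact alive_anti hk (by rw [e5]; linarith) ha
        · exact alive_anti hi (by rw [e5]; linarith) hcon.1

theorem barrier_iff {x : ι → ℝ} {c : ι → Bool} {W : Finset ι}
    (hx : StrictMonoOn x (W : Set ι)) {r : ℝ} {k : ι} (hk : k ∈ W) :
    alive x c W r k ↔ alive x c (W.filter (· ≤ k)) r k ∧ alive x c (W.filter (k ≤ ·)) r k := by
  constructor
  · intro h
    exact ⟨(barrier_left hx hk h le_rfl hk le_rfl).mp h,
      (barrier_right hx hk h le_rfl hk le_rfl).mp h⟩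
  · rintro ⟨h1, h2⟩
    rw [alive_iff hk]
    intro j hj hjk hc hd hcon
    rcases lt_or_gt_of_ne hjk with hlt | hgt
    · have hk' : k ∈ W.filter (· ≤ k) := Finset.mem_filter.mpr ⟨hk, le_rfl⟩
      have hj' : j ∈ W.filter (· ≤ k) := Finset.mem_filter.mpr ⟨hj, hlt.le⟩
      refine (alive_iff hk').mp h1 j hj' hjk hc hd ⟨?_, ?_⟩
      · exact (barrier_left hx hk hcon.1 le_rfl hk le_rfl).mp hcon.1
      · exact (barrier_left hx hk hcon.1 le_rfl hj hlt.le).mp hcon.2
    · have hk' : k ∈ W.filter (k ≤ ·) := Finset.mem_filter.mpr ⟨hk, le_rfl⟩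
      have hj' : j ∈ W.filter (k ≤ ·) := Finset.mem_filter.mpr ⟨hj, hgt.le⟩
      refine (alive_iff hk').mp h2 j hj' hjk hc hd ⟨?_, ?_⟩
      · exact (barrier_right hx hk hcon.1 le_rfl hk le_rfl).mp hcon.1
      · exact (barrier_right hx hk hcon.1 le_rfl hj hgt.le).mp hcon.2

end FB
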