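import Pool.Agent.Lib.MP_fb152f_pr.Exch
import Pool.Agent.Lib.MP_fb152f_pr.Weights

/-!
# SeqBe: the averages as probabilities (75 minutes)

`be n r t a = v t a * qq a n r (sin t ^ 2)`.
-/

set_option autoImplicit false

namespace FB

open MeasureTheory

theorem seqbe_colour_one {p : ℝ} (hp : p ∈ Set.Icc (0 : ℝ) 1) : (colourLaw p) Set.univ = 1 := by
  unfold colourLaw
  rw [Measure.add_apply, Measure.smul_apply, Measure.smul_apply, measure_univ, measure_univ,
    smul_eq_mul, smul_eq_mul, mul_one, mul_one, ← ENNReal.ofReal_add hp.1 (sub_nonneg.mpr hp.2),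
    add_sub_cancel, ENNReal.ofReal_one]

theorem isProb_colourLaw {p : ℝ} (hp : p ∈ Set.Icc (0 : ℝ) 1) :
    IsProbabilityMeasure (colourLaw p) := ⟨seqbe_colour_one hp⟩

theorem isProb_stepLaw {p : ℝ} (hp : p ∈ Set.Icc (0 : ℝ) 1) :
    IsProbabilityMeasure (stepLaw p) := by
  have := isProb_colourLaw hp
  unfold stepLaw
  infer_instance

theorem isProb_seqLaw {p : ℝ} (hp : p ∈ Set.Icc (0 : ℝ) 1) :
    IsProbabilityMeasure (seqLaw p) := by
  have := isProb_stepLaw hp
  unfold seqLaw
  infer_instance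

theorem seqbe_colour_apply (p : ℝ) (b : Bool) :
    (colourLaw p) {b} = ENNReal.ofReal (if b = true then p else 1 - p) := by
  unfold colourLaw
  rw [Measure.add_apply, Measure.smul_apply, Measure.smul_apply,
    Measure.dirac_apply, Measure.dirac_apply]
  cases b <;> simp

theorem seqbe_aliveN_congr {ι : Type*} {x x' : ι → ℝ} {c c' : ι → Bool} {W : Finset ι}
    (hx : ∀ i ∈ W, x i = x' i) (hc : ∀ i ∈ W, c i = c' i) (n : ℕ) :
    ∀ r : ℝ, ∀ i ∈ W, (aliveN x c W n r i ↔ aliveN x' c' W n r i) := by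
  induction n with
  | zero => intro r i _; exact Iff.rfl
  | succ n ih =>
    intro r i hi
    show (∀ j ∈ W, j ≠ i → Compat (c i) (c j) → |x i - x j| < r →
      ¬ (aliveN x c W n |x i - x j| i ∧ aliveN x c W n |x i - x j| j)) ↔
      (∀ j ∈ W, j ≠ i → Compat (c' i) (c' j) → |x' i - x' j| < r →
      ¬ (aliveN x' c' W n |x' i - x' j| i ∧ aliveN x' c' W n |x' i - x' j| j))
    refine forall₂_congr fun j hj => ?_
    rw [hx i hi, hx j hj, hc i hi, hc j hj, ih _ i hi, ih _ j hj]

theorem seqbe_alive_congr {ι : Type*} {x x' : ι → ℝ} {c c' : ι → Bool} {W : Finset ι}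
    (hx : ∀ i ∈ W, x i = x' i) (hc : ∀ i ∈ W, c i = c' i) (r : ℝ) {i : ι} (hi : i ∈ W) :
    alive x c W r i ↔ alive x' c' W r i := seqbe_aliveN_congr hx hc _ r i hi

theorem seqbe_ecol_append (a b : Bool) (l : List Bool) : ecol a (l ++ [b]) = b := by
  induction l generalizing a with
  | nil => rfl
  | cons c l ih => exact ih c

theorem seqbe_lpos (ω : ℕ → ℝ × Bool) {n : ℕ} {cs : List Bool} (hcs : cs.length = n) {k : ℕ}
    (hk : k ≤ n) : lpos (fun i : Fin n => (ω i).1) (std n cs) k = spos ω k := by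
  have hfst : (std n cs).map (fun s => (ω (s.1 : ℕ)).1) =
      (List.range n).map fun i => (ω i).1 := by
    have h1 : (std n cs).map (fun s => (ω (s.1 : ℕ)).1) =
        (((std n cs).map Prod.fst).map Fin.val).map fun i => (ω i).1 := by
      rw [List.map_map, List.map_map]
      rfl
    rw [h1]
    unfold std
    rw [List.map_fst_zip (by simp [hcs]), List.map_coe_finRange_eq_range]
  unfold lpos spos
  rw [List.map_take, hfst, ← List.map_take, List.take_range, min_eq_left hk]
  clear hk
  induction k with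
  | zero => simp
  | succ k ih =>
    rw [List.range_succ, List.map_append, List.sum_append, ih, Finset.sum_range_succ]
    simp

theorem seqbe_lcol (a : Bool) (ω : ℕ → ℝ × Bool) {n : ℕ} {cs : List Bool} (hcs : cs.length = n)
    (hω : ∀ i (hi : i < cs.length), (ω i).2 = cs[i]) {k : ℕ}
    (hk : k ≤ n) : lcol a (std n cs) k = scol a ω k := by
  have hsnd : (std n cs).map Prod.snd = cs := by
    unfold std
    rw [List.map_snd_zip (by simp [hcs])]
  unfold lcol
  rw [List.map_take, hsnd]
  cases k with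
  | zero => simp [ecol, scol]
  | succ k =>
    have hk' : k < cs.length := by omega
    rw [List.take_succ_eq_append_getElem hk', seqbe_ecol_append, ← hω k hk']
    rfl

theorem seqbe_event (a : Bool) (ω : ℕ → ℝ × Bool) {n : ℕ} {cs : List Bool}
    (hcs : cs.length = n) (hω : ∀ i (hi : i < cs.length), (ω i).2 = cs[i]) (r : ℝ) :
    SAs a ω n r ↔ SA (fun i : Fin n => (ω i).1) a (std n cs) r := by
  have hlen : (std n cs).length = n := by
    unfold std
    simp [hcs]
  unfold SAs SA aliveL
  rw [hlen]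
  refine (seqbe_alive_congr (fun i hi => ?_) (fun i hi => ?_) r (by simp)).symm
  · exact seqbe_lpos ω hcs (by have := Finset.mem_range.mp hi; omega)
  · exact seqbe_lcol a ω hcs hω (by have := Finset.mem_range.mp hi; omega)

/-- The first `n` coordinates. -/
theorem seqbe_map_fin {p : ℝ} (hp : p ∈ Set.Icc (0 : ℝ) 1) (n : ℕ) :
    (seqLaw p).map (fun ω => fun i : Fin n => ω i) = Measure.pi fun _ : Fin n => stepLaw p := by
  have := isProb_stepLaw hp
  have hm : Measurable fun ω : ℕ → ℝ × Bool => fun i : Fin n => ω i := by fun_prop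
  refine (Measure.pi_eq fun s hs => ?_).symm
  rw [Measure.map_apply hm (MeasurableSet.univ_pi hs)]
  have hpre : (fun ω : ℕ → ℝ × Bool => fun i : Fin n => ω i) ⁻¹' Set.univ.pi s =
      Set.pi (Finset.range n : Finset ℕ) (fun i => if h : i < n then s ⟨i, h⟩ else Set.univ) := by
    ext ω
    simp only [Set.mem_preimage, Set.mem_pi, Set.mem_univ, true_imp_iff, Finset.mem_coe,
      Finset.mem_range]
    constructor
    · intro h i hi
      rw [dif_pos hi]
      exact h ⟨i, hi⟩
    · intro h i
      have := h i i.2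
      rwa [dif_pos i.2] at this
  rw [hpre]
  unfold seqLaw
  rw [Measure.infinitePi_pi]
  · rw [Finset.prod_range]
    refine Finset.prod_congr rfl fun i _ => ?_
    rw [dif_pos i.2]
  · intro i _
    by_cases h : i < n
    · rw [dif_pos h]
      exact hs _
    · rw [dif_neg h]
      exact MeasurableSet.univ

theorem seqbe_measure {p : ℝ} (hp : p ∈ Set.Icc (0 : ℝ) 1) {n : ℕ} (e : Fin n → Bool)
    {A : Set (Fin n → ℝ)} (hA : MeasurableSet A) :
    (seqLaw p) {ω | (fun i : Fin n => (ω i).1) ∈ A ∧ (fun i : Fin n => (ω i).2) = e} =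
      expPi (Fin n) A * ∏ i, ENNReal.ofReal (if e i = true then p else 1 - p) := by
  have := isProb_colourLaw hp
  have := isProb_stepLaw hp
  have h1 := measurePreserving_arrowProdEquivProdArrow ℝ Bool (Fin n)
    (fun _ => ProbabilityTheory.expMeasure 1) (fun _ => colourLaw p)
  have hm : Measurable fun ω : ℕ → ℝ × Bool => fun i : Fin n => ω i := by fun_prop
  have hset : {ω : ℕ → ℝ × Bool | (fun i : Fin n => (ω i).1) ∈ A ∧
      (fun i : Fin n => (ω i).2) = e} = (fun ω : ℕ → ℝ × Bool => fun i : Fin n => ω i) ⁻¹'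
      ((MeasurableEquiv.arrowProdEquivProdArrow ℝ Bool (Fin n)) ⁻¹' (A ×ˢ {e})) := by
    ext ω
    rfl
  have hAe : MeasurableSet (A ×ˢ ({e} : Set (Fin n → Bool))) :=
    hA.prod (MeasurableSet.singleton e)
  rw [hset, ← Measure.map_apply hm (h1.measurable hAe), seqbe_map_fin hp n]
  have h2 := h1.measure_preimage hAe.nullMeasurableSet
  unfold stepLaw
  rw [h2, Measure.prod_prod]
  unfold expPi
  congr 1
  rw [Measure.pi_singleton]
  refine Finset.prod_congr rfl fun i _ => ?_
  exact seqbe_colour_apply p (e i)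

theorem qq_eq_sum {p : ℝ} (hp : p ∈ Set.Icc (0 : ℝ) 1) (a : Bool) (n : ℕ) (r : ℝ) :
    qq a n r p = ∑ cs ∈ bl n, (cs.map fun b => if b = true then p else 1 - p).prod *
      (expPi (Fin n)).real {ℓ | SA ℓ a (std n cs) r} := by
  have := isProb_seqLaw hp
  unfold bl
  rw [Finset.sum_image (fun x _ y _ h => List.ofFn_injective h)]
  have hmeas : ∀ e : Fin n → Bool, MeasurableSet {ℓ : Fin n → ℝ | SA ℓ a (std n (List.ofFn e)) r} :=
    fun e => measurableSet_SA measurable_const a _
  have hpart : {ω : ℕ → ℝ × Bool | SAs a ω n r} = ⋃ e ∈ (Finset.univ : Finset (Fin n → Bool)),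
      {ω | (fun i : Fin n => (ω i).1) ∈ {ℓ : Fin n → ℝ | SA ℓ a (std n (List.ofFn e)) r} ∧
        (fun i : Fin n => (ω i).2) = e} := by
    ext ω
    simp only [Set.mem_ofPred_eq, Set.mem_iUnion, Finset.mem_univ, exists_prop, true_and]
    have hev : ∀ e : Fin n → Bool, (fun i : Fin n => (ω i).2) = e →
        (SAs a ω n r ↔ SA (fun i : Fin n => (ω i).1) a (std n (List.ofFn e)) r) := by
      intro e he
      refine seqbe_event a ω (List.length_ofFn) (fun i hi => ?_) r
      rw [List.getElem_ofFn]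
      exact congrFun he ⟨i, by simpa using hi⟩
    constructor
    · intro h
      exact ⟨_, (hev _ rfl).1 h, rfl⟩
    · rintro ⟨e, h, he⟩
      exact (hev e he).2 h
  unfold qq
  rw [hpart, measureReal_biUnion_finset]
  · refine Finset.sum_congr rfl fun e _ => ?_
    have hq := seqbe_measure hp e (hmeas e)
    unfold Measure.real
    rw [hq, ENNReal.toReal_mul, ENNReal.toReal_prod, List.map_ofFn, List.prod_ofFn, mul_comm]
    congr 1
    refine Finset.prod_congr rfl fun i _ => ?_
    rw [ENNReal.toReal_ofReal]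
    · rfl
    · split_ifs
      · exact hp.1
      · exact sub_nonneg.mpr hp.2
  · intro e _ e' _ hne
    refine Set.disjoint_left.mpr fun ω h1 h2 => hne ?_
    exact h1.2.symm.trans h2.2
  · intro e _
    have hm1 : Measurable fun ω : ℕ → ℝ × Bool => fun i : Fin n => (ω i).1 := by fun_prop
    have hm2 : Measurable fun ω : ℕ → ℝ × Bool => fun i : Fin n => (ω i).2 := by fun_prop
    exact (hm1 (hmeas e)).inter (hm2 (MeasurableSet.singleton e))

theorem be_eq (a : Bool) (n : ℕ) (r t : ℝ) :
    be n r t a = v t a * qq a n r (Real.sin t ^ 2) := by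
  have hp : Real.sin t ^ 2 ∈ Set.Icc (0 : ℝ) 1 := ⟨sq_nonneg _, Real.sin_sq_le_one t⟩
  rw [qq_eq_sum hp]
  unfold be
  rw [Finset.mul_sum]
  refine Finset.sum_congr rfl fun cs _ => ?_
  rw [pw_mul_v, mul_assoc]
  congr 2
  congr 1
  refine List.map_congr_left fun b _ => ?_
  unfold v
  cases b
  · simp only [Bool.false_eq_true, if_false]
    rw [Real.cos_sq']
  · simp

end FB
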