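import Pool.Agent.Lib.MP_fb152f_pr.ZDefs
import Pool.Agent.Lib.MP_fb152f_pr.SeqBe

/-!
# CVA: two exponential variables, resampling one coordinate (75 minutes)

* `two_exp`: `∫⁻ v, ∫⁻ u, φ v (v + u) dExp dExp = ∫⁻ h, ∫⁻ x in Ioc 0 h, φ x h dx dExp(h)`.
* `resample`: for `seqLaw p` and a measurable `f`:
  `∫⁻ f = ∫⁻ h, ∫⁻ y, f (update h j y) dstepLaw dseqLaw`.
* `resample_gap`: the same for the first component of the coordinate `j` only.
-/

set_option autoImplicit false

namespace FB

open MeasureTheory ProbabilityTheory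

theorem cva_exp_mul (v h : ℝ) :
    exponentialPDF 1 v * exponentialPDF 1 (h - v) =
      exponentialPDF 1 h * (Set.Icc (0 : ℝ) h).indicator 1 v := by
  by_cases h0 : 0 ≤ v
  · by_cases h1 : v ≤ h
    · rw [Set.indicator_of_mem (show v ∈ Set.Icc 0 h from ⟨h0, h1⟩), Pi.one_apply, mul_one,
        exponentialPDF_of_nonneg h0, exponentialPDF_of_nonneg (sub_nonneg.mpr h1),
        exponentialPDF_of_nonneg (h0.trans h1), ← ENNReal.ofReal_mul (by positivity)]
      congr 1
      rw [one_mul, one_mul, one_mul, one_mul, one_mul, one_mul, ← Real.exp_add]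
      congr 1
      ring
    · rw [Set.indicator_of_notMem (show v ∉ Set.Icc 0 h from fun hh => h1 hh.2), mul_zero,
        exponentialPDF_of_neg (sub_neg.mpr (not_le.mp h1)), mul_zero]
  · rw [Set.indicator_of_notMem (show v ∉ Set.Icc 0 h from fun hh => h0 hh.1), mul_zero,
      exponentialPDF_of_neg (not_le.mp h0), zero_mul]

theorem cva_lint (f : ℝ → ENNReal) (hf : Measurable f) :
    ∫⁻ x, f x ∂(expMeasure 1) = ∫⁻ x, exponentialPDF 1 x * f x := by
  have hE : expMeasure 1 = volume.withDensity (exponentialPDF 1) := rfl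
  have hm : Measurable (exponentialPDF 1) := (measurable_exponentialPDFReal 1).ennreal_ofReal
  rw [hE, lintegral_withDensity_eq_lintegral_mul _ hm hf]
  rfl

theorem two_exp {φ : ℝ → ℝ → ENNReal} (hφ : Measurable (Function.uncurry φ)) :
    ∫⁻ v, ∫⁻ u, φ v (v + u) ∂(expMeasure 1) ∂(expMeasure 1) =
      ∫⁻ h, (∫⁻ x in Set.Ioc 0 h, φ x h) ∂(expMeasure 1) := by
  have hm : Measurable (exponentialPDF 1) := (measurable_exponentialPDFReal 1).ennreal_ofReal
  have h1 : ∀ v : ℝ, ∫⁻ u, φ v (v + u) ∂(expMeasure 1) =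
      ∫⁻ h, exponentialPDF 1 (h - v) * φ v h := by
    intro v
    have hv : Measurable fun u => φ v (v + u) :=
      hφ.comp (measurable_const.prodMk (measurable_const.add measurable_id))
    rw [cva_lint _ hv]
    rw [← lintegral_sub_right_eq_self (fun u => exponentialPDF 1 u * φ v (v + u)) v]
    refine lintegral_congr fun h => ?_
    rw [add_sub_cancel]
  have hmeas1 : Measurable fun q : ℝ × ℝ => exponentialPDF 1 (q.2 - q.1) * φ q.1 q.2 :=
    (hm.comp (measurable_snd.sub measurable_fst)).mul hφ
  have hL : ∫⁻ v, ∫⁻ u, φ v (v + u) ∂(expMeasure 1) ∂(expMeasure 1) =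
      ∫⁻ v, ∫⁻ h, exponentialPDF 1 v * (exponentialPDF 1 (h - v) * φ v h) := by
    simp only [h1]
    rw [cva_lint _ (hmeas1.lintegral_prod_right')]
    refine lintegral_congr fun v => ?_
    have hv : Measurable fun h : ℝ => exponentialPDF 1 (h - v) * φ v h :=
      hmeas1.comp measurable_prodMk_left
    exact (lintegral_const_mul _ hv).symm
  have hmeas2 : Measurable fun q : ℝ × ℝ =>
      exponentialPDF 1 q.1 * (exponentialPDF 1 (q.2 - q.1) * φ q.1 q.2) :=
    (hm.comp measurable_fst).mul hmeas1
  rw [hL, lintegral_lintegral_swap hmeas2.aemeasurable]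
  have hset : ∀ h : ℝ, (∫⁻ x in Set.Ioc 0 h, φ x h) =
      ∫⁻ x, (Set.Icc (0 : ℝ) h).indicator 1 x * φ x h := by
    intro h
    rw [setLIntegral_congr Ioc_ae_eq_Icc, ← lintegral_indicator measurableSet_Icc]
    refine lintegral_congr fun x => ?_
    by_cases hx : x ∈ Set.Icc 0 h
    · rw [Set.indicator_of_mem hx, Set.indicator_of_mem hx, Pi.one_apply, one_mul]
    · rw [Set.indicator_of_notMem hx, Set.indicator_of_notMem hx, zero_mul]
  have hind : Measurable fun q : ℝ × ℝ => (Set.Icc (0 : ℝ) q.1).indicator (1 : ℝ → ENNReal) q.2 := by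
    have : (fun q : ℝ × ℝ => (Set.Icc (0 : ℝ) q.1).indicator (1 : ℝ → ENNReal) q.2) =
        ({q : ℝ × ℝ | 0 ≤ q.2 ∧ q.2 ≤ q.1}).indicator 1 := by
      funext q
      by_cases hq : 0 ≤ q.2 ∧ q.2 ≤ q.1
      · rw [Set.indicator_of_mem (show q.2 ∈ Set.Icc 0 q.1 from hq),
          Set.indicator_of_mem (show q ∈ {q : ℝ × ℝ | 0 ≤ q.2 ∧ q.2 ≤ q.1} from hq)]
        rfl
      · rw [Set.indicator_of_notMem (show q.2 ∉ Set.Icc 0 q.1 from hq),
          Set.indicator_of_notMem (show q ∉ {q : ℝ × ℝ | 0 ≤ q.2 ∧ q.2 ≤ q.1} from hq)]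
    rw [this]
    refine measurable_one.indicator ?_
    exact (measurableSet_le measurable_const measurable_snd).inter
      (measurableSet_le measurable_snd measurable_fst)
  have hmeas3 : Measurable fun q : ℝ × ℝ =>
      (Set.Icc (0 : ℝ) q.1).indicator (1 : ℝ → ENNReal) q.2 * φ q.2 q.1 :=
    hind.mul (hφ.comp measurable_swap)
  simp only [hset]
  rw [cva_lint _ (hmeas3.lintegral_prod_right')]
  refine lintegral_congr fun h => ?_
  have hv : Measurable fun v : ℝ =>
      (Set.Icc (0 : ℝ) h).indicator (1 : ℝ → ENNReal) v * φ v h :=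
    hmeas3.comp measurable_prodMk_left
  refine Eq.trans (lintegral_congr fun v => ?_) (lintegral_const_mul _ hv)
  rw [← mul_assoc, cva_exp_mul, mul_assoc]

theorem cva_map_update {p : ℝ} (hp : p ∈ Set.Icc (0 : ℝ) 1) (j : ℕ) :
    ((seqLaw p).prod (stepLaw p)).map (fun q : (ℕ → ℝ × Bool) × (ℝ × Bool) =>
      Function.update q.1 j q.2) = seqLaw p := by
  have := isProb_stepLaw hp
  have := isProb_seqLaw hp
  have hmeas : Measurable fun q : (ℕ → ℝ × Bool) × (ℝ × Bool) => Function.update q.1 j q.2 := by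
    rw [measurable_pi_iff]
    intro i
    by_cases hi : i = j
    · subst hi
      simpa using measurable_snd
    · simp only [Function.update_of_ne hi]
      exact (measurable_pi_apply i).comp measurable_fst
  refine Measure.eq_infinitePi _ fun s t ht => ?_
  rw [Measure.map_apply hmeas (MeasurableSet.pi s.countable_toSet fun i _ => ht i)]
  by_cases hj : j ∈ s
  · have hpre : (fun q : (ℕ → ℝ × Bool) × (ℝ × Bool) => Function.update q.1 j q.2) ⁻¹'
        (Set.pi s t) = (Set.pi (s.erase j : Finset ℕ) t) ×ˢ (t j) := by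
      ext ⟨h, y⟩
      simp only [Set.mem_preimage, Set.mem_pi, Finset.mem_coe, Set.mem_prod, Finset.mem_erase]
      constructor
      · intro H
        refine ⟨fun i hi => ?_, ?_⟩
        · have := H i hi.2
          rwa [Function.update_of_ne hi.1] at this
        · have := H j hj
          rwa [Function.update_self] at this
      · rintro ⟨H1, H2⟩ i hi
        by_cases hij : i = j
        · subst hij
          rwa [Function.update_self]
        · rw [Function.update_of_ne hij]
          exact H1 i ⟨hij, hi⟩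
    rw [hpre, Measure.prod_prod]
    unfold seqLaw
    rw [Measure.infinitePi_pi _ fun i _ => ht i, mul_comm]
    exact Finset.mul_prod_erase s (fun i => (stepLaw p) (t i)) hj
  · have hpre : (fun q : (ℕ → ℝ × Bool) × (ℝ × Bool) => Function.update q.1 j q.2) ⁻¹'
        (Set.pi s t) = (Set.pi s t) ×ˢ Set.univ := by
      ext ⟨h, y⟩
      simp only [Set.mem_preimage, Set.mem_pi, Finset.mem_coe, Set.mem_prod, Set.mem_univ,
        and_true]
      refine forall₂_congr fun i hi => ?_
      rw [Function.update_of_ne (fun h' : i = j => hj (h' ▸ hi))]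
    rw [hpre, Measure.prod_prod, measure_univ, mul_one]
    unfold seqLaw
    rw [Measure.infinitePi_pi _ fun i _ => ht i]

theorem cva_meas_update (j : ℕ) :
    Measurable fun q : (ℕ → ℝ × Bool) × (ℝ × Bool) => Function.update q.1 j q.2 := by
  rw [measurable_pi_iff]
  intro i
  by_cases hi : i = j
  · subst hi
    simpa using measurable_snd
  · simp only [Function.update_of_ne hi]
    exact (measurable_pi_apply i).comp measurable_fst

theorem resample {p : ℝ} (hp : p ∈ Set.Icc (0 : ℝ) 1) {f : (ℕ → ℝ × Bool) → ENNReal}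
    (hf : Measurable f) (j : ℕ) :
    ∫⁻ h, f h ∂(seqLaw p) = ∫⁻ h, ∫⁻ y, f (Function.update h j y) ∂(stepLaw p) ∂(seqLaw p) := by
  have := isProb_stepLaw hp
  have := isProb_seqLaw hp
  have hmeas := cva_meas_update j
  conv_lhs => rw [← cva_map_update hp j]
  rw [lintegral_map hf hmeas]
  have h1 : Measurable fun q : (ℕ → ℝ × Bool) × (ℝ × Bool) => f (Function.update q.1 j q.2) :=
    hf.comp hmeas
  exact lintegral_prod _ h1.aemeasurable

theorem resample_gap {p : ℝ} (hp : p ∈ Set.Icc (0 : ℝ) 1) {f : (ℕ → ℝ × Bool) → ENNReal}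
    (hf : Measurable f) (j : ℕ) :
    ∫⁻ h, f h ∂(seqLaw p) =
      ∫⁻ h, ∫⁻ g, f (Function.update h j (g, (h j).2)) ∂(expMeasure 1) ∂(seqLaw p) := by
  have := isProb_colourLaw hp
  have := isProb_stepLaw hp
  have := isProb_seqLaw hp
  have hmeas := cva_meas_update j
  have hmg : Measurable fun q : (ℕ → ℝ × Bool) × ℝ => Function.update q.1 j (q.2, (q.1 j).2) := by
    refine hmeas.comp (measurable_fst.prodMk (measurable_snd.prodMk ?_))
    exact measurable_snd.comp ((measurable_pi_apply j).comp measurable_fst)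
  have hF : Measurable fun h : ℕ → ℝ × Bool =>
      ∫⁻ g, f (Function.update h j (g, (h j).2)) ∂(expMeasure 1) :=
    (hf.comp hmg).lintegral_prod_right'
  rw [resample hp hf j, resample hp hF j]
  refine lintegral_congr fun h => ?_
  simp only [Function.update_self, Function.update_idem]
  have h1 : Measurable fun y : ℝ × Bool => f (Function.update h j y) :=
    hf.comp (hmeas.comp measurable_prodMk_left)
  have h2 : Measurable fun y : ℝ × Bool =>
      ∫⁻ g, f (Function.update h j (g, y.2)) ∂(expMeasure 1) := by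
    have h3 : Measurable fun q : (ℝ × Bool) × ℝ => f (Function.update h j (q.2, q.1.2)) :=
      h1.comp (measurable_snd.prodMk (measurable_snd.comp measurable_fst))
    exact h3.lintegral_prod_right'
  unfold stepLaw
  rw [lintegral_prod _ h1.aemeasurable, lintegral_prod _ h2.aemeasurable]
  simp only [lintegral_const, measure_univ, mul_one]
  rw [lintegral_lintegral_swap]
  exact h1.aemeasurable

end FB
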