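import Pool.Agent.Lib.MP_fb152f_pr.CVA

/-!
# CVB: the change of variables for the left sequence (75 minutes)

`cv`: for measurable `F ≥ 0` and `K : ℕ`:
`∫⁻ h, ∫⁻ u, F (spos h (K+1), addGap h K u) = ∫⁻ h, ∫⁻ x in Ioc (spos h K) (spos h (K+1)), F (x, h)`.

`sum_cv`: `∑_K ∫⁻ h, ∫⁻ x in Ioc (spos h K) (spos h (K+1)), F (x, h) = ∫⁻ h, ∫⁻ x in Ioi 0, F (x, h)`.
-/

set_option autoImplicit false

namespace FB

open MeasureTheory ProbabilityTheory Filter Topology

theorem cvb_meas_spos (K : ℕ) : Measurable fun h : ℕ → ℝ × Bool => spos h K := by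
  unfold spos
  exact Finset.measurable_sum _ fun i _ => measurable_fst.comp (measurable_pi_apply i)

theorem cvb_spos_update (h : ℕ → ℝ × Bool) (K : ℕ) (y : ℝ × Bool) :
    spos (Function.update h K y) K = spos h K := by
  unfold spos
  refine Finset.sum_congr rfl fun i hi => ?_
  rw [Function.update_of_ne (Finset.mem_range.mp hi).ne]

theorem cvb_spos_succ (h : ℕ → ℝ × Bool) (K : ℕ) : spos h (K + 1) = spos h K + (h K).1 := by
  unfold spos
  rw [Finset.sum_range_succ]

theorem cvb_meas_gap (j : ℕ) : Measurable fun q : (ℕ → ℝ × Bool) × ℝ =>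
    Function.update q.1 j (q.2, (q.1 j).2) := by
  refine (cva_meas_update j).comp (measurable_fst.prodMk (measurable_snd.prodMk ?_))
  exact measurable_snd.comp ((measurable_pi_apply j).comp measurable_fst)

theorem cvb_meas_Ioc {Ω : Type*} [MeasurableSpace Ω] {F : ℝ × Ω → ENNReal} (hF : Measurable F)
    {a b : Ω → ℝ} (ha : Measurable a) (hb : Measurable b) :
    Measurable fun ω => ∫⁻ x in Set.Ioc (a ω) (b ω), F (x, ω) := by
  have h1 : ∀ ω, (∫⁻ x in Set.Ioc (a ω) (b ω), F (x, ω)) =
      ∫⁻ x, ({q : ℝ × Ω | a q.2 < q.1 ∧ q.1 ≤ b q.2}).indicator F (x, ω) := by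
    intro ω
    rw [← lintegral_indicator measurableSet_Ioc]
    rfl
  simp only [h1]
  have hs : MeasurableSet {q : ℝ × Ω | a q.2 < q.1 ∧ q.1 ≤ b q.2} :=
    (measurableSet_lt (ha.comp measurable_snd) measurable_fst).inter
      (measurableSet_le measurable_fst (hb.comp measurable_snd))
  exact (hF.indicator hs).lintegral_prod_left'

theorem cv {p : ℝ} (hp : p ∈ Set.Icc (0 : ℝ) 1) {F : ℝ × (ℕ → ℝ × Bool) → ENNReal}
    (hF : Measurable F) (K : ℕ) :
    ∫⁻ h, ∫⁻ u, F (spos h (K + 1), addGap h K u) ∂(expMeasure 1) ∂(seqLaw p) =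
      ∫⁻ h, (∫⁻ x in Set.Ioc (spos h K) (spos h (K + 1)), F (x, h)) ∂(seqLaw p) := by
  have hspos := cvb_meas_spos
  -- measurability of the left integrand
  have hadd : Measurable fun q : (ℕ → ℝ × Bool) × ℝ => addGap q.1 K q.2 := by
    unfold addGap
    refine (cva_meas_update K).comp (measurable_fst.prodMk (Measurable.prodMk ?_ ?_))
    · exact ((measurable_fst.comp ((measurable_pi_apply K).comp measurable_fst))).add measurable_snd
    · exact measurable_snd.comp ((measurable_pi_apply K).comp measurable_fst)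
  have hL : Measurable fun h : ℕ → ℝ × Bool =>
      ∫⁻ u, F (spos h (K + 1), addGap h K u) ∂(expMeasure 1) := by
    have h1 : Measurable fun q : (ℕ → ℝ × Bool) × ℝ => F (spos q.1 (K + 1), addGap q.1 K q.2) :=
      hF.comp (((hspos (K + 1)).comp measurable_fst).prodMk hadd)
    exact h1.lintegral_prod_right'
  have hR : Measurable fun h : ℕ → ℝ × Bool =>
      ∫⁻ x in Set.Ioc (spos h K) (spos h (K + 1)), F (x, h) :=
    cvb_meas_Ioc hF (hspos K) (hspos (K + 1))
  rw [resample_gap hp hL K, resample_gap hp hR K]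
  refine lintegral_congr fun h => ?_
  -- fix `h`
  have key := two_exp (φ := fun v g => F (spos h K + v, Function.update h K (g, (h K).2))) (by
    have h2 : Measurable fun q : ℝ × ℝ =>
        (spos h K + q.1, Function.update h K (q.2, (h K).2)) := by
      refine (measurable_const.add measurable_fst).prodMk ?_
      exact (cva_meas_update K).comp (measurable_const.prodMk
        (measurable_snd.prodMk measurable_const))
    exact hF.comp h2)
  have hl : ∀ v u : ℝ, F (spos (Function.update h K (v, (h K).2)) (K + 1),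
      addGap (Function.update h K (v, (h K).2)) K u) =
      F (spos h K + v, Function.update h K (v + u, (h K).2)) := by
    intro v u
    rw [cvb_spos_succ, cvb_spos_update, Function.update_self]
    unfold addGap
    rw [Function.update_self, Function.update_idem]
  simp only [hl]
  rw [key]
  refine lintegral_congr fun g => ?_
  rw [cvb_spos_succ, cvb_spos_update, Function.update_self]
  have hmp : MeasurePreserving (fun x : ℝ => spos h K + x) volume volume :=
    measurePreserving_add_left volume (spos h K)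
  have hemb : MeasurableEmbedding (fun x : ℝ => spos h K + x) := measurableEmbedding_addLeft _
  have h3 := hmp.setLIntegral_comp_preimage_emb hemb
    (fun x => F (x, Function.update h K (g, (h K).2))) (Set.Ioc (spos h K) (spos h K + g))
  rw [← h3]
  congr 2
  ext x
  simp

theorem cvb_exp_pos : (expMeasure 1) {x : ℝ | ¬ 0 < x} = 0 := by
  have hE : expMeasure 1 = volume.withDensity (exponentialPDF 1) := rfl
  have hm : Measurable (exponentialPDF 1) := (measurable_exponentialPDFReal 1).ennreal_ofReal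
  have hs : {x : ℝ | ¬ 0 < x} = Set.Iic 0 := by
    ext x
    simp
  rw [hs, hE, withDensity_apply _ measurableSet_Iic]
  rw [setLIntegral_congr (Iio_ae_eq_Iic (μ := volume) (a := (0 : ℝ))).symm]
  exact lintegral_exponentialPDF_of_nonpos le_rfl

theorem cvb_exp_lt_one : (expMeasure 1) {x : ℝ | x < 1} < 1 := by
  have hE : expMeasure 1 = volume.withDensity (exponentialPDF 1) := rfl
  have hs : {x : ℝ | x < 1} = Set.Iio 1 := rfl
  rw [hs, hE, withDensity_apply _ measurableSet_Iio,
    setLIntegral_congr (Iio_ae_eq_Iic (μ := volume) (a := (1 : ℝ))),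
    lintegral_exponentialPDF_eq_antiDeriv one_pos]
  rw [if_pos zero_le_one, ENNReal.ofReal_lt_one]
  have := Real.exp_pos (-(1 * 1))
  linarith

theorem cvb_ae {p : ℝ} (hp : p ∈ Set.Icc (0 : ℝ) 1) :
    ∀ᵐ h ∂(seqLaw p), (∀ i, 0 < (h i).1) ∧ (∀ n, ∃ i, n ≤ i ∧ 1 ≤ (h i).1) := by
  have := isProb_colourLaw hp
  have := isProb_stepLaw hp
  have := isProb_seqLaw hp
  have hstep : ∀ s : Set ℝ, (stepLaw p) {y | y.1 ∈ s} = expMeasure 1 s := by
    intro s
    have : {y : ℝ × Bool | y.1 ∈ s} = s ×ˢ Set.univ := by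
      ext y
      simp
    unfold stepLaw
    rw [this, Measure.prod_prod, measure_univ, mul_one]
  refine Filter.Eventually.and ?_ ?_
  · rw [ae_all_iff]
    intro i
    rw [ae_iff]
    have h1 : {h : ℕ → ℝ × Bool | ¬ 0 < (h i).1} =
        Set.pi ({i} : Finset ℕ) fun _ => {y : ℝ × Bool | y.1 ∈ {x : ℝ | ¬ 0 < x}} := by
      ext h
      simp
    rw [h1]
    unfold seqLaw
    rw [Measure.infinitePi_pi]
    · rw [Finset.prod_singleton, hstep, cvb_exp_pos]
    · intro j _
      exact measurable_fst (measurableSet_lt measurable_const measurable_id).compl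
  · rw [ae_all_iff]
    intro n
    rw [ae_iff]
    set q : ENNReal := expMeasure 1 {x : ℝ | x < 1} with hq
    have hle : ∀ m : ℕ, (seqLaw p) {h : ℕ → ℝ × Bool | ¬ ∃ i, n ≤ i ∧ 1 ≤ (h i).1} ≤ q ^ m := by
      intro m
      have hsub : {h : ℕ → ℝ × Bool | ¬ ∃ i, n ≤ i ∧ 1 ≤ (h i).1} ⊆
          Set.pi (Finset.Ico n (n + m) : Finset ℕ)
            fun _ => {y : ℝ × Bool | y.1 ∈ {x : ℝ | x < 1}} := by
        intro h hh i hi
        simp only [Set.mem_ofPred_eq, not_exists, not_and, not_le] at hh ⊢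
        exact hh i (Finset.mem_Ico.mp (Finset.mem_coe.mp hi)).1
      refine (measure_mono hsub).trans (le_of_eq ?_)
      unfold seqLaw
      rw [Measure.infinitePi_pi]
      · rw [Finset.prod_congr rfl fun i _ => hstep _, Finset.prod_const, Nat.card_Ico,
          Nat.add_sub_cancel_left]
      · intro j _
        exact measurable_fst (measurableSet_lt measurable_id measurable_const)
    have hlim : Tendsto (fun m : ℕ => q ^ m) atTop (𝓝 0) :=
      ENNReal.tendsto_pow_atTop_nhds_zero_of_lt_one cvb_exp_lt_one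
    exact le_antisymm (ge_of_tendsto' hlim hle) zero_le

theorem cvb_tendsto {h : ℕ → ℝ × Bool} (h0 : ∀ i, 0 < (h i).1)
    (h1 : ∀ n, ∃ i, n ≤ i ∧ 1 ≤ (h i).1) : Tendsto (spos h) atTop atTop := by
  have hmono : Monotone (spos h) := monotone_nat_of_le_succ fun n => by
    rw [cvb_spos_succ]
    linarith [h0 n]
  have hub : ∀ m : ℕ, ∃ n, (m : ℝ) ≤ spos h n := by
    intro m
    induction m with
    | zero => exact ⟨0, by simp [spos]⟩
    | succ m ih =>
      obtain ⟨n, hn⟩ := ih
      obtain ⟨i, hi, hi1⟩ := h1 n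
      refine ⟨i + 1, ?_⟩
      rw [cvb_spos_succ]
      have := hmono hi
      push_cast
      linarith
  refine tendsto_atTop_atTop.mpr fun b => ?_
  obtain ⟨m, hm⟩ := exists_nat_ge b
  obtain ⟨n, hn⟩ := hub m
  exact ⟨n, fun k hk => (hm.trans hn).trans (hmono hk)⟩

theorem sum_cv {p : ℝ} (hp : p ∈ Set.Icc (0 : ℝ) 1) {F : ℝ × (ℕ → ℝ × Bool) → ENNReal}
    (hF : Measurable F) :
    ∑' K : ℕ, ∫⁻ h, (∫⁻ x in Set.Ioc (spos h K) (spos h (K + 1)), F (x, h)) ∂(seqLaw p) =
      ∫⁻ h, (∫⁻ x in Set.Ioi 0, F (x, h)) ∂(seqLaw p) := by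
  rw [← lintegral_tsum fun K => (cvb_meas_Ioc hF (cvb_meas_spos K)
    (cvb_meas_spos (K + 1))).aemeasurable]
  refine lintegral_congr_ae ?_
  filter_upwards [cvb_ae hp] with h hh
  have hmono : Monotone (spos h) := monotone_nat_of_le_succ fun n => by
    rw [cvb_spos_succ]
    linarith [hh.1 n]
  have hun : (⋃ K : ℕ, Set.Ioc (spos h K) (spos h (K + 1))) = Set.Ioi (0 : ℝ) := by
    have h2 := iUnion_Ioc_map_succ_eq_Ioi (f := spos h) (fun n => hmono bot_le)
      (fun hb => (not_bddAbove_of_tendsto_atTop (cvb_tendsto hh.1 hh.2)) hb)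
    have h3 : spos h ⊥ = 0 := by
      simp [spos]
    rw [h3] at h2
    exact h2
  have hdis : Pairwise (Function.onFun Disjoint
      fun K : ℕ => Set.Ioc (spos h K) (spos h (K + 1))) := hmono.pairwise_disjoint_on_Ioc_succ
  rw [← hun, lintegral_iUnion (fun K => measurableSet_Ioc) hdis]

end FB
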