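import Pool.Agent.Lib.MP_fb152f_pr.Defs

/-!
# Cord: coloured orderings (75 minutes)

`mem_cord`: prove `l ∈ cordN S.card S ↔ ...` by induction on `n = S.card`
(`l = (s, b) :: l'`, `s ∈ S`, `l' ∈ cordN n (S.erase s)`).

`sum_cord_insert` (for `S ≠ ∅`): the union in the definition is disjoint (the head of the list
determines `s` and `b`, and `(s, b) :: ·` is injective), `Finset.sum_biUnion`, `Finset.sum_image`,
`(S.erase s).card = S.card - 1`.

`sum_cord_colours`: induction on `S.card` with `sum_cord_insert`, `sum_bl_succ`: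
`∑_{s ∈ S} ∑_b (n! ∑_{cs ∈ bl n} f (b :: cs)) = (n+1) n! ∑_{cs ∈ bl (n+1)} f cs`.

`cut_lemma`: both sides are sums over the pairs `(l1, l2)` of lists such that `l1 ++ l2` has
distinct labels with set `S`: the map `(l, k) ↦ (l.take k, l.drop k)`, `k ≤ l.length`, is a
bijection onto these pairs with inverse `(l1, l2) ↦ (l1 ++ l2, l1.length)`, and
`A = (l1.map Prod.fst).toFinset`.  Use `Finset.sum_sigma'` and `Finset.sum_bij'` and `mem_cord`.
(Or induction on `S.card` with `sum_cord_insert`.)

`cut_first`, `cut_last`: the cut lemma for `if (labels of l1) = T then f l1 l2 else 0`, only the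
term `A = T` (resp. `S \ A = T`) remains.
-/

set_option autoImplicit false
set_option linter.unusedSectionVars false

namespace FB

variable {ι : Type*} [DecidableEq ι]

theorem Cord_mem (n : ℕ) : ∀ (S : Finset ι), S.card = n → ∀ l : List (ι × Bool),
    l ∈ cordN n S ↔ (l.map Prod.fst).Nodup ∧ (l.map Prod.fst).toFinset = S := by
  induction n with
  | zero =>
    intro S hS l
    have hS' : S = ∅ := Finset.card_eq_zero.mp hS
    subst hS'
    simp only [cordN, Finset.mem_singleton]
    constructor
    · rintro rfl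
      simp
    · rintro ⟨-, h⟩
      rw [List.toFinset_eq_empty_iff, List.map_eq_nil_iff] at h
      exact h
  | succ n ih =>
    intro S hS l
    simp only [cordN, Finset.mem_biUnion, Finset.mem_univ, true_and, Finset.mem_image]
    constructor
    · rintro ⟨s, hs, b, l', hl', rfl⟩
      have hc : (S.erase s).card = n := by
        rw [Finset.card_erase_of_mem hs, hS]
        rfl
      obtain ⟨h1, h2⟩ := (ih _ hc l').mp hl'
      constructor
      · rw [List.map_cons, List.nodup_cons]
        refine ⟨fun hm => ?_, h1⟩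
        have h3 : s ∈ (l'.map Prod.fst).toFinset := List.mem_toFinset.mpr hm
        rw [h2] at h3
        exact Finset.notMem_erase s S h3
      · rw [List.map_cons, List.toFinset_cons, h2]
        exact Finset.insert_erase hs
    · rintro ⟨h1, h2⟩
      cases l with
      | nil =>
        exfalso
        simp at h2
        rw [← h2] at hS
        simp at hS
      | cons x l' =>
        obtain ⟨s, b⟩ := x
        rw [List.map_cons, List.nodup_cons] at h1
        rw [List.map_cons, List.toFinset_cons] at h2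
        have hs : s ∈ S := by
          rw [← h2]
          exact Finset.mem_insert_self _ _
        have hc : (S.erase s).card = n := by
          rw [Finset.card_erase_of_mem hs, hS]
          rfl
        refine ⟨s, hs, b, l', (ih _ hc l').mpr ⟨h1.2, ?_⟩, rfl⟩
        rw [← h2]
        refine (Finset.erase_insert ?_).symm
        rw [List.mem_toFinset]
        exact h1.1

theorem mem_cord {S : Finset ι} {l : List (ι × Bool)} :
    l ∈ cord S ↔ (l.map Prod.fst).Nodup ∧ (l.map Prod.fst).toFinset = S :=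
  Cord_mem _ S rfl l

theorem length_of_mem_cord {S : Finset ι} {l : List (ι × Bool)} (h : l ∈ cord S) :
    l.length = S.card := by
  obtain ⟨h1, h2⟩ := mem_cord.mp h
  rw [← h2, List.toFinset_card_of_nodup h1, List.length_map]

theorem slen_of_mem_cord (ℓ : ι → ℝ) {S : Finset ι} {l : List (ι × Bool)} (h : l ∈ cord S) :
    llen ℓ l = slen ℓ S := by
  obtain ⟨h1, h2⟩ := mem_cord.mp h
  unfold llen slen
  rw [← h2, List.sum_toFinset _ h1, List.map_map]
  rfl

theorem cord_empty : cord (∅ : Finset ι) = {[]} := by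
  rfl

theorem sum_cord_insert {S : Finset ι} (hS : S ≠ ∅) (f : List (ι × Bool) → ℝ) :
    ∑ l ∈ cord S, f l = ∑ s ∈ S, ∑ b : Bool, ∑ l ∈ cord (S.erase s), f ((s, b) :: l) := by
  obtain ⟨n, hn⟩ : ∃ n, S.card = n + 1 :=
    Nat.exists_eq_succ_of_ne_zero (fun h => hS (Finset.card_eq_zero.mp h))
  have e1 : cord S = S.biUnion fun s => (Finset.univ : Finset Bool).biUnion fun b =>
      (cord (S.erase s)).image fun l => (s, b) :: l := by
    ext l
    unfold cord
    rw [hn]
    simp only [cordN, Finset.mem_biUnion, Finset.mem_univ, true_and, Finset.mem_image]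
    constructor
    · rintro ⟨s, hs, b, l', hl', rfl⟩
      refine ⟨s, hs, b, l', ?_, rfl⟩
      rw [Finset.card_erase_of_mem hs, hn]
      exact hl'
    · rintro ⟨s, hs, b, l', hl', rfl⟩
      refine ⟨s, hs, b, l', ?_, rfl⟩
      rw [Finset.card_erase_of_mem hs, hn] at hl'
      exact hl'
  rw [e1, Finset.sum_biUnion]
  · refine Finset.sum_congr rfl fun s _ => ?_
    rw [Finset.sum_biUnion]
    · refine Finset.sum_congr rfl fun b _ => ?_
      rw [Finset.sum_image]
      intro l _ l' _ h
      exact (List.cons_eq_cons.mp h).2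
    · intro b _ b' _ hb
      refine Finset.disjoint_left.mpr fun l hl hl' => hb ?_
      rw [Finset.mem_image] at hl hl'
      obtain ⟨l1, -, rfl⟩ := hl
      obtain ⟨l2, -, h⟩ := hl'
      have := (List.cons_eq_cons.mp h).1
      exact (congrArg Prod.snd this).symm
  · intro s _ s' _ hs
    refine Finset.disjoint_left.mpr fun l hl hl' => hs ?_
    rw [Finset.mem_biUnion] at hl hl'
    obtain ⟨b, -, hl⟩ := hl
    obtain ⟨b', -, hl'⟩ := hl'
    rw [Finset.mem_image] at hl hl'
    obtain ⟨l1, -, rfl⟩ := hl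
    obtain ⟨l2, -, h⟩ := hl'
    have := (List.cons_eq_cons.mp h).1
    exact (congrArg Prod.fst this).symm

theorem mem_bl {n : ℕ} {cs : List Bool} : cs ∈ bl n ↔ cs.length = n := by
  unfold bl
  simp only [Finset.mem_image, Finset.mem_univ, true_and]
  constructor
  · rintro ⟨g, rfl⟩
    exact List.length_ofFn
  · rintro rfl
    exact ⟨cs.get, List.ofFn_get cs⟩

theorem sum_bl_succ (n : ℕ) (f : List Bool → ℝ) :
    ∑ cs ∈ bl (n + 1), f cs = ∑ b : Bool, ∑ cs ∈ bl n, f (b :: cs) := by
  have e1 : bl (n + 1) = (Finset.univ : Finset Bool).biUnion fun b =>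
      (bl n).image fun cs => b :: cs := by
    ext cs
    simp only [mem_bl, Finset.mem_biUnion, Finset.mem_univ, true_and, Finset.mem_image]
    constructor
    · intro h
      cases cs with
      | nil => simp at h
      | cons b cs' => exact ⟨b, cs', by simpa using h, rfl⟩
    · rintro ⟨b, cs', h, rfl⟩
      simpa using h
  rw [e1, Finset.sum_biUnion]
  · refine Finset.sum_congr rfl fun b _ => ?_
    rw [Finset.sum_image]
    intro l _ l' _ h
    exact (List.cons_eq_cons.mp h).2
  · intro b _ b' _ hb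
    refine Finset.disjoint_left.mpr fun l hl hl' => hb ?_
    rw [Finset.mem_image] at hl hl'
    obtain ⟨l1, -, rfl⟩ := hl
    obtain ⟨l2, -, h⟩ := hl'
    exact (List.cons_eq_cons.mp h).1.symm

theorem Cord_bl_zero : bl 0 = {[]} := by
  ext cs
  rw [mem_bl, Finset.mem_singleton, List.length_eq_zero_iff]

theorem Cord_colours (n : ℕ) : ∀ (S : Finset ι), S.card = n → ∀ f : List Bool → ℝ,
    ∑ l ∈ cord S, f (l.map Prod.snd) = (n.factorial : ℝ) * ∑ cs ∈ bl n, f cs := by
  induction n with
  | zero =>
    intro S hS f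
    have hS' : S = ∅ := Finset.card_eq_zero.mp hS
    subst hS'
    rw [cord_empty, Cord_bl_zero]
    simp
  | succ n ih =>
    intro S hS f
    have hne : S ≠ ∅ := by
      rintro rfl
      simp at hS
    rw [sum_cord_insert hne, sum_bl_succ]
    have e1 : ∀ s ∈ S, (∑ b : Bool, ∑ l ∈ cord (S.erase s), f (((s, b) :: l).map Prod.snd)) =
        (n.factorial : ℝ) * ∑ b : Bool, ∑ cs ∈ bl n, f (b :: cs) := by
      intro s hs
      have hc : (S.erase s).card = n := by
        rw [Finset.card_erase_of_mem hs, hS]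
        rfl
      rw [Finset.mul_sum]
      refine Finset.sum_congr rfl fun b _ => ?_
      exact ih (S.erase s) hc fun cs => f (b :: cs)
    rw [Finset.sum_congr rfl e1, Finset.sum_const, hS, Nat.factorial_succ, nsmul_eq_mul]
    push_cast
    ring

theorem sum_cord_colours (S : Finset ι) (f : List Bool → ℝ) :
    ∑ l ∈ cord S, f (l.map Prod.snd) = (S.card.factorial : ℝ) * ∑ cs ∈ bl S.card, f cs :=
  Cord_colours _ S rfl f

theorem Cord_append {S : Finset ι} {l1 l2 : List (ι × Bool)} :
    l1 ++ l2 ∈ cord S ↔ (l1.map Prod.fst).toFinset ⊆ S ∧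
      l1 ∈ cord (l1.map Prod.fst).toFinset ∧ l2 ∈ cord (S \ (l1.map Prod.fst).toFinset) := by
  rw [mem_cord, mem_cord, mem_cord, List.map_append, List.toFinset_append, List.nodup_append']
  constructor
  · rintro ⟨⟨h1, h2, h3⟩, h4⟩
    have hd : Disjoint (l1.map Prod.fst).toFinset (l2.map Prod.fst).toFinset := by
      rw [Finset.disjoint_left]
      intro x hx hy
      exact h3 (List.mem_toFinset.mp hx) (List.mem_toFinset.mp hy)
    refine ⟨?_, ⟨h1, rfl⟩, h2, ?_⟩
    · rw [← h4]
      exact Finset.subset_union_left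
    · rw [← h4, Finset.union_sdiff_cancel_left hd]
  · rintro ⟨h1, ⟨h2, -⟩, h3, h4⟩
    refine ⟨⟨h2, h3, ?_⟩, ?_⟩
    · intro x hx hy
      have h5 : x ∈ (l2.map Prod.fst).toFinset := List.mem_toFinset.mpr hy
      rw [h4] at h5
      exact (Finset.mem_sdiff.mp h5).2 (List.mem_toFinset.mpr hx)
    · rw [h4]
      exact Finset.union_sdiff_of_subset h1

theorem cut_lemma (S : Finset ι) (f : List (ι × Bool) → List (ι × Bool) → ℝ) :
    ∑ l ∈ cord S, ∑ k ∈ Finset.range (l.length + 1), f (l.take k) (l.drop k) =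
      ∑ A ∈ S.powerset, ∑ l1 ∈ cord A, ∑ l2 ∈ cord (S \ A), f l1 l2 := by
  have e1 : ∀ A ∈ S.powerset, (∑ l1 ∈ cord A, ∑ l2 ∈ cord (S \ A), f l1 l2) =
      ∑ x ∈ cord A ×ˢ cord (S \ A), f x.1 x.2 := fun A _ => (Finset.sum_product' _ _ _).symm
  rw [Finset.sum_congr rfl e1, Finset.sum_sigma', Finset.sum_sigma']
  refine Finset.sum_nbij'
    (fun q => ⟨((q.1.take q.2).map Prod.fst).toFinset, (q.1.take q.2, q.1.drop q.2)⟩)
    (fun q => ⟨q.2.1 ++ q.2.2, q.2.1.length⟩) ?_ ?_ ?_ ?_ ?_
  · rintro ⟨l, k⟩ hq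
    rw [Finset.mem_sigma] at hq
    have h1 : l.take k ++ l.drop k ∈ cord S := by
      rw [List.take_append_drop]
      exact hq.1
    obtain ⟨h2, h3, h4⟩ := Cord_append.mp h1
    rw [Finset.mem_sigma, Finset.mem_powerset, Finset.mem_product]
    exact ⟨h2, h3, h4⟩
  · rintro ⟨A, l1, l2⟩ hq
    rw [Finset.mem_sigma, Finset.mem_powerset, Finset.mem_product] at hq
    obtain ⟨h1, h2, h3⟩ := hq
    simp only at h1 h2 h3
    have h4 := (mem_cord.mp h2).2
    rw [Finset.mem_sigma]
    constructor
    · refine Cord_append.mpr ?_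
      simp only
      rw [h4]
      exact ⟨h1, h2, h3⟩
    · simp
  · rintro ⟨l, k⟩ hq
    rw [Finset.mem_sigma, Finset.mem_range] at hq
    have h1 : k ≤ l.length := Nat.lt_succ_iff.mp hq.2
    simp only [List.take_append_drop, List.length_take, Nat.min_eq_left h1]
  · rintro ⟨A, l1, l2⟩ hq
    rw [Finset.mem_sigma, Finset.mem_powerset, Finset.mem_product] at hq
    obtain ⟨h1, h2, h3⟩ := hq
    simp only at h1 h2 h3
    have h4 := (mem_cord.mp h2).2
    simp only [List.take_left', List.drop_left', h4]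
  · rintro ⟨l, k⟩ _
    rfl

open Classical in
theorem cut_first (S T : Finset ι) (f : List (ι × Bool) → List (ι × Bool) → ℝ) :
    ∑ l ∈ cord S, ∑ k ∈ Finset.range (l.length + 1),
      (if ((l.take k).map Prod.fst).toFinset = T then f (l.take k) (l.drop k) else 0) =
      if T ⊆ S then ∑ l1 ∈ cord T, ∑ l2 ∈ cord (S \ T), f l1 l2 else 0 := by
  rw [cut_lemma S fun l1 l2 => if (l1.map Prod.fst).toFinset = T then f l1 l2 else 0]
  have e1 : ∀ A ∈ S.powerset, (∑ l1 ∈ cord A, ∑ l2 ∈ cord (S \ A),
      if (l1.map Prod.fst).toFinset = T then f l1 l2 else 0) =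
      if A = T then (∑ l1 ∈ cord A, ∑ l2 ∈ cord (S \ A), f l1 l2) else 0 := by
    intro A _
    by_cases hA : A = T
    · rw [if_pos hA]
      refine Finset.sum_congr rfl fun l1 h1 => Finset.sum_congr rfl fun l2 _ => ?_
      rw [if_pos ((mem_cord.mp h1).2.trans hA)]
    · rw [if_neg hA]
      refine Finset.sum_eq_zero fun l1 h1 => Finset.sum_eq_zero fun l2 _ => ?_
      rw [if_neg fun h => hA ((mem_cord.mp h1).2.symm.trans h)]
  rw [Finset.sum_congr rfl e1, Finset.sum_ite_eq']
  simp only [Finset.mem_powerset]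

open Classical in
theorem cut_last (S T : Finset ι) (f : List (ι × Bool) → List (ι × Bool) → ℝ) :
    ∑ l ∈ cord S, ∑ k ∈ Finset.range (l.length + 1),
      (if ((l.drop k).map Prod.fst).toFinset = T then f (l.take k) (l.drop k) else 0) =
      if T ⊆ S then ∑ l1 ∈ cord (S \ T), ∑ l2 ∈ cord T, f l1 l2 else 0 := by
  rw [cut_lemma S fun l1 l2 => if (l2.map Prod.fst).toFinset = T then f l1 l2 else 0]
  by_cases hT : T ⊆ S
  · rw [if_pos hT, Finset.sum_eq_single (S \ T)]
    · have hss : S \ (S \ T) = T := Finset.sdiff_sdiff_eq_self hT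
      rw [hss]
      refine Finset.sum_congr rfl fun l1 _ => Finset.sum_congr rfl fun l2 h2 => ?_
      rw [if_pos (mem_cord.mp h2).2]
    · intro A hA hne
      refine Finset.sum_eq_zero fun l1 _ => Finset.sum_eq_zero fun l2 h2 => ?_
      rw [if_neg fun h => hne ?_]
      have h3 : S \ A = T := (mem_cord.mp h2).2.symm.trans h
      rw [← h3]
      exact (Finset.sdiff_sdiff_eq_self (Finset.mem_powerset.mp hA)).symm
    · intro h
      exact absurd (Finset.mem_powerset.mpr Finset.sdiff_subset) h
  · rw [if_neg hT]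
    refine Finset.sum_eq_zero fun A _ => Finset.sum_eq_zero fun l1 _ =>
      Finset.sum_eq_zero fun l2 h2 => ?_
    rw [if_neg fun h => hT ?_]
    have h3 : S \ A = T := (mem_cord.mp h2).2.symm.trans h
    rw [← h3]
    exact Finset.sdiff_subset

end FB
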