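import Pool.Agent.Lib.MP_fb152f_pr.Exch
import Pool.Agent.Lib.MP_fb152f_pr.Weights
import Pool.Agent.Lib.MP_fb152f_pr.Alive1

/-!
# MuB: elementary properties of `be` and `mu` (60 minutes)
-/

set_option autoImplicit false

namespace FB

open MeasureTheory

theorem continuous_be (n : ℕ) (r : ℝ) (a : Bool) : Continuous fun t => be n r t a := by
  unfold be
  exact continuous_finsetSum _ fun cs _ =>
    ((continuous_pw a cs).mul (continuous_v _)).mul continuous_const

theorem continuous_mu (n : ℕ) (r : ℝ) : Continuous fun t => mu n r t := by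
  unfold mu
  exact continuous_finsetSum _ fun cs _ => (continuous_pw true cs).mul continuous_const

theorem be_nonneg (n : ℕ) (r : ℝ) {t : ℝ} (ht : t ∈ Set.Icc 0 (Real.pi / 2)) (a : Bool) :
    0 ≤ be n r t a := by
  unfold be
  exact Finset.sum_nonneg fun cs _ =>
    mul_nonneg (mul_nonneg (pw_nonneg ht _ _) (v_nonneg ht _)) measureReal_nonneg

theorem be_le_one (n : ℕ) (r : ℝ) {t : ℝ} (ht : t ∈ Set.Icc 0 (Real.pi / 2)) (a : Bool) :
    be n r t a ≤ 1 := by
  refine le_trans ?_ (v_le_one t a)
  rw [← sum_pw_v t a n]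
  unfold be
  refine Finset.sum_le_sum fun cs _ => ?_
  exact mul_le_of_le_one_right (mul_nonneg (pw_nonneg ht _ _) (v_nonneg ht _)) measureReal_le_one

theorem mub_SA_anti {ι : Type*} {ℓ : ι → ℝ} {a : Bool} {l : List (ι × Bool)} {r r' : ℝ}
    (h : r ≤ r') (hs : SA ℓ a l r') : SA ℓ a l r := by
  unfold SA aliveL at hs ⊢
  exact alive_anti (by simp) h hs

theorem be_anti (n : ℕ) {r r' : ℝ} (h : r ≤ r') {t : ℝ} (ht : t ∈ Set.Icc 0 (Real.pi / 2))
    (a : Bool) : be n r' t a ≤ be n r t a := by
  unfold be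
  refine Finset.sum_le_sum fun cs _ => ?_
  refine mul_le_mul_of_nonneg_left ?_ (mul_nonneg (pw_nonneg ht _ _) (v_nonneg ht _))
  exact measureReal_mono fun ℓ hℓ => mub_SA_anti h hℓ

theorem mu_nonneg (n : ℕ) (r : ℝ) {t : ℝ} (ht : t ∈ Set.Icc 0 (Real.pi / 2)) :
    0 ≤ mu n r t := by
  unfold mu
  exact Finset.sum_nonneg fun cs _ => mul_nonneg (pw_nonneg ht _ _) measureReal_nonneg

theorem mu_mono (n : ℕ) {r r' : ℝ} (h : r ≤ r') {t : ℝ} (ht : t ∈ Set.Icc 0 (Real.pi / 2)) :
    mu n r t ≤ mu n r' t := by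
  unfold mu
  refine Finset.sum_le_sum fun cs _ => mul_le_mul_of_nonneg_left ?_ (pw_nonneg ht _ _)
  exact measureReal_mono fun ℓ hℓ => ⟨hℓ.1, hℓ.2.1, hℓ.2.2.1.trans_le h, hℓ.2.2.2⟩

theorem mub_exp_lt {r : ℝ} (hr : 0 < r) :
    (ProbabilityTheory.expMeasure 1) (Set.Iio r) = ENNReal.ofReal (1 - Real.exp (-r)) := by
  have hE : ProbabilityTheory.expMeasure 1 =
      volume.withDensity (ProbabilityTheory.exponentialPDF 1) := rfl
  rw [hE, withDensity_apply _ measurableSet_Iio,
    setLIntegral_congr (Iio_ae_eq_Iic (μ := volume) (a := r)),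
    ProbabilityTheory.lintegral_exponentialPDF_eq_antiDeriv one_pos]
  rw [if_pos hr.le, one_mul]

theorem mub_exp_nonneg :
    ∀ᵐ x ∂(ProbabilityTheory.expMeasure 1), (0 : ℝ) ≤ x := by
  have hE : ProbabilityTheory.expMeasure 1 =
      volume.withDensity (ProbabilityTheory.exponentialPDF 1) := rfl
  rw [ae_iff]
  have hs : {x : ℝ | ¬ 0 ≤ x} = Set.Iio 0 := by
    ext x
    simp
  rw [hs, hE, withDensity_apply _ measurableSet_Iio]
  exact ProbabilityTheory.lintegral_exponentialPDF_of_nonpos le_rfl

theorem mub_two {ℓ : Fin 1 → ℝ} (b : Bool) {l : List (Fin 1 × Bool)} (hl : l.length = 1)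
    (h : llen ℓ l ≤ |lpos ℓ l 0 - lpos ℓ l 1|) :
    SA ℓ b l (llen ℓ l) ∧ EA ℓ b l (llen ℓ l) := by
  have key : ∀ i ∈ Finset.range (l.length + 1), ∀ j ∈ Finset.range (l.length + 1), j ≠ i →
      llen ℓ l ≤ |lpos ℓ l i - lpos ℓ l j| := by
    intro i hi j hj hij
    rw [hl] at hi hj
    have hi' : i < 2 := Finset.mem_range.mp hi
    have hj' : j < 2 := Finset.mem_range.mp hj
    interval_cases i <;> interval_cases j
    · exact absurd rfl hij
    · exact h
    · rwa [abs_sub_comm]
    · exact absurd rfl hij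
  constructor
  · unfold SA aliveL
    rw [alive_iff (by simp)]
    intro j hj hji _ hd
    exact absurd hd (not_lt.mpr (key 0 (by simp) j hj hji))
  · unfold EA aliveL
    rw [alive_iff (by simp)]
    intro j hj hji _ hd
    exact absurd hd (not_lt.mpr (key _ (by simp) j hj hji))

theorem mu_one {r : ℝ} (hr : 0 < r) (t : ℝ) :
    mu 1 r t = Real.sin t * Real.cos t * (1 - Real.exp (-r)) := by
  unfold mu
  rw [sum_bl_succ 0]
  have hbl : bl 0 = {[]} := by
    ext cs
    rw [mem_bl]
    simp
  rw [hbl]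
  simp only [Finset.sum_singleton]
  rw [Fintype.sum_bool]
  have h1 : (expPi (Fin 1)).real {ℓ | 1 ≠ 0 ∧ ecol true [true] = false ∧
      llen ℓ (std 1 [true]) < r ∧ SA ℓ true (std 1 [true]) (llen ℓ (std 1 [true])) ∧
      EA ℓ true (std 1 [true]) (llen ℓ (std 1 [true]))} = 0 := by
    have : {ℓ : Fin 1 → ℝ | 1 ≠ 0 ∧ ecol true [true] = false ∧
      llen ℓ (std 1 [true]) < r ∧ SA ℓ true (std 1 [true]) (llen ℓ (std 1 [true])) ∧
      EA ℓ true (std 1 [true]) (llen ℓ (std 1 [true]))} = ∅ := by
      ext ℓ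
      simp [ecol]
    rw [this, measureReal_empty]
  have hstd : std 1 [false] = [(0, false)] := rfl
  have h2 : (expPi (Fin 1)).real {ℓ | 1 ≠ 0 ∧ ecol true [false] = false ∧
      llen ℓ (std 1 [false]) < r ∧ SA ℓ true (std 1 [false]) (llen ℓ (std 1 [false])) ∧
      EA ℓ true (std 1 [false]) (llen ℓ (std 1 [false]))} = 1 - Real.exp (-r) := by
    have hset : {ℓ : Fin 1 → ℝ | 1 ≠ 0 ∧ ecol true [false] = false ∧
      llen ℓ (std 1 [false]) < r ∧ SA ℓ true (std 1 [false]) (llen ℓ (std 1 [false])) ∧
      EA ℓ true (std 1 [false]) (llen ℓ (std 1 [false]))} =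
        Set.univ.pi fun _ => Set.Iio r := by
      ext ℓ
      have hll : llen ℓ (std 1 [false]) = ℓ 0 := by
        rw [hstd]
        simp [llen]
      constructor
      · intro h
        intro i _
        have h3 := h.2.2.1
        rw [hll] at h3
        have : i = 0 := Subsingleton.elim _ _
        rw [this]
        exact h3
      · intro h
        refine ⟨one_ne_zero, rfl, ?_, ?_⟩
        · rw [hll]
          exact h 0 trivial
        · refine mub_two true rfl ?_
          rw [hll, hstd]
          simp [lpos, le_abs_self]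
    rw [hset]
    unfold Measure.real expPi
    rw [Measure.pi_pi]
    simp only [Finset.univ_unique, Finset.prod_singleton]
    rw [mub_exp_lt hr, ENNReal.toReal_ofReal]
    have := (Real.exp_lt_one_iff.mpr (neg_lt_zero.mpr hr))
    linarith
  rw [h1, h2]
  simp only [pw, v]
  simp

theorem mu_le (n : ℕ) {r : ℝ} (hr : 0 < r) {t : ℝ} (ht : t ∈ Set.Icc 0 (Real.pi / 2)) :
    mu n r t ≤ (1 - Real.exp (-r)) ^ n := by
  have hq : 0 ≤ 1 - Real.exp (-r) := by
    have := (Real.exp_lt_one_iff.mpr (neg_lt_zero.mpr hr))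
    linarith
  rcases Nat.eq_zero_or_pos n with rfl | hn
  · unfold mu
    simp
  · have hev : ∀ cs ∈ bl n, (expPi (Fin n)).real {ℓ | n ≠ 0 ∧ ecol true cs = false ∧
        llen ℓ (std n cs) < r ∧ SA ℓ true (std n cs) (llen ℓ (std n cs)) ∧
        EA ℓ true (std n cs) (llen ℓ (std n cs))} ≤
        ind (ecol true cs = false) * (1 - Real.exp (-r)) ^ n := by
      intro cs hcs
      by_cases he : ecol true cs = false
      · have hind : ind (ecol true cs = false) = 1 := by
          unfold ind
          rw [if_pos he]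
        rw [hind, one_mul]
        have hnn : ∀ᵐ ℓ ∂(expPi (Fin n)), ∀ i, 0 ≤ ℓ i := by
          unfold expPi
          rw [ae_all_iff]
          intro i
          exact (Measure.quasiMeasurePreserving_eval (fun _ : Fin n =>
            ProbabilityTheory.expMeasure 1) i).ae mub_exp_nonneg
        have hbox : (expPi (Fin n)).real (Set.univ.pi fun _ => Set.Iio r) =
            (1 - Real.exp (-r)) ^ n := by
          unfold Measure.real expPi
          rw [Measure.pi_pi]
          simp only [Finset.prod_const, Finset.card_univ, Fintype.card_fin]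
          rw [mub_exp_lt hr, ENNReal.toReal_pow, ENNReal.toReal_ofReal hq]
        rw [← hbox]
        refine ENNReal.toReal_mono (measure_ne_top _ _) (measure_mono_ae ?_)
        filter_upwards [hnn] with ℓ hℓ
        intro hh
        intro i _
        have h3 : llen ℓ (std n cs) < r := hh.2.2.1
        have hmem : ((std n cs).map fun s => ℓ s.1) = (List.finRange n).map ℓ := by
          have h4 : ((std n cs).map fun s => ℓ s.1) = ((std n cs).map Prod.fst).map ℓ := by
            rw [List.map_map]
            rfl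
          rw [h4]
          unfold std
          rw [List.map_fst_zip (by simp [(mem_bl.mp hcs)])]
        have h5 : llen ℓ (std n cs) = ∑ i, ℓ i := by
          unfold llen
          rw [hmem, ← List.ofFn_eq_map, List.sum_ofFn]
        rw [h5] at h3
        exact lt_of_le_of_lt (Finset.single_le_sum (fun j _ => hℓ j) (Finset.mem_univ i)) h3
      · have hempty : {ℓ : Fin n → ℝ | n ≠ 0 ∧ ecol true cs = false ∧
            llen ℓ (std n cs) < r ∧ SA ℓ true (std n cs) (llen ℓ (std n cs)) ∧
            EA ℓ true (std n cs) (llen ℓ (std n cs))} = ∅ := by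
          ext ℓ
          simp [he]
        rw [hempty, measureReal_empty]
        refine mul_nonneg ?_ (pow_nonneg hq _)
        unfold ind
        split_ifs <;> norm_num
    unfold mu
    calc ∑ cs ∈ bl n, pw t true cs * (expPi (Fin n)).real {ℓ | n ≠ 0 ∧ ecol true cs = false ∧
        llen ℓ (std n cs) < r ∧ SA ℓ true (std n cs) (llen ℓ (std n cs)) ∧
        EA ℓ true (std n cs) (llen ℓ (std n cs))}
        ≤ ∑ cs ∈ bl n, pw t true cs * (ind (ecol true cs = false) * (1 - Real.exp (-r)) ^ n) :=
          Finset.sum_le_sum fun cs hcs => mul_le_mul_of_nonneg_left (hev cs hcs) (pw_nonneg ht _ _)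
      _ = (∑ cs ∈ bl n, pw t true cs * ind (ecol true cs = false)) * (1 - Real.exp (-r)) ^ n := by
          rw [Finset.sum_mul]
          exact Finset.sum_congr rfl fun cs _ => by ring
      _ = v t true * v t false * (1 - Real.exp (-r)) ^ n := by
          rw [sum_pw_ind t true false hn.ne']
      _ ≤ (1 - Real.exp (-r)) ^ n := by
          refine mul_le_of_le_one_left (pow_nonneg hq _) ?_
          exact mul_le_one₀ (v_le_one t true) (v_nonneg ht false) (v_le_one t false)

end FB
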