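import Pool.Agent.Lib.MP_fb152f_pr.SeqBe
import Pool.Agent.Lib.MP_fb152f_pr.MuB
import Pool.Agent.Lib.MP_fb152f_pr.Alive2

/-!
# LocS: locality and bounds for `qq`
-/

set_option autoImplicit false

namespace FB

open MeasureTheory

theorem locs_spos_mono {ω : ℕ → ℝ × Bool} (hω : ∀ i, 0 < (ω i).1) : StrictMono (spos ω) := by
  refine strictMono_nat_of_lt_succ fun k => ?_
  unfold spos
  rw [Finset.sum_range_succ]
  linarith [hω k]

theorem locs_aux {ω : ℕ → ℝ × Bool} (hω : ∀ i, 0 < (ω i).1) {n i : ℕ} (hi : i < n)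
    {r : ℝ} (hg : r ≤ (ω i).1) (a : Bool) :
    SAs a ω n r ↔ alive (spos ω) (scol a ω) (Finset.range (i + 1)) r 0 := by
  unfold SAs
  refine alive_local (Finset.range_mono (by omega)) (r := r) ?_ le_rfl (by simp)
  intro k hk j hj hj'
  rw [Finset.mem_range] at hk hj'
  have hm := locs_spos_mono hω
  have h1 : spos ω k ≤ spos ω i := hm.monotone (by omega)
  have h2 : spos ω (i + 1) ≤ spos ω j := hm.monotone (by omega)
  have h3 : spos ω (i + 1) = spos ω i + (ω i).1 := by
    unfold spos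
    rw [Finset.sum_range_succ]
  have h4 : spos ω k - spos ω j ≤ -r := by linarith
  rw [abs_sub_comm]
  exact (by linarith : r ≤ spos ω j - spos ω k).trans (le_abs_self _)

theorem SAs_local {ω : ℕ → ℝ × Bool} (hω : ∀ i, 0 < (ω i).1) {n n' i : ℕ} (hi : i < n)
    (hi' : i < n') {r : ℝ} (hg : r ≤ (ω i).1) (a : Bool) : SAs a ω n r ↔ SAs a ω n' r :=
  (locs_aux hω hi hg a).trans (locs_aux hω hi' hg a).symm

theorem locs_exp_pos : (ProbabilityTheory.expMeasure 1) (Set.Iic 0) = 0 := by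
  have hE : ProbabilityTheory.expMeasure 1 =
      volume.withDensity (ProbabilityTheory.exponentialPDF 1) := rfl
  rw [hE, withDensity_apply _ measurableSet_Iic,
    ProbabilityTheory.lintegral_exponentialPDF_eq_antiDeriv one_pos]
  simp

theorem locs_eval {p : ℝ} (hp : p ∈ Set.Icc (0 : ℝ) 1) (i : ℕ) {s : Set (ℝ × Bool)}
    (hs : MeasurableSet s) : (seqLaw p) {ω | ω i ∈ s} = (stepLaw p) s := by
  have := isProb_stepLaw hp
  have h := Measure.infinitePi_map_eval (fun _ : ℕ => stepLaw p) i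
  rw [← h, Measure.map_apply (measurable_pi_apply i) hs]
  rfl

theorem locs_pos {p : ℝ} (hp : p ∈ Set.Icc (0 : ℝ) 1) :
    ∀ᵐ ω ∂(seqLaw p), ∀ i, 0 < (ω i).1 := by
  have := isProb_colourLaw hp
  rw [ae_all_iff]
  intro i
  rw [ae_iff]
  have h1 : {ω : ℕ → ℝ × Bool | ¬ 0 < (ω i).1} = {ω | ω i ∈ (Set.Iic (0:ℝ)) ×ˢ Set.univ} := by
    ext ω
    simp
  rw [h1, locs_eval hp i (measurableSet_Iic.prod MeasurableSet.univ)]
  unfold stepLaw
  rw [Measure.prod_prod, locs_exp_pos, zero_mul]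

theorem locs_lt {p : ℝ} (hp : p ∈ Set.Icc (0 : ℝ) 1) (m : ℕ) {r : ℝ} (hr : 0 < r) :
    (seqLaw p).real {ω | ∀ i < m, (ω i).1 < r} = (1 - Real.exp (-r)) ^ m := by
  have h0 := isProb_stepLaw hp
  have h0' := isProb_colourLaw hp
  have h1 : {ω : ℕ → ℝ × Bool | ∀ i < m, (ω i).1 < r} =
      Set.pi (Finset.range m) (fun _ => (Set.Iio r) ×ˢ (Set.univ : Set Bool)) := by
    ext ω
    simp
  have h2 : (0:ℝ) ≤ 1 - Real.exp (-r) := by
    have := Real.exp_le_one_iff.mpr (show -r ≤ 0 by linarith)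
    linarith
  unfold Measure.real seqLaw
  rw [h1, Measure.infinitePi_pi _ (fun i _ => measurableSet_Iio.prod MeasurableSet.univ)]
  simp only [stepLaw, Measure.prod_prod, mub_exp_lt hr, measure_univ, mul_one,
    Finset.prod_const, Finset.card_range, ENNReal.toReal_pow, ENNReal.toReal_ofReal h2]

theorem qq_cauchy {p : ℝ} (hp : p ∈ Set.Icc (0 : ℝ) 1) (a : Bool) (n n' : ℕ) {r : ℝ}
    (hr : 0 < r) : |qq a n r p - qq a n' r p| ≤ (1 - Real.exp (-r)) ^ (min n n') := by
  have := isProb_seqLaw hp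
  rw [← locs_lt hp (min n n') hr]
  have key : ∀ n n' : ℕ, qq a n r p ≤ qq a n' r p +
      (seqLaw p).real {ω | ∀ i < min n n', (ω i).1 < r} := by
    intro n n'
    unfold qq
    refine le_trans ?_ (measureReal_union_le _ _)
    refine ENNReal.toReal_mono (measure_ne_top _ _) (measure_mono_ae ?_)
    filter_upwards [locs_pos hp] with ω hω h
    by_cases hc : ∀ i < min n n', (ω i).1 < r
    · exact Or.inr hc
    · push Not at hc
      obtain ⟨i, hi, hge⟩ := hc
      left
      exact (SAs_local hω (by omega) (by omega) hge a).mp h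
  have h1 := key n n'
  have h2 := key n' n
  rw [min_comm] at h2
  rw [abs_le]
  constructor <;> linarith

theorem qq_low {p : ℝ} (hp : p ∈ Set.Icc (0 : ℝ) 1) (a : Bool) (n : ℕ) {r : ℝ} (hr : 0 < r) :
    Real.exp (-r) ≤ qq a n r p := by
  have := isProb_seqLaw hp
  have h1 : (seqLaw p).real {ω | ∀ i < 1, (ω i).1 < r} = 1 - Real.exp (-r) := by
    rw [locs_lt hp 1 hr, pow_one]
  have hmeas : MeasurableSet {ω : ℕ → ℝ × Bool | ∀ i < 1, (ω i).1 < r} := by
    have : {ω : ℕ → ℝ × Bool | ∀ i < 1, (ω i).1 < r} = {ω | (ω 0).1 < r} := by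
      ext ω
      simp
    rw [this]
    exact measurableSet_lt (measurable_fst.comp (measurable_pi_apply 0)) measurable_const
  have h2 : Real.exp (-r) = (seqLaw p).real {ω | ∀ i < 1, (ω i).1 < r}ᶜ := by
    rw [probReal_compl_eq_one_sub hmeas, h1]
    ring
  rw [h2]
  unfold qq
  refine ENNReal.toReal_mono (measure_ne_top _ _) (measure_mono_ae ?_)
  filter_upwards [locs_pos hp] with ω hω h
  have h3 : r ≤ (ω 0).1 := by
    by_contra hc
    apply h
    intro i hi
    rw [show i = 0 by omega]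
    exact not_le.mp hc
  show alive _ _ _ _ _
  refine alive_of_far (by simp) ?_
  intro j hj hj0
  have hm := locs_spos_mono hω
  have h4 : spos ω 1 ≤ spos ω j := hm.monotone (by omega)
  have h5 : spos ω 1 = (ω 0).1 := by simp [spos]
  have h6 : spos ω 0 = 0 := by simp [spos]
  rw [h6, zero_sub, abs_neg]
  exact (by linarith : r ≤ spos ω j).trans (le_abs_self _)

theorem qq_le_one {p : ℝ} (hp : p ∈ Set.Icc (0 : ℝ) 1) (a : Bool) (n : ℕ) (r : ℝ) :
    qq a n r p ≤ 1 := by
  have := isProb_seqLaw hp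
  exact measureReal_le_one

theorem qq_anti {p : ℝ} (hp : p ∈ Set.Icc (0 : ℝ) 1) (a : Bool) (n : ℕ) {r r' : ℝ} (h : r ≤ r') :
    qq a n r' p ≤ qq a n r p := by
  have := isProb_seqLaw hp
  refine ENNReal.toReal_mono (measure_ne_top _ _) (measure_mono ?_)
  intro ω hω
  exact alive_anti (by simp) h hω

end FB
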