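import Pool.Agent.Lib.MP_fb152f_pr.LimDefs
import Pool.Agent.Lib.MP_fb152f_pr.AvI1
import Pool.Agent.Lib.MP_fb152f_pr.AvI2
import Pool.Agent.Lib.MP_fb152f_pr.AvI5
import Pool.Agent.Lib.MP_fb152f_pr.AvSep
import Pool.Agent.Lib.MP_fb152f_pr.MuB
import Pool.Agent.Lib.MP_fb152f_pr.LocS

/-!
# DatBe: the data of the problem satisfy `Dat` (30 minutes)

`bS (fun a n r t => be n r t a) a r t = beS r t a`, `mS mu r t = muS r t` (definitions).
`cau`, `lowB`, `lowR` from `be_eq`, `qq_cauchy`, `qq_low` (`p = sin t ^ 2 ∈ [0, 1]`,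
`0 ≤ v t a ≤ 1` on `I2`).
-/

set_option autoImplicit false

namespace FB

theorem dat_sin (t : ℝ) : Real.sin t ^ 2 ∈ Set.Icc (0 : ℝ) 1 :=
  ⟨sq_nonneg _, Real.sin_sq_le_one t⟩

theorem dat_be : Dat (fun a n r t => be n r t a) mu where
  cb := fun a n r => continuous_be n r a
  cm := continuous_mu
  b0 := fun a n r t ht => be_nonneg n r ht a
  b1 := fun a n r t ht => be_le_one n r ht a
  m0 := fun n r t ht => mu_nonneg n r ht
  anti := fun a n r r' hrr t ht => be_anti n hrr ht a
  cau := by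
    intro a n n' r hr t ht
    show |be n r t a - be n' r t a| ≤ _
    rw [be_eq, be_eq, ← mul_sub, abs_mul, abs_of_nonneg (v_nonneg ht a)]
    refine (mul_le_of_le_one_left (abs_nonneg _) (v_le_one t a)).trans ?_
    exact qq_cauchy (dat_sin t) a n n' hr
  lowB := by
    intro n r hr t ht
    show _ ≤ be n r t true
    rw [be_eq]
    refine mul_le_mul_of_nonneg_left (qq_low (dat_sin t) true n hr) ?_ |>.trans_eq' ?_
    · exact v_nonneg ht true
    · simp [v]
  lowR := by
    intro n r hr t ht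
    show _ ≤ be n r t false
    rw [be_eq]
    refine mul_le_mul_of_nonneg_left (qq_low (dat_sin t) false n hr) ?_ |>.trans_eq' ?_
    · exact v_nonneg ht false
    · simp [v]
  sep := fun n r hr t ht => be_sep n hr ht
  m1 := fun r hr t ht => mu_one hr t
  mmono := fun n r r' hrr t ht => mu_mono n hrr ht
  mle := fun n r hr t ht => mu_le n hr ht
  J1 := fun n r t1 t2 h0 h12 h2 => be_ineq1 n r h0 h12 h2
  J2 := fun n r t1 t2 h0 h12 h2 => be_ineq2 n r h0 h12 h2
  J4 := fun n r r' hrr t ht => be_loss n hrr ht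
  J5 := fun n r r' hrr t ht => be_up n hrr ht

end FB
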