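import Mathlib

/-!
# MP_fb152f_pr: asymmetric two-type stable matching on the line: definitions

`true` = blue, `false` = red.
-/

set_option autoImplicit false

namespace FB

open MeasureTheory ProbabilityTheory Finset

/-! ## Stable matchings (any index set, any metric space) -/

/-- Two colours are compatible unless both are blue. -/
def Compat (a b : Bool) : Prop := ¬ (a = true ∧ b = true)

/-- `σ` is a stable matching of the points `x i` with colours `c i`; `σ i = i` means that the
point `i` is unmatched.  There is no compatible pair, not matched to each other, such that each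
of the two is unmatched or strictly closer to the other one than to its own partner. -/
structure IsStable {ι E : Type*} [Dist E] (x : ι → E) (c : ι → Bool) (σ : ι → ι) : Prop where
  invol : ∀ i, σ (σ i) = i
  compat : ∀ i, σ i ≠ i → Compat (c i) (c (σ i))
  noblock : ∀ i j, i ≠ j → Compat (c i) (c j) → σ i ≠ j →
    ¬ ((σ i = i ∨ dist (x i) (x j) < dist (x i) (x (σ i))) ∧
       (σ j = j ∨ dist (x j) (x i) < dist (x j) (x (σ j))))

/-! ## The coloured Poisson process on the line -/

/-- The spacings of a sequence `... < x (-1) < x 0 < 0 < x 1 < x 2 < ...`: `- x 0` and `x 1` are the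
distances from the origin, the other spacings are the distances between neighbours. -/
def gap (x : ℤ → ℝ) (k : ℤ) : ℝ :=
  if k = 0 then - x 0 else if k = 1 then x 1 else
    if 1 < k then x k - x (k - 1) else x (k + 1) - x k

/-- The law of a colour: blue (`true`) with probability `p`. -/
noncomputable def colourLaw (p : ℝ) : Measure Bool :=
  ENNReal.ofReal p • Measure.dirac true + ENNReal.ofReal (1 - p) • Measure.dirac false

/-- The law of a pair (spacing, colour). -/
noncomputable def stepLaw (p : ℝ) : Measure (ℝ × Bool) := (expMeasure 1).prod (colourLaw p)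

/-- The points `X k` are the points of a Poisson process of intensity `1` on the line, listed in
increasing order with `X 0 < 0 < X 1` (the spacings are i.i.d. exponential with mean `1`), and the
colours `c k` are independent of each other and of the process, blue with probability `p`. -/
structure IsColouredPoisson (p : ℝ) {Ω : Type*} [MeasurableSpace Ω] (P : Measure Ω)
    (X : ℤ → Ω → ℝ) (c : ℤ → Ω → Bool) : Prop where
  measX : ∀ k, Measurable (X k)
  measc : ∀ k, Measurable (c k)
  indep : iIndepFun (fun (k : ℤ) (ω : Ω) => (gap (fun j => X j ω) k, c k ω)) P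
  law : ∀ k, P.map (fun ω => (gap (fun j => X j ω) k, c k ω)) = stepLaw p

/-- Indices of the blue points which are unmatched in some stable matching. -/
def unmatchedBlue (x : ℤ → ℝ) (c : ℤ → Bool) : Set ℤ :=
  {k | c k = true ∧ ∃ σ : ℤ → ℤ, IsStable x c σ ∧ σ k = k}

/-! ## The greedy algorithm in finite windows -/

section alive

variable {ι : Type*}

/-- Auxiliary (with fuel). -/
def aliveN (x : ι → ℝ) (c : ι → Bool) (W : Finset ι) : ℕ → ℝ → ι → Prop
  | 0, _, _ => True
  | n + 1, r, i => ∀ j ∈ W, j ≠ i → Compat (c i) (c j) → |x i - x j| < r →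
      ¬ (aliveN x c W n |x i - x j| i ∧ aliveN x c W n |x i - x j| j)

/-- The point `i` of the finite configuration `W` is not matched at a distance `< r`
(greedy algorithm inside `W`). -/
def alive (x : ι → ℝ) (c : ι → Bool) (W : Finset ι) (r : ℝ) (i : ι) : Prop :=
  aliveN x c W (W.card ^ 2) r i

end alive

/-- Indicator. -/
noncomputable def ind (p : Prop) : ℝ := by classical exact if p then 1 else 0

/-! ## Configurations given by lists of steps (label of the gap, colour of the next point) -/

/-- Colour of the last point of a path which starts with colour `a`. -/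
def ecol : Bool → List Bool → Bool
  | a, [] => a
  | _, b :: cs => ecol b cs

section lists

variable {ι : Type*}

/-- Position of the point number `k`. -/
def lpos (ℓ : ι → ℝ) (l : List (ι × Bool)) (k : ℕ) : ℝ := ((l.take k).map fun s => ℓ s.1).sum

/-- Colour of the point number `k`. -/
def lcol (a : Bool) (l : List (ι × Bool)) (k : ℕ) : Bool := ecol a ((l.take k).map Prod.snd)

/-- Total length of a list of steps. -/
def llen (ℓ : ι → ℝ) (l : List (ι × Bool)) : ℝ := (l.map fun s => ℓ s.1).sum

/-- Total length of a set of gaps. -/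
def slen (ℓ : ι → ℝ) (S : Finset ι) : ℝ := ∑ i ∈ S, ℓ i

/-- The point number `k` is not matched at a distance `< r` in the configuration `(a, l)`. -/
def aliveL (ℓ : ι → ℝ) (a : Bool) (l : List (ι × Bool)) (r : ℝ) (k : ℕ) : Prop :=
  alive (lpos ℓ l) (lcol a l) (Finset.range (l.length + 1)) r k

/-- Start alive. -/
def SA (ℓ : ι → ℝ) (a : Bool) (l : List (ι × Bool)) (r : ℝ) : Prop := aliveL ℓ a l r 0

/-- End alive. -/
def EA (ℓ : ι → ℝ) (a : Bool) (l : List (ι × Bool)) (r : ℝ) : Prop := aliveL ℓ a l r l.length

end lists

/-! ## Weights -/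

/-- Square roots of the probabilities of the colours, `p = sin^2 t`. -/
noncomputable def v (t : ℝ) (a : Bool) : ℝ := if a = true then Real.sin t else Real.cos t

/-- Weight of a path of colours. -/
noncomputable def pw (t : ℝ) : Bool → List Bool → ℝ
  | _, [] => 1
  | a, b :: cs => v t a * v t b * pw t b cs

/-! ## The ring of set functions -/

/-- Set functions with the product `(f * g) S = ∑ A ⊆ S, f A * g (S \ A)`. -/
def SF (ι : Type*) := Finset ι → ℝ

section SF

variable {ι : Type*} [DecidableEq ι]

noncomputable instance : AddCommGroup (SF ι) := inferInstanceAs (AddCommGroup (Finset ι → ℝ))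

noncomputable instance : Module ℝ (SF ι) := inferInstanceAs (Module ℝ (Finset ι → ℝ))

instance : One (SF ι) := ⟨fun S => if S = ∅ then 1 else 0⟩

instance : Mul (SF ι) := ⟨fun f g S => ∑ A ∈ S.powerset, f A * g (S \ A)⟩

omit [DecidableEq ι] in
@[ext] theorem SF.ext {f g : SF ι} (h : ∀ S, f S = g S) : f = g := funext h

omit [DecidableEq ι] in
@[simp] theorem SF.zero_apply (S : Finset ι) : (0 : SF ι) S = 0 := rfl

omit [DecidableEq ι] in
@[simp] theorem SF.add_apply (f g : SF ι) (S : Finset ι) : (f + g) S = f S + g S := rfl

omit [DecidableEq ι] in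
@[simp] theorem SF.sub_apply (f g : SF ι) (S : Finset ι) : (f - g) S = f S - g S := rfl

omit [DecidableEq ι] in
@[simp] theorem SF.neg_apply (f : SF ι) (S : Finset ι) : (-f) S = -f S := rfl

omit [DecidableEq ι] in
@[simp] theorem SF.smul_apply (a : ℝ) (f : SF ι) (S : Finset ι) : (a • f) S = a * f S := rfl

theorem SF.one_apply (S : Finset ι) : (1 : SF ι) S = if S = ∅ then 1 else 0 := rfl

theorem SF.mul_apply (f g : SF ι) (S : Finset ι) :
    (f * g) S = ∑ A ∈ S.powerset, f A * g (S \ A) := rfl

theorem SF.mul_comm' (f g : SF ι) : f * g = g * f := by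
  ext S
  rw [SF.mul_apply, SF.mul_apply]
  refine Finset.sum_nbij' (fun A => S \ A) (fun A => S \ A) ?_ ?_ ?_ ?_ ?_
  · intro A _
    simp
  · intro A _
    simp
  · intro A hA
    simp only [Finset.mem_powerset] at hA
    simp [Finset.inter_eq_right.mpr hA]
  · intro A hA
    simp only [Finset.mem_powerset] at hA
    simp [Finset.inter_eq_right.mpr hA]
  · intro A hA
    simp only [Finset.mem_powerset] at hA
    simp [Finset.inter_eq_right.mpr hA, _root_.mul_comm]

theorem SF.one_mul' (f : SF ι) : 1 * f = f := by
  ext S
  rw [SF.mul_apply, Finset.sum_eq_single ∅]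
  · simp [SF.one_apply]
  · intro A _ hA
    simp [SF.one_apply, hA]
  · simp

theorem SF.mul_assoc' (f g h : SF ι) : f * g * h = f * (g * h) := by
  ext S
  simp only [SF.mul_apply, Finset.sum_mul, Finset.mul_sum]
  rw [Finset.sum_sigma', Finset.sum_sigma']
  refine Finset.sum_nbij' (fun q => ⟨q.2, q.1 \ q.2⟩) (fun q => ⟨q.1 ∪ q.2, q.1⟩) ?_ ?_ ?_ ?_ ?_
  · rintro ⟨A, B⟩ hq
    simp only [Finset.mem_sigma, Finset.mem_powerset] at hq ⊢
    exact ⟨hq.2.trans hq.1, Finset.sdiff_subset_sdiff hq.1 (subset_refl _)⟩
  · rintro ⟨A, B⟩ hq
    simp only [Finset.mem_sigma, Finset.mem_powerset] at hq ⊢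
    exact ⟨Finset.union_subset hq.1 (hq.2.trans Finset.sdiff_subset), Finset.subset_union_left⟩
  · rintro ⟨A, B⟩ hq
    simp only [Finset.mem_sigma, Finset.mem_powerset] at hq
    simp [Finset.union_sdiff_of_subset hq.2]
  · rintro ⟨A, B⟩ hq
    simp only [Finset.mem_sigma, Finset.mem_powerset] at hq
    have hd : Disjoint B A := (Finset.disjoint_sdiff (s := A) (t := S)).symm.mono_left hq.2
    simp [Finset.union_sdiff_cancel_left hd.symm]
  · rintro ⟨A, B⟩ hq
    simp only [Finset.mem_sigma, Finset.mem_powerset] at hq
    have h1 : (S \ B) \ (A \ B) = S \ A := by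
      rw [sdiff_sdiff_left, Finset.sup_eq_union, Finset.union_sdiff_of_subset hq.2]
    simp only [h1]
    ring

noncomputable instance : CommRing (SF ι) :=
  { (inferInstance : AddCommGroup (SF ι)) with
    mul := (· * ·)
    one := 1
    mul_assoc := SF.mul_assoc'
    one_mul := SF.one_mul'
    mul_one := fun f => by rw [SF.mul_comm']; exact SF.one_mul' f
    mul_comm := SF.mul_comm'
    zero_mul := fun f => by
      ext S
      rw [SF.mul_apply]
      simp
    mul_zero := fun f => by
      ext S
      rw [SF.mul_apply]
      simp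
    left_distrib := fun f g h => by
      ext S
      simp only [SF.mul_apply, SF.add_apply, mul_add, Finset.sum_add_distrib]
    right_distrib := fun f g h => by
      ext S
      simp only [SF.mul_apply, SF.add_apply, add_mul, Finset.sum_add_distrib] }

/-- The monomial of `T`. -/
def zz (T : Finset ι) : SF ι := fun S => if S = T then 1 else 0

end SF

/-! ## Coloured orderings of a finite set of gaps -/

section cord

variable {ι : Type*} [DecidableEq ι]

/-- Auxiliary. -/
def cordN : ℕ → Finset ι → Finset (List (ι × Bool))
  | 0, _ => {[]}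
  | n + 1, S => S.biUnion fun s => (Finset.univ : Finset Bool).biUnion fun b =>
      (cordN n (S.erase s)).image fun l => (s, b) :: l

/-- The coloured orderings of `S`: all lists `l` of pairs (label, colour) whose labels are the
elements of `S`, each exactly once. -/
def cord (S : Finset ι) : Finset (List (ι × Bool)) := cordN S.card S

/-- All lists of `n` colours. -/
def bl (n : ℕ) : Finset (List Bool) := (Finset.univ : Finset (Fin n → Bool)).image List.ofFn

/-! ## The basic set functions -/

/-- One-sided function: start alive before `r`. -/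
noncomputable def psi (ℓ : ι → ℝ) (r t : ℝ) (a : Bool) : SF ι := fun S =>
  ∑ l ∈ cord S, pw t a (l.map Prod.snd) * v t (ecol a (l.map Prod.snd)) * ind (SA ℓ a l r)

/-- Two-point function: both ends alive before `r`. -/
noncomputable def Pm (ℓ : ι → ℝ) (r t : ℝ) (a b : Bool) : SF ι := fun S =>
  ∑ l ∈ cord S, pw t a (l.map Prod.snd) *
    ind (ecol a (l.map Prod.snd) = b ∧ SA ℓ a l r ∧ EA ℓ a l r)

/-- The pairs matched by the block `T`. -/
noncomputable def mk (ℓ : ι → ℝ) (t : ℝ) (a b : Bool) (T : Finset ι) : ℝ :=
  ind (T ≠ ∅ ∧ Compat a b) * Pm ℓ (slen ℓ T) t a b T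

/-- The blue-red pairs matched before `r`. -/
noncomputable def mr (ℓ : ι → ℝ) (r t : ℝ) : SF ι := fun T =>
  ind (slen ℓ T < r) * mk ℓ t true false T

/-- Positive lengths, different sets of gaps have different total lengths. -/
def Generic (ℓ : ι → ℝ) : Prop := (∀ i, 0 < ℓ i) ∧ Function.Injective (slen ℓ)

end cord

/-! ## Averages over i.i.d. exponential gaps -/

/-- The law of i.i.d. exponential gaps. -/
noncomputable def expPi (ι : Type*) [Fintype ι] : Measure (ι → ℝ) :=
  Measure.pi fun _ => expMeasure 1

instance : IsProbabilityMeasure (expMeasure 1) := isProbabilityMeasure_expMeasure one_pos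

instance (ι : Type*) [Fintype ι] : IsProbabilityMeasure (expPi ι) := by
  unfold expPi; infer_instance

/-- The configuration with the gaps `0, ..., n-1` in this order and the colours `cs`. -/
def std (n : ℕ) (cs : List Bool) : List (Fin n × Bool) := (List.finRange n).zip cs

/-- The average of `psi` over the gaps (divided by `n!`). -/
noncomputable def be (n : ℕ) (r t : ℝ) (a : Bool) : ℝ :=
  ∑ cs ∈ bl n, pw t a cs * v t (ecol a cs) *
    (expPi (Fin n)).real {ℓ | SA ℓ a (std n cs) r}

/-- The average of `mr` over the gaps (divided by `n!`). -/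
noncomputable def mu (n : ℕ) (r t : ℝ) : ℝ :=
  ∑ cs ∈ bl n, pw t true cs *
    (expPi (Fin n)).real {ℓ | n ≠ 0 ∧ ecol true cs = false ∧ llen ℓ (std n cs) < r ∧
      SA ℓ true (std n cs) (llen ℓ (std n cs)) ∧ EA ℓ true (std n cs) (llen ℓ (std n cs))}

/-- Power series of the averages. -/
noncomputable def beS (r t : ℝ) (a : Bool) : PowerSeries ℝ := PowerSeries.mk fun n => be n r t a

/-- Power series of the averages. -/
noncomputable def muS (r t : ℝ) : PowerSeries ℝ := PowerSeries.mk fun n => mu n r t

/-! ## Infinite sequences of steps -/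

/-- Position of the point number `k` for the steps `ω`. -/
def spos (ω : ℕ → ℝ × Bool) (k : ℕ) : ℝ := ∑ i ∈ Finset.range k, (ω i).1

/-- Colour of the point number `k`. -/
def scol (a : Bool) (ω : ℕ → ℝ × Bool) : ℕ → Bool
  | 0 => a
  | k + 1 => (ω k).2

/-- In the window `[0, n]` the start (colour `a`) is not matched at a distance `< r`. -/
def SAs (a : Bool) (ω : ℕ → ℝ × Bool) (n : ℕ) (r : ℝ) : Prop :=
  alive (spos ω) (scol a ω) (Finset.range (n + 1)) r 0

/-- The law of an infinite sequence of steps. -/
noncomputable def seqLaw (p : ℝ) : Measure (ℕ → ℝ × Bool) := Measure.infinitePi fun _ => stepLaw p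

/-- The probability that the start (colour `a`) is not matched at a distance `< r` in the window
with `n` gaps. -/
noncomputable def qq (a : Bool) (n : ℕ) (r p : ℝ) : ℝ := (seqLaw p).real {ω | SAs a ω n r}

end FB
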