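import Pool.Agent.Lib.MP_fb152f_pr.Zz

/-!
# EvoDefs: the evolution equations in the colour parameter (definitions)
-/

set_option autoImplicit false

namespace FB

variable {ι : Type*} [DecidableEq ι]

/-- `F = 2 P - 1`, `F' = W F + F W^T`, `s' = W s`, entrywise. -/
structure EqState (P11 P12 P22 s1 s2 w1 w2 w3 w4 : ℝ → SF ι) : Prop where
  d11 : ∀ t, HD P11 (w1 t * (2 * P11 t - 1) + 2 * (w2 t * P12 t)) t
  d12 : ∀ t, HD (fun t => 2 * P12 t) (2 * (w1 t * P12 t) + w2 t * (2 * P22 t - 1) +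
    (2 * P11 t - 1) * w3 t + 2 * (P12 t * w4 t)) t
  d22 : ∀ t, HD P22 (2 * (w3 t * P12 t) + w4 t * (2 * P22 t - 1)) t
  d1 : ∀ t, HD s1 (w1 t * s1 t + w2 t * s2 t) t
  d2 : ∀ t, HD s2 (w3 t * s1 t + w4 t * s2 t) t

/-- Sign conditions (`μ = mr ℓ r t`). -/
structure Sgn (μ w1 w2 w3 w4 : SF ι) : Prop where
  h1 : ∀ S, (2 * μ) S ≤ w1 S
  h4 : ∀ S, w4 S ≤ 0
  ha : ∀ S, (2 * (1 + μ * μ)) S ≤ (w2 - w3) S
  hs : ∀ S, 0 ≤ (w2 + w3) S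

end FB
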