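import Pool.Agent.Lib.MP_fb152f_pr.GapZ
import Pool.Agent.Lib.MP_fb152f_pr.SeqBe

/-!
# Exist: a coloured Poisson process exists (60 minutes)

`Ω = ℤ → ℝ × Bool`, `P = Measure.infinitePi (fun _ => stepLaw p)`, `X k` = sum of the spacings.
-/

set_option autoImplicit false

namespace FB

open MeasureTheory ProbabilityTheory

/-- The positions as sums of the spacings. -/
noncomputable def existX (ω : ℤ → ℝ × Bool) (k : ℤ) : ℝ :=
  if 1 ≤ k then ∑ i ∈ Finset.range k.toNat, (ω ((i : ℤ) + 1)).1
  else - ∑ i ∈ Finset.range ((-k).toNat + 1), (ω (-(i : ℤ))).1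

theorem exist_gap (ω : ℤ → ℝ × Bool) (k : ℤ) : gap (existX ω) k = (ω k).1 := by
  unfold gap
  by_cases h0 : k = 0
  · subst h0
    simp [existX]
  · rw [if_neg h0]
    by_cases h1 : k = 1
    · subst h1
      simp [existX]
    · rw [if_neg h1]
      by_cases h2 : 1 < k
      · rw [if_pos h2]
        obtain ⟨n, rfl⟩ : ∃ n : ℕ, k = (n : ℤ) + 2 := ⟨(k - 2).toNat, by omega⟩
        unfold existX
        rw [if_pos (by omega), if_pos (by omega)]
        have e1 : ((n : ℤ) + 2).toNat = (n + 1) + 1 := by omega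
        have e2 : ((n : ℤ) + 2 - 1).toNat = n + 1 := by omega
        rw [e1, e2, Finset.sum_range_succ, add_sub_cancel_left]
        have e3 : (((n + 1 : ℕ) : ℤ) + 1) = (n : ℤ) + 2 := by push_cast; ring
        rw [e3]
      · rw [if_neg h2]
        obtain ⟨n, rfl⟩ : ∃ n : ℕ, k = -((n : ℤ) + 1) := ⟨(-k - 1).toNat, by omega⟩
        unfold existX
        rw [if_neg (by omega), if_neg (by omega)]
        have e1 : (-(-((n : ℤ) + 1) + 1)).toNat + 1 = n + 1 := by omega
        have e2 : (-(-((n : ℤ) + 1))).toNat + 1 = (n + 1) + 1 := by omega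
        rw [e1, e2, Finset.sum_range_succ _ (n + 1)]
        have e3 : (-(((n + 1 : ℕ)) : ℤ)) = -((n : ℤ) + 1) := by push_cast; ring
        rw [e3]
        ring

theorem exists_process {p : ℝ} (hp : p ∈ Set.Icc (0 : ℝ) 1) :
    ∃ (Ω : Type) (_ : MeasurableSpace Ω) (P : Measure Ω) (_ : IsProbabilityMeasure P)
      (X : ℤ → Ω → ℝ) (c : ℤ → Ω → Bool), IsColouredPoisson p P X c := by
  have := isProb_stepLaw hp
  refine ⟨ℤ → ℝ × Bool, inferInstance, Measure.infinitePi (fun _ => stepLaw p), inferInstance,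
    fun k ω => existX ω k, fun k ω => (ω k).2, ?_⟩
  have hpair : ∀ k : ℤ, (fun ω : ℤ → ℝ × Bool =>
      (gap (fun j => existX ω j) k, (ω k).2)) = fun ω => ω k := by
    intro k
    funext ω
    have h := exist_gap ω k
    exact Prod.ext h rfl
  refine ⟨fun k => ?_, fun k => ?_, ?_, fun k => ?_⟩
  · unfold existX
    split_ifs
    · exact Finset.measurable_sum _ fun i _ => measurable_fst.comp (measurable_pi_apply _)
    · exact (Finset.measurable_sum _ fun i _ => measurable_fst.comp (measurable_pi_apply _)).neg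
  · exact measurable_snd.comp (measurable_pi_apply k)
  · have hfun : (fun (k : ℤ) (ω : ℤ → ℝ × Bool) =>
        (gap (fun j => existX ω j) k, (ω k).2)) = fun k ω => ω k := funext hpair
    rw [hfun]
    exact iIndepFun_infinitePi (X := fun _ y => y) (fun _ => measurable_id)
  · rw [hpair k]
    exact Measure.infinitePi_map_eval (fun _ : ℤ => stepLaw p) k

end FB
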