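import Pool.Agent.Lib.MP_fb152f_pr.LimDefs

/-!
# Fin1: the limit `r → ∞`: monotonicity (60 minutes)

`X true r t` is antitone in `r > 0` and `≥ 0`, so it has a limit `x t ≥ 0` for `t ∈ I2`.
* `XB_mono`: for fixed `r`, `X true r` is monotone on `I2` (`L1`, `X false ≥ 0`).
* `x_mono` is the limit.
* `x_int`: for `0 ≤ t1 ≤ t2 ≤ π/2`:
  `∫_{t1}^{t2} 4 * (sin t * cos t * (1 - exp (-1))) * x(t)^2 dt ≤ x(t2)^2 - x(t1)^2`.
  For `r ≥ 1`: `L2` with `N = 2`: the integrand is at least
  `4 * m 1 r t * X_B^2 ≥ 4 * m 1 1 t * x(t)^2` (`mmono`, `X_B ≥ x`, other terms nonnegative), the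
  right side tends to `x(t2)^2 - x(t1)^2` by `L3`.  `x` is monotone, hence measurable and integrable.
-/

set_option autoImplicit false

namespace FB

open Filter Topology

variable {X : Bool → ℝ → ℝ → ℝ} {m : ℕ → ℝ → ℝ → ℝ}

theorem exists_x (h : LD X m) : ∃ x : ℝ → ℝ, (∀ t ∈ I2,
    Tendsto (fun r => X true r t) atTop (𝓝 (x t))) ∧ (∀ t ∈ I2, 0 ≤ x t) ∧
    (∀ t ∈ I2, ∀ r, 0 < r → x t ≤ X true r t) := by
  have h1 : ∀ t ∈ I2, ∃ y, Tendsto (fun r => X true r t) atTop (𝓝 y) ∧ 0 ≤ y ∧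
      ∀ r, 0 < r → y ≤ X true r t := by
    intro t ht
    have ha : Antitone (fun r => X true (max r 1) t) := by
      intro r r' hrr
      exact h.anti true _ _ (lt_max_of_lt_right one_pos) (max_le_max hrr le_rfl) t ht
    have hb : BddBelow (Set.range fun r => X true (max r 1) t) := by
      refine ⟨0, ?_⟩
      rintro _ ⟨r, rfl⟩
      exact h.X0 true _ (lt_max_of_lt_right one_pos) t ht
    have hl := tendsto_atTop_ciInf ha hb
    have heq : (fun r => X true (max r 1) t) =ᶠ[atTop] fun r => X true r t := by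
      filter_upwards [eventually_ge_atTop (1 : ℝ)] with r hr
      rw [max_eq_left hr]
    refine ⟨_, hl.congr' heq, ?_, ?_⟩
    · exact le_ciInf fun r => h.X0 true _ (lt_max_of_lt_right one_pos) t ht
    · intro r hr
      refine le_of_tendsto (hl.congr' heq) ?_
      filter_upwards [eventually_ge_atTop r] with r' hr'
      exact h.anti true r r' hr hr' t ht
  choose! x hx using h1
  exact ⟨x, fun t ht => (hx t ht).1, fun t ht => (hx t ht).2.1, fun t ht => (hx t ht).2.2⟩

theorem XB_mono (h : LD X m) {r : ℝ} (hr : 0 < r) : MonotoneOn (X true r) I2 := by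
  intro t1 ht1 t2 ht2 h12
  have h1 := h.L1 r t1 t2 hr ht1.1 h12 ht2.2
  have h2 : 0 ≤ ∫ t in t1..t2, X false r t := by
    refine intervalIntegral.integral_nonneg h12 ?_
    intro t ht
    exact h.X0 false r hr t ⟨ht1.1.trans ht.1, ht.2.trans ht2.2⟩
  linarith

theorem x_mono (h : LD X m) {x : ℝ → ℝ} (hx : ∀ t ∈ I2,
    Tendsto (fun r => X true r t) atTop (𝓝 (x t))) : MonotoneOn x I2 := by
  intro t1 ht1 t2 ht2 h12
  refine le_of_tendsto_of_tendsto (hx t1 ht1) (hx t2 ht2) ?_
  filter_upwards [eventually_gt_atTop (0 : ℝ)] with r hr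
  exact XB_mono h hr ht1 ht2 h12

theorem fin1_R0 (h : LD X m) {t : ℝ} (ht : t ∈ I2) :
    Tendsto (fun r => X false r t ^ 2) atTop (𝓝 0) := by
  refine squeeze_zero' ?_ ?_ tendsto_inv_atTop_zero
  · exact Eventually.of_forall fun r => sq_nonneg _
  · filter_upwards [eventually_gt_atTop (0:ℝ)] with r hr
    have := h.L3 r hr t ht
    rwa [one_div] at this

theorem x_int (h : LD X m) {x : ℝ → ℝ} (hx : ∀ t ∈ I2,
      Tendsto (fun r => X true r t) atTop (𝓝 (x t))) (hx0 : ∀ t ∈ I2, 0 ≤ x t)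
    {t1 t2 : ℝ} (h0 : 0 ≤ t1) (h12 : t1 ≤ t2) (h2 : t2 ≤ Real.pi / 2) :
    ∫ t in t1..t2, 4 * (Real.sin t * Real.cos t * (1 - Real.exp (-1))) * x t ^ 2 ≤
      x t2 ^ 2 - x t1 ^ 2 := by
  have hI : ∀ t ∈ Set.Icc t1 t2, t ∈ I2 := fun t ht => ⟨h0.trans ht.1, ht.2.trans h2⟩
  have ht1 : t1 ∈ I2 := hI t1 ⟨le_rfl, h12⟩
  have ht2 : t2 ∈ I2 := hI t2 ⟨h12, le_rfl⟩
  have hxm := x_mono h hx
  have hxle : ∀ t ∈ I2, ∀ r, 0 < r → x t ≤ X true r t := by
    intro t ht r hr
    refine le_of_tendsto (hx t ht) ?_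
    filter_upwards [eventually_ge_atTop r] with r' hr'
    exact h.anti true r r' hr hr' t ht
  have hsub : Set.uIcc t1 t2 ⊆ I2 := by
    rw [Set.uIcc_of_le h12]
    exact fun t ht => hI t ht
  have hxint : IntervalIntegrable (fun t => 4 * (Real.sin t * Real.cos t *
      (1 - Real.exp (-1))) * x t ^ 2) MeasureTheory.volume t1 t2 := by
    have hm : MonotoneOn (fun t => x t ^ 2) (Set.uIcc t1 t2) := by
      intro a ha b hb hab
      exact pow_le_pow_left₀ (hx0 a (hsub ha)) (hxm (hsub ha) (hsub hb) hab) 2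
    refine hm.intervalIntegrable.continuousOn_mul ?_
    fun_prop
  have hkey : ∀ r, 1 ≤ r → ∫ t in t1..t2, 4 * (Real.sin t * Real.cos t *
      (1 - Real.exp (-1))) * x t ^ 2 ≤
      (X true r t2 ^ 2 - X false r t2 ^ 2) - (X true r t1 ^ 2 - X false r t1 ^ 2) := by
    intro r hr1
    have hr : 0 < r := one_pos.trans_le hr1
    refine le_trans ?_ (h.L2 2 r t1 t2 hr h0 h12 h2)
    refine intervalIntegral.integral_mono_on h12 hxint ?_ ?_
    · refine ContinuousOn.intervalIntegrable ?_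
      have hA : ContinuousOn (fun t => ∑ k ∈ Finset.range 2, m k r t) (Set.uIcc t1 t2) :=
        (continuous_finsetSum _ fun k _ => h.cm k r).continuousOn
      have hB : ContinuousOn (X true r) (Set.uIcc t1 t2) := (h.cX true r hr).mono hsub
      have hR : ContinuousOn (X false r) (Set.uIcc t1 t2) := (h.cX false r hr).mono hsub
      exact continuousOn_const.mul (((continuousOn_const.add (hA.pow 2)).mul (hB.mul hR)).add
        (hA.mul (hB.pow 2)))
    · intro t ht
      have htI := hI t ht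
      have hm0 := h.m0 0 r t htI
      have hm1 : Real.sin t * Real.cos t * (1 - Real.exp (-1)) ≤ m 1 r t := by
        rw [← h.m1 1 one_pos t htI]
        exact h.mmono 1 1 r hr1 t htI
      have hB := h.X0 true r hr t htI
      have hR := h.X0 false r hr t htI
      have hx2 : x t ^ 2 ≤ X true r t ^ 2 := pow_le_pow_left₀ (hx0 t htI) (hxle t htI r hr) 2
      have hs : 0 ≤ Real.sin t * Real.cos t * (1 - Real.exp (-1)) := by
        refine mul_nonneg (mul_nonneg ?_ ?_) ?_
        · exact Real.sin_nonneg_of_mem_Icc ⟨htI.1, htI.2.trans (by linarith [Real.pi_pos])⟩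
        · exact Real.cos_nonneg_of_mem_Icc ⟨by linarith [Real.pi_pos, htI.1], htI.2⟩
        · have := Real.exp_le_one_iff.mpr (show (-1 : ℝ) ≤ 0 by norm_num)
          linarith
      have hS : ∑ k ∈ Finset.range 2, m k r t = m 0 r t + m 1 r t := by
        simp [Finset.sum_range_succ]
      rw [hS]
      have h5 : (Real.sin t * Real.cos t * (1 - Real.exp (-1))) * x t ^ 2 ≤
          (m 0 r t + m 1 r t) * X true r t ^ 2 :=
        mul_le_mul (by linarith) hx2 (sq_nonneg _) (by linarith)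
      have h6 : 0 ≤ (1 + (m 0 r t + m 1 r t) ^ 2) * (X true r t * X false r t) := by positivity
      linarith
  have hlim : Tendsto (fun r => (X true r t2 ^ 2 - X false r t2 ^ 2) -
      (X true r t1 ^ 2 - X false r t1 ^ 2)) atTop (𝓝 (x t2 ^ 2 - x t1 ^ 2)) := by
    have := (((hx t2 ht2).pow 2).sub (fin1_R0 h ht2)).sub (((hx t1 ht1).pow 2).sub (fin1_R0 h ht1))
    simpa using this
  refine ge_of_tendsto hlim ?_
  filter_upwards [eventually_ge_atTop (1 : ℝ)] with r hr
  exact hkey r hr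

end FB
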