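import Pool.Agent.Lib.MP_fb152f_pr.Fin1

/-!
# Fin2: positivity, first part (60 minutes)

* `ratio`: `t^2 * X_R(r,t)^2 ≤ (1 + t^2) * X_B(r,t)^2` for `t ∈ I2`, `r > 0`.
  If `X_R ≤ X_B` trivial (`t^2 ≤ 1 + t^2`).  Otherwise `D = X_R(t)^2 - X_B(t)^2 > 0`, and by `L2`
  (`N = 0`, integrand `4 X_B X_R ≥ 0`) `X_R(s)^2 - X_B(s)^2 ≥ D` for all `0 ≤ s ≤ t`; so
  `X_R(s) ≥ sqrt D`, and `L1` on `[0, t]`: `X_B(t) ≥ X_B(0) + ∫_0^t X_R ≥ t sqrt D`.  So
  `X_B^2 ≥ t^2 (X_R^2 - X_B^2)`.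
* `pos_of_bdd`: let `t ∈ I2`, `0 < t`, and suppose the sums `M r = ∑' k, m k r t` are bounded in
  `r > 0`.  Then `x t > 0`.  `M` is non-decreasing in `r` (`mmono`) and bounded, so for every
  `ε > 0` there is `r ≥ 1` with `M r' - M r ≤ ε` for all `r' ≥ r`.  By `L4`, `ratio`:
  `X_B(r) - X_B(r') ≤ ε X_R(r) ≤ ε (sqrt(1 + t^2) / t) X_B(r)`; choose `ε` with
  `ε sqrt(1 + t^2) / t ≤ 1/2`: `X_B(r') ≥ X_B(r) / 2 ≥ sin t exp(-r) / 2 > 0` for all `r' ≥ r`
  (`lowB`), so `x t ≥ X_B(r)/2 > 0`.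
-/

set_option autoImplicit false

namespace FB

open Filter Topology

variable {X : Bool → ℝ → ℝ → ℝ} {m : ℕ → ℝ → ℝ → ℝ}

theorem fin2_sub {t : ℝ} (ht : t ∈ I2) : Set.uIcc 0 t ⊆ I2 := by
  rw [Set.uIcc_of_le ht.1]
  exact Set.Icc_subset_Icc le_rfl ht.2

theorem ratio (h : LD X m) {r : ℝ} (hr : 0 < r) {t : ℝ} (ht : t ∈ I2) :
    t ^ 2 * X false r t ^ 2 ≤ (1 + t ^ 2) * X true r t ^ 2 := by
  have hB := h.X0 true r hr t ht
  have hR := h.X0 false r hr t ht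
  by_cases hle : X false r t ≤ X true r t
  · have h1 : X false r t ^ 2 ≤ X true r t ^ 2 := pow_le_pow_left₀ hR hle 2
    nlinarith [sq_nonneg t, sq_nonneg (X true r t)]
  push Not at hle
  set D := X false r t ^ 2 - X true r t ^ 2 with hD
  have hDpos : 0 < D := by
    have := pow_lt_pow_left₀ hle hB two_ne_zero
    linarith
  have hmono : ∀ s, 0 ≤ s → s ≤ t → Real.sqrt D ≤ X false r s := by
    intro s hs hst
    have hsI : s ∈ I2 := ⟨hs, hst.trans ht.2⟩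
    have h2 := h.L2 0 r s t hr hs hst ht.2
    have h3 : 0 ≤ ∫ u in s..t, 4 * ((1 + (∑ k ∈ Finset.range 0, m k r u) ^ 2) *
        (X true r u * X false r u) + (∑ k ∈ Finset.range 0, m k r u) * X true r u ^ 2) := by
      refine intervalIntegral.integral_nonneg hst ?_
      intro u hu
      have huI : u ∈ I2 := ⟨hs.trans hu.1, hu.2.trans ht.2⟩
      have := mul_nonneg (h.X0 true r hr u huI) (h.X0 false r hr u huI)
      simp
      exact this
    have h4 : D ≤ X false r s ^ 2 := by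
      have := sq_nonneg (X true r s)
      linarith
    exact (Real.sqrt_le_sqrt h4).trans (by rw [Real.sqrt_sq (h.X0 false r hr s hsI)])
  have h5 := h.L1 r 0 t hr le_rfl ht.1 ht.2
  have h6 : t * Real.sqrt D ≤ ∫ s in (0:ℝ)..t, X false r s := by
    have hc : ContinuousOn (X false r) (Set.uIcc 0 t) := (h.cX false r hr).mono (fin2_sub ht)
    have h7 : ∫ s in (0:ℝ)..t, Real.sqrt D ≤ ∫ s in (0:ℝ)..t, X false r s := by
      refine intervalIntegral.integral_mono_on ht.1 (by simp) hc.intervalIntegrable ?_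
      intro s hs
      exact hmono s hs.1 hs.2
    simpa using h7
  have h8 : 0 ≤ X true r 0 := h.X0 true r hr 0 ⟨le_rfl, by positivity⟩
  have h9 : t * Real.sqrt D ≤ X true r t := by linarith
  have h10 : (t * Real.sqrt D) ^ 2 ≤ X true r t ^ 2 :=
    pow_le_pow_left₀ (mul_nonneg ht.1 (Real.sqrt_nonneg D)) h9 2
  rw [mul_pow, Real.sq_sqrt hDpos.le] at h10
  nlinarith

theorem pos_of_bdd (h : LD X m) {x : ℝ → ℝ} (hx : ∀ t ∈ I2,
      Tendsto (fun r => X true r t) atTop (𝓝 (x t))) {t : ℝ} (ht : t ∈ I2) (ht0 : 0 < t)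
    {C : ℝ} (hC : ∀ r, 0 < r → ∑' k, m k r t ≤ C) : 0 < x t := by
  -- the sums are monotone in `r`
  have hM : ∀ r r', 0 < r → r ≤ r' → ∑' k, m k r t ≤ ∑' k, m k r' t := by
    intro r r' hr hrr
    exact Summable.tsum_le_tsum (fun k => h.mmono k r r' hrr t ht) (h.msum r hr t ht)
      (h.msum r' (hr.trans_le hrr) t ht)
  set ε : ℝ := t / (2 * Real.sqrt (1 + t ^ 2)) with hε
  have hs : 0 < Real.sqrt (1 + t ^ 2) := Real.sqrt_pos.mpr (by positivity)
  have hεpos : 0 < ε := by positivity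
  -- find `r ≥ 1` with small increments
  obtain ⟨r, hr1, hr⟩ : ∃ r, 1 ≤ r ∧ ∀ r', r ≤ r' → ∑' k, m k r' t - ∑' k, m k r t ≤ ε := by
    set s := sSup ((fun r => ∑' k, m k r t) '' Set.Ici (1:ℝ)) with hsdef
    have hbdd : BddAbove ((fun r => ∑' k, m k r t) '' Set.Ici (1:ℝ)) := by
      refine ⟨C, ?_⟩
      rintro _ ⟨r, hr, rfl⟩
      exact hC r (one_pos.trans_le hr)
    have hne : ((fun r => ∑' k, m k r t) '' Set.Ici (1:ℝ)).Nonempty := ⟨_, 1, Set.mem_Ici.mpr le_rfl, rfl⟩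
    obtain ⟨_, ⟨r, hr, rfl⟩, hlt⟩ := exists_lt_of_lt_csSup hne (show s - ε < s by linarith)
    refine ⟨r, hr, ?_⟩
    intro r' hrr
    have h1 : ∑' k, m k r' t ≤ s := le_csSup hbdd ⟨r', le_trans hr hrr, rfl⟩
    have h2 : s - ε < ∑' k, m k r t := hlt
    linarith
  have hr0 : 0 < r := one_pos.trans_le hr1
  have hBr : 0 ≤ X true r t := h.X0 true r hr0 t ht
  have hRr : 0 ≤ X false r t := h.X0 false r hr0 t ht
  have hrat := ratio h hr0 ht
  -- `t X_R ≤ sqrt (1 + t^2) X_B`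
  have h1 : t * X false r t ≤ Real.sqrt (1 + t ^ 2) * X true r t := by
    refine abs_le_of_sq_le_sq' ?_ (mul_nonneg hs.le hBr) |>.2
    rw [mul_pow, mul_pow, Real.sq_sqrt (by positivity)]
    exact hrat
  have h2 : ε * X false r t ≤ X true r t / 2 := by
    rw [hε, div_mul_eq_mul_div, div_le_div_iff₀ (by positivity) two_pos]
    nlinarith
  have h3 : ∀ r', r ≤ r' → X true r t / 2 ≤ X true r' t := by
    intro r' hrr
    have h4 := h.L4 r r' hr0 hrr t ht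
    have h5 : (∑' k, m k r' t - ∑' k, m k r t) * X false r t ≤ ε * X false r t :=
      mul_le_mul_of_nonneg_right (hr r' hrr) hRr
    linarith
  have h6 : X true r t / 2 ≤ x t := by
    refine ge_of_tendsto (hx t ht) ?_
    filter_upwards [eventually_ge_atTop r] with r' hr'
    exact h3 r' hr'
  have h7 := h.lowB r hr0 t ht
  have h8 : 0 < Real.sin t := Real.sin_pos_of_pos_of_lt_pi ht0 (by
    have := ht.2
    linarith [Real.pi_pos])
  have h9 : 0 < Real.sin t * Real.exp (-r) := mul_pos h8 (Real.exp_pos _)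
  linarith

end FB
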