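import Pool.Agent.Lib.MP_fb152f_pr.Fin2

/-!
# Fin3: positivity of `x t` for all `t > 0` (90 minutes)

Suppose `x t0 = 0` for some `t0 ∈ I2`, `0 < t0`.  We may take `t0 < π/2` (replace `t0` by `t0 / 2`,
`x ≥ 0` is monotone).  Then `x = 0` on `[0, t0]`.
(1) For `t ∈ [0, t0]`, `r > 0`: `X_B(r,t) ≤ X_R(r,t)`, because `X_B^2 - X_R^2` is non-decreasing
in `r` (`L5`) with limit `x(t)^2 - 0 = 0` (`L3`).
(2) Put `t1 = t0 / 2`, `c^2 = t1^2 / (1 + t1^2)`.  For `t ∈ [t1, t0]`: `X_B(r,t) ≥ X_B(r,t1)`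
(`XB_mono`), `X_B(r,t1)^2 ≥ c^2 X_R(r,t1)^2` (`ratio`), `X_R(r,t) ≥ X_B(r,t)` (by (1)).
`L2` on `[t1, t0]`: `4 ∫_{t1}^{t0} (1 + A^2) X_B X_R dt ≤ D_r(t1) - D_r(t0) ≤ X_R(r,t1)^2`, with
`A = ∑_{k<N} m k r t`, `D_r = X_R^2 - X_B^2`, `D_r(t0) ≥ 0`.  So
`4 c^2 X_R(r,t1)^2 ∫_{t1}^{t0} (1 + A^2) dt ≤ X_R(r,t1)^2`, and `X_R(r,t1) > 0` (`lowR`,
`t1 < π/2`), hence `∫_{t1}^{t0} A_{N,r}(t)^2 dt ≤ 1 / (4 c^2)` for all `N`, `r > 0`.
(3) `A_{N,N}(t)` is non-decreasing in `N` (`m0`, `mmono`), so by Fatou or monotone convergence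
(`lintegral_iSup`, `lintegral_liminf_le`) `∫_{t1}^{t0} (sup_N A_{N,N}(t))^2 dt < ∞` in `ℝ≥0∞`, so
for almost every, hence for some `t ∈ (t1, t0)` the numbers `A_{N,N}(t)` are bounded by some `C`; then
`∑' k, m k r t ≤ C` for every `r > 0` (partial sums: `∑_{k<N} m k r t ≤ A_{N',N'}(t)` for
`N' ≥ N, r`), and `pos_of_bdd` gives `x t > 0`, a contradiction.
-/

set_option autoImplicit false

namespace FB

open Filter Topology

variable {X : Bool → ℝ → ℝ → ℝ} {m : ℕ → ℝ → ℝ → ℝ}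

/-- `X_B ≤ X_R` where `x` vanishes. -/
theorem fin3_le (h : LD X m) {x : ℝ → ℝ} (hx : ∀ t ∈ I2,
      Tendsto (fun r => X true r t) atTop (𝓝 (x t))) {t : ℝ} (ht : t ∈ I2) (hz : x t = 0)
    {r : ℝ} (hr : 0 < r) : X true r t ≤ X false r t := by
  have h1 : Tendsto (fun r => X true r t ^ 2 - X false r t ^ 2) atTop (𝓝 0) := by
    have h2 : Tendsto (fun r => X true r t ^ 2) atTop (𝓝 0) := by
      have := (hx t ht).pow 2
      rw [hz] at this
      simpa using this
    have h3 : Tendsto (fun r => X false r t ^ 2) atTop (𝓝 0) := by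
      refine squeeze_zero' ?_ ?_ tendsto_inv_atTop_zero
      · exact Eventually.of_forall fun r => sq_nonneg _
      · filter_upwards [eventually_gt_atTop (0:ℝ)] with r hr
        have := h.L3 r hr t ht
        rwa [one_div] at this
    simpa using h2.sub h3
  have h4 : X true r t ^ 2 - X false r t ^ 2 ≤ 0 := by
    refine ge_of_tendsto h1 ?_
    filter_upwards [eventually_ge_atTop r] with r' hr'
    exact h.L5 r r' hr hr' t ht
  exact abs_le_of_sq_le_sq' (by linarith) (h.X0 false r hr t ht) |>.2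

/-- Step (2). -/
theorem int_bound (h : LD X m) {x : ℝ → ℝ} (hx : ∀ t ∈ I2,
      Tendsto (fun r => X true r t) atTop (𝓝 (x t))) (hx0 : ∀ t ∈ I2, 0 ≤ x t)
    {t0 : ℝ} (h0 : 0 < t0) (h1 : t0 < Real.pi / 2) (hz : x t0 = 0) :
    ∃ C : ℝ, ∀ (N : ℕ) (r : ℝ), 0 < r →
      ∫ t in (t0 / 2)..t0, (∑ k ∈ Finset.range N, m k r t) ^ 2 ≤ C := by
  have hxm := x_mono h hx
  have hI : ∀ t, 0 ≤ t → t ≤ t0 → t ∈ I2 := fun t ht ht' => ⟨ht, ht'.trans h1.le⟩
  have hzero : ∀ t, 0 ≤ t → t ≤ t0 → x t = 0 := by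
    intro t ht ht'
    refine le_antisymm ?_ (hx0 t (hI t ht ht'))
    rw [← hz]
    exact hxm (hI t ht ht') (hI t0 h0.le le_rfl) ht'
  set t1 := t0 / 2 with ht1
  have ht1pos : 0 < t1 := by positivity
  have ht10 : t1 ≤ t0 := by rw [ht1]; linarith
  have ht1I : t1 ∈ I2 := hI t1 ht1pos.le ht10
  set q : ℝ := t1 ^ 2 / (1 + t1 ^ 2) with hq
  have hqpos : 0 < q := by positivity
  refine ⟨1 / (4 * q), ?_⟩
  intro N r hr
  have hRpos : 0 < X false r t1 := by
    have h2 := h.lowR r hr t1 ht1I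
    have h3 : 0 < Real.cos t1 := Real.cos_pos_of_mem_Ioo ⟨by linarith [Real.pi_pos], by linarith⟩
    exact lt_of_lt_of_le (mul_pos h3 (Real.exp_pos _)) h2
  have hrat := ratio h hr ht1I
  have hrat2 : q * X false r t1 ^ 2 ≤ X true r t1 ^ 2 := by
    rw [hq, div_mul_eq_mul_div, div_le_iff₀ (by positivity)]
    linarith
  have hL2 := h.L2 N r t1 t0 hr ht1pos.le ht10 h1.le
  have hD0 : X true r t0 ^ 2 ≤ X false r t0 ^ 2 :=
    pow_le_pow_left₀ (h.X0 true r hr t0 (hI t0 h0.le le_rfl))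
      (fin3_le h hx (hI t0 h0.le le_rfl) hz hr) 2
  have hcontA : Continuous fun t => (∑ k ∈ Finset.range N, m k r t) ^ 2 :=
    (continuous_finsetSum _ fun k _ => h.cm k r).pow 2
  have hlow : ∫ t in t1..t0, 4 * (q * X false r t1 ^ 2) * (∑ k ∈ Finset.range N, m k r t) ^ 2 ≤
      ∫ t in t1..t0, 4 * ((1 + (∑ k ∈ Finset.range N, m k r t) ^ 2) *
        (X true r t * X false r t) + (∑ k ∈ Finset.range N, m k r t) * X true r t ^ 2) := by
    have hsub : Set.uIcc t1 t0 ⊆ I2 := by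
      rw [Set.uIcc_of_le ht10]
      exact Set.Icc_subset_Icc ht1pos.le h1.le
    refine intervalIntegral.integral_mono_on ht10 ?_ ?_ ?_
    · exact (continuous_const.mul hcontA).intervalIntegrable _ _
    · refine ContinuousOn.intervalIntegrable ?_
      have hA : ContinuousOn (fun t => ∑ k ∈ Finset.range N, m k r t) (Set.uIcc t1 t0) :=
        (continuous_finsetSum _ fun k _ => h.cm k r).continuousOn
      have hB : ContinuousOn (X true r) (Set.uIcc t1 t0) := (h.cX true r hr).mono hsub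
      have hR : ContinuousOn (X false r) (Set.uIcc t1 t0) := (h.cX false r hr).mono hsub
      exact continuousOn_const.mul (((continuousOn_const.add (hA.pow 2)).mul (hB.mul hR)).add
        (hA.mul (hB.pow 2)))
    · intro t ht
      have htI : t ∈ I2 := hI t (ht1pos.le.trans ht.1) ht.2
      have hA0 : 0 ≤ ∑ k ∈ Finset.range N, m k r t :=
        Finset.sum_nonneg fun k _ => h.m0 k r t htI
      have hBt : X true r t1 ≤ X true r t := XB_mono h hr ht1I htI ht.1
      have hRt : X true r t ≤ X false r t :=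
        fin3_le h hx htI (hzero t (ht1pos.le.trans ht.1) ht.2) hr
      have hB1 := h.X0 true r hr t1 ht1I
      have h5 : q * X false r t1 ^ 2 ≤ X true r t * X false r t := by
        nlinarith
      have h6 : 0 ≤ X true r t ^ 2 := sq_nonneg _
      have h7 : 0 ≤ (∑ k ∈ Finset.range N, m k r t) * X true r t ^ 2 := mul_nonneg hA0 h6
      have h8 : 0 ≤ q * X false r t1 ^ 2 := by positivity
      have h9 : (∑ k ∈ Finset.range N, m k r t) ^ 2 * (q * X false r t1 ^ 2) ≤
          (1 + (∑ k ∈ Finset.range N, m k r t) ^ 2) * (X true r t * X false r t) := by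
        refine mul_le_mul (by linarith) h5 h8 (by positivity)
      nlinarith
  rw [intervalIntegral.integral_const_mul] at hlow
  have hfin : 4 * (q * X false r t1 ^ 2) *
      (∫ t in t1..t0, (∑ k ∈ Finset.range N, m k r t) ^ 2) ≤ X false r t1 ^ 2 := by
    have := sq_nonneg (X true r t1)
    linarith
  rw [le_div_iff₀ (by positivity)]
  have hR2 : 0 < X false r t1 ^ 2 := by positivity
  nlinarith

/-- Step (3). -/
theorem x_pos (h : LD X m) {x : ℝ → ℝ} (hx : ∀ t ∈ I2,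
      Tendsto (fun r => X true r t) atTop (𝓝 (x t))) (hx0 : ∀ t ∈ I2, 0 ≤ x t)
    {t : ℝ} (ht : t ∈ I2) (ht0 : 0 < t) : 0 < x t := by
  by_contra hcon
  have hxt : x t = 0 := le_antisymm (not_lt.mp hcon) (hx0 t ht)
  have hxm := x_mono h hx
  set t0 := t / 2 with ht0def
  have ht0pos : 0 < t0 := by positivity
  have ht0lt : t0 < Real.pi / 2 := by
    have := ht.2
    rw [ht0def]
    linarith
  have ht0I : t0 ∈ I2 := ⟨ht0pos.le, ht0lt.le⟩
  have hz : x t0 = 0 := by
    refine le_antisymm ?_ (hx0 t0 ht0I)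
    rw [← hxt]
    exact hxm ht0I ht (by rw [ht0def]; linarith)
  obtain ⟨C, hC⟩ := int_bound h hx hx0 ht0pos ht0lt hz
  -- the monotone family
  let A : ℕ → ℝ → ENNReal := fun N t =>
    ENNReal.ofReal ((∑ k ∈ Finset.range (N + 1), m k ((N : ℝ) + 1) t) ^ 2)
  have hsubI : ∀ s ∈ Set.Ioc (t0 / 2) t0, s ∈ I2 := fun s hs =>
    ⟨by linarith [hs.1], hs.2.trans ht0lt.le⟩
  have hAmono : ∀ s ∈ Set.Ioc (t0 / 2) t0, Monotone fun N => 
      ∑ k ∈ Finset.range (N + 1), m k ((N : ℝ) + 1) s := by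
    intro s hs N N' hNN
    have hsI := hsubI s hs
    calc ∑ k ∈ Finset.range (N + 1), m k ((N : ℝ) + 1) s
        ≤ ∑ k ∈ Finset.range (N + 1), m k ((N' : ℝ) + 1) s := by
          refine Finset.sum_le_sum fun k _ => h.mmono k _ _ ?_ s hsI
          have : (N : ℝ) ≤ N' := by exact_mod_cast hNN
          linarith
      _ ≤ ∑ k ∈ Finset.range (N' + 1), m k ((N' : ℝ) + 1) s := by
          refine Finset.sum_le_sum_of_subset_of_nonneg ?_ ?_
          · exact Finset.range_mono (by omega)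
          · intro k _ _
            exact h.m0 k _ s hsI
  have hcont : ∀ N : ℕ, Continuous fun s => (∑ k ∈ Finset.range (N + 1), m k ((N : ℝ) + 1) s) ^ 2 :=
    fun N => (continuous_finsetSum _ fun k _ => h.cm k _).pow 2
  have hAmeas : ∀ N, Measurable (A N) := fun N => (hcont N).measurable.ennreal_ofReal
  have hint : ∀ N, ∫⁻ s in Set.Ioc (t0 / 2) t0, A N s ≤ ENNReal.ofReal C := by
    intro N
    have h1 := hC (N + 1) ((N : ℝ) + 1) (by positivity)
    rw [intervalIntegral.integral_of_le (by linarith)] at h1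
    rw [← MeasureTheory.ofReal_integral_eq_lintegral_ofReal]
    · exact ENNReal.ofReal_le_ofReal h1
    · exact ((hcont N).integrableOn_Icc.mono_set Set.Ioc_subset_Icc_self)
    · exact Eventually.of_forall fun s => sq_nonneg _
  have hsup : ∫⁻ s in Set.Ioc (t0 / 2) t0, liminf (fun N => A N s) atTop ≤ ENNReal.ofReal C := by
    refine (MeasureTheory.lintegral_liminf_le hAmeas).trans ?_
    refine liminf_le_of_le (by isBoundedDefault) ?_
    intro b hb
    obtain ⟨N, hN⟩ := hb.exists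
    exact hN.trans (hint N)
  have hae : ∀ᵐ s ∂(MeasureTheory.volume.restrict (Set.Ioc (t0 / 2) t0)),
      liminf (fun N => A N s) atTop < ⊤ := by
    refine MeasureTheory.ae_lt_top (Measurable.liminf hAmeas) ?_
    exact (hsup.trans_lt ENNReal.ofReal_lt_top).ne
  have hne : (MeasureTheory.volume.restrict (Set.Ioc (t0 / 2) t0)) ≠ 0 := by
    rw [Ne, MeasureTheory.Measure.restrict_eq_zero, Real.volume_Ioc]
    simp
    linarith
  have hae2 : ∀ᵐ s ∂(MeasureTheory.volume.restrict (Set.Ioc (t0 / 2) t0)),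
      s ∈ Set.Ioc (t0 / 2) t0 := MeasureTheory.ae_restrict_mem measurableSet_Ioc
  have : NeBot (MeasureTheory.ae (MeasureTheory.volume.restrict (Set.Ioc (t0 / 2) t0))) :=
    MeasureTheory.ae_neBot.mpr hne
  obtain ⟨s, hs1, hs2⟩ := (hae.and hae2).exists
  have hsI := hsubI s hs2
  have hspos : 0 < s := by
    have := hs2.1
    linarith
  -- the numbers `A N s` are bounded
  obtain ⟨B, hB1, hB2⟩ : ∃ B : ENNReal, B < ⊤ ∧ ∀ N, A N s ≤ B := by
    refine ⟨liminf (fun N => A N s) atTop, hs1, ?_⟩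
    intro N
    have hmonoA : Monotone fun N => A N s := by
      intro N N' hNN
      refine ENNReal.ofReal_le_ofReal ?_
      refine pow_le_pow_left₀ (Finset.sum_nonneg fun k _ => h.m0 k _ s hsI) (hAmono s hs2 hNN) 2
    rw [(tendsto_atTop_iSup hmonoA).liminf_eq]
    exact le_iSup (fun N => A N s) N
  have hAb : ∀ N : ℕ, ∑ k ∈ Finset.range (N + 1), m k ((N : ℝ) + 1) s ≤ Real.sqrt B.toReal := by
    intro N
    have h1 := hB2 N
    have h2 : (∑ k ∈ Finset.range (N + 1), m k ((N : ℝ) + 1) s) ^ 2 ≤ B.toReal := by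
      rw [← ENNReal.ofReal_toReal hB1.ne] at h1
      exact (ENNReal.ofReal_le_ofReal_iff ENNReal.toReal_nonneg).mp h1
    exact Real.le_sqrt_of_sq_le h2
  have hfin : ∀ r, 0 < r → ∑' k, m k r s ≤ Real.sqrt B.toReal := by
    intro r hr
    refine (h.msum r hr s hsI).tsum_le_of_sum_range_le ?_
    intro N
    obtain ⟨N', hN'⟩ := exists_nat_ge r
    refine le_trans ?_ (hAb (max N N'))
    calc ∑ k ∈ Finset.range N, m k r s
        ≤ ∑ k ∈ Finset.range N, m k (((max N N' : ℕ) : ℝ) + 1) s := by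
          refine Finset.sum_le_sum fun k _ => h.mmono k _ _ ?_ s hsI
          have : (N' : ℝ) ≤ ((max N N' : ℕ) : ℝ) := by exact_mod_cast le_max_right _ _
          linarith
      _ ≤ _ := by
          refine Finset.sum_le_sum_of_subset_of_nonneg ?_ ?_
          · exact Finset.range_mono (by omega)
          · intro k _ _
            exact h.m0 k _ s hsI
  have hpos := pos_of_bdd h hx hsI hspos hfin
  have hzero : x s = 0 := by
    refine le_antisymm ?_ (hx0 s hsI)
    rw [← hz]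
    exact hxm hsI ht0I hs2.2
  linarith

end FB
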