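import Mathlib

/-!
# LimDefs: the data for the limits (definitions)

`b a n r t` will be `be n r t a`, `m n r t` will be `mu n r t`.
-/

set_option autoImplicit false

namespace FB

open Filter Topology

/-- The parameter interval. -/
def I2 : Set ℝ := Set.Icc 0 (Real.pi / 2)

/-- The power series of `b` and `m`. -/
noncomputable def bS (b : Bool → ℕ → ℝ → ℝ → ℝ) (a : Bool) (r t : ℝ) : PowerSeries ℝ :=
  PowerSeries.mk fun n => b a n r t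

noncomputable def mS (m : ℕ → ℝ → ℝ → ℝ) (r t : ℝ) : PowerSeries ℝ :=
  PowerSeries.mk fun n => m n r t

/-- Finite volume data. -/
structure Dat (b : Bool → ℕ → ℝ → ℝ → ℝ) (m : ℕ → ℝ → ℝ → ℝ) : Prop where
  cb : ∀ a n r, Continuous fun t => b a n r t
  cm : ∀ n r, Continuous fun t => m n r t
  b0 : ∀ a n r, ∀ t ∈ I2, 0 ≤ b a n r t
  b1 : ∀ a n r, ∀ t ∈ I2, b a n r t ≤ 1
  m0 : ∀ n r, ∀ t ∈ I2, 0 ≤ m n r t
  anti : ∀ a n r r', r ≤ r' → ∀ t ∈ I2, b a n r' t ≤ b a n r t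
  cau : ∀ a n n' r, 0 < r → ∀ t ∈ I2, |b a n r t - b a n' r t| ≤ (1 - Real.exp (-r)) ^ (min n n')
  lowB : ∀ n r, 0 < r → ∀ t ∈ I2, Real.sin t * Real.exp (-r) ≤ b true n r t
  lowR : ∀ n r, 0 < r → ∀ t ∈ I2, Real.cos t * Real.exp (-r) ≤ b false n r t
  sep : ∀ n r, 0 < r → ∀ t ∈ I2,
    PowerSeries.coeff n (bS b false r t * bS b false r t) ≤ 1 + (n : ℝ) / r
  m1 : ∀ r, 0 < r → ∀ t ∈ I2, m 1 r t = Real.sin t * Real.cos t * (1 - Real.exp (-r))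
  mmono : ∀ n r r', r ≤ r' → ∀ t ∈ I2, m n r t ≤ m n r' t
  mle : ∀ n r, 0 < r → ∀ t ∈ I2, m n r t ≤ (1 - Real.exp (-r)) ^ n
  J1 : ∀ n r t1 t2, 0 ≤ t1 → t1 ≤ t2 → t2 ≤ Real.pi / 2 →
    ∫ t in t1..t2, b false n r t ≤ b true n r t2 - b true n r t1
  J2 : ∀ n r t1 t2, 0 ≤ t1 → t1 ≤ t2 → t2 ≤ Real.pi / 2 →
    ∫ t in t1..t2, PowerSeries.coeff n
        (4 * ((1 + mS m r t * mS m r t) * (bS b true r t * bS b false r t) +
          mS m r t * (bS b true r t * bS b true r t))) ≤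
      PowerSeries.coeff n (bS b true r t2 * bS b true r t2 - bS b false r t2 * bS b false r t2) -
      PowerSeries.coeff n (bS b true r t1 * bS b true r t1 - bS b false r t1 * bS b false r t1)
  J4 : ∀ n r r', r ≤ r' → ∀ t ∈ I2,
    b true n r t - b true n r' t ≤ PowerSeries.coeff n ((mS m r' t - mS m r t) * bS b false r t)
  J5 : ∀ n r r', r ≤ r' → ∀ t ∈ I2,
    PowerSeries.coeff n (bS b true r t * bS b true r t - bS b false r t * bS b false r t) ≤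
      PowerSeries.coeff n (bS b true r' t * bS b true r' t - bS b false r' t * bS b false r' t)

/-- Infinite volume data at finite levels `r > 0` (`X a r t = lim_n b a n r t`). -/
structure LD (X : Bool → ℝ → ℝ → ℝ) (m : ℕ → ℝ → ℝ → ℝ) : Prop where
  cX : ∀ a r, 0 < r → ContinuousOn (X a r) I2
  cm : ∀ n r, Continuous fun t => m n r t
  X0 : ∀ a r, 0 < r → ∀ t ∈ I2, 0 ≤ X a r t
  X1 : ∀ a r, 0 < r → ∀ t ∈ I2, X a r t ≤ 1
  anti : ∀ a r r', 0 < r → r ≤ r' → ∀ t ∈ I2, X a r' t ≤ X a r t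
  lowB : ∀ r, 0 < r → ∀ t ∈ I2, Real.sin t * Real.exp (-r) ≤ X true r t
  lowR : ∀ r, 0 < r → ∀ t ∈ I2, Real.cos t * Real.exp (-r) ≤ X false r t
  m0 : ∀ n r, ∀ t ∈ I2, 0 ≤ m n r t
  m1 : ∀ r, 0 < r → ∀ t ∈ I2, m 1 r t = Real.sin t * Real.cos t * (1 - Real.exp (-r))
  mmono : ∀ n r r', r ≤ r' → ∀ t ∈ I2, m n r t ≤ m n r' t
  msum : ∀ r, 0 < r → ∀ t ∈ I2, Summable fun n => m n r t
  L1 : ∀ r t1 t2, 0 < r → 0 ≤ t1 → t1 ≤ t2 → t2 ≤ Real.pi / 2 →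
    ∫ t in t1..t2, X false r t ≤ X true r t2 - X true r t1
  L2 : ∀ (N : ℕ) (r t1 t2 : ℝ), 0 < r → 0 ≤ t1 → t1 ≤ t2 → t2 ≤ Real.pi / 2 →
    ∫ t in t1..t2, 4 * ((1 + (∑ k ∈ Finset.range N, m k r t) ^ 2) * (X true r t * X false r t) +
      (∑ k ∈ Finset.range N, m k r t) * X true r t ^ 2) ≤
      (X true r t2 ^ 2 - X false r t2 ^ 2) - (X true r t1 ^ 2 - X false r t1 ^ 2)
  L3 : ∀ r, 0 < r → ∀ t ∈ I2, X false r t ^ 2 ≤ 1 / r
  L4 : ∀ r r', 0 < r → r ≤ r' → ∀ t ∈ I2,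
    X true r t - X true r' t ≤ (∑' k, m k r' t - ∑' k, m k r t) * X false r t
  L5 : ∀ r r', 0 < r → r ≤ r' → ∀ t ∈ I2,
    X true r t ^ 2 - X false r t ^ 2 ≤ X true r' t ^ 2 - X false r' t ^ 2

end FB
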