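import Pool.Agent.Lib.MP_fb152f_pr.Lim1
import Pool.Agent.Lib.MP_fb152f_pr.LimDefs

/-!
# Lim2: existence and elementary properties of the infinite volume limits (50 minutes)

For `r > 0`, `t ∈ I2` the sequence `b a n r t` is Cauchy (`cau`, `0 ≤ 1 - exp (-r) < 1`), so it
converges; the convergence is uniform in `t ∈ I2`, so the limit is continuous on `I2`.
All other properties pass to the limit (`le_of_tendsto`).
-/

set_option autoImplicit false

namespace FB

open Filter Topology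

theorem lim2_q {r : ℝ} (hr : 0 < r) : 0 ≤ 1 - Real.exp (-r) ∧ 1 - Real.exp (-r) < 1 := by
  have h1 := Real.exp_le_one_iff.mpr (show -r ≤ 0 by linarith)
  have h2 := Real.exp_pos (-r)
  constructor <;> linarith

theorem exists_lim {b : Bool → ℕ → ℝ → ℝ → ℝ} {m : ℕ → ℝ → ℝ → ℝ} (h : Dat b m) :
    ∃ X : Bool → ℝ → ℝ → ℝ, (∀ a r, 0 < r → ∀ t ∈ I2,
        Tendsto (fun n => b a n r t) atTop (𝓝 (X a r t))) ∧
      (∀ a r, 0 < r → ContinuousOn (X a r) I2) ∧
      (∀ a r, 0 < r → ∀ t ∈ I2, 0 ≤ X a r t) ∧ (∀ a r, 0 < r → ∀ t ∈ I2, X a r t ≤ 1) ∧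
      (∀ a r r', 0 < r → r ≤ r' → ∀ t ∈ I2, X a r' t ≤ X a r t) ∧
      (∀ r, 0 < r → ∀ t ∈ I2, Real.sin t * Real.exp (-r) ≤ X true r t) ∧
      (∀ r, 0 < r → ∀ t ∈ I2, Real.cos t * Real.exp (-r) ≤ X false r t) := by
  have h1 : ∀ a r, 0 < r → ∀ t ∈ I2, ∃ y, Tendsto (fun n => b a n r t) atTop (𝓝 y) := by
    intro a r hr t ht
    obtain ⟨q0, q1⟩ := lim2_q hr
    refine cauchySeq_tendsto_of_complete ?_
    refine cauchySeq_of_le_tendsto_0 (fun n => (1 - Real.exp (-r)) ^ n) ?_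
      (tendsto_pow_atTop_nhds_zero_of_lt_one q0 q1)
    intro n n' N hn hn'
    rw [Real.dist_eq]
    exact (h.cau a n n' r hr t ht).trans (pow_le_pow_of_le_one q0 q1.le (le_min hn hn'))
  choose! X hX using h1
  have hrate : ∀ a r, 0 < r → ∀ t ∈ I2, ∀ n, |b a n r t - X a r t| ≤ (1 - Real.exp (-r)) ^ n := by
    intro a r hr t ht n
    obtain ⟨q0, q1⟩ := lim2_q hr
    have h2 : Tendsto (fun n' => |b a n r t - b a n' r t|) atTop (𝓝 |b a n r t - X a r t|) :=
      ((tendsto_const_nhds).sub (hX a r hr t ht)).abs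
    refine le_of_tendsto h2 ?_
    filter_upwards [eventually_ge_atTop n] with n' hn'
    have := h.cau a n n' r hr t ht
    rwa [min_eq_left hn'] at this
  refine ⟨X, hX, ?_, ?_, ?_, ?_, ?_, ?_⟩
  · intro a r hr
    obtain ⟨q0, q1⟩ := lim2_q hr
    have hu : TendstoUniformlyOn (fun n t => b a n r t) (X a r) atTop I2 := by
      rw [Metric.tendstoUniformlyOn_iff]
      intro ε hε
      have h3 := tendsto_pow_atTop_nhds_zero_of_lt_one q0 q1
      filter_upwards [h3.eventually_lt_const hε] with n hn t ht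
      rw [Real.dist_eq, abs_sub_comm]
      exact (hrate a r hr t ht n).trans_lt hn
    exact hu.continuousOn (Frequently.of_forall fun n => (h.cb a n r).continuousOn)
  · intro a r hr t ht
    exact ge_of_tendsto' (hX a r hr t ht) fun n => h.b0 a n r t ht
  · intro a r hr t ht
    exact le_of_tendsto' (hX a r hr t ht) fun n => h.b1 a n r t ht
  · intro a r r' hr hrr t ht
    exact le_of_tendsto_of_tendsto' (hX a r' (hr.trans_le hrr) t ht) (hX a r hr t ht)
      fun n => h.anti a n r r' hrr t ht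
  · intro r hr t ht
    exact ge_of_tendsto' (hX true r hr t ht) fun n => h.lowB n r hr t ht
  · intro r hr t ht
    exact ge_of_tendsto' (hX false r hr t ht) fun n => h.lowR n r hr t ht

theorem summable_m {b : Bool → ℕ → ℝ → ℝ → ℝ} {m : ℕ → ℝ → ℝ → ℝ} (h : Dat b m) {r : ℝ}
    (hr : 0 < r) {t : ℝ} (ht : t ∈ I2) : Summable fun n => m n r t := by
  obtain ⟨q0, q1⟩ := lim2_q hr
  exact Summable.of_nonneg_of_le (fun n => h.m0 n r t ht) (fun n => h.mle n r hr t ht)
    (summable_geometric_of_lt_one q0 q1)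

end FB
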