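import Pool.Agent.Lib.MP_fb152f_pr.Lim1
import Pool.Agent.Lib.MP_fb152f_pr.LimDefs

/-!
# Lim3: limits of the inequalities `J1`, `sep`, `J4`, `J5` (75 minutes)

* `lim_L1`: dominated convergence (`0 ≤ b ≤ 1`) for `∫ b false n r t dt → ∫ X false r t dt`.
* `lim_L3`: divide `sep` by `n + 1` and let `n → ∞`: `cesaro_coeff`, `(1 + n / r) / (n + 1) → 1 / r`.
* `lim_L5`: divide `J5` by `n + 1` and let `n → ∞`, `cesaro_coeff`.
* `lim_L4`: `coeff n ((mS r' - mS r) * bS false) = ∑_{k ≤ n} (m k r' - m k r) b false (n - k)`,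
  nonnegative summable coefficients, `b false (n - k) → X false` boundedly, so the sum tends to
  `(∑' m k r' - ∑' m k r) X false` (`tendsto_tsum_of_dominated_convergence` for the sequences
  `k ↦ if k ≤ n then (m k r' - m k r) b false (n - k) else 0`).
-/

set_option autoImplicit false

namespace FB

open Filter Topology

variable {b : Bool → ℕ → ℝ → ℝ → ℝ} {m : ℕ → ℝ → ℝ → ℝ} {X : Bool → ℝ → ℝ → ℝ}

theorem lim_L1 (h : Dat b m) (hX : ∀ a r, 0 < r → ∀ t ∈ I2,
      Tendsto (fun n => b a n r t) atTop (𝓝 (X a r t)))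
    {r t1 t2 : ℝ} (hr : 0 < r) (h0 : 0 ≤ t1) (h12 : t1 ≤ t2) (h2 : t2 ≤ Real.pi / 2) :
    ∫ t in t1..t2, X false r t ≤ X true r t2 - X true r t1 := by
  have hI : ∀ t ∈ Set.uIoc t1 t2, t ∈ I2 := by
    intro t ht
    rw [Set.uIoc_of_le h12] at ht
    exact ⟨h0.trans ht.1.le, ht.2.trans h2⟩
  have hlim : Tendsto (fun n => ∫ t in t1..t2, b false n r t) atTop
      (𝓝 (∫ t in t1..t2, X false r t)) := by
    refine intervalIntegral.tendsto_integral_filter_of_dominated_convergence (fun _ => (1 : ℝ))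
      ?_ ?_ ?_ ?_
    · exact Eventually.of_forall fun n => (h.cb false n r).aestronglyMeasurable
    · refine Eventually.of_forall fun n => MeasureTheory.ae_of_all _ fun t ht => ?_
      rw [Real.norm_eq_abs, abs_of_nonneg (h.b0 false n r t (hI t ht))]
      exact h.b1 false n r t (hI t ht)
    · exact intervalIntegrable_const
    · exact MeasureTheory.ae_of_all _ fun t ht => hX false r hr t (hI t ht)
  have hR : Tendsto (fun n => b true n r t2 - b true n r t1) atTop
      (𝓝 (X true r t2 - X true r t1)) :=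
    (hX true r hr t2 ⟨h0.trans h12, h2⟩).sub (hX true r hr t1 ⟨h0, h12.trans h2⟩)
  exact le_of_tendsto_of_tendsto' hlim hR fun n => h.J1 n r t1 t2 h0 h12 h2

theorem lim3_coeff (hX : ∀ a r, 0 < r → ∀ t ∈ I2,
      Tendsto (fun n => b a n r t) atTop (𝓝 (X a r t)))
    (a : Bool) {r : ℝ} (hr : 0 < r) {t : ℝ} (ht : t ∈ I2) :
    Tendsto (fun n => PowerSeries.coeff n (bS b a r t)) atTop (𝓝 (X a r t)) := by
  have e : (fun n => PowerSeries.coeff n (bS b a r t)) = fun n => b a n r t := by
    funext n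
    unfold bS
    rw [PowerSeries.coeff_mk]
  rw [e]
  exact hX a r hr t ht

theorem lim3_ratio {r : ℝ} (hr : 0 < r) :
    Tendsto (fun n : ℕ => (1 + (n : ℝ) / r) / ((n : ℝ) + 1)) atTop (𝓝 (1 / r)) := by
  have e : (fun n : ℕ => (1 + (n : ℝ) / r) / ((n : ℝ) + 1))
      = fun n : ℕ => 1 / r + (1 - 1 / r) * (1 / ((n : ℝ) + 1)) := by
    funext n
    have h1 : (n : ℝ) + 1 ≠ 0 := by positivity
    field_simp
    ring
  rw [e]
  have h1 : Tendsto (fun n : ℕ => 1 / ((n : ℝ) + 1)) atTop (𝓝 0) :=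
    tendsto_one_div_add_atTop_nhds_zero_nat
  have h2 := (h1.const_mul (1 - 1 / r)).const_add (1 / r)
  simpa using h2

theorem lim_L3 (h : Dat b m) (hX : ∀ a r, 0 < r → ∀ t ∈ I2,
      Tendsto (fun n => b a n r t) atTop (𝓝 (X a r t)))
    {r : ℝ} (hr : 0 < r) {t : ℝ} (ht : t ∈ I2) : X false r t ^ 2 ≤ 1 / r := by
  have hc := lim3_coeff hX false hr ht
  have h1 := cesaro_coeff hc hc
  have h2 := lim3_ratio hr
  rw [sq]
  refine le_of_tendsto_of_tendsto' h1 h2 fun n => ?_
  have h3 : (0 : ℝ) < (n : ℝ) + 1 := by positivity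
  exact div_le_div_of_nonneg_right (h.sep n r hr t ht) h3.le

theorem lim_L5 (h : Dat b m) (hX : ∀ a r, 0 < r → ∀ t ∈ I2,
      Tendsto (fun n => b a n r t) atTop (𝓝 (X a r t)))
    {r r' : ℝ} (hr : 0 < r) (hrr : r ≤ r') {t : ℝ} (ht : t ∈ I2) :
    X true r t ^ 2 - X false r t ^ 2 ≤ X true r' t ^ 2 - X false r' t ^ 2 := by
  have key : ∀ q : ℝ, 0 < q → Tendsto (fun n : ℕ => PowerSeries.coeff n
      (bS b true q t * bS b true q t - bS b false q t * bS b false q t) / ((n : ℝ) + 1)) atTop
      (𝓝 (X true q t ^ 2 - X false q t ^ 2)) := by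
    intro q hq
    have h1 := lim3_coeff hX true hq ht
    have h2 := lim3_coeff hX false hq ht
    have h3 := (cesaro_coeff h1 h1).sub (cesaro_coeff h2 h2)
    rw [sq, sq]
    refine h3.congr fun n => ?_
    rw [map_sub, sub_div]
  refine le_of_tendsto_of_tendsto' (key r hr) (key r' (hr.trans_le hrr)) fun n => ?_
  have h3 : (0 : ℝ) < (n : ℝ) + 1 := by positivity
  exact div_le_div_of_nonneg_right (h.J5 n r r' hrr t ht) h3.le

theorem lim3_summable (h : Dat b m) {r : ℝ} (hr : 0 < r) {t : ℝ} (ht : t ∈ I2) :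
    Summable fun k => m k r t := by
  refine Summable.of_nonneg_of_le (fun k => h.m0 k r t ht) (fun k => h.mle k r hr t ht) ?_
  refine summable_geometric_of_lt_one ?_ ?_
  · have : Real.exp (-r) ≤ 1 := Real.exp_le_one_iff.2 (by linarith)
    linarith
  · have := Real.exp_pos (-r)
    linarith

theorem lim_L4 (h : Dat b m) (hX : ∀ a r, 0 < r → ∀ t ∈ I2,
      Tendsto (fun n => b a n r t) atTop (𝓝 (X a r t)))
    {r r' : ℝ} (hr : 0 < r) (hrr : r ≤ r') {t : ℝ} (ht : t ∈ I2) :
    X true r t - X true r' t ≤ (∑' k, m k r' t - ∑' k, m k r t) * X false r t := by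
  have hr' : 0 < r' := hr.trans_le hrr
  have s1 := lim3_summable h hr ht
  have s2 := lim3_summable h hr' ht
  have hc0 : ∀ k, 0 ≤ m k r' t - m k r t := fun k => by
    have := h.mmono k r r' hrr t ht
    linarith
  have hlim : Tendsto (fun n : ℕ => ∑' k, (if k ≤ n then (m k r' t - m k r t) *
      b false (n - k) r t else 0)) atTop (𝓝 (∑' k, (m k r' t - m k r t) * X false r t)) := by
    refine tendsto_tsum_of_dominated_convergence (s2.sub s1) ?_ ?_
    · intro k
      have h1 : Tendsto (fun n : ℕ => b false (n - k) r t) atTop (𝓝 (X false r t)) :=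
        (hX false r hr t ht).comp (tendsto_sub_atTop_nat k)
      have h2 := h1.const_mul (m k r' t - m k r t)
      refine h2.congr' ?_
      filter_upwards [eventually_ge_atTop k] with n hn
      rw [if_pos hn]
    · refine Eventually.of_forall fun n k => ?_
      split_ifs with hk
      · rw [norm_mul, Real.norm_eq_abs, Real.norm_eq_abs, abs_of_nonneg (hc0 k),
          abs_of_nonneg (h.b0 false _ r t ht)]
        exact mul_le_of_le_one_right (hc0 k) (h.b1 false _ r t ht)
      · rw [norm_zero]; exact hc0 k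
  have hco : ∀ n : ℕ, PowerSeries.coeff n ((mS m r' t - mS m r t) * bS b false r t)
      = ∑' k, (if k ≤ n then (m k r' t - m k r t) * b false (n - k) r t else 0) := by
    intro n
    rw [tsum_eq_sum (s := Finset.range (n + 1))]
    · rw [PowerSeries.coeff_mul]
      rw [Finset.Nat.sum_antidiagonal_eq_sum_range_succ (fun i j =>
        PowerSeries.coeff i (mS m r' t - mS m r t) * PowerSeries.coeff j (bS b false r t)) n]
      refine Finset.sum_congr rfl fun k hk => ?_
      have hk' : k ≤ n := Nat.lt_succ_iff.1 (Finset.mem_range.1 hk)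
      rw [if_pos hk', map_sub]
      unfold mS bS
      simp only [PowerSeries.coeff_mk]
    · intro k hk
      rw [if_neg]
      intro hk'
      exact hk (Finset.mem_range.2 (Nat.lt_succ_of_le hk'))
  have hsum : ∑' k, (m k r' t - m k r t) * X false r t
      = (∑' k, m k r' t - ∑' k, m k r t) * X false r t := by
    rw [tsum_mul_right, s2.tsum_sub s1]
  have hL : Tendsto (fun n => b true n r t - b true n r' t) atTop
      (𝓝 (X true r t - X true r' t)) :=
    (hX true r hr t ht).sub (hX true r' hr' t ht)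
  rw [← hsum]
  refine le_of_tendsto_of_tendsto' hL hlim fun n => ?_
  rw [← hco n]
  exact h.J4 n r r' hrr t ht

end FB
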