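import Pool.Agent.Lib.MP_fb152f_pr.Lim1
import Pool.Agent.Lib.MP_fb152f_pr.LimDefs

/-!
# Lim4: the limit of the inequality `J2` (75 minutes)

Fix `N`, `r > 0`.  Let `q t` be the truncation of `mS m r t` to the coefficients `< N`.
All coefficients of `q, mS, bS` are nonnegative on `I2`, so (`coeff_mul_le`) the integrand of `J2`
is at least `coeff n (4 ((1 + q^2) (bS true * bS false) + q (bS true * bS true)))`.  Divide by
`n + 1` and let `n → ∞`.  For fixed `t` the integrand tends to
`4 ((1 + A^2) X_B X_R + A X_B^2)`, `A = ∑_{k<N} m k r t` (`cesaro_three` for `h = 1 + q^2`, whose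
coefficients vanish for `n ≥ 2 N` and sum up to `1 + A^2`, and for `h = q`); it is bounded by a
constant independent of `n` and `t` (`b ≤ 1`, `m k r t ≤ 1`, there are at most `n + 1` pairs), so
dominated convergence (`intervalIntegral.tendsto_integral_filter_of_dominated_convergence`)
gives the limit of the left side.  The right side divided by `n + 1` tends to
`(X_B^2 - X_R^2)(t2) - (X_B^2 - X_R^2)(t1)` (`cesaro_coeff`).
-/

set_option autoImplicit false

namespace FB

open Filter Topology

variable {b : Bool → ℕ → ℝ → ℝ → ℝ} {m : ℕ → ℝ → ℝ → ℝ} {X : Bool → ℝ → ℝ → ℝ}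

/-- coefficients of products of continuous families are continuous -/
theorem lim4_cont {f g : ℝ → PowerSeries ℝ} (hf : ∀ n, Continuous fun t => PowerSeries.coeff n (f t))
    (hg : ∀ n, Continuous fun t => PowerSeries.coeff n (g t)) (n : ℕ) :
    Continuous fun t => PowerSeries.coeff n (f t * g t) := by
  simp only [PowerSeries.coeff_mul]
  exact continuous_finsetSum _ fun p _ => (hf p.1).mul (hg p.2)

/-- the series `4 ((1 + q^2) (f g) + q (f f))` -/
noncomputable def lim4S (q f g : PowerSeries ℝ) : PowerSeries ℝ :=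
  4 * ((1 + q * q) * (f * g) + q * (f * f))

theorem lim4_coeffS (q f g : PowerSeries ℝ) (n : ℕ) :
    PowerSeries.coeff n (lim4S q f g) = 4 * (PowerSeries.coeff n ((1 + q * q) * (f * g)) +
      PowerSeries.coeff n (q * (f * f))) := by
  unfold lim4S
  have h4 : (4 : PowerSeries ℝ) = PowerSeries.C (4 : ℝ) := by
    rw [map_ofNat]
  rw [h4, PowerSeries.coeff_C_mul, map_add]

theorem lim4_one_nonneg (n : ℕ) : 0 ≤ PowerSeries.coeff n (1 : PowerSeries ℝ) := by
  rw [PowerSeries.coeff_one]; split_ifs <;> norm_num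

theorem lim4_contS {q f g : ℝ → PowerSeries ℝ}
    (hq : ∀ n, Continuous fun t => PowerSeries.coeff n (q t))
    (hf : ∀ n, Continuous fun t => PowerSeries.coeff n (f t))
    (hg : ∀ n, Continuous fun t => PowerSeries.coeff n (g t)) (n : ℕ) :
    Continuous fun t => PowerSeries.coeff n (lim4S (q t) (f t) (g t)) := by
  simp only [lim4_coeffS]
  have h1 : ∀ n, Continuous fun t => PowerSeries.coeff n (1 + q t * q t) := by
    intro n
    simp only [map_add]
    exact continuous_const.add (lim4_cont hq hq n)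
  exact continuous_const.mul ((lim4_cont h1 (lim4_cont hf hg) n).add (lim4_cont hq (lim4_cont hf hf) n))

theorem lim4_leS {q f g q' f' g' : PowerSeries ℝ} (hq : ∀ n, 0 ≤ PowerSeries.coeff n q)
    (hf : ∀ n, 0 ≤ PowerSeries.coeff n f) (hg : ∀ n, 0 ≤ PowerSeries.coeff n g)
    (hq' : ∀ n, PowerSeries.coeff n q ≤ PowerSeries.coeff n q')
    (hf' : ∀ n, PowerSeries.coeff n f ≤ PowerSeries.coeff n f')
    (hg' : ∀ n, PowerSeries.coeff n g ≤ PowerSeries.coeff n g') (n : ℕ) :
    0 ≤ PowerSeries.coeff n (lim4S q f g) ∧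
      PowerSeries.coeff n (lim4S q f g) ≤ PowerSeries.coeff n (lim4S q' f' g') := by
  have hqq := coeff_mul_nonneg hq hq
  have h1 : ∀ n, 0 ≤ PowerSeries.coeff n (1 + q * q) := by
    intro n
    rw [map_add]
    exact add_nonneg (lim4_one_nonneg n) (hqq n)
  have h1' : ∀ n, PowerSeries.coeff n (1 + q * q) ≤ PowerSeries.coeff n (1 + q' * q') := by
    intro n
    rw [map_add, map_add]
    have := coeff_mul_le hq hq hq' hq' n
    linarith
  have hfg := coeff_mul_nonneg hf hg
  have hff := coeff_mul_nonneg hf hf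
  have a1 := coeff_mul_nonneg h1 hfg n
  have a2 := coeff_mul_nonneg hq hff n
  have b1 := coeff_mul_le h1 hfg h1' (coeff_mul_le hf hg hf' hg') n
  have b2 := coeff_mul_le hq hff hq' (coeff_mul_le hf hf hf' hf') n
  rw [lim4_coeffS, lim4_coeffS]
  constructor
  · linarith
  · linarith

/-- truncated series -/
noncomputable def lim4q (N : ℕ) (a : ℕ → ℝ) : PowerSeries ℝ :=
  PowerSeries.mk fun n => if n < N then a n else 0

theorem lim4_coeffq (N : ℕ) (a : ℕ → ℝ) (n : ℕ) :
    PowerSeries.coeff n (lim4q N a) = if n < N then a n else 0 := by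
  unfold lim4q; rw [PowerSeries.coeff_mk]

theorem lim4_sumq (N : ℕ) (a : ℕ → ℝ) :
    ∑ k ∈ Finset.range N, PowerSeries.coeff k (lim4q N a) = ∑ k ∈ Finset.range N, a k := by
  refine Finset.sum_congr rfl fun k hk => ?_
  rw [lim4_coeffq, if_pos (Finset.mem_range.1 hk)]

/-- the sum of the coefficients of `q * q` is the square of the sum -/
theorem lim4_sumqq (N : ℕ) (a : ℕ → ℝ) :
    ∑ k ∈ Finset.range (2 * N), PowerSeries.coeff k (lim4q N a * lim4q N a)
      = (∑ k ∈ Finset.range N, a k) ^ 2 := by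
  have h1 : (∑ k ∈ Finset.range N, a k) ^ 2
      = ∑ p ∈ (Finset.range N) ×ˢ (Finset.range N), a p.1 * a p.2 := by
    rw [sq, Finset.sum_mul_sum, Finset.sum_product]
  have h2 : ∀ k, PowerSeries.coeff k (lim4q N a * lim4q N a)
      = ∑ p ∈ ((Finset.range N) ×ˢ (Finset.range N)).filter (fun p => p.1 + p.2 = k),
        a p.1 * a p.2 := by
    intro k
    rw [PowerSeries.coeff_mul]
    have e1 : ∀ p ∈ Finset.HasAntidiagonal.antidiagonal k, PowerSeries.coeff p.1 (lim4q N a) *
        PowerSeries.coeff p.2 (lim4q N a)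
        = if (p.1 < N ∧ p.2 < N) then a p.1 * a p.2 else 0 := by
      intro p _
      rw [lim4_coeffq, lim4_coeffq]
      by_cases c1 : p.1 < N <;> by_cases c2 : p.2 < N <;> simp [c1, c2]
    rw [Finset.sum_congr rfl e1, ← Finset.sum_filter]
    refine Finset.sum_congr ?_ fun _ _ => rfl
    ext p
    simp only [Finset.mem_filter, Finset.HasAntidiagonal.mem_antidiagonal, Finset.mem_product, Finset.mem_range]
    tauto
  rw [h1, Finset.sum_congr rfl fun k _ => h2 k]
  exact Finset.sum_fiberwise_of_maps_to (g := fun p : ℕ × ℕ => p.1 + p.2) (fun p hp => by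
    rw [Finset.mem_product, Finset.mem_range, Finset.mem_range] at hp
    rw [Finset.mem_range]
    omega) _

theorem lim4_zeroqq (N : ℕ) (a : ℕ → ℝ) {n : ℕ} (hn : 2 * N ≤ n) :
    PowerSeries.coeff n (lim4q N a * lim4q N a) = 0 := by
  rw [PowerSeries.coeff_mul]
  refine Finset.sum_eq_zero fun p hp => ?_
  rw [Finset.HasAntidiagonal.mem_antidiagonal] at hp
  rw [lim4_coeffq, lim4_coeffq]
  by_cases c1 : p.1 < N
  · rw [if_neg (show ¬ p.2 < N by omega), mul_zero]
  · rw [if_neg c1, zero_mul]

/-- the pointwise limit -/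
theorem lim4_tendsto {f g : PowerSeries ℝ} {F G : ℝ} (N : ℕ) (a : ℕ → ℝ)
    (hf : Tendsto (fun n => PowerSeries.coeff n f) atTop (𝓝 F))
    (hg : Tendsto (fun n => PowerSeries.coeff n g) atTop (𝓝 G)) :
    Tendsto (fun n : ℕ => PowerSeries.coeff n (lim4S (lim4q N a) f g) / ((n : ℝ) + 1)) atTop
      (𝓝 (4 * ((1 + (∑ k ∈ Finset.range N, a k) ^ 2) * (F * G) +
        (∑ k ∈ Finset.range N, a k) * F ^ 2))) := by
  have h1 := cesaro_three (N := N) hf hf (h := lim4q N a) (fun n hn => by
    rw [lim4_coeffq, if_neg (by omega)])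
  have h2 := cesaro_three (N := 2 * N + 1) hf hg (h := 1 + lim4q N a * lim4q N a)
    (fun n hn => by
      rw [map_add, lim4_zeroqq N a (by omega), PowerSeries.coeff_one, if_neg (by omega), add_zero])
  rw [lim4_sumq] at h1
  have h3 : ∑ k ∈ Finset.range (2 * N + 1), PowerSeries.coeff k (1 + lim4q N a * lim4q N a)
      = 1 + (∑ k ∈ Finset.range N, a k) ^ 2 := by
    simp only [map_add]
    rw [Finset.sum_add_distrib, Finset.sum_range_succ
      (fun k => PowerSeries.coeff k (lim4q N a * lim4q N a)), lim4_sumqq,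
      lim4_zeroqq N a (le_refl _), add_zero]
    congr 1
    rw [Finset.sum_range_succ', Finset.sum_eq_zero, zero_add, PowerSeries.coeff_one, if_pos rfl]
    intro k _
    rw [PowerSeries.coeff_one, if_neg (by omega)]
  rw [h3] at h2
  have h4 := (h2.add h1).const_mul 4
  have e : (fun n : ℕ => PowerSeries.coeff n (lim4S (lim4q N a) f g) / ((n : ℝ) + 1))
      = fun n : ℕ => 4 * (PowerSeries.coeff n ((1 + lim4q N a * lim4q N a) * (f * g)) /
        ((n : ℝ) + 1) + PowerSeries.coeff n (lim4q N a * (f * f)) / ((n : ℝ) + 1)) := by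
    funext n
    rw [lim4_coeffS]
    ring
  rw [e]
  have e2 : 4 * ((1 + (∑ k ∈ Finset.range N, a k) ^ 2) * (F * G) +
        (∑ k ∈ Finset.range N, a k) * F ^ 2)
      = 4 * ((1 + (∑ k ∈ Finset.range N, a k) ^ 2) * (F * G) +
        (∑ k ∈ Finset.range N, a k) * (F * F)) := by ring
  rw [e2]
  exact h4

theorem lim4_rhs {f g : PowerSeries ℝ} {F G : ℝ}
    (hf : Tendsto (fun n => PowerSeries.coeff n f) atTop (𝓝 F))
    (hg : Tendsto (fun n => PowerSeries.coeff n g) atTop (𝓝 G)) :
    Tendsto (fun n : ℕ => PowerSeries.coeff n (f * f - g * g) / ((n : ℝ) + 1)) atTop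
      (𝓝 (F ^ 2 - G ^ 2)) := by
  have h := (cesaro_coeff hf hf).sub (cesaro_coeff hg hg)
  have e : (fun n : ℕ => PowerSeries.coeff n (f * f - g * g) / ((n : ℝ) + 1))
      = fun n : ℕ => PowerSeries.coeff n (f * f) / ((n : ℝ) + 1) -
        PowerSeries.coeff n (g * g) / ((n : ℝ) + 1) := by
    funext n
    rw [map_sub, sub_div]
  rw [e, sq, sq]
  exact h

theorem lim_L2 (h : Dat b m) (hX : ∀ a r, 0 < r → ∀ t ∈ I2,
      Tendsto (fun n => b a n r t) atTop (𝓝 (X a r t)))
    (N : ℕ) {r t1 t2 : ℝ} (hr : 0 < r) (h0 : 0 ≤ t1) (h12 : t1 ≤ t2) (h2 : t2 ≤ Real.pi / 2) :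
    ∫ t in t1..t2, 4 * ((1 + (∑ k ∈ Finset.range N, m k r t) ^ 2) * (X true r t * X false r t) +
      (∑ k ∈ Finset.range N, m k r t) * X true r t ^ 2) ≤
      (X true r t2 ^ 2 - X false r t2 ^ 2) - (X true r t1 ^ 2 - X false r t1 ^ 2) := by
  have hI : ∀ t, t1 ≤ t → t ≤ t2 → t ∈ I2 := fun t ha hb => ⟨h0.trans ha, hb.trans h2⟩
  let q : ℝ → PowerSeries ℝ := fun t => lim4q N (fun n => m n r t)
  let bT : ℝ → PowerSeries ℝ := fun t => bS b true r t
  let bF : ℝ → PowerSeries ℝ := fun t => bS b false r t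
  let mm : ℝ → PowerSeries ℝ := fun t => mS m r t
  have cbT : ∀ n, Continuous fun t => PowerSeries.coeff n (bT t) := by
    intro n
    show Continuous fun t => PowerSeries.coeff n (bS b true r t)
    simp only [bS, PowerSeries.coeff_mk]
    exact h.cb true n r
  have cbF : ∀ n, Continuous fun t => PowerSeries.coeff n (bF t) := by
    intro n
    show Continuous fun t => PowerSeries.coeff n (bS b false r t)
    simp only [bS, PowerSeries.coeff_mk]
    exact h.cb false n r
  have cmm : ∀ n, Continuous fun t => PowerSeries.coeff n (mm t) := by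
    intro n
    show Continuous fun t => PowerSeries.coeff n (mS m r t)
    simp only [mS, PowerSeries.coeff_mk]
    exact h.cm n r
  have cq : ∀ n, Continuous fun t => PowerSeries.coeff n (q t) := by
    intro n
    show Continuous fun t => PowerSeries.coeff n (lim4q N (fun n => m n r t))
    simp only [lim4_coeffq]
    by_cases hn : n < N
    · simp only [hn, if_true]
      exact h.cm n r
    · simp only [hn, if_false]
      exact continuous_const
  have pT : ∀ t ∈ I2, ∀ n, 0 ≤ PowerSeries.coeff n (bT t) := by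
    intro t ht n
    show 0 ≤ PowerSeries.coeff n (bS b true r t)
    rw [bS, PowerSeries.coeff_mk]
    exact h.b0 true n r t ht
  have pF : ∀ t ∈ I2, ∀ n, 0 ≤ PowerSeries.coeff n (bF t) := by
    intro t ht n
    show 0 ≤ PowerSeries.coeff n (bS b false r t)
    rw [bS, PowerSeries.coeff_mk]
    exact h.b0 false n r t ht
  have pq : ∀ t ∈ I2, ∀ n, 0 ≤ PowerSeries.coeff n (q t) := by
    intro t ht n
    show 0 ≤ PowerSeries.coeff n (lim4q N (fun n => m n r t))
    rw [lim4_coeffq]
    split_ifs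
    · exact h.m0 n r t ht
    · exact le_refl _
  have lq : ∀ t ∈ I2, ∀ n, PowerSeries.coeff n (q t) ≤ PowerSeries.coeff n (mm t) := by
    intro t ht n
    show PowerSeries.coeff n (lim4q N (fun n => m n r t)) ≤ PowerSeries.coeff n (mS m r t)
    rw [lim4_coeffq, mS, PowerSeries.coeff_mk]
    split_ifs
    · exact le_refl _
    · exact h.m0 n r t ht
  -- the constant majorants
  let e1 : PowerSeries ℝ := PowerSeries.mk fun _ => 1
  let Q1 : PowerSeries ℝ := lim4q N fun _ => 1
  have uT : ∀ t ∈ I2, ∀ n, PowerSeries.coeff n (bT t) ≤ PowerSeries.coeff n e1 := by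
    intro t ht n
    show PowerSeries.coeff n (bS b true r t) ≤ PowerSeries.coeff n (PowerSeries.mk fun _ => 1)
    rw [bS, PowerSeries.coeff_mk, PowerSeries.coeff_mk]
    exact h.b1 true n r t ht
  have uF : ∀ t ∈ I2, ∀ n, PowerSeries.coeff n (bF t) ≤ PowerSeries.coeff n e1 := by
    intro t ht n
    show PowerSeries.coeff n (bS b false r t) ≤ PowerSeries.coeff n (PowerSeries.mk fun _ => 1)
    rw [bS, PowerSeries.coeff_mk, PowerSeries.coeff_mk]
    exact h.b1 false n r t ht
  have uq : ∀ t ∈ I2, ∀ n, PowerSeries.coeff n (q t) ≤ PowerSeries.coeff n Q1 := by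
    intro t ht n
    show PowerSeries.coeff n (lim4q N (fun n => m n r t)) ≤
      PowerSeries.coeff n (lim4q N fun _ => 1)
    rw [lim4_coeffq, lim4_coeffq]
    split_ifs
    · refine (h.mle n r hr t ht).trans ?_
      refine pow_le_one₀ ?_ ?_
      · have : Real.exp (-r) ≤ 1 := Real.exp_le_one_iff.2 (by linarith)
        linarith
      · have := Real.exp_pos (-r)
        linarith
    · exact le_refl _
  have hconst : Tendsto (fun n : ℕ => PowerSeries.coeff n (lim4S Q1 e1 e1) / ((n : ℝ) + 1)) atTop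
      (𝓝 (4 * ((1 + (∑ k ∈ Finset.range N, (1 : ℝ)) ^ 2) * (1 * 1) +
        (∑ k ∈ Finset.range N, (1 : ℝ)) * 1 ^ 2))) := by
    refine lim4_tendsto N (fun _ => 1) ?_ ?_
    · show Tendsto (fun n => PowerSeries.coeff n (PowerSeries.mk fun _ => (1 : ℝ))) atTop (𝓝 1)
      simp only [PowerSeries.coeff_mk]
      exact tendsto_const_nhds
    · show Tendsto (fun n => PowerSeries.coeff n (PowerSeries.mk fun _ => (1 : ℝ))) atTop (𝓝 1)
      simp only [PowerSeries.coeff_mk]
      exact tendsto_const_nhds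
  obtain ⟨C, hC⟩ := hconst.bddAbove_range
  have hC' : ∀ n : ℕ, PowerSeries.coeff n (lim4S Q1 e1 e1) / ((n : ℝ) + 1) ≤ C :=
    fun n => hC ⟨n, rfl⟩
  -- the truncated integrand
  let G : ℕ → ℝ → ℝ := fun n t => PowerSeries.coeff n (lim4S (q t) (bT t) (bF t)) / ((n : ℝ) + 1)
  have hpos : ∀ n : ℕ, (0 : ℝ) < (n : ℝ) + 1 := fun n => by positivity
  have cG : ∀ n, Continuous (G n) := fun n => (lim4_contS cq cbT cbF n).div_const _
  have bG : ∀ n, ∀ t ∈ I2, ‖G n t‖ ≤ C := by
    intro n t ht
    have h3 := lim4_leS (pq t ht) (pT t ht) (pF t ht) (uq t ht) (uT t ht) (uF t ht) n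
    have h4 : 0 ≤ G n t := div_nonneg h3.1 (hpos n).le
    rw [Real.norm_of_nonneg h4]
    refine le_trans ?_ (hC' n)
    exact div_le_div_of_nonneg_right h3.2 (hpos n).le
  have lG : ∀ t ∈ I2, Tendsto (fun n => G n t) atTop
      (𝓝 (4 * ((1 + (∑ k ∈ Finset.range N, m k r t) ^ 2) * (X true r t * X false r t) +
      (∑ k ∈ Finset.range N, m k r t) * X true r t ^ 2))) := by
    intro t ht
    refine lim4_tendsto N (fun n => m n r t) ?_ ?_
    · show Tendsto (fun n => PowerSeries.coeff n (bS b true r t)) atTop (𝓝 (X true r t))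
      simp only [bS, PowerSeries.coeff_mk]
      exact hX true r hr t ht
    · show Tendsto (fun n => PowerSeries.coeff n (bS b false r t)) atTop (𝓝 (X false r t))
      simp only [bS, PowerSeries.coeff_mk]
      exact hX false r hr t ht
  have hlim : Tendsto (fun n => ∫ t in t1..t2, G n t) atTop
      (𝓝 (∫ t in t1..t2, 4 * ((1 + (∑ k ∈ Finset.range N, m k r t) ^ 2) *
        (X true r t * X false r t) + (∑ k ∈ Finset.range N, m k r t) * X true r t ^ 2))) := by
    refine intervalIntegral.tendsto_integral_filter_of_dominated_convergence (fun _ => C) ?_ ?_ ?_ ?_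
    · exact Eventually.of_forall fun n => (cG n).aestronglyMeasurable
    · refine Eventually.of_forall fun n => Eventually.of_forall fun t ht => ?_
      rw [Set.uIoc_of_le h12] at ht
      exact bG n t (hI t ht.1.le ht.2)
    · exact intervalIntegrable_const
    · refine Eventually.of_forall fun t ht => ?_
      rw [Set.uIoc_of_le h12] at ht
      exact lG t (hI t ht.1.le ht.2)
  -- the right side
  have tT : ∀ t ∈ I2, Tendsto (fun n => PowerSeries.coeff n (bS b true r t)) atTop
      (𝓝 (X true r t)) := by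
    intro t ht
    simp only [bS, PowerSeries.coeff_mk]
    exact hX true r hr t ht
  have tF : ∀ t ∈ I2, Tendsto (fun n => PowerSeries.coeff n (bS b false r t)) atTop
      (𝓝 (X false r t)) := by
    intro t ht
    simp only [bS, PowerSeries.coeff_mk]
    exact hX false r hr t ht
  have i1 := hI t1 (le_refl _) h12
  have i2 := hI t2 h12 (le_refl _)
  have hR := (lim4_rhs (tT t2 i2) (tF t2 i2)).sub (lim4_rhs (tT t1 i1) (tF t1 i1))
  refine le_of_tendsto_of_tendsto' hlim hR fun n => ?_
  have hJ := h.J2 n r t1 t2 h0 h12 h2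
  have hle : ∫ t in t1..t2, PowerSeries.coeff n (lim4S (q t) (bT t) (bF t)) ≤
      ∫ t in t1..t2, PowerSeries.coeff n (lim4S (mm t) (bT t) (bF t)) := by
    refine intervalIntegral.integral_mono_on h12
      ((lim4_contS cq cbT cbF n).intervalIntegrable _ _)
      ((lim4_contS cmm cbT cbF n).intervalIntegrable _ _) fun t ht => ?_
    have hI' := hI t ht.1 ht.2
    exact (lim4_leS (pq t hI') (pT t hI') (pF t hI') (lq t hI') (fun _ => le_refl _)
      (fun _ => le_refl _) n).2
  have e5 : ∫ t in t1..t2, G n t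
      = (∫ t in t1..t2, PowerSeries.coeff n (lim4S (q t) (bT t) (bF t))) / ((n : ℝ) + 1) := by
    show ∫ t in t1..t2, PowerSeries.coeff n (lim4S (q t) (bT t) (bF t)) / ((n : ℝ) + 1) = _
    rw [intervalIntegral.integral_div]
  rw [e5, ← sub_div]
  refine div_le_div_of_nonneg_right (hle.trans ?_) (hpos n).le
  exact hJ

end FB
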