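import Pool.Agent.Lib.MP_fb152f_pr.Fin3
import Pool.Agent.Lib.MP_fb152f_pr.Lim2
import Pool.Agent.Lib.MP_fb152f_pr.Lim3
import Pool.Agent.Lib.MP_fb152f_pr.Lim4

/-!
# Fin4: strict monotonicity (40 minutes)

`exists_LD`: put `exists_lim`, `summable_m`, `lim_L1`, ..., `lim_L5` together.
`x_sq_strict`: for `0 < t1 < t2 ≤ π/2`: `x ≥ x t1 > 0` on `[t1, t2]` (`x_mono`, `x_pos`), so by
`x_int` `x(t2)^2 - x(t1)^2 ≥ x(t1)^2 ∫_{t1}^{t2} 4 sin t cos t (1 - exp (-1)) dt > 0` (the integrand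
is continuous and positive on `(t1, t2)`).  For `t1 = 0`:
`x(0)^2 ≤ x(t2/2)^2 < x(t2)^2`.
-/

set_option autoImplicit false

namespace FB

open Filter Topology

variable {b : Bool → ℕ → ℝ → ℝ → ℝ} {m : ℕ → ℝ → ℝ → ℝ}

theorem exists_LD (h : Dat b m) : ∃ X : Bool → ℝ → ℝ → ℝ, (∀ a r, 0 < r → ∀ t ∈ I2,
    Tendsto (fun n => b a n r t) atTop (𝓝 (X a r t))) ∧ LD X m := by
  obtain ⟨X, hX, hc, h0, h1, ha, hB, hR⟩ := exists_lim h
  exact ⟨X, hX, 
    { cX := hc
      cm := h.cm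
      X0 := h0
      X1 := h1
      anti := ha
      lowB := hB
      lowR := hR
      m0 := h.m0
      m1 := h.m1
      mmono := h.mmono
      msum := fun r hr t ht => summable_m h hr ht
      L1 := fun r t1 t2 hr h0 h12 h2 => lim_L1 h hX hr h0 h12 h2
      L2 := fun N r t1 t2 hr h0 h12 h2 => lim_L2 h hX N hr h0 h12 h2
      L3 := fun r hr t ht => lim_L3 h hX hr ht
      L4 := fun r r' hr hrr t ht => lim_L4 h hX hr hrr ht
      L5 := fun r r' hr hrr t ht => lim_L5 h hX hr hrr ht }⟩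

theorem fin4_strict {X : Bool → ℝ → ℝ → ℝ} (h : LD X m) {x : ℝ → ℝ} (hx : ∀ t ∈ I2,
      Tendsto (fun r => X true r t) atTop (𝓝 (x t))) (hx0 : ∀ t ∈ I2, 0 ≤ x t)
    {t1 t2 : ℝ} (h0 : 0 < t1) (h12 : t1 < t2) (h2 : t2 ≤ Real.pi / 2) :
    x t1 ^ 2 < x t2 ^ 2 := by
  have hI : ∀ t ∈ Set.Icc t1 t2, t ∈ I2 := fun t ht => ⟨h0.le.trans ht.1, ht.2.trans h2⟩
  have ht1 : t1 ∈ I2 := hI t1 ⟨le_rfl, h12.le⟩
  have hxm := x_mono h hx
  have hpos := x_pos h hx hx0 ht1 h0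
  have hint := x_int h hx hx0 h0.le h12.le h2
  have hsub : Set.uIcc t1 t2 ⊆ I2 := by
    rw [Set.uIcc_of_le h12.le]
    exact fun t ht => hI t ht
  have he : 0 < 1 - Real.exp (-1) := by
    have := Real.exp_lt_one_iff.mpr (show (-1 : ℝ) < 0 by norm_num)
    linarith
  have hlow : ∫ t in t1..t2, 4 * (Real.sin t * Real.cos t * (1 - Real.exp (-1))) * x t1 ^ 2 ≤
      ∫ t in t1..t2, 4 * (Real.sin t * Real.cos t * (1 - Real.exp (-1))) * x t ^ 2 := by
    refine intervalIntegral.integral_mono_on h12.le ?_ ?_ ?_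
    · refine Continuous.intervalIntegrable ?_ _ _
      fun_prop
    · have hm : MonotoneOn (fun t => x t ^ 2) (Set.uIcc t1 t2) := by
        intro a ha b hb hab
        exact pow_le_pow_left₀ (hx0 a (hsub ha)) (hxm (hsub ha) (hsub hb) hab) 2
      refine hm.intervalIntegrable.continuousOn_mul ?_
      fun_prop
    · intro t ht
      have htI := hI t ht
      refine mul_le_mul_of_nonneg_left ?_ ?_
      · exact pow_le_pow_left₀ hpos.le (hxm ht1 htI ht.1) 2
      · have h3 : 0 ≤ Real.sin t :=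
          Real.sin_nonneg_of_mem_Icc ⟨htI.1, htI.2.trans (by linarith [Real.pi_pos])⟩
        have h4 : 0 ≤ Real.cos t :=
          Real.cos_nonneg_of_mem_Icc ⟨by linarith [Real.pi_pos, htI.1], htI.2⟩
        positivity
  have hp : 0 < ∫ t in t1..t2, 4 * (Real.sin t * Real.cos t * (1 - Real.exp (-1))) * x t1 ^ 2 := by
    refine intervalIntegral.intervalIntegral_pos_of_pos_on ?_ ?_ h12
    · refine Continuous.intervalIntegrable ?_ _ _
      fun_prop
    · intro t ht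
      have h3 : 0 < Real.sin t := Real.sin_pos_of_pos_of_lt_pi (h0.trans ht.1) (by
        have := ht.2
        linarith [Real.pi_pos])
      have h4 : 0 < Real.cos t := Real.cos_pos_of_mem_Ioo ⟨by
        have := ht.1
        linarith [Real.pi_pos], by
        have := ht.2
        linarith⟩
      positivity
  linarith

theorem x_sq_strict {X : Bool → ℝ → ℝ → ℝ} (h : LD X m) {x : ℝ → ℝ} (hx : ∀ t ∈ I2,
      Tendsto (fun r => X true r t) atTop (𝓝 (x t))) (hx0 : ∀ t ∈ I2, 0 ≤ x t) :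
    StrictMonoOn (fun t => x t ^ 2) I2 := by
  intro t1 ht1 t2 ht2 h12
  have hxm := x_mono h hx
  rcases ht1.1.eq_or_lt with h0 | h0
  · have h3 : t2 / 2 ∈ I2 := ⟨by linarith [ht2.1], by linarith [ht2.1, ht2.2]⟩
    have h4 : 0 < t2 := by rw [h0]; exact h12
    have h5 := fin4_strict h hx hx0 (t1 := t2 / 2) (t2 := t2) (by positivity) (by linarith) ht2.2
    have h6 : x t1 ^ 2 ≤ x (t2 / 2) ^ 2 :=
      pow_le_pow_left₀ (hx0 t1 ht1) (hxm ht1 h3 (by rw [← h0]; positivity)) 2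
    exact lt_of_le_of_lt h6 h5
  · exact fin4_strict h hx hx0 h0 h12 ht2.2

end FB
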