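import Pool.Agent.Lib.MP_fb152f_pr.Inten

/-!
# Reflect: arbitrary intervals (90 minutes)
-/

set_option autoImplicit false

namespace FB

open MeasureTheory ProbabilityTheory Filter Topology

theorem reflect_gap (x : ℤ → ℝ) (k : ℤ) : gap (fun j => - x (1 - j)) k = gap x (1 - k) := by
  unfold gap
  by_cases h0 : k = 0
  · subst h0
    simp
  · by_cases h1 : k = 1
    · subst h1
      simp
    · by_cases h2 : 1 < k
      · rw [if_neg h0, if_neg h1, if_pos h2, if_neg (by omega), if_neg (by omega),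
          if_neg (by omega)]
        have e1 : (1 : ℤ) - (k - 1) = 1 - k + 1 := by ring
        show - x (1 - k) - - x (1 - (k - 1)) = _
        rw [e1]
        ring
      · rw [if_neg h0, if_neg h1, if_neg h2, if_neg (by omega), if_neg (by omega),
          if_pos (by omega)]
        have e1 : (1 : ℤ) - (k + 1) = 1 - k - 1 := by ring
        show - x (1 - (k + 1)) - - x (1 - k) = _
        rw [e1]
        ring

theorem reflect {p : ℝ} {Ω : Type*} [MeasurableSpace Ω]
    {P : Measure Ω} {X : ℤ → Ω → ℝ} {c : ℤ → Ω → Bool} (h : IsColouredPoisson p P X c) :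
    IsColouredPoisson p P (fun k ω => - X (1 - k) ω) (fun k ω => c (1 - k) ω) := by
  have hg : ∀ k : ℤ, (fun ω => (gap (fun j => - X (1 - j) ω) k, c (1 - k) ω)) =
      fun ω => (gap (fun j => X j ω) (1 - k), c (1 - k) ω) := by
    intro k
    funext ω
    rw [reflect_gap (fun j => X j ω) k]
  refine ⟨fun k => (h.measX _).neg, fun k => h.measc _, ?_, fun k => ?_⟩
  · have h1 : (fun (k : ℤ) (ω : Ω) => (gap (fun j => - X (1 - j) ω) k, c (1 - k) ω)) =
        fun (k : ℤ) (ω : Ω) => (gap (fun j => X j ω) (1 - k), c (1 - k) ω) := funext hg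
    rw [h1]
    have hinj : Function.Injective fun k : ℤ => 1 - k := fun a b hab => by
      have : (1 : ℤ) - a = 1 - b := hab
      omega
    exact h.indep.precomp hinj
  · rw [hg k]
    exact h.law (1 - k)

theorem reflect_stable {x : ℤ → ℝ} {c : ℤ → Bool} {σ : ℤ → ℤ} (h : IsStable x c σ) :
    IsStable (fun j => - x (1 - j)) (fun j => c (1 - j)) (fun k => 1 - σ (1 - k)) := by
  have hd : ∀ a b : ℤ, dist (- x a) (- x b) = dist (x a) (x b) := fun a b => dist_neg_neg _ _
  refine ⟨fun i => ?_, fun i hi => ?_, fun i j hij hc hne hcon => ?_⟩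
  · show 1 - σ (1 - (1 - σ (1 - i))) = i
    rw [sub_sub_cancel, h.invol]
    ring
  · show Compat (c (1 - i)) (c (1 - (1 - σ (1 - i))))
    rw [sub_sub_cancel]
    refine h.compat _ fun h' => hi ?_
    show 1 - σ (1 - i) = i
    rw [h']
    ring
  · refine h.noblock (1 - i) (1 - j) (fun h' => hij (by omega)) hc (fun h' => hne ?_) ⟨?_, ?_⟩
    · show 1 - σ (1 - i) = j
      rw [h']
      ring
    · rcases hcon.1 with h1 | h1
      · left
        have h2 : 1 - σ (1 - i) = i := h1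
        omega
      · right
        simp only [hd, sub_sub_cancel] at h1
        exact h1
    · rcases hcon.2 with h1 | h1
      · left
        have h2 : 1 - σ (1 - j) = j := h1
        omega
      · right
        simp only [hd, sub_sub_cancel] at h1
        exact h1

theorem unmatched_reflect (x : ℤ → ℝ) (c : ℤ → Bool) (k : ℤ) :
    k ∈ unmatchedBlue (fun j => - x (1 - j)) (fun j => c (1 - j)) ↔ 1 - k ∈ unmatchedBlue x c := by
  constructor
  · rintro ⟨h1, σ, hσ, hk⟩
    have h2 := reflect_stable hσ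
    simp only [sub_sub_cancel, neg_neg] at h2
    refine ⟨h1, _, h2, ?_⟩
    show 1 - σ (1 - (1 - k)) = 1 - k
    rw [sub_sub_cancel, hk]
  · rintro ⟨h1, σ, hσ, hk⟩
    refine ⟨h1, _, reflect_stable hσ, ?_⟩
    show 1 - σ (1 - k) = k
    rw [hk]
    ring

/-- The event that the point `k` is blue and unmatched. -/
def reflEv {Ω : Type*} (X : ℤ → Ω → ℝ) (c : ℤ → Ω → Bool) (k : ℤ) : Set Ω :=
  {ω | c k ω = true ∧ ∀ r : ℕ, aliveZ (fun j => X j ω) (fun j => c j ω) r k}

theorem reflect_meas_ev {p : ℝ} {Ω : Type*} [MeasurableSpace Ω]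
    {P : Measure Ω} {X : ℤ → Ω → ℝ} {c : ℤ → Ω → Bool} (h : IsColouredPoisson p P X c) (k : ℤ) :
    MeasurableSet (reflEv X c k) := by
  have h1 : reflEv X c k = (c k) ⁻¹' {true} ∩ ⋂ r : ℕ, ⋃ N : ℕ, ⋂ n : ℕ, ⋂ _ : N ≤ n,
      {ω | alive (fun j => X j ω) (fun j => c j ω) (winZ k n) (r : ℝ) k} := by
    ext ω
    simp only [reflEv, aliveZ, eventually_atTop, Set.mem_inter_iff, Set.mem_preimage,
      Set.mem_singleton_iff, Set.mem_iInter, Set.mem_iUnion]
    rfl
  rw [h1]
  refine (h.measc k (MeasurableSet.singleton true)).inter (MeasurableSet.iInter fun r =>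
    MeasurableSet.iUnion fun N => MeasurableSet.iInter fun n => MeasurableSet.iInter fun _ => ?_)
  exact measurableSet_alive (x := fun ω j => X j ω) (c := fun ω j => c j ω) h.measX h.measc
    measurable_const _ _

/-- The intensity measure of the unmatched blue points. -/
noncomputable def reflNu {Ω : Type*} [MeasurableSpace Ω] (P : Measure Ω) (X : ℤ → Ω → ℝ)
    (c : ℤ → Ω → Bool) : Measure ℝ :=
  Measure.sum fun k : ℤ => (P.restrict (reflEv X c k)).map (X k)

theorem reflNu_apply {p : ℝ} {Ω : Type*} [MeasurableSpace Ω]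
    {P : Measure Ω} {X : ℤ → Ω → ℝ} {c : ℤ → Ω → Bool} (h : IsColouredPoisson p P X c)
    {I : Set ℝ} (hI : MeasurableSet I) :
    reflNu P X c I = ∑' k : ℤ, P (X k ⁻¹' I ∩ reflEv X c k) := by
  unfold reflNu
  rw [Measure.sum_apply _ hI]
  refine tsum_congr fun k => ?_
  rw [Measure.map_apply (h.measX k) hI, Measure.restrict_apply (h.measX k hI)]

theorem reflNu_eq {p : ℝ} (hp : p ∈ Set.Icc (0 : ℝ) 1) {Ω : Type*} [MeasurableSpace Ω]
    {P : Measure Ω} [IsProbabilityMeasure P] {X : ℤ → Ω → ℝ} {c : ℤ → Ω → Bool}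
    (h : IsColouredPoisson p P X c) {I : Set ℝ} (hI : MeasurableSet I) :
    ∫⁻ ω, ({k | k ∈ unmatchedBlue (fun j => X j ω) (fun j => c j ω) ∧
        X k ω ∈ I}.encard : ENNReal) ∂P = reflNu P X c I := by
  rw [reflNu_apply h hI]
  have h1 : ∀ k : ℤ, P (X k ⁻¹' I ∩ reflEv X c k) =
      ∫⁻ ω, (X k ⁻¹' I ∩ reflEv X c k).indicator 1 ω ∂P := by
    intro k
    rw [lintegral_indicator_one ((h.measX k hI).inter (reflect_meas_ev h k))]
  simp only [h1]
  rw [← lintegral_tsum fun k => (measurable_one.indicator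
    ((h.measX k hI).inter (reflect_meas_ev h k))).aemeasurable]
  refine lintegral_congr_ae ?_
  filter_upwards [ae_good hp h] with ω hω
  set S : Set ℤ := {k | k ∈ unmatchedBlue (fun j => X j ω) (fun j => c j ω) ∧ X k ω ∈ I} with hS
  have h2 : ∀ k : ℤ, (X k ⁻¹' I ∩ reflEv X c k).indicator (1 : Ω → ENNReal) ω =
      S.indicator (fun _ => (1 : ENNReal)) k := by
    intro k
    have h3 : ω ∈ X k ⁻¹' I ∩ reflEv X c k ↔ k ∈ S := by
      have h4 := unmatched_iff hω.1 (fun j => c j ω) k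
      constructor
      · rintro ⟨h5, h6⟩
        exact ⟨h4.2 h6, h5⟩
      · rintro ⟨h5, h6⟩
        exact ⟨h6, h4.1 h5⟩
    by_cases h5 : k ∈ S
    · rw [Set.indicator_of_mem h5, Set.indicator_of_mem (h3.2 h5)]
      rfl
    · rw [Set.indicator_of_notMem h5, Set.indicator_of_notMem (fun h6 => h5 (h3.1 h6))]
  simp only [h2]
  rw [← tsum_subtype S (fun _ => (1 : ENNReal)), ENNReal.tsum_set_one]

theorem reflNu_reflect {p : ℝ} (hp : p ∈ Set.Icc (0 : ℝ) 1) {Ω : Type*} [MeasurableSpace Ω]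
    {P : Measure Ω} [IsProbabilityMeasure P] {X : ℤ → Ω → ℝ} {c : ℤ → Ω → Bool}
    (h : IsColouredPoisson p P X c) {I : Set ℝ} (hI : MeasurableSet I) :
    reflNu P X c I =
      reflNu P (fun k ω => - X (1 - k) ω) (fun k ω => c (1 - k) ω) ((fun x => -x) ⁻¹' I) := by
  have hI' : MeasurableSet ((fun x : ℝ => -x) ⁻¹' I) := measurable_neg hI
  rw [← reflNu_eq hp h hI, ← reflNu_eq hp (reflect h) hI']
  refine lintegral_congr fun ω => ?_
  congr 1
  have h1 : {k | k ∈ unmatchedBlue (fun j => X j ω) (fun j => c j ω) ∧ X k ω ∈ I} =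
      (fun k : ℤ => 1 - k) '' {k | k ∈ unmatchedBlue (fun j => - X (1 - j) ω)
        (fun j => c (1 - j) ω) ∧ - X (1 - k) ω ∈ (fun x : ℝ => -x) ⁻¹' I} := by
    ext k
    constructor
    · rintro ⟨h2, h3⟩
      refine ⟨1 - k, ⟨?_, ?_⟩, sub_sub_cancel 1 k⟩
      · rw [unmatched_reflect (fun j => X j ω) (fun j => c j ω), sub_sub_cancel]
        exact h2
      · show - - X (1 - (1 - k)) ω ∈ I
        rw [sub_sub_cancel, neg_neg]
        exact h3
    · rintro ⟨j, ⟨h2, h3⟩, rfl⟩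
      rw [unmatched_reflect (fun j => X j ω) (fun j => c j ω)] at h2
      refine ⟨h2, ?_⟩
      have h4 : - - X (1 - j) ω ∈ I := h3
      rwa [neg_neg] at h4
  rw [h1]
  exact Function.Injective.encard_image (fun a b hab => by
    have : (1 : ℤ) - a = 1 - b := hab
    omega) _

theorem reflNu_pos {p : ℝ} (hp : p ∈ Set.Icc (0 : ℝ) 1) {Ω : Type*} [MeasurableSpace Ω]
    {P : Measure Ω} [IsProbabilityMeasure P] {X : ℤ → Ω → ℝ} {c : ℤ → Ω → Bool}
    (h : IsColouredPoisson p P X c) {Q : ℝ → ℝ} {q : ℝ}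
    (hQ : ∀ r, 0 < r → Tendsto (fun n => qq true n r p) atTop (𝓝 (Q r)))
    (hq : Tendsto Q atTop (𝓝 q)) {a b : ℝ} (ha : 0 ≤ a) (hab : a ≤ b) :
    reflNu P X c (Set.Ioc a b) = ENNReal.ofReal (p * q ^ 2 * (b - a)) := by
  have hu : 0 ≤ p * q ^ 2 := mul_nonneg hp.1 (sq_nonneg q)
  have h0 : ∀ L : ℝ, 0 ≤ L → reflNu P X c (Set.Ioc 0 L) = ENNReal.ofReal (p * q ^ 2 * L) := by
    intro L hL
    rw [← reflNu_eq hp h measurableSet_Ioc]
    exact intensity_pos hp h hQ hq hL
  have h1 : reflNu P X c (Set.Ioc 0 b) =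
      reflNu P X c (Set.Ioc 0 a) + reflNu P X c (Set.Ioc a b) := by
    rw [← Set.Ioc_union_Ioc_eq_Ioc ha hab]
    refine measure_union ?_ measurableSet_Ioc
    exact Set.disjoint_left.mpr fun x hx hx' => absurd hx.2 (not_le.mpr hx'.1)
  rw [h0 b (ha.trans hab), h0 a ha] at h1
  have h2 : ENNReal.ofReal (p * q ^ 2 * b) =
      ENNReal.ofReal (p * q ^ 2 * a) + ENNReal.ofReal (p * q ^ 2 * (b - a)) := by
    rw [← ENNReal.ofReal_add (mul_nonneg hu ha) (mul_nonneg hu (sub_nonneg.mpr hab))]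
    congr 1
    ring
  rw [h2] at h1
  exact ((ENNReal.add_right_inj ENNReal.ofReal_ne_top).1 h1).symm

theorem reflNu_atom {p : ℝ} (hp : p ∈ Set.Icc (0 : ℝ) 1) {Ω : Type*} [MeasurableSpace Ω]
    {P : Measure Ω} [IsProbabilityMeasure P] {X : ℤ → Ω → ℝ} {c : ℤ → Ω → Bool}
    (h : IsColouredPoisson p P X c) {Q : ℝ → ℝ} {q : ℝ}
    (hQ : ∀ r, 0 < r → Tendsto (fun n => qq true n r p) atTop (𝓝 (Q r)))
    (hq : Tendsto Q atTop (𝓝 q)) {s : ℝ} (hs : 0 ≤ s) :
    reflNu P X c {s} = 0 := by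
  rcases hs.eq_or_lt with rfl | hs
  · rw [reflNu_apply h (MeasurableSet.singleton 0), ENNReal.tsum_eq_zero]
    intro k
    refine measure_mono_null (t := {ω | ¬ (GoodZ (fun k => X k ω) ∧ X 0 ω < 0 ∧ 0 < X 1 ω)})
      ?_ (ae_iff.mp (ae_good hp h))
    rintro ω ⟨h1, _⟩ ⟨h2, h3, h4⟩
    have h5 : X k ω = 0 := h1
    by_cases hk : k ≤ 0
    · have h6 : X k ω ≤ X 0 ω := h2.mono.monotone hk
      linarith
    · have h6 : X 1 ω ≤ X k ω := h2.mono.monotone (by omega)
      linarith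
  · have hlim : Tendsto (fun e : ℝ => ENNReal.ofReal (p * q ^ 2 * e)) (𝓝[>] 0) (𝓝 0) := by
      have h1 : Tendsto (fun e : ℝ => ENNReal.ofReal (p * q ^ 2 * e)) (𝓝 0)
          (𝓝 (ENNReal.ofReal (p * q ^ 2 * 0))) :=
        (ENNReal.continuous_ofReal.comp (continuous_const.mul continuous_id)).tendsto 0
      rw [mul_zero, ENNReal.ofReal_zero] at h1
      exact h1.mono_left nhdsWithin_le_nhds
    refine le_antisymm (ge_of_tendsto hlim ?_) zero_le
    have hmem : Set.Ioo (0 : ℝ) s ∈ 𝓝[>] (0 : ℝ) := Ioo_mem_nhdsGT hs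
    filter_upwards [hmem] with e he
    have h2 := reflNu_pos hp h hQ hq (a := s - e) (b := s) (by linarith [he.2]) (by linarith [he.1])
    have h3 : p * q ^ 2 * (s - (s - e)) = p * q ^ 2 * e := by ring
    rw [h3] at h2
    rw [← h2]
    refine measure_mono ?_
    rintro x rfl
    exact ⟨by linarith [he.1], le_rfl⟩

theorem intensity {p : ℝ} (hp : p ∈ Set.Icc (0 : ℝ) 1) {Ω : Type*} [MeasurableSpace Ω]
    {P : Measure Ω} [IsProbabilityMeasure P] {X : ℤ → Ω → ℝ} {c : ℤ → Ω → Bool}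
    (h : IsColouredPoisson p P X c) {Q : ℝ → ℝ} {q : ℝ}
    (hQ : ∀ r, 0 < r → Tendsto (fun n => qq true n r p) atTop (𝓝 (Q r)))
    (hq : Tendsto Q atTop (𝓝 q)) {a b : ℝ} (hab : a ≤ b) :
    ∫⁻ ω, ({k | k ∈ unmatchedBlue (fun j => X j ω) (fun j => c j ω) ∧
        X k ω ∈ Set.Ioc a b}.encard : ENNReal) ∂P = ENNReal.ofReal (p * q ^ 2 * (b - a)) := by
  rw [reflNu_eq hp h measurableSet_Ioc]
  have hu : 0 ≤ p * q ^ 2 := mul_nonneg hp.1 (sq_nonneg q)
  have hneg : ∀ a b : ℝ, a ≤ b → b ≤ 0 →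
      reflNu P X c (Set.Ioc a b) = ENNReal.ofReal (p * q ^ 2 * (b - a)) := by
    intro a b hab hb
    rw [reflNu_reflect hp h measurableSet_Ioc]
    have hr := reflect h
    have hpre : (fun x : ℝ => -x) ⁻¹' (Set.Ioc a b) = Set.Ico (-b) (-a) := by
      ext x
      simp only [Set.mem_preimage, Set.mem_Ioc, Set.mem_Ico]
      constructor
      · rintro ⟨h1, h2⟩
        exact ⟨by linarith, by linarith⟩
      · rintro ⟨h1, h2⟩
        exact ⟨by linarith, by linarith⟩
    rw [hpre]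
    set ν := reflNu P (fun k ω => - X (1 - k) ω) (fun k ω => c (1 - k) ω) with hν
    have e1 : ν {-b} = 0 := reflNu_atom hp hr hQ hq (by linarith)
    have e2 : ν {-a} = 0 := reflNu_atom hp hr hQ hq (by linarith)
    have e3 : ν (Set.Ioc (-b) (-a)) = ENNReal.ofReal (p * q ^ 2 * (-a - -b)) :=
      reflNu_pos hp hr hQ hq (by linarith) (by linarith)
    have e4 : ν (Set.Ico (-b) (-a)) = ν (Set.Ioc (-b) (-a)) := by
      refine le_antisymm ?_ ?_
      · calc ν (Set.Ico (-b) (-a)) ≤ ν ({-b} ∪ Set.Ioc (-b) (-a)) := measure_mono (by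
              rintro x ⟨h1, h2⟩
              rcases h1.eq_or_lt with h3 | h3
              · exact Or.inl h3.symm
              · exact Or.inr ⟨h3, h2.le⟩)
          _ ≤ ν {-b} + ν (Set.Ioc (-b) (-a)) := measure_union_le _ _
          _ = ν (Set.Ioc (-b) (-a)) := by rw [e1, zero_add]
      · calc ν (Set.Ioc (-b) (-a)) ≤ ν ({-a} ∪ Set.Ico (-b) (-a)) := measure_mono (by
              rintro x ⟨h1, h2⟩
              rcases h2.eq_or_lt with h3 | h3
              · exact Or.inl h3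
              · exact Or.inr ⟨h1.le, h3⟩)
          _ ≤ ν {-a} + ν (Set.Ico (-b) (-a)) := measure_union_le _ _
          _ = ν (Set.Ico (-b) (-a)) := by rw [e2, zero_add]
    rw [e4, e3]
    congr 2
    ring
  rcases le_total 0 a with ha | ha
  · exact reflNu_pos hp h hQ hq ha hab
  · rcases le_total b 0 with hb | hb
    · exact hneg a b hab hb
    · rw [← Set.Ioc_union_Ioc_eq_Ioc ha hb, measure_union (Set.disjoint_left.mpr
        fun x hx hx' => absurd hx.2 (not_le.mpr hx'.1)) measurableSet_Ioc, hneg a 0 ha le_rfl,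
        reflNu_pos hp h hQ hq le_rfl hb,
        ← ENNReal.ofReal_add (mul_nonneg hu (by linarith)) (mul_nonneg hu (by linarith))]
      congr 1
      ring

end FB
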