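import Pool.Agent.Lib.MP_fb152f_pr.DatBe
import Pool.Agent.Lib.MP_fb152f_pr.Fin4
import Pool.Agent.Lib.MP_fb152f_pr.Reflect
import Pool.Agent.Lib.MP_fb152f_pr.Exist

/-!
# Final: assembly (60 minutes)

`exists_Q`: for `p ∈ [0,1]` the sequence `qq true n r p` converges for every `r > 0`
(`qq_cauchy`) to some `Q r p`, which is antitone in `r > 0` and in `[0, 1]`, hence has a limit
`q p` for `r → ∞`.

`u p = p * (q p)^2`.  With `p = sin t ^ 2`, `t = arcsin (sqrt p) ∈ I2`: `be n r t true =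
sin t * qq true n r p` (`be_eq`), so `X true r t = sin t * Q r p` (uniqueness of limits), `x t =
sin t * q p` and `x t ^ 2 = u p`.  `x_sq_strict` and strict monotonicity of
`p ↦ arcsin (sqrt p)` from `[0,1]` to `I2` give that `u` is strictly increasing on `[0, 1]`.
-/

set_option autoImplicit false

namespace FB

open MeasureTheory ProbabilityTheory Filter Topology

theorem exists_Q : ∃ (Q : ℝ → ℝ → ℝ) (q : ℝ → ℝ), ∀ p ∈ Set.Icc (0 : ℝ) 1,
    (∀ r, 0 < r → Tendsto (fun n => qq true n r p) atTop (𝓝 (Q r p))) ∧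
    Tendsto (fun r => Q r p) atTop (𝓝 (q p)) ∧ 0 ≤ q p := by
  have h1 : ∀ p ∈ Set.Icc (0 : ℝ) 1, ∀ r, 0 < r → ∃ y, 
      Tendsto (fun n => qq true n r p) atTop (𝓝 y) := by
    intro p hp r hr
    have hc : CauchySeq (fun n => qq true n r p) := by
      have h0 : 0 ≤ 1 - Real.exp (-r) := by
        have := Real.exp_le_one_iff.mpr (show -r ≤ 0 by linarith)
        linarith
      have h1 : 1 - Real.exp (-r) < 1 := by
        have := Real.exp_pos (-r)
        linarith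
      refine cauchySeq_of_le_tendsto_0 (fun n => (1 - Real.exp (-r)) ^ n) ?_
        (tendsto_pow_atTop_nhds_zero_of_lt_one h0 h1)
      intro n m N hn hm
      rw [Real.dist_eq]
      refine (qq_cauchy hp true n m hr).trans ?_
      exact pow_le_pow_of_le_one h0 h1.le (le_min hn hm)
    exact cauchySeq_tendsto_of_complete hc
  choose! Q hQ using h1
  have hQ0 : ∀ p ∈ Set.Icc (0 : ℝ) 1, ∀ r, 0 < r → 0 ≤ Q p r := by
    intro p hp r hr
    refine ge_of_tendsto' (hQ p hp r hr) ?_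
    intro n
    exact measureReal_nonneg
  have hanti : ∀ p ∈ Set.Icc (0 : ℝ) 1, ∀ r r', 0 < r → r ≤ r' → Q p r' ≤ Q p r := by
    intro p hp r r' hr hrr
    exact le_of_tendsto_of_tendsto' (hQ p hp r' (hr.trans_le hrr)) (hQ p hp r hr)
      (fun n => qq_anti hp true n hrr)
  have h2 : ∀ p ∈ Set.Icc (0 : ℝ) 1, ∃ y, Tendsto (fun r => Q p r) atTop (𝓝 y) ∧ 0 ≤ y := by
    intro p hp
    have ha : Antitone (fun r => Q p (max r 1)) := by
      intro r r' hrr
      exact hanti p hp _ _ (lt_max_of_lt_right one_pos) (max_le_max hrr le_rfl)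
    have hb : BddBelow (Set.range fun r => Q p (max r 1)) := by
      refine ⟨0, ?_⟩
      rintro _ ⟨r, rfl⟩
      exact hQ0 p hp _ (lt_max_of_lt_right one_pos)
    have ht := tendsto_atTop_ciInf ha hb
    have heq : (fun r => Q p (max r 1)) =ᶠ[atTop] fun r => Q p r := by
      filter_upwards [eventually_ge_atTop (1 : ℝ)] with r hr
      rw [max_eq_left hr]
    refine ⟨_, ht.congr' heq, ?_⟩
    exact le_ciInf fun r => hQ0 p hp _ (lt_max_of_lt_right one_pos)
  choose! q hq using h2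
  exact ⟨fun r p => Q p r, q, fun p hp => ⟨hQ p hp, (hq p hp).1, (hq p hp).2⟩⟩

theorem strict_u {Q : ℝ → ℝ → ℝ} {q : ℝ → ℝ} (h : ∀ p ∈ Set.Icc (0 : ℝ) 1,
    (∀ r, 0 < r → Tendsto (fun n => qq true n r p) atTop (𝓝 (Q r p))) ∧
    Tendsto (fun r => Q r p) atTop (𝓝 (q p)) ∧ 0 ≤ q p) :
    StrictMonoOn (fun p => p * q p ^ 2) (Set.Icc 0 1) := by
  obtain ⟨X, hX, hLD⟩ := exists_LD dat_be
  have hsin : ∀ t : ℝ, Real.sin t ^ 2 ∈ Set.Icc (0 : ℝ) 1 := fun t =>
    ⟨sq_nonneg _, Real.sin_sq_le_one t⟩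
  have hXQ : ∀ r, 0 < r → ∀ t ∈ I2, X true r t = Real.sin t * Q r (Real.sin t ^ 2) := by
    intro r hr t ht
    refine tendsto_nhds_unique (hX true r hr t ht) ?_
    have h3 := ((h _ (hsin t)).1 r hr).const_mul (Real.sin t)
    refine h3.congr ?_
    intro n
    show _ = be n r t true
    rw [be_eq]
    simp [v]
  have hx : ∀ t ∈ I2, Tendsto (fun r => X true r t) atTop
      (𝓝 (Real.sin t * q (Real.sin t ^ 2))) := by
    intro t ht
    have h3 := (h _ (hsin t)).2.1.const_mul (Real.sin t)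
    refine h3.congr' ?_
    filter_upwards [eventually_gt_atTop (0 : ℝ)] with r hr
    exact (hXQ r hr t ht).symm
  have hx0 : ∀ t ∈ I2, 0 ≤ Real.sin t * q (Real.sin t ^ 2) := by
    intro t ht
    refine mul_nonneg ?_ (h _ (hsin t)).2.2
    exact Real.sin_nonneg_of_mem_Icc ⟨ht.1, ht.2.trans (by linarith [Real.pi_pos])⟩
  have hs := x_sq_strict hLD (x := fun t => Real.sin t * q (Real.sin t ^ 2)) hx hx0
  intro p1 hp1 p2 hp2 h12
  have ht : ∀ p ∈ Set.Icc (0 : ℝ) 1, Real.arcsin (Real.sqrt p) ∈ I2 ∧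
      Real.sin (Real.arcsin (Real.sqrt p)) ^ 2 = p := by
    intro p hp
    refine ⟨⟨Real.arcsin_nonneg.mpr (Real.sqrt_nonneg p), Real.arcsin_le_pi_div_two _⟩, ?_⟩
    rw [Real.sin_arcsin (by linarith [Real.sqrt_nonneg p]) (Real.sqrt_le_one.mpr hp.2),
      Real.sq_sqrt hp.1]
  have hlt : Real.arcsin (Real.sqrt p1) < Real.arcsin (Real.sqrt p2) := by
    refine Real.strictMonoOn_arcsin ?_ ?_ (Real.sqrt_lt_sqrt hp1.1 h12)
    · exact ⟨by linarith [Real.sqrt_nonneg p1], Real.sqrt_le_one.mpr hp1.2⟩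
    · exact ⟨by linarith [Real.sqrt_nonneg p2], Real.sqrt_le_one.mpr hp2.2⟩
  have h4 := hs (ht p1 hp1).1 (ht p2 hp2).1 hlt
  simp only [mul_pow, (ht p1 hp1).2, (ht p2 hp2).2] at h4
  exact h4

/-- The main theorem: `u` is the intensity of the unmatched blue points. -/
theorem main : ∃ u : ℝ → ℝ,
    (∀ p ∈ Set.Icc (0 : ℝ) 1, 0 ≤ u p ∧
      (∃ (Ω : Type) (_ : MeasurableSpace Ω) (P : Measure Ω) (_ : IsProbabilityMeasure P)
        (X : ℤ → Ω → ℝ) (c : ℤ → Ω → Bool), IsColouredPoisson p P X c) ∧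
      ∀ (Ω : Type) (_ : MeasurableSpace Ω) (P : Measure Ω) (_ : IsProbabilityMeasure P)
        (X : ℤ → Ω → ℝ) (c : ℤ → Ω → Bool), IsColouredPoisson p P X c →
        (∀ᵐ ω ∂P, ∃! σ : ℤ → ℤ, IsStable (fun k => X k ω) (fun k => c k ω) σ) ∧
        ∀ a b : ℝ, a ≤ b →
          ∫⁻ ω, ({k | k ∈ unmatchedBlue (fun j => X j ω) (fun j => c j ω) ∧
            X k ω ∈ Set.Ioc a b}.encard : ENNReal) ∂P = ENNReal.ofReal (u p * (b - a))) ∧
    StrictMonoOn u (Set.Icc 0 1) := by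
  obtain ⟨Q, q, hQ⟩ := exists_Q
  refine ⟨fun p => p * q p ^ 2, ?_, strict_u hQ⟩
  intro p hp
  refine ⟨mul_nonneg hp.1 (sq_nonneg _), exists_process hp, ?_⟩
  intro Ω _ P _ X c h
  refine ⟨?_, ?_⟩
  · filter_upwards [ae_good hp h] with ω hω
    exact existsUnique_stable hω.1 _
  · intro a b hab
    exact intensity hp h (hQ p hp).1 (hQ p hp).2.1 hab

end FB
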