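import Pool.Agent.Lib.MP_fb152f_pr.ZDefs

/-!
# GapZ: positions and spacings (60 minutes)

* `pos_eq_pos`: for `K : ℕ`, `x (K + 1) = ∑_{i ≤ K} gap x (i + 1)` (induction; `gap x 1 = x 1`,
  `gap x (i + 1) = x (i + 1) - x i` for `i ≥ 1`).
* `pos_eq_neg`: for `K : ℕ`, `x (-K) = - ∑_{i ≤ K} gap x (-i)` (`gap x 0 = - x 0`,
  `gap x (-i) = x (-i + 1) - x (-i)` for `i ≥ 1`).
* `gap_jumps`: the differences `x (k + 1) - x k`: for `k ≥ 1` it is `gap x (k + 1)`, for `k ≤ -1`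
  it is `gap x k`, for `k = 0` it is `gap x 1 + gap x 0`.
* `strictMono_of_gap`: if all spacings are positive then `x` is strictly increasing
  (`strictMono_int_of_lt_succ`), and `x 0 < 0 < x 1`.
* `Lseq_eq`: `Lseq x c k = addGap (Lraw x c k) (k - 1) (gap x 0)` for `k ≥ 1`, i.e. for `k = K + 1`.
* `spos_Lraw`: `spos (Lraw x c (K + 1)) (K + 1) = x (K + 1)`.
* `Rseq_eq`: for `k ≥ 1`: `Rseq x c k i = (gap x (k + i + 1), c (k + i + 1))`.
-/

set_option autoImplicit false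

namespace FB

theorem gapz_one (x : ℤ → ℝ) : gap x 1 = x 1 := by
  unfold gap; simp

theorem gapz_zero (x : ℤ → ℝ) : gap x 0 = - x 0 := by
  unfold gap; simp

theorem gapz_pos (x : ℤ → ℝ) {k : ℤ} (hk : 1 < k) : gap x k = x k - x (k - 1) := by
  unfold gap
  rw [if_neg (by omega), if_neg (by omega), if_pos (by omega)]

theorem gapz_neg (x : ℤ → ℝ) {k : ℤ} (hk : k < 0) : gap x k = x (k + 1) - x k := by
  unfold gap
  rw [if_neg (by omega), if_neg (by omega), if_neg (by omega)]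

theorem gapz_succ (x : ℤ → ℝ) {k : ℤ} (hk : 1 ≤ k) : gap x (k + 1) = x (k + 1) - x k := by
  rw [gapz_pos x (by omega)]
  congr 2
  ring

theorem pos_eq_pos (x : ℤ → ℝ) (K : ℕ) :
    x ((K : ℤ) + 1) = ∑ i ∈ Finset.range (K + 1), gap x ((i : ℤ) + 1) := by
  induction K with
  | zero => simp [gapz_one]
  | succ K ih =>
    rw [Finset.sum_range_succ, ← ih]
    have h : gap x (((K + 1 : ℕ) : ℤ) + 1) = x (((K + 1 : ℕ) : ℤ) + 1) - x ((K : ℤ) + 1) := by
      have := gapz_succ x (k := (K : ℤ) + 1) (by omega)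
      push_cast
      exact this
    rw [h]
    ring

theorem pos_eq_neg (x : ℤ → ℝ) (K : ℕ) :
    x (-(K : ℤ)) = - ∑ i ∈ Finset.range (K + 1), gap x (-(i : ℤ)) := by
  induction K with
  | zero => simp [gapz_zero]
  | succ K ih =>
    rw [Finset.sum_range_succ, neg_add, ← ih]
    have h : gap x (-((K + 1 : ℕ) : ℤ)) = x (-(K : ℤ)) - x (-((K + 1 : ℕ) : ℤ)) := by
      rw [gapz_neg x (by push_cast; omega)]
      congr 2
      push_cast
      ring
    rw [h]
    ring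

theorem gap_jump (x : ℤ → ℝ) (k : ℤ) :
    x (k + 1) - x k = if k = 0 then gap x 1 + gap x 0 else
      if 0 < k then gap x (k + 1) else gap x k := by
  split_ifs with h1 h2
  · subst h1
    rw [gapz_one, gapz_zero]
    simp [sub_eq_add_neg]
  · rw [gapz_succ x (by omega)]
  · rw [gapz_neg x (by omega)]

theorem strictMono_of_gap {x : ℤ → ℝ} (h : ∀ k, 0 < gap x k) :
    StrictMono x ∧ x 0 < 0 ∧ 0 < x 1 := by
  refine ⟨strictMono_int_of_lt_succ fun k => ?_, ?_, ?_⟩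
  · have h1 := gap_jump x k
    have h2 : 0 < x (k + 1) - x k := by
      rw [h1]
      split_ifs
      · exact add_pos (h 1) (h 0)
      · exact h _
      · exact h _
    linarith
  · have := h 0
    rw [gapz_zero] at this
    linarith
  · have := h 1
    rwa [gapz_one] at this

theorem Lseq_eq (x : ℤ → ℝ) (c : ℤ → Bool) (K : ℕ) :
    Lseq x c ((K : ℤ) + 1) = addGap (Lraw x c ((K : ℤ) + 1)) K (gap x 0) := by
  funext i
  unfold addGap
  by_cases hi : i = K
  · subst hi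
    rw [Function.update_self]
    unfold Lseq Lraw
    have h1 : ((i : ℤ) < (i : ℤ) + 1) := by omega
    simp only [h1, if_true]
    have h2 : (i : ℤ) + 1 - i = 1 := by ring
    have h3 : (i : ℤ) + 1 - i - 1 = 0 := by ring
    have h4 : (i : ℤ) + 1 - 1 - i = 0 := by ring
    rw [h3, h2, h4, gapz_one, gapz_zero]
    refine Prod.ext ?_ rfl
    show x 1 - x 0 = x 1 + -x 0
    ring
  · rw [Function.update_of_ne hi]
    unfold Lseq Lraw
    have h5 : (K : ℤ) + 1 - i - 1 = (K : ℤ) + 1 - 1 - i := by ring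
    refine Prod.ext ?_ (by rw [h5])
    show x ((K : ℤ) + 1 - i) - x ((K : ℤ) + 1 - i - 1)
      = if (i : ℤ) < (K : ℤ) + 1 then gap x ((K : ℤ) + 1 - i) else gap x ((K : ℤ) + 1 - 1 - i)
    split_ifs with h6
    · rw [gapz_pos x (by omega)]
    · have h7 := gapz_neg x (k := (K : ℤ) + 1 - 1 - i) (by omega)
      rw [h7, h5]
      congr 2
      ring

theorem spos_Lraw (x : ℤ → ℝ) (c : ℤ → Bool) (K : ℕ) :
    spos (Lraw x c ((K : ℤ) + 1)) (K + 1) = x ((K : ℤ) + 1) := by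
  rw [pos_eq_pos x K]
  unfold spos
  rw [← Finset.sum_range_reflect]
  refine Finset.sum_congr rfl fun i hi => ?_
  rw [Finset.mem_range] at hi
  unfold Lraw
  have h1 : (((K + 1 - 1 - i : ℕ) : ℤ)) = (K : ℤ) - i := by omega
  show (if (((K + 1 - 1 - i : ℕ) : ℤ)) < (K : ℤ) + 1 then
      gap x ((K : ℤ) + 1 - ((K + 1 - 1 - i : ℕ) : ℤ)) else
      gap x ((K : ℤ) + 1 - 1 - ((K + 1 - 1 - i : ℕ) : ℤ))) = gap x ((i : ℤ) + 1)
  rw [h1, if_pos (by omega)]
  congr 1
  ring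

theorem Rseq_eq (x : ℤ → ℝ) (c : ℤ → Bool) {k : ℤ} (hk : 1 ≤ k) (i : ℕ) :
    Rseq x c k i = (gap x (k + i + 1), c (k + i + 1)) := by
  unfold Rseq
  rw [gapz_succ x (by omega)]

end FB
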