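import Pool.Agent.Lib.MP_fb152f_pr.GapZ
import Pool.Agent.Lib.MP_fb152f_pr.GenAE
import Pool.Agent.Lib.MP_fb152f_pr.SeqBe

/-!
# GoodAE: the Poisson configuration is good almost surely (90 minutes)

* all spacings are positive a.s. (law `expMeasure 1`), so `X` is strictly increasing
  (`strictMono_of_gap`) and `X 0 < 0 < X 1`;
* for `r : ℕ`, `n : ℤ`: a.s. there is `k ≥ n` with `gap k ≥ r` (independent events of probability
  `exp (-r) > 0`: the probability that none of `m` of them occurs is `(1 - exp (-r))^m → 0`), and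
  the differences `x (k+1) - x k` are spacings or at least a spacing (`gap_jump`); the same to
  the left;
* distinct distances: for `i < j` the distance `x j - x i` is `∑_{m ∈ J(i,j)} gap x m` with a finite
  set `J(i,j)` of indices which determines `(i, j)`: `{i+1..j}` for `1 ≤ i`, `{i..j-1}` for `j ≤ 0`,
  `{i..j}` for `i ≤ 0 < j`.  For a finite set `F` of indices the spacings with index in `F` are
  i.i.d. exponential, so by `ae_generic` (type `F`) sums over different subsets of `F` are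
  different a.s.; take all `F = Icc (-N) N`.
-/

set_option autoImplicit false

namespace FB

open MeasureTheory ProbabilityTheory

/-- the index of the jump to which the spacing number `m` belongs -/
def goodAE_del (m : ℤ) : ℤ := if 1 ≤ m then m - 1 else m

/-- the spacings of the jump number `k` -/
def goodAE_D (k : ℤ) : Finset ℤ := if k = 0 then {0, 1} else if 0 < k then {k + 1} else {k}

theorem goodAE_mem_D {k m : ℤ} : m ∈ goodAE_D k ↔ goodAE_del m = k := by
  unfold goodAE_D goodAE_del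
  split_ifs <;> simp only [Finset.mem_insert, Finset.mem_singleton] <;> omega

theorem goodAE_sum_D (x : ℤ → ℝ) (k : ℤ) : ∑ m ∈ goodAE_D k, gap x m = x (k + 1) - x k := by
  rw [gap_jump]
  unfold goodAE_D
  split_ifs
  · rw [Finset.sum_pair (by norm_num)]
    ring
  · rw [Finset.sum_singleton]
  · rw [Finset.sum_singleton]

/-- the spacings between the points `i` and `j` -/
noncomputable def goodAE_J (i j : ℤ) : Finset ℤ := (Finset.Ico i j).biUnion goodAE_D

theorem goodAE_mem_J {i j m : ℤ} : m ∈ goodAE_J i j ↔ i ≤ goodAE_del m ∧ goodAE_del m < j := by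
  unfold goodAE_J
  rw [Finset.mem_biUnion]
  constructor
  · rintro ⟨k, hk, hm⟩
    rw [goodAE_mem_D] at hm
    rw [hm]
    exact Finset.mem_Ico.mp hk
  · intro h
    exact ⟨goodAE_del m, Finset.mem_Ico.mpr h, goodAE_mem_D.mpr rfl⟩

theorem goodAE_telescope (x : ℤ → ℝ) {i j : ℤ} (h : i ≤ j) :
    ∑ k ∈ Finset.Ico i j, (x (k + 1) - x k) = x j - x i := by
  induction j, h using Int.leInduction with
  | base => simp
  | succ j hj ih =>
    have h1 : Finset.Ico i (j + 1) = insert j (Finset.Ico i j) := by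
      ext m
      rw [Finset.mem_insert, Finset.mem_Ico, Finset.mem_Ico]
      omega
    rw [h1, Finset.sum_insert (by simp), ih]
    ring

theorem goodAE_sum_J (x : ℤ → ℝ) {i j : ℤ} (h : i ≤ j) :
    ∑ m ∈ goodAE_J i j, gap x m = x j - x i := by
  unfold goodAE_J
  rw [Finset.sum_biUnion]
  · rw [← goodAE_telescope x h]
    exact Finset.sum_congr rfl fun k _ => goodAE_sum_D x k
  · intro k _ l _ hkl
    rw [Function.onFun, Finset.disjoint_left]
    intro m hm hm'
    rw [goodAE_mem_D] at hm hm'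
    exact hkl (hm.symm.trans hm')

theorem goodAE_J_inj {i j k l : ℤ} (hij : i < j) (hkl : k < l) (h : goodAE_J i j = goodAE_J k l) :
    i = k ∧ j = l := by
  have key : ∀ m : ℤ, (i ≤ goodAE_del m ∧ goodAE_del m < j) ↔
      (k ≤ goodAE_del m ∧ goodAE_del m < l) := by
    intro m
    rw [← goodAE_mem_J, ← goodAE_mem_J, h]
  have hsurj : ∀ t : ℤ, ∃ m, goodAE_del m = t := by
    intro t
    unfold goodAE_del
    by_cases ht : 0 < t
    · exact ⟨t + 1, by rw [if_pos (by omega)]; ring⟩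
    · exact ⟨t, by rw [if_neg (by omega)]⟩
  have key' : ∀ t : ℤ, (i ≤ t ∧ t < j) ↔ (k ≤ t ∧ t < l) := by
    intro t
    obtain ⟨m, rfl⟩ := hsurj t
    exact key m
  have a1 := key' i
  have a2 := key' k
  have a3 := key' (j - 1)
  have a4 := key' (l - 1)
  omega

theorem goodAE_J_sub {i j : ℤ} {N : ℤ} (h1 : -N ≤ i) (h2 : j < N) :
    goodAE_J i j ⊆ Finset.Icc (-N) N := by
  intro m hm
  rw [goodAE_mem_J] at hm
  rw [Finset.mem_Icc]
  unfold goodAE_del at hm
  split_ifs at hm <;> omega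

/-- distinct distances from generic spacings -/
theorem goodAE_distinct {x : ℤ → ℝ}
    (hgen : ∀ N : ℕ, Generic (fun k : {k : ℤ // k ∈ Finset.Icc (-(N : ℤ)) N} => gap x k))
    (i j k l : ℤ) (hij : i < j) (hkl : k < l) (h : x j - x i = x l - x k) : i = k ∧ j = l := by
  obtain ⟨N, hN⟩ : ∃ N : ℕ, -(N : ℤ) ≤ i ∧ j < N ∧ -(N : ℤ) ≤ k ∧ l < N := by
    refine ⟨(max (max |i| |j|) (max |k| |l|) + 1).toNat, ?_⟩
    have h0 : 0 ≤ max (max |i| |j|) (max |k| |l|) + 1 := by positivity
    rw [Int.toNat_of_nonneg h0]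
    have b1 : |i| ≤ max (max |i| |j|) (max |k| |l|) := (le_max_left _ _).trans (le_max_left _ _)
    have b2 : |j| ≤ max (max |i| |j|) (max |k| |l|) := (le_max_right _ _).trans (le_max_left _ _)
    have b3 : |k| ≤ max (max |i| |j|) (max |k| |l|) := (le_max_left _ _).trans (le_max_right _ _)
    have b4 : |l| ≤ max (max |i| |j|) (max |k| |l|) := (le_max_right _ _).trans (le_max_right _ _)
    have c1 := neg_abs_le i
    have c2 := le_abs_self j
    have c3 := neg_abs_le k
    have c4 := le_abs_self l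
    omega
  obtain ⟨h1, h2, h3, h4⟩ := hN
  have hs : ∀ a b : ℤ, a ≤ b → -(N : ℤ) ≤ a → b < N →
      slen (fun k : {k : ℤ // k ∈ Finset.Icc (-(N : ℤ)) N} => gap x k)
        ((goodAE_J a b).subtype (fun k => k ∈ Finset.Icc (-(N : ℤ)) N)) = x b - x a := by
    intro a b hab ha hb
    unfold slen
    have e := Finset.sum_subtype_eq_sum_filter (s := goodAE_J a b)
      (p := fun k => k ∈ Finset.Icc (-(N : ℤ)) N) (f := fun m => gap x m)
    rw [e, Finset.filter_true_of_mem (fun m hm => goodAE_J_sub ha hb hm), goodAE_sum_J x hab]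
  have e1 := hs i j hij.le h1 h2
  have e2 := hs k l hkl.le h3 h4
  have e3 := (hgen N).2 (e1.trans (h.trans e2.symm))
  apply goodAE_J_inj hij hkl
  ext m
  have e4 : ∀ hm : m ∈ Finset.Icc (-(N : ℤ)) N, (m ∈ goodAE_J i j ↔ m ∈ goodAE_J k l) := by
    intro hm
    have := Finset.ext_iff.mp e3 ⟨m, hm⟩
    rwa [Finset.mem_subtype, Finset.mem_subtype] at this
  constructor
  · intro hm
    exact (e4 (goodAE_J_sub h1 h2 hm)).mp hm
  · intro hm
    exact (e4 (goodAE_J_sub h3 h4 hm)).mpr hm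

section prob

variable {p : ℝ} {Ω : Type*} [MeasurableSpace Ω] {P : Measure Ω} [IsProbabilityMeasure P]
  {X : ℤ → Ω → ℝ} {c : ℤ → Ω → Bool}

theorem goodAE_gap_meas (hX : ∀ k, Measurable (X k)) (k : ℤ) :
    Measurable (fun ω => gap (fun j => X j ω) k) := by
  unfold gap
  split_ifs
  · exact (hX 0).neg
  · exact hX 1
  · exact (hX _).sub (hX _)
  · exact (hX _).sub (hX _)

theorem goodAE_gap_law (hp : p ∈ Set.Icc (0 : ℝ) 1) (h : IsColouredPoisson p P X c) (k : ℤ) :
    P.map (fun ω => gap (fun j => X j ω) k) = expMeasure 1 := by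
  have := isProb_colourLaw hp
  have h1 : (fun ω => gap (fun j => X j ω) k) =
      Prod.fst ∘ (fun ω => (gap (fun j => X j ω) k, c k ω)) := rfl
  rw [h1, ← Measure.map_map measurable_fst ((goodAE_gap_meas h.measX k).prodMk (h.measc k)), h.law k]
  unfold stepLaw
  rw [Measure.map_fst_prod, measure_univ, one_smul]

theorem goodAE_indep (h : IsColouredPoisson p P X c) :
    iIndepFun (fun (k : ℤ) (ω : Ω) => gap (fun j => X j ω) k) P :=
  h.indep.comp (fun _ => Prod.fst) (fun _ => measurable_fst)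

theorem goodAE_generic (hp : p ∈ Set.Icc (0 : ℝ) 1) (h : IsColouredPoisson p P X c) :
    ∀ᵐ ω ∂P, ∀ N : ℕ, Generic (fun k : {k : ℤ // k ∈ Finset.Icc (-(N : ℤ)) N} =>
      gap (fun j => X j ω) k) := by
  rw [ae_all_iff]
  intro N
  have hind : iIndepFun (fun (k : {k : ℤ // k ∈ Finset.Icc (-(N : ℤ)) N}) (ω : Ω) =>
      gap (fun j => X j ω) k) P := (goodAE_indep h).precomp Subtype.val_injective
  have hm : ∀ k : {k : ℤ // k ∈ Finset.Icc (-(N : ℤ)) N}, Measurable (fun ω =>
      gap (fun j => X j ω) (k : ℤ)) := fun k => goodAE_gap_meas h.measX k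
  have hlaw : P.map (fun ω (k : {k : ℤ // k ∈ Finset.Icc (-(N : ℤ)) N}) =>
      gap (fun j => X j ω) (k : ℤ)) = expPi {k : ℤ // k ∈ Finset.Icc (-(N : ℤ)) N} := by
    rw [(iIndepFun_iff_map_fun_eq_pi_map (fun k => (hm k).aemeasurable)).mp hind]
    unfold expPi
    congr 1
    funext k
    exact goodAE_gap_law hp h k
  have h1 := ae_generic {k : ℤ // k ∈ Finset.Icc (-(N : ℤ)) N}
  rw [← hlaw] at h1
  exact ae_of_ae_map (measurable_pi_lambda _ hm).aemeasurable h1

theorem goodAE_lt_one (r : ℝ) : expMeasure 1 (Set.Iio r) < 1 := by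
  have h1 : expMeasure 1 (Set.Iio r) ≤ expMeasure 1 (Set.Iic r) :=
    measure_mono Set.Iio_subset_Iic_self
  refine lt_of_le_of_lt h1 ?_
  rw [← ofReal_cdf, cdf_expMeasure_eq one_pos]
  have h2 := Real.exp_pos (-(1 * r))
  split_ifs
  · rw [ENNReal.ofReal_lt_one]
    linarith
  · simp

/-- infinitely many large spacings along an injective sequence of indices -/
theorem goodAE_large (hp : p ∈ Set.Icc (0 : ℝ) 1) (h : IsColouredPoisson p P X c) {e : ℕ → ℤ}
    (he : Function.Injective e) :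
    ∀ᵐ ω ∂P, ∀ R N : ℕ, ∃ i, N ≤ i ∧ (R : ℝ) ≤ gap (fun j => X j ω) (e i) := by
  rw [ae_all_iff]
  intro R
  rw [ae_all_iff]
  intro N
  have hind : iIndepFun (fun (i : ℕ) (ω : Ω) => gap (fun j => X j ω) (e i)) P :=
    (goodAE_indep h).precomp he
  have hρ := goodAE_lt_one (R : ℝ)
  have hb : ∀ m : ℕ, P {ω | ¬ ∃ i, N ≤ i ∧ (R : ℝ) ≤ gap (fun j => X j ω) (e i)} ≤
      (expMeasure 1 (Set.Iio (R : ℝ))) ^ m := by
    intro m
    have h1 := hind.measure_inter_preimage_eq_mul (Finset.Ico N (N + m))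
      (sets := fun _ => Set.Iio (R : ℝ)) (fun i _ => measurableSet_Iio)
    have h2 : ∀ i : ℕ, P ((fun ω => gap (fun j => X j ω) (e i)) ⁻¹' Set.Iio (R : ℝ)) =
        expMeasure 1 (Set.Iio (R : ℝ)) := by
      intro i
      rw [← Measure.map_apply (goodAE_gap_meas h.measX _) measurableSet_Iio,
        goodAE_gap_law hp h]
    simp only [h2, Finset.prod_const, Nat.card_Ico, Nat.add_sub_cancel_left] at h1
    rw [← h1]
    apply measure_mono
    intro ω hω
    rw [Set.mem_iInter₂]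
    intro i hi
    show gap (fun j => X j ω) (e i) < R
    by_contra hcon
    push Not at hcon
    exact hω ⟨i, (Finset.mem_Ico.mp hi).1, hcon⟩
  have h0 : P {ω | ¬ ∃ i, N ≤ i ∧ (R : ℝ) ≤ gap (fun j => X j ω) (e i)} ≤ 0 :=
    ge_of_tendsto' (ENNReal.tendsto_pow_atTop_nhds_zero_of_lt_one hρ) hb
  exact le_antisymm h0 bot_le

end prob

theorem ae_good {p : ℝ} (hp : p ∈ Set.Icc (0 : ℝ) 1) {Ω : Type*} [MeasurableSpace Ω]
    {P : Measure Ω} [IsProbabilityMeasure P] {X : ℤ → Ω → ℝ} {c : ℤ → Ω → Bool}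
    (h : IsColouredPoisson p P X c) :
    ∀ᵐ ω ∂P, GoodZ (fun k => X k ω) ∧ X 0 ω < 0 ∧ 0 < X 1 ω := by
  filter_upwards [goodAE_generic hp h,
    goodAE_large hp h (e := fun i => (i : ℤ) + 2) (fun a b hab => by
      have : (a : ℤ) + 2 = (b : ℤ) + 2 := hab
      omega),
    goodAE_large hp h (e := fun i => -((i : ℤ) + 1)) (fun a b hab => by
      have : -((a : ℤ) + 1) = -((b : ℤ) + 1) := hab
      omega)] with ω h1 h2 h3
  have hpos : ∀ k : ℤ, 0 < gap (fun j => X j ω) k := by
    intro k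
    have hk : k ∈ Finset.Icc (-((k.natAbs : ℕ) : ℤ)) (k.natAbs : ℕ) := by
      rw [Finset.mem_Icc]
      omega
    exact (h1 k.natAbs).1 ⟨k, hk⟩
  obtain ⟨hmono, h0, h1'⟩ := strictMono_of_gap hpos
  refine ⟨⟨hmono, ?_, ?_, goodAE_distinct h1⟩, h0, h1'⟩
  · intro r n
    obtain ⟨R, hR⟩ := exists_nat_ge r
    obtain ⟨i, hi, hRi⟩ := h2 R n.toNat
    refine ⟨(i : ℤ) + 1, ?_, ?_⟩
    · have := Int.self_le_toNat n
      omega
    · have hj := gap_jump (fun j => X j ω) ((i : ℤ) + 1)
      rw [if_neg (by omega), if_pos (by omega)] at hj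
      show r ≤ X ((i : ℤ) + 1 + 1) ω - X ((i : ℤ) + 1) ω
      rw [hj]
      have e : (i : ℤ) + 1 + 1 = (i : ℤ) + 2 := by ring
      rw [e]
      exact hR.trans hRi
  · intro r n
    obtain ⟨R, hR⟩ := exists_nat_ge r
    obtain ⟨i, hi, hRi⟩ := h3 R (-n).toNat
    refine ⟨-((i : ℤ) + 1), ?_, ?_⟩
    · have := Int.self_le_toNat (-n)
      omega
    · have hj := gap_jump (fun j => X j ω) (-((i : ℤ) + 1))
      rw [if_neg (by omega), if_neg (by omega)] at hj
      show r ≤ X (-((i : ℤ) + 1) + 1) ω - X (-((i : ℤ) + 1)) ω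
      rw [hj]
      exact hR.trans hRi

end FB
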