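import Pool.Agent.Lib.MP_fb152f_pr.StabA

/-!
# StabB: existence and uniqueness of the stable matching (90 minutes)
-/

set_option autoImplicit false

namespace FB

open Filter

theorem stabb_dist_inj {x : ℤ → ℝ} (hx : GoodZ x) {k j j' : ℤ} (hj : j ≠ k) (hj' : j' ≠ k)
    (h : |x k - x j| = |x k - x j'|) : j = j' := by
  rcases lt_or_gt_of_ne hj with h1 | h1 <;> rcases lt_or_gt_of_ne hj' with h2 | h2
  · have e1 := hx.mono h1
    have e2 := hx.mono h2
    rw [abs_of_pos (by linarith), abs_of_pos (by linarith)] at h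
    exact (hx.distinct j k j' k h1 h2 h).1
  · have e1 := hx.mono h1
    have e2 := hx.mono h2
    rw [abs_of_pos (by linarith), abs_of_neg (by linarith)] at h
    exact absurd (hx.distinct j k k j' h1 h2 (by linarith)).1 hj
  · have e1 := hx.mono h1
    have e2 := hx.mono h2
    rw [abs_of_neg (by linarith), abs_of_pos (by linarith)] at h
    exact absurd (hx.distinct k j j' k h1 h2 (by linarith)).2 hj
  · have e1 := hx.mono h1
    have e2 := hx.mono h2
    rw [abs_of_neg (by linarith), abs_of_neg (by linarith)] at h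
    exact (hx.distinct k j k j' h1 h2 (by linarith)).2

theorem stabb_rec {x : ℤ → ℝ} (hx : GoodZ x) {c : ℤ → Bool} {σ : ℤ → ℤ}
    (hσ : IsStable x c σ) (r : ℝ) (k : ℤ) :
    (σ k = k ∨ r ≤ |x k - x (σ k)|) ↔ ∀ j : ℤ, j ≠ k → Compat (c k) (c j) → |x k - x j| < r →
      ¬ ((σ k = k ∨ |x k - x j| ≤ |x k - x (σ k)|) ∧
        (σ j = j ∨ |x k - x j| ≤ |x j - x (σ j)|)) := by
  constructor
  · intro hA j hjk hc hd hcon
    have hkj : σ k ≠ j := by
      intro h
      rcases hA with h1 | h1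
      · exact hjk (h.symm.trans h1)
      · rw [h] at h1
        exact absurd hd (not_lt.mpr h1)
    refine hσ.noblock k j hjk.symm hc hkj ⟨?_, ?_⟩
    · rcases hcon.1 with h1 | h1
      · exact Or.inl h1
      · by_cases h2 : σ k = k
        · exact Or.inl h2
        · refine Or.inr ?_
          rw [Real.dist_eq, Real.dist_eq]
          exact lt_of_le_of_ne h1 fun he => hkj (stabb_dist_inj hx hjk h2 he).symm
    · rcases hcon.2 with h1 | h1
      · exact Or.inl h1
      · by_cases h2 : σ j = j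
        · exact Or.inl h2
        · refine Or.inr ?_
          rw [Real.dist_eq, Real.dist_eq, abs_sub_comm (x j) (x k)]
          refine lt_of_le_of_ne h1 fun he => ?_
          rw [abs_sub_comm (x k) (x j)] at he
          have h3 := stabb_dist_inj hx hjk.symm h2 he
          apply hkj
          rw [h3]
          exact hσ.invol j
  · intro h
    by_contra hcon
    push Not at hcon
    obtain ⟨h1, h2⟩ := hcon
    refine h (σ k) h1 (hσ.compat k h1) h2 ⟨Or.inr le_rfl, Or.inr ?_⟩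
    rw [hσ.invol k, abs_sub_comm]

theorem stable_alive {x : ℤ → ℝ} (hx : GoodZ x) {c : ℤ → Bool} {σ : ℤ → ℤ}
    (hσ : IsStable x c σ) (r : ℝ) (k : ℤ) :
    (σ k = k ∨ r ≤ |x k - x (σ k)|) ↔ aliveZ x c r k := by
  obtain ⟨a0, b0, h1, h2, hfar⟩ := cluster hx r k
  have hk : k ∈ Finset.Icc a0 b0 := Finset.mem_Icc.mpr ⟨h1, h2⟩
  rw [aliveZ_iff_of_cluster c hfar le_rfl hk]
  refine alive_unique (A := fun r k => σ k = k ∨ r ≤ |x k - x (σ k)|) (r0 := r) ?_ r le_rfl k hk
  intro r' hr' i hi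
  show (σ i = i ∨ r' ≤ |x i - x (σ i)|) ↔ _
  rw [stabb_rec hx hσ r' i]
  constructor
  · intro h j _ hji hc hd
    exact h j hji hc hd
  · intro h j hji hc hd
    by_cases hj : j ∈ Finset.Icc a0 b0
    · exact h j hj hji hc hd
    · exact absurd (hr'.trans (hfar i hi j hj)) (not_le.mpr hd)

theorem exists_stable {x : ℤ → ℝ} (hx : GoodZ x) (c : ℤ → Bool) :
    ∃ σ : ℤ → ℤ, IsStable x c σ := by
  classical
  let M : ℤ → ℤ → Prop := fun k j => j ≠ k ∧ Compat (c k) (c j) ∧
    aliveZ x c |x k - x j| k ∧ aliveZ x c |x k - x j| j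
  have hcomp : ∀ k j : ℤ, Compat (c k) (c j) → Compat (c j) (c k) := by
    intro k j h h'
    exact h ⟨h'.2, h'.1⟩
  have hsymm : ∀ k j, M k j → M j k := by
    intro k j h
    refine ⟨h.1.symm, hcomp k j h.2.1, ?_, ?_⟩
    · rw [abs_sub_comm]
      exact h.2.2.2
    · rw [abs_sub_comm]
      exact h.2.2.1
  have hlt : ∀ k j j', M k j → M k j' → ¬ |x k - x j| < |x k - x j'| := by
    intro k j j' h h' hd
    exact (aliveZ_rec hx c _ k).1 h'.2.2.1 j h.1 h.2.1 hd h.2.2
  have huniq : ∀ k j j', M k j → M k j' → j = j' := by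
    intro k j j' h h'
    refine stabb_dist_inj hx h.1 h'.1 (le_antisymm ?_ ?_)
    · exact not_lt.mp (hlt k j' j h' h)
    · exact not_lt.mp (hlt k j j' h h')
  let σ : ℤ → ℤ := fun k => if h : ∃ j, M k j then h.choose else k
  have hσ1 : ∀ k j, M k j → σ k = j := by
    intro k j h
    have he : ∃ j, M k j := ⟨j, h⟩
    have : σ k = he.choose := dif_pos he
    rw [this]
    exact huniq k _ _ he.choose_spec h
  have hσ2 : ∀ k, σ k ≠ k → M k (σ k) := by
    intro k h
    by_cases he : ∃ j, M k j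
    · obtain ⟨j, hj⟩ := he
      rw [hσ1 k j hj]
      exact hj
    · exact absurd (dif_neg he) h
  refine ⟨σ, ⟨fun k => ?_, fun k hk => (hσ2 k hk).2.1, ?_⟩⟩
  · by_cases h : σ k = k
    · rw [h, h]
    · exact hσ1 _ _ (hsymm _ _ (hσ2 k h))
  · have hside : ∀ i j : ℤ, ¬ aliveZ x c |x i - x j| i →
        ¬ (σ i = i ∨ dist (x i) (x j) < dist (x i) (x (σ i))) := by
      intro i j h
      rw [aliveZ_rec hx] at h
      push Not at h
      obtain ⟨j', h1, h2, h3, h4, h5⟩ := h
      have h6 : σ i = j' := hσ1 i j' ⟨h1, h2, h4, h5⟩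
      rw [h6, Real.dist_eq, Real.dist_eq]
      rintro (h7 | h7)
      · exact h1 h7
      · exact absurd h3 (not_lt.mpr h7.le)
    intro i j hij hc hne hcon
    by_cases hi : aliveZ x c |x i - x j| i
    · by_cases hj : aliveZ x c |x i - x j| j
      · exact hne (hσ1 i j ⟨hij.symm, hc, hi, hj⟩)
      · rw [abs_sub_comm] at hj
        exact hside j i hj hcon.2
    · exact hside i j hi hcon.1

theorem existsUnique_stable {x : ℤ → ℝ} (hx : GoodZ x) (c : ℤ → Bool) :
    ∃! σ : ℤ → ℤ, IsStable x c σ := by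
  obtain ⟨σ, hσ⟩ := exists_stable hx c
  refine ⟨σ, hσ, fun τ hτ => ?_⟩
  have key : ∀ (r : ℝ) (k : ℤ), (τ k = k ∨ r ≤ |x k - x (τ k)|) ↔
      (σ k = k ∨ r ≤ |x k - x (σ k)|) := fun r k =>
    (stable_alive hx hτ r k).trans (stable_alive hx hσ r k).symm
  have aux : ∀ (s t : ℤ → ℤ), (∀ (r : ℝ) (k : ℤ), (t k = k ∨ r ≤ |x k - x (t k)|) ↔
      (s k = k ∨ r ≤ |x k - x (s k)|)) → ∀ k, s k = k → t k = k := by
    intro s t hst k hk
    have h1 := (hst (|x k - x (t k)| + 1) k).2 (Or.inl hk)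
    rcases h1 with h1 | h1
    · exact h1
    · linarith
  funext k
  by_cases hk : σ k = k
  · rw [hk]
    exact aux σ τ key k hk
  · have hk' : τ k ≠ k := fun h => hk (aux τ σ (fun r k => (key r k).symm) k h)
    refine stabb_dist_inj hx hk' hk (le_antisymm ?_ ?_)
    · rcases (key |x k - x (τ k)| k).1 (Or.inr le_rfl) with h | h
      · exact absurd h hk
      · exact h
    · rcases (key |x k - x (σ k)| k).2 (Or.inr le_rfl) with h | h
      · exact absurd h hk'
      · exact h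

theorem unmatched_iff {x : ℤ → ℝ} (hx : GoodZ x) (c : ℤ → Bool) (k : ℤ) :
    k ∈ unmatchedBlue x c ↔ c k = true ∧ ∀ r : ℕ, aliveZ x c r k := by
  constructor
  · rintro ⟨h1, σ, hσ, hk⟩
    exact ⟨h1, fun r => (stable_alive hx hσ r k).1 (Or.inl hk)⟩
  · rintro ⟨h1, h2⟩
    obtain ⟨σ, hσ⟩ := exists_stable hx c
    refine ⟨h1, σ, hσ, ?_⟩
    obtain ⟨m, hm⟩ := exists_nat_gt |x k - x (σ k)|
    rcases (stable_alive hx hσ m k).2 (h2 m) with h | h
    · exact h
    · exact absurd hm (not_lt.mpr h)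

end FB
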