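import Pool.Agent.Lib.MP_fb152f_pr.WinK
import Pool.Agent.Lib.MP_fb152f_pr.StabB

/-!
# Inten: the intensity on `(0, L]` (90 minutes)

Let `qq true n r p → Q r` for `n → ∞` (`r > 0`) and `Q r → q` for `r → ∞`.
By `win_sum` for the window of radius `n`, then `n → ∞` for fixed `r : ℕ`, `r ≥ 1`: for every `K` the
event for radius `n` converges to the event with `aliveZ x c r k` (`aliveZ_stab`: the indicators
are eventually equal, a.s.), dominated by `P (X_k ≤ L, c_k = blue)`, whose sum over `K` is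
`p L < ∞` (this is `win_sum` with `n = 0`, where `alive` is trivial: a window with one point,
`qq _ 0 _ _ = 1`).  So `∑_K P (X_k ≤ L, c_k = blue, aliveZ r k) = p L Q(r)^2`; then `r → ∞`
(events decreasing in `r`): `∑_K P (X_k ≤ L, c_k = blue, ∀ r, aliveZ r k) = p L q^2`.
By `unmatched_iff` (a.s. `GoodZ`) the expected number of `k` with `k ∈ unmatchedBlue`, `X_k ∈ (0, L]`
is this sum (`X_k ∈ (0, L]` a.s. implies `k ≥ 1`; `encard` of a set of indices is the sum of the
indicators, `∫⁻ ∑' = ∑' ∫⁻`).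
-/

set_option autoImplicit false

namespace FB

open MeasureTheory ProbabilityTheory Filter Topology

/-- dominated convergence for sums -/
theorem inten_tsum {F : ℕ → ℕ → ENNReal} {f D : ℕ → ENNReal} (hD : ∑' K, D K ≠ ⊤)
    (hF : ∀ n K, F n K ≤ D K) (hlim : ∀ K, Tendsto (fun n => F n K) atTop (𝓝 (f K))) :
    Tendsto (fun n => ∑' K, F n K) atTop (𝓝 (∑' K, f K)) := by
  have h := tendsto_lintegral_of_dominated_convergence (μ := Measure.count) (F := F) (f := f) D
    (fun n => measurable_of_countable _) (fun n => Filter.Eventually.of_forall (hF n))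
    (by rw [lintegral_count]; exact hD) (Filter.Eventually.of_forall hlim)
  simp only [lintegral_count] at h
  exact h

section sets

variable {Ω : Type*} [MeasurableSpace Ω]

/-- the event for the window -/
def intenA (X : ℤ → Ω → ℝ) (c : ℤ → Ω → Bool) (L : ℝ) (n : ℕ) (r : ℝ) (K : ℕ) : Set Ω :=
  {ω | X ((K : ℤ) + 1) ω ≤ L ∧ c ((K : ℤ) + 1) ω = true ∧
    alive (fun j => X j ω) (fun j => c j ω) (winZ ((K : ℤ) + 1) n) r ((K : ℤ) + 1)}

/-- the event for the whole line -/
def intenB (X : ℤ → Ω → ℝ) (c : ℤ → Ω → Bool) (L r : ℝ) (K : ℕ) : Set Ω :=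
  {ω | X ((K : ℤ) + 1) ω ≤ L ∧ c ((K : ℤ) + 1) ω = true ∧
    aliveZ (fun j => X j ω) (fun j => c j ω) r ((K : ℤ) + 1)}

/-- the event for all levels -/
def intenC (X : ℤ → Ω → ℝ) (c : ℤ → Ω → Bool) (L : ℝ) (K : ℕ) : Set Ω :=
  {ω | X ((K : ℤ) + 1) ω ≤ L ∧ c ((K : ℤ) + 1) ω = true ∧
    ∀ r : ℕ, aliveZ (fun j => X j ω) (fun j => c j ω) r ((K : ℤ) + 1)}

theorem intenA_meas {X : ℤ → Ω → ℝ} {c : ℤ → Ω → Bool} (hX : ∀ k, Measurable (X k))
    (hc : ∀ k, Measurable (c k)) (L : ℝ) (n : ℕ) (r : ℝ) (K : ℕ) :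
    MeasurableSet (intenA X c L n r K) := by
  have h1 : MeasurableSet {ω | X ((K : ℤ) + 1) ω ≤ L} := measurableSet_le (hX _) measurable_const
  have h2 : MeasurableSet {ω | c ((K : ℤ) + 1) ω = true} :=
    hc ((K : ℤ) + 1) (measurableSet_singleton true)
  have h3 : MeasurableSet {ω | alive (fun j => X j ω) (fun j => c j ω) (winZ ((K : ℤ) + 1) n) r
      ((K : ℤ) + 1)} :=
    measurableSet_alive (x := fun ω j => X j ω) (c := fun ω j => c j ω) (R := fun _ => r)
      hX hc measurable_const _ _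
  exact h1.inter (h2.inter h3)

theorem inten_aliveZ_meas {X : ℤ → Ω → ℝ} {c : ℤ → Ω → Bool} (hX : ∀ k, Measurable (X k))
    (hc : ∀ k, Measurable (c k)) (r : ℝ) (k : ℤ) :
    MeasurableSet {ω | aliveZ (fun j => X j ω) (fun j => c j ω) r k} := by
  have h : {ω | aliveZ (fun j => X j ω) (fun j => c j ω) r k} = ⋃ N : ℕ, ⋂ n : ℕ, ⋂ (_ : N ≤ n),
      {ω | alive (fun j => X j ω) (fun j => c j ω) (winZ k n) r k} := by
    ext ω
    simp only [Set.mem_iUnion, Set.mem_iInter]
    exact eventually_atTop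
  rw [h]
  exact MeasurableSet.iUnion fun N => MeasurableSet.iInter fun n => MeasurableSet.iInter fun _ =>
    measurableSet_alive (x := fun ω j => X j ω) (c := fun ω j => c j ω) (R := fun _ => r)
      hX hc measurable_const _ _

theorem intenB_meas {X : ℤ → Ω → ℝ} {c : ℤ → Ω → Bool} (hX : ∀ k, Measurable (X k))
    (hc : ∀ k, Measurable (c k)) (L r : ℝ) (K : ℕ) : MeasurableSet (intenB X c L r K) := by
  have h1 : MeasurableSet {ω | X ((K : ℤ) + 1) ω ≤ L} := measurableSet_le (hX _) measurable_const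
  have h2 : MeasurableSet {ω | c ((K : ℤ) + 1) ω = true} :=
    hc ((K : ℤ) + 1) (measurableSet_singleton true)
  exact h1.inter (h2.inter (inten_aliveZ_meas hX hc r _))

theorem intenC_meas {X : ℤ → Ω → ℝ} {c : ℤ → Ω → Bool} (hX : ∀ k, Measurable (X k))
    (hc : ∀ k, Measurable (c k)) (L : ℝ) (K : ℕ) : MeasurableSet (intenC X c L K) := by
  have h1 : MeasurableSet {ω | X ((K : ℤ) + 1) ω ≤ L} := measurableSet_le (hX _) measurable_const
  have h2 : MeasurableSet {ω | c ((K : ℤ) + 1) ω = true} :=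
    hc ((K : ℤ) + 1) (measurableSet_singleton true)
  have h3 : MeasurableSet {ω | ∀ r : ℕ, aliveZ (fun j => X j ω) (fun j => c j ω) r
      ((K : ℤ) + 1)} := by
    rw [Set.ofPred_forall]
    exact MeasurableSet.iInter fun r : ℕ => inten_aliveZ_meas hX hc (r : ℝ) _
  exact h1.inter (h2.inter h3)

theorem inten_alive_zero (x : ℤ → ℝ) (c : ℤ → Bool) (r : ℝ) (k : ℤ) :
    alive x c (winZ k 0) r k := by
  have h : winZ k 0 = {k} := by
    unfold winZ
    simp
  unfold alive
  rw [h]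
  simp only [Finset.card_singleton, one_pow]
  intro j hj hne
  exact absurd (Finset.mem_singleton.mp hj) hne

theorem inten_count {x : ℤ → ℝ} (hx : GoodZ x) (h0 : x 0 < 0) (h1 : 0 < x 1) (c : ℤ → Bool)
    (L : ℝ) : ({k | k ∈ unmatchedBlue x c ∧ x k ∈ Set.Ioc 0 L}.encard : ENNReal) =
      ∑' K : ℕ, Set.indicator {K : ℕ | x ((K : ℤ) + 1) ≤ L ∧ c ((K : ℤ) + 1) = true ∧
        ∀ r : ℕ, aliveZ x c r ((K : ℤ) + 1)} (fun _ => (1 : ENNReal)) K := by
  set S : Set ℕ := {K : ℕ | x ((K : ℤ) + 1) ≤ L ∧ c ((K : ℤ) + 1) = true ∧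
    ∀ r : ℕ, aliveZ x c r ((K : ℤ) + 1)} with hS
  have himg : {k | k ∈ unmatchedBlue x c ∧ x k ∈ Set.Ioc 0 L} =
      (fun K : ℕ => (K : ℤ) + 1) '' S := by
    ext k
    constructor
    · rintro ⟨hk1, hk2, hk3⟩
      have hk : 0 < k := by
        by_contra hcon
        push Not at hcon
        have := hx.mono.monotone hcon
        linarith
      obtain ⟨h2, h3⟩ := (unmatched_iff hx c k).mp hk1
      refine ⟨(k - 1).toNat, ?_, ?_⟩
      · have e : (((k - 1).toNat : ℕ) : ℤ) + 1 = k := by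
          rw [Int.toNat_of_nonneg (by omega)]
          ring
        rw [hS]
        simp only [Set.mem_ofPred_eq]
        rw [e]
        exact ⟨hk3, h2, h3⟩
      · show (((k - 1).toNat : ℕ) : ℤ) + 1 = k
        rw [Int.toNat_of_nonneg (by omega)]
        ring
    · rintro ⟨K, ⟨h2, h3, h4⟩, rfl⟩
      refine ⟨(unmatched_iff hx c _).mpr ⟨h3, h4⟩, ?_, h2⟩
      have : x 1 ≤ x ((K : ℤ) + 1) := hx.mono.monotone (by omega)
      show 0 < x ((K : ℤ) + 1)
      linarith
  rw [himg, Function.Injective.encard_image (fun a b hab => by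
    have : (a : ℤ) + 1 = (b : ℤ) + 1 := hab
    omega), ← ENNReal.tsum_set_one, tsum_subtype S (fun _ => (1 : ENNReal))]

end sets

theorem intensity_pos {p : ℝ} (hp : p ∈ Set.Icc (0 : ℝ) 1) {Ω : Type*} [MeasurableSpace Ω]
    {P : Measure Ω} [IsProbabilityMeasure P] {X : ℤ → Ω → ℝ} {c : ℤ → Ω → Bool}
    (h : IsColouredPoisson p P X c) {Q : ℝ → ℝ} {q : ℝ}
    (hQ : ∀ r, 0 < r → Tendsto (fun n => qq true n r p) atTop (𝓝 (Q r)))
    (hq : Tendsto Q atTop (𝓝 q)) {L : ℝ} (hL : 0 ≤ L) :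
    ∫⁻ ω, ({k | k ∈ unmatchedBlue (fun j => X j ω) (fun j => c j ω) ∧
        X k ω ∈ Set.Ioc 0 L}.encard : ENNReal) ∂P = ENNReal.ofReal (p * q ^ 2 * L) := by
  have hgood := ae_good hp h
  have hwin : ∀ (n : ℕ) (r : ℝ), ∑' K : ℕ, P (intenA X c L n r K) =
      ENNReal.ofReal (p * L * qq true n r p ^ 2) := fun n r => win_sum hp h n r hL
  have hAD : ∀ (n : ℕ) (r : ℝ) (K : ℕ), intenA X c L n r K ⊆ intenA X c L 0 0 K := by
    intro n r K ω hω
    exact ⟨hω.1, hω.2.1, inten_alive_zero _ _ _ _⟩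
  have hBD : ∀ (r : ℝ) (K : ℕ), intenB X c L r K ⊆ intenA X c L 0 0 K := by
    intro r K ω hω
    exact ⟨hω.1, hω.2.1, inten_alive_zero _ _ _ _⟩
  have hDfin : ∑' K : ℕ, P (intenA X c L 0 0 K) ≠ ⊤ := by
    rw [hwin]
    exact ENNReal.ofReal_ne_top
  -- first limit
  have hlim1 : ∀ (r : ℝ) (K : ℕ), Tendsto (fun n => P (intenA X c L n r K)) atTop
      (𝓝 (P (intenB X c L r K))) := by
    intro r K
    apply tendsto_measure_of_ae_tendsto_indicator_of_isFiniteMeasure atTop
      (intenB_meas h.measX h.measc L r K) (fun n => intenA_meas h.measX h.measc L n r K)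
    filter_upwards [hgood] with ω hω
    filter_upwards [aliveZ_stab hω.1 (fun j => c j ω) r ((K : ℤ) + 1)] with n hn
    constructor
    · rintro ⟨h1, h2, h3⟩
      exact ⟨h1, h2, hn.mp h3⟩
    · rintro ⟨h1, h2, h3⟩
      exact ⟨h1, h2, hn.mpr h3⟩
  have hB : ∀ r : ℝ, 0 < r → ∑' K : ℕ, P (intenB X c L r K) =
      ENNReal.ofReal (p * L * Q r ^ 2) := by
    intro r hr
    have h1 : Tendsto (fun n => ∑' K : ℕ, P (intenA X c L n r K)) atTop
        (𝓝 (∑' K : ℕ, P (intenB X c L r K))) :=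
      inten_tsum hDfin (fun n K => measure_mono (hAD n r K)) (hlim1 r)
    have h2 : Tendsto (fun n => ∑' K : ℕ, P (intenA X c L n r K)) atTop
        (𝓝 (ENNReal.ofReal (p * L * Q r ^ 2))) := by
      simp only [hwin]
      exact ENNReal.tendsto_ofReal (((hQ r hr).pow 2).const_mul (p * L))
    exact tendsto_nhds_unique h1 h2
  -- second limit
  have hlim2 : ∀ K : ℕ, Tendsto (fun r : ℕ => P (intenB X c L (r : ℝ) K)) atTop
      (𝓝 (P (intenC X c L K))) := by
    intro K
    apply tendsto_measure_of_ae_tendsto_indicator_of_isFiniteMeasure atTop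
      (intenC_meas h.measX h.measc L K) (As := fun r : ℕ => intenB X c L (r : ℝ) K)
      (fun r : ℕ => intenB_meas h.measX h.measc L (r : ℝ) K)
    filter_upwards [hgood] with ω hω
    by_cases hall : ∀ r : ℕ, aliveZ (fun j => X j ω) (fun j => c j ω) r ((K : ℤ) + 1)
    · apply Filter.Eventually.of_forall
      intro r
      constructor
      · rintro ⟨h1, h2, -⟩
        exact ⟨h1, h2, hall⟩
      · rintro ⟨h1, h2, -⟩
        exact ⟨h1, h2, hall r⟩
    · push Not at hall
      obtain ⟨r₀, hr₀⟩ := hall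
      filter_upwards [eventually_ge_atTop r₀] with r hr
      constructor
      · rintro ⟨-, -, h3⟩
        exact absurd (aliveZ_anti hω.1 (by exact_mod_cast hr) h3) hr₀
      · rintro ⟨-, -, h3⟩
        exact absurd (h3 r₀) hr₀
  have hC : ∑' K : ℕ, P (intenC X c L K) = ENNReal.ofReal (p * L * q ^ 2) := by
    have h1 : Tendsto (fun r : ℕ => ∑' K : ℕ, P (intenB X c L (r : ℝ) K)) atTop
        (𝓝 (∑' K : ℕ, P (intenC X c L K))) :=
      inten_tsum hDfin (fun r K => measure_mono (hBD r K)) hlim2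
    have h2 : Tendsto (fun r : ℕ => ∑' K : ℕ, P (intenB X c L (r : ℝ) K)) atTop
        (𝓝 (ENNReal.ofReal (p * L * q ^ 2))) := by
      have h3 : Tendsto (fun r : ℕ => ENNReal.ofReal (p * L * Q (r : ℝ) ^ 2)) atTop
          (𝓝 (ENNReal.ofReal (p * L * q ^ 2))) :=
        ENNReal.tendsto_ofReal (((hq.comp tendsto_natCast_atTop_atTop).pow 2).const_mul (p * L))
      refine h3.congr' ?_
      filter_upwards [eventually_ge_atTop 1] with r hr
      exact (hB (r : ℝ) (by exact_mod_cast hr)).symm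
    exact tendsto_nhds_unique h1 h2
  have hint : ∫⁻ ω, ({k | k ∈ unmatchedBlue (fun j => X j ω) (fun j => c j ω) ∧
        X k ω ∈ Set.Ioc 0 L}.encard : ENNReal) ∂P =
      ∫⁻ ω, ∑' K : ℕ, Set.indicator (intenC X c L K) (fun _ => (1 : ENNReal)) ω ∂P := by
    apply lintegral_congr_ae
    filter_upwards [hgood] with ω hω
    have h1 := inten_count hω.1 hω.2.1 hω.2.2 (fun j => c j ω) L
    rw [h1]
    apply tsum_congr
    intro K
    rfl
  rw [hint, lintegral_tsum (fun K => (measurable_const.indicator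
    (intenC_meas h.measX h.measc L K)).aemeasurable)]
  have h1 : ∀ K : ℕ, ∫⁻ ω, Set.indicator (intenC X c L K) (fun _ => (1 : ENNReal)) ω ∂P =
      P (intenC X c L K) := by
    intro K
    rw [lintegral_indicator (intenC_meas h.measX h.measc L K)]
    simp
  simp only [h1]
  rw [hC]
  congr 1
  ring

end FB
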