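import Pool.Agent.Lib.MP_fb152f_pr.ZDefs
import Pool.Agent.Lib.MP_fb152f_pr.SeqBe

/-!
# LawZ: the joint law of the left part, the middle and the right part (120 minutes)

Let `X, c` be a coloured Poisson process, `g_j = gap X j`.  All the variables `g_j` (`j ∈ ℤ`),
`c_j` (`j ∈ ℤ`) are independent, `g_j` exponential, `c_j` with law `colourLaw p` (the pairs
`(g_j, c_j)` are independent with law `expMeasure 1 × colourLaw p`).  For `k = K + 1 ≥ 1`:
`Lraw` uses `g_1, ..., g_k, g_{-1}, g_{-2}, ...` and `c_j`, `j ≤ k - 1` (each exactly once),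
the middle uses `g_0` and `c_k`, the right part `(g_{k+1+i}, c_{k+1+i})_i` uses the rest.
So the four are independent, and `Lraw`, right part have the law `seqLaw p`.

Proof: the atoms `(g_j, false)` and `(0, c_j)` have the product law over `ℤ × Bool`; reindex by an
injection from `(ℕ × Bool) ⊕ (Unit ⊕ (Unit ⊕ (ℕ × Bool)))`; split the product over sum types.
-/

set_option autoImplicit false

namespace FB

open MeasureTheory ProbabilityTheory Measure

theorem lawZ_sum {α β X : Type*} [MeasurableSpace X] (μ : α ⊕ β → Measure X)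
    [∀ i, IsProbabilityMeasure (μ i)] :
    (infinitePi μ).map (fun y => ((fun a => y (Sum.inl a)), (fun b => y (Sum.inr b)))) =
      (infinitePi fun a => μ (Sum.inl a)).prod (infinitePi fun b => μ (Sum.inr b)) := by
  have he : Measurable (fun (q : (α → X) × (β → X)) => (Sum.elim q.1 q.2 : α ⊕ β → X)) := by
    rw [measurable_pi_iff]
    rintro (a | b)
    · exact (measurable_pi_apply a).comp measurable_fst
    · exact (measurable_pi_apply b).comp measurable_snd
  have hs : Measurable (fun (y : α ⊕ β → X) => ((fun a => y (Sum.inl a)), (fun b => y (Sum.inr b)))) :=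
    Measurable.prodMk (measurable_pi_lambda _ fun a => measurable_pi_apply _)
      (measurable_pi_lambda _ fun b => measurable_pi_apply _)
  have h1 : ((infinitePi fun a => μ (Sum.inl a)).prod (infinitePi fun b => μ (Sum.inr b))).map
      (fun (q : (α → X) × (β → X)) => (Sum.elim q.1 q.2 : α ⊕ β → X)) = infinitePi μ := by
    apply eq_infinitePi
    intro s t ht
    rw [map_apply he (MeasurableSet.pi s.countable_toSet fun i _ => ht i)]
    have h2 : (fun (q : (α → X) × (β → X)) => (Sum.elim q.1 q.2 : α ⊕ β → X)) ⁻¹'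
        (Set.pi (s : Set (α ⊕ β)) t) = (Set.pi (s.toLeft : Set α) (fun a => t (Sum.inl a))) ×ˢ
          (Set.pi (s.toRight : Set β) (fun b => t (Sum.inr b))) := by
      ext q
      simp only [Set.mem_preimage, Set.mem_pi, Set.mem_prod, Finset.mem_coe, Finset.mem_toLeft,
        Finset.mem_toRight, Sum.forall, Sum.elim_inl, Sum.elim_inr]
    rw [h2, Measure.prod_prod, infinitePi_pi _ (fun a _ => ht _), infinitePi_pi _ (fun b _ => ht _)]
    conv_rhs => rw [← Finset.toLeft_disjSum_toRight (u := s)]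
    rw [Finset.prod_disjSum]
  rw [← h1, map_map hs he]
  have h3 : (fun (y : α ⊕ β → X) => ((fun a => y (Sum.inl a)), (fun b => y (Sum.inr b)))) ∘
      (fun (q : (α → X) × (β → X)) => (Sum.elim q.1 q.2 : α ⊕ β → X)) = id := by
    funext q
    rfl
  rw [h3, map_id]

/-- The laws of the atoms. -/
noncomputable def lawZ_at (p : ℝ) (b : Bool) : Measure (ℝ × Bool) :=
  if b = true then (expMeasure 1).map (fun u => (u, false))
  else (colourLaw p).map (fun b => ((0 : ℝ), b))

theorem lawZ_m1 : Measurable (fun u : ℝ => (u, false)) := measurable_id.prodMk measurable_const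

theorem lawZ_m2 : Measurable (fun b : Bool => ((0 : ℝ), b)) := measurable_const.prodMk measurable_id

theorem lawZ_at_prob {p : ℝ} (hp : p ∈ Set.Icc (0 : ℝ) 1) (b : Bool) :
    IsProbabilityMeasure (lawZ_at p b) := by
  have := isProb_colourLaw hp
  unfold lawZ_at
  split_ifs
  · exact isProbabilityMeasure_map lawZ_m1.aemeasurable
  · exact isProbabilityMeasure_map lawZ_m2.aemeasurable

/-- The two atoms of a pair. -/
def lawZ_two (z : ℝ × Bool) (b : Bool) : ℝ × Bool := if b = true then (z.1, false) else (0, z.2)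

theorem lawZ_two_meas : Measurable lawZ_two := by
  rw [measurable_pi_iff]
  intro b
  cases b
  · exact measurable_const.prodMk measurable_snd
  · exact measurable_fst.prodMk measurable_const

theorem lawZ_pair {p : ℝ} (hp : p ∈ Set.Icc (0 : ℝ) 1) :
    haveI := lawZ_at_prob hp
    (stepLaw p).map lawZ_two = infinitePi (lawZ_at p) := by
  have := lawZ_at_prob hp
  have := isProb_colourLaw hp
  rw [infinitePi_eq_pi]
  refine (pi_eq fun s hs => ?_).symm
  rw [map_apply lawZ_two_meas (MeasurableSet.univ_pi hs)]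
  have h1 : lawZ_two ⁻¹' (Set.univ.pi s) = ((fun u : ℝ => (u, false)) ⁻¹' (s true)) ×ˢ
      ((fun b : Bool => ((0 : ℝ), b)) ⁻¹' (s false)) := by
    ext z
    simp only [Set.mem_preimage, Set.mem_univ_pi, Bool.forall_bool, Set.mem_prod, lawZ_two]
    simp [and_comm]
  rw [h1]
  unfold stepLaw
  rw [Measure.prod_prod, Fintype.prod_bool]
  unfold lawZ_at
  simp only [if_true, Bool.false_eq_true, if_false]
  rw [map_apply lawZ_m1 (hs true), map_apply lawZ_m2 (hs false)]

/-- All atoms. -/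
theorem lawZ_atoms {p : ℝ} (hp : p ∈ Set.Icc (0 : ℝ) 1) :
    haveI := lawZ_at_prob hp
    haveI := isProb_stepLaw hp
    (infinitePi (fun _ : ℤ => stepLaw p)).map (fun z (q : ℤ × Bool) => lawZ_two (z q.1) q.2) =
      infinitePi (fun q : ℤ × Bool => lawZ_at p q.2) := by
  have := lawZ_at_prob hp
  have := isProb_stepLaw hp
  have h1 := infinitePi_map_curry_symm (ι := ℤ) (κ := Bool) (X := ℝ × Bool)
    (fun (_ : ℤ) (b : Bool) => lawZ_at p b)
  rw [← h1]
  have h2 : (infinitePi fun _ : ℤ => infinitePi fun j : Bool => lawZ_at p j) =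
      (infinitePi (fun _ : ℤ => stepLaw p)).map (fun z i => lawZ_two (z i)) := by
    rw [infinitePi_map_pi _ (fun _ => lawZ_two_meas)]
    congr 1
    funext i
    exact (lawZ_pair hp).symm
  have hm : Measurable (fun (z : ℤ → ℝ × Bool) (i : ℤ) => lawZ_two (z i)) :=
    measurable_pi_lambda _ fun i => lawZ_two_meas.comp (measurable_pi_apply i)
  rw [h2, map_map (MeasurableEquiv.measurable _) hm]
  rfl

/-- the law of one sequence of pairs from its atoms -/
theorem lawZ_seq {p : ℝ} (hp : p ∈ Set.Icc (0 : ℝ) 1) :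
    haveI := lawZ_at_prob hp
    (infinitePi (fun q : ℕ × Bool => lawZ_at p q.2)).map
      (fun y (i : ℕ) => ((y (i, true)).1, (y (i, false)).2)) = seqLaw p := by
  have := lawZ_at_prob hp
  have := isProb_stepLaw hp
  have := isProb_colourLaw hp
  have h1 := infinitePi_map_curry (ι := ℕ) (κ := Bool) (X := ℝ × Bool)
    (fun (_ : ℕ) (b : Bool) => lawZ_at p b)
  have hf : Measurable (fun w : Bool → ℝ × Bool => ((w true).1, (w false).2)) :=
    (measurable_fst.comp (measurable_pi_apply true)).prodMk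
      (measurable_snd.comp (measurable_pi_apply false))
  have h2 : (fun (y : ℕ × Bool → ℝ × Bool) (i : ℕ) => ((y (i, true)).1, (y (i, false)).2)) =
      (fun (z : ℕ → Bool → ℝ × Bool) (i : ℕ) => ((z i true).1, (z i false).2)) ∘
        (MeasurableEquiv.curry ℕ Bool (ℝ × Bool)) := by
    funext y
    rfl
  have hm : Measurable (fun (z : ℕ → Bool → ℝ × Bool) (i : ℕ) => ((z i true).1, (z i false).2)) :=
    measurable_pi_lambda _ fun i => hf.comp (measurable_pi_apply i)
  rw [h2, ← map_map hm (MeasurableEquiv.measurable _), h1]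
  have h3 := infinitePi_map_pi (μ := fun _ : ℕ => infinitePi (lawZ_at p)) (f := fun (_ : ℕ)
    (w : Bool → ℝ × Bool) => ((w true).1, (w false).2)) (fun _ => hf)
  rw [h3]
  unfold seqLaw
  congr 1
  funext i
  have h4 := infinitePi_map_eval_prod (P := lawZ_at p) (i := true) (j := false) (by simp)
  have h5 : (fun w : Bool → ℝ × Bool => ((w true).1, (w false).2)) =
      (Prod.map Prod.fst Prod.snd) ∘ (fun w : Bool → ℝ × Bool => (w true, w false)) := by
    funext w
    rfl
  rw [h5, ← map_map (measurable_fst.prodMap measurable_snd)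
    ((measurable_pi_apply true).prodMk (measurable_pi_apply false)), h4,
    ← map_prod_map _ _ measurable_fst measurable_snd]
  unfold stepLaw lawZ_at
  simp only [if_true, Bool.false_eq_true, if_false]
  rw [map_map measurable_fst lawZ_m1, map_map measurable_snd lawZ_m2]
  have e1 : (Prod.fst ∘ fun u : ℝ => (u, false)) = id := rfl
  have e2 : (Prod.snd ∘ fun b : Bool => ((0 : ℝ), b)) = id := rfl
  rw [e1, e2, map_id, map_id]

/-- the indices -/
def lawZ_idx (k : ℤ) : (ℕ × Bool) ⊕ (Unit ⊕ (Unit ⊕ (ℕ × Bool))) → ℤ × Bool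
  | Sum.inl (i, true) => (if (i : ℤ) < k then k - i else k - 1 - i, true)
  | Sum.inl (i, false) => (k - 1 - i, false)
  | Sum.inr (Sum.inl _) => (0, true)
  | Sum.inr (Sum.inr (Sum.inl _)) => (k, false)
  | Sum.inr (Sum.inr (Sum.inr (i, b))) => (k + i + 1, b)

theorem lawZ_idx_inj {k : ℤ} (hk : 0 < k) : Function.Injective (lawZ_idx k) := by
  intro x y hxy
  rcases x with ⟨i, bi⟩ | ⟨⟩ | ⟨⟩ | ⟨i, bi⟩ <;> rcases y with ⟨j, bj⟩ | ⟨⟩ | ⟨⟩ | ⟨j, bj⟩ <;>
    (try cases bi) <;> (try cases bj) <;>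
    simp only [lawZ_idx, Prod.mk.injEq, reduceCtorEq, and_false, and_true] at hxy <;>
    first
    | rfl
    | (exfalso; split_ifs at hxy <;> omega)
    | (exfalso; omega)
    | (have hij : i = j := by
        omega
       rw [hij])

theorem lawZ_idx_snd (k : ℤ) (i : ℕ) (b : Bool) :
    (lawZ_idx k (Sum.inl (i, b))).2 = b := by
  cases b <;> rfl

/-- the last three parts -/
def lawZ_phi3 (y : Unit ⊕ (ℕ × Bool) → ℝ × Bool) : Bool × (ℕ → ℝ × Bool) :=
  ((y (Sum.inl ())).2, fun i => ((y (Sum.inr (i, true))).1, (y (Sum.inr (i, false))).2))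

def lawZ_phi2 (y : Unit ⊕ (Unit ⊕ (ℕ × Bool)) → ℝ × Bool) : ℝ × Bool × (ℕ → ℝ × Bool) :=
  ((y (Sum.inl ())).1, lawZ_phi3 fun b => y (Sum.inr b))

def lawZ_phi1 (y : (ℕ × Bool) ⊕ (Unit ⊕ (Unit ⊕ (ℕ × Bool))) → ℝ × Bool) :
    (ℕ → ℝ × Bool) × ℝ × Bool × (ℕ → ℝ × Bool) :=
  (fun i => ((y (Sum.inl (i, true))).1, (y (Sum.inl (i, false))).2),
    lawZ_phi2 fun b => y (Sum.inr b))

theorem lawZ_seq_meas : Measurable (fun (y : ℕ × Bool → ℝ × Bool) (i : ℕ) =>
    ((y (i, true)).1, (y (i, false)).2)) :=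
  measurable_pi_lambda _ fun i => (measurable_fst.comp (measurable_pi_apply _)).prodMk
    (measurable_snd.comp (measurable_pi_apply _))

theorem lawZ_split_meas {α β X : Type*} [MeasurableSpace X] :
    Measurable (fun (y : α ⊕ β → X) => ((fun a => y (Sum.inl a)), (fun b => y (Sum.inr b)))) :=
  Measurable.prodMk (measurable_pi_lambda _ fun a => measurable_pi_apply _)
    (measurable_pi_lambda _ fun b => measurable_pi_apply _)

theorem lawZ_phi3_eq : lawZ_phi3 = (Prod.map (fun y : Unit → ℝ × Bool => (y ()).2)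
    (fun (y : ℕ × Bool → ℝ × Bool) (i : ℕ) => ((y (i, true)).1, (y (i, false)).2))) ∘
    (fun y => ((fun a => y (Sum.inl a)), (fun b => y (Sum.inr b)))) := rfl

theorem lawZ_phi2_eq : lawZ_phi2 = (Prod.map (fun y : Unit → ℝ × Bool => (y ()).1) lawZ_phi3) ∘
    (fun y => ((fun a => y (Sum.inl a)), (fun b => y (Sum.inr b)))) := rfl

theorem lawZ_phi1_eq : lawZ_phi1 = (Prod.map
    (fun (y : ℕ × Bool → ℝ × Bool) (i : ℕ) => ((y (i, true)).1, (y (i, false)).2)) lawZ_phi2) ∘
    (fun y => ((fun a => y (Sum.inl a)), (fun b => y (Sum.inr b)))) := rfl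

theorem lawZ_u1 : Measurable (fun y : Unit → ℝ × Bool => (y ()).1) :=
  measurable_fst.comp (measurable_pi_apply _)

theorem lawZ_u2 : Measurable (fun y : Unit → ℝ × Bool => (y ()).2) :=
  measurable_snd.comp (measurable_pi_apply _)

theorem lawZ_phi3_meas : Measurable lawZ_phi3 := by
  rw [lawZ_phi3_eq]
  exact (lawZ_u2.prodMap lawZ_seq_meas).comp lawZ_split_meas

theorem lawZ_phi2_meas : Measurable lawZ_phi2 := by
  rw [lawZ_phi2_eq]
  exact (lawZ_u1.prodMap lawZ_phi3_meas).comp lawZ_split_meas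

theorem lawZ_phi1_meas : Measurable lawZ_phi1 := by
  rw [lawZ_phi1_eq]
  exact (lawZ_seq_meas.prodMap lawZ_phi2_meas).comp lawZ_split_meas

theorem lawZ_law1 {p : ℝ} (hp : p ∈ Set.Icc (0 : ℝ) 1) :
    (infinitePi fun _ : Unit => lawZ_at p true).map (fun y : Unit → ℝ × Bool => (y ()).1) =
      expMeasure 1 := by
  have := lawZ_at_prob hp
  have h1 := infinitePi_map_eval (μ := fun _ : Unit => lawZ_at p true) ()
  have h2 : (fun y : Unit → ℝ × Bool => (y ()).1) = Prod.fst ∘ (fun y : Unit → ℝ × Bool => y ()) :=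
    rfl
  rw [h2, ← map_map measurable_fst (measurable_pi_apply _), h1]
  unfold lawZ_at
  rw [if_pos rfl, map_map measurable_fst lawZ_m1]
  have e1 : (Prod.fst ∘ fun u : ℝ => (u, false)) = id := rfl
  rw [e1, map_id]

theorem lawZ_law2 {p : ℝ} (hp : p ∈ Set.Icc (0 : ℝ) 1) :
    (infinitePi fun _ : Unit => lawZ_at p false).map (fun y : Unit → ℝ × Bool => (y ()).2) =
      colourLaw p := by
  have := lawZ_at_prob hp
  have h1 := infinitePi_map_eval (μ := fun _ : Unit => lawZ_at p false) ()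
  have h2 : (fun y : Unit → ℝ × Bool => (y ()).2) = Prod.snd ∘ (fun y : Unit → ℝ × Bool => y ()) :=
    rfl
  rw [h2, ← map_map measurable_snd (measurable_pi_apply _), h1]
  unfold lawZ_at
  rw [if_neg (by simp), map_map measurable_snd lawZ_m2]
  have e1 : (Prod.snd ∘ fun b : Bool => ((0 : ℝ), b)) = id := rfl
  rw [e1, map_id]

/-- the law of the parts, on the level of the atoms -/
theorem lawZ_phi {p : ℝ} (hp : p ∈ Set.Icc (0 : ℝ) 1) (k : ℤ) :
    (infinitePi fun b => lawZ_at p (lawZ_idx k b).2).map lawZ_phi1 =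
      (seqLaw p).prod ((expMeasure 1).prod ((colourLaw p).prod (seqLaw p))) := by
  have := lawZ_at_prob hp
  have := isProb_colourLaw hp
  have := isProb_seqLaw hp
  have s3 : (infinitePi fun b : Unit ⊕ (ℕ × Bool) => lawZ_at p
      (lawZ_idx k (Sum.inr (Sum.inr b))).2).map lawZ_phi3 = (colourLaw p).prod (seqLaw p) := by
    rw [lawZ_phi3_eq, ← map_map (lawZ_u2.prodMap lawZ_seq_meas) lawZ_split_meas, lawZ_sum,
      ← map_prod_map _ _ lawZ_u2 lawZ_seq_meas]
    have e1 := lawZ_law2 hp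
    have e2 := lawZ_seq hp
    exact congrArg₂ Measure.prod e1 e2
  have s2 : (infinitePi fun b : Unit ⊕ (Unit ⊕ (ℕ × Bool)) => lawZ_at p
      (lawZ_idx k (Sum.inr b)).2).map lawZ_phi2 =
      (expMeasure 1).prod ((colourLaw p).prod (seqLaw p)) := by
    rw [lawZ_phi2_eq, ← map_map (lawZ_u1.prodMap lawZ_phi3_meas) lawZ_split_meas, lawZ_sum,
      ← map_prod_map _ _ lawZ_u1 lawZ_phi3_meas]
    have e1 := lawZ_law1 hp
    exact congrArg₂ Measure.prod e1 s3
  rw [lawZ_phi1_eq, ← map_map (lawZ_seq_meas.prodMap lawZ_phi2_meas) lawZ_split_meas, lawZ_sum,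
    ← map_prod_map _ _ lawZ_seq_meas lawZ_phi2_meas]
  have e1 : (infinitePi fun q : ℕ × Bool => lawZ_at p (lawZ_idx k (Sum.inl q)).2) =
      infinitePi fun q : ℕ × Bool => lawZ_at p q.2 := by
    congr 1
    funext q
    rw [show q = (q.1, q.2) from rfl, lawZ_idx_snd]
  rw [e1]
  exact congrArg₂ Measure.prod (lawZ_seq hp) s2

theorem lawZ_gap_meas {Ω : Type*} [MeasurableSpace Ω] {X : ℤ → Ω → ℝ}
    (hX : ∀ k, Measurable (X k)) (k : ℤ) : Measurable (fun ω => gap (fun j => X j ω) k) := by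
  unfold gap
  split_ifs
  · exact (hX 0).neg
  · exact hX 1
  · exact (hX _).sub (hX _)
  · exact (hX _).sub (hX _)

theorem law_parts {p : ℝ} (hp : p ∈ Set.Icc (0 : ℝ) 1) {Ω : Type*} [MeasurableSpace Ω]
    {P : Measure Ω} [IsProbabilityMeasure P] {X : ℤ → Ω → ℝ} {c : ℤ → Ω → Bool}
    (h : IsColouredPoisson p P X c) (K : ℕ) :
    P.map (fun ω => (Lraw (fun j => X j ω) (fun j => c j ω) ((K : ℤ) + 1),
        gap (fun j => X j ω) 0, c ((K : ℤ) + 1) ω,
        fun i : ℕ => (gap (fun j => X j ω) ((K : ℤ) + 1 + i + 1), c ((K : ℤ) + 1 + i + 1) ω))) =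
      (seqLaw p).prod ((expMeasure 1).prod ((colourLaw p).prod (seqLaw p))) := by
  have := lawZ_at_prob hp
  have := isProb_stepLaw hp
  have hmeas : ∀ k : ℤ, Measurable (fun ω => (gap (fun j => X j ω) k, c k ω)) := fun k =>
    (lawZ_gap_meas h.measX k).prodMk (h.measc k)
  have hz : P.map (fun ω (j : ℤ) => (gap (fun j => X j ω) j, c j ω)) =
      infinitePi (fun _ : ℤ => stepLaw p) := by
    rw [iIndepFun.map_fun_eq_infinitePi_map hmeas h.indep]
    congr 1
    funext k
    exact h.law k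
  have hzm : Measurable (fun ω (j : ℤ) => (gap (fun j => X j ω) j, c j ω)) :=
    measurable_pi_lambda _ hmeas
  have hAt : Measurable (fun (z : ℤ → ℝ × Bool) (q : ℤ × Bool) => lawZ_two (z q.1) q.2) :=
    measurable_pi_lambda _ fun q => (measurable_pi_apply q.2).comp
      (lawZ_two_meas.comp (measurable_pi_apply q.1))
  have hRe : Measurable (fun (y : ℤ × Bool → ℝ × Bool)
      (b : (ℕ × Bool) ⊕ (Unit ⊕ (Unit ⊕ (ℕ × Bool)))) => y (lawZ_idx ((K : ℤ) + 1) b)) :=
    measurable_pi_lambda _ fun b => measurable_pi_apply _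
  have hre := map_infinitePi_infinitePi_of_inj (P := fun q : ℤ × Bool => lawZ_at p q.2)
    (lawZ_idx_inj (k := (K : ℤ) + 1) (by omega))
  have hfun : (fun ω => (Lraw (fun j => X j ω) (fun j => c j ω) ((K : ℤ) + 1),
        gap (fun j => X j ω) 0, c ((K : ℤ) + 1) ω,
        fun i : ℕ => (gap (fun j => X j ω) ((K : ℤ) + 1 + i + 1), c ((K : ℤ) + 1 + i + 1) ω))) =
      lawZ_phi1 ∘ ((fun (y : ℤ × Bool → ℝ × Bool)
        (b : (ℕ × Bool) ⊕ (Unit ⊕ (Unit ⊕ (ℕ × Bool)))) => y (lawZ_idx ((K : ℤ) + 1) b)) ∘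
        ((fun (z : ℤ → ℝ × Bool) (q : ℤ × Bool) => lawZ_two (z q.1) q.2) ∘
          (fun ω (j : ℤ) => (gap (fun j => X j ω) j, c j ω)))) := by
    funext ω
    refine Prod.ext ?_ rfl
    funext i
    refine Prod.ext ?_ rfl
    show (if (i : ℤ) < (K : ℤ) + 1 then gap (fun j => X j ω) ((K : ℤ) + 1 - i)
      else gap (fun j => X j ω) ((K : ℤ) + 1 - 1 - i)) = gap (fun j => X j ω)
        (if (i : ℤ) < (K : ℤ) + 1 then (K : ℤ) + 1 - i else (K : ℤ) + 1 - 1 - i)
    split_ifs <;> rfl
  rw [hfun, ← map_map lawZ_phi1_meas (hRe.comp (hAt.comp hzm)), ← map_map hRe (hAt.comp hzm),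
    ← map_map hAt hzm, hz, lawZ_atoms hp, hre]
  exact lawZ_phi hp _

end FB
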