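import Mathlib

/-!
# Lim1: two limits of convolution averages (60 minutes, only Mathlib)

* `cesaro_conv`: `f n → F`, `g n → G` (bounded): `(1/(n+1)) ∑_{k ≤ n} f k * g (n - k) → F G`.
  (Write `f k g (n-k) - F G = (f k - F) g (n-k) + F (g (n-k) - G)`; Cesàro means of sequences
  tending to 0, `Filter.Tendsto.cesaro` or by hand.)
* `cesaro_coeff`: for power series: `(1/(n+1)) coeff n (f * g) → F G`.
* `cesaro_three`: `h` a polynomial (finitely many coefficients, all `< N`):
  `(1/(n+1)) coeff n (h * (f * g)) → (∑_{k < N} h_k) F G`: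
  `coeff n (h * u) = ∑_{k < N} h_k u_{n-k}` for `n ≥ N` and
  `u_{n-k} / (n+1) → F G` for every fixed `k`.
-/

set_option autoImplicit false

namespace FB

open Filter Topology

theorem lim1_coeff (f g : PowerSeries ℝ) (n : ℕ) : PowerSeries.coeff n (f * g) =
    ∑ k ∈ Finset.range (n + 1), PowerSeries.coeff k f * PowerSeries.coeff (n - k) g := by
  rw [PowerSeries.coeff_mul, Finset.Nat.sum_antidiagonal_eq_sum_range_succ_mk]

/-- Averages of a product of a null sequence with a bounded sequence. -/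
theorem lim1_null {f g : ℕ → ℝ} {C : ℝ} (hf : Tendsto f atTop (𝓝 0)) (hg : ∀ n, |g n| ≤ C) :
    Tendsto (fun n : ℕ => (∑ k ∈ Finset.range (n + 1), f k * g (n - k)) / ((n : ℝ) + 1)) atTop
      (𝓝 0) := by
  have h1 : Tendsto (fun n : ℕ => (∑ k ∈ Finset.range (n + 1), |f k| * C) / ((n : ℝ) + 1)) atTop
      (𝓝 0) := by
    have h2 : Tendsto (fun k => |f k| * C) atTop (𝓝 0) := by
      have := hf.abs.mul_const C
      simpa using this
    have h3 := h2.cesaro
    have h4 := h3.comp (tendsto_add_atTop_nat 1)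
    refine h4.congr ?_
    intro n
    simp only [Function.comp]
    rw [div_eq_inv_mul]
    push_cast
    rfl
  refine squeeze_zero_norm ?_ h1
  intro n
  rw [Real.norm_eq_abs, abs_div, abs_of_pos (show (0:ℝ) < (n : ℝ) + 1 by positivity)]
  refine div_le_div_of_nonneg_right ?_ (by positivity)
  refine (Finset.abs_sum_le_sum_abs _ _).trans (Finset.sum_le_sum fun k _ => ?_)
  rw [abs_mul]
  exact mul_le_mul_of_nonneg_left (hg _) (abs_nonneg _)

theorem lim1_bdd {g : ℕ → ℝ} {G : ℝ} (hg : Tendsto g atTop (𝓝 G)) : ∃ C, ∀ n, |g n| ≤ C := by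
  obtain ⟨C, hC⟩ := hg.abs.bddAbove_range
  exact ⟨C, fun n => hC ⟨n, rfl⟩⟩

theorem lim1_cesaro {f g : ℕ → ℝ} {F G : ℝ} (hf : Tendsto f atTop (𝓝 F))
    (hg : Tendsto g atTop (𝓝 G)) :
    Tendsto (fun n : ℕ => (∑ k ∈ Finset.range (n + 1), f k * g (n - k)) / ((n : ℝ) + 1)) atTop
      (𝓝 (F * G)) := by
  obtain ⟨C, hC⟩ := lim1_bdd hg
  have h1 : Tendsto (fun k => f k - F) atTop (𝓝 0) := by
    have := hf.sub_const F
    simpa using this
  have h2 : Tendsto (fun k => g k - G) atTop (𝓝 0) := by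
    have := hg.sub_const G
    simpa using this
  have h3 := lim1_null h1 hC
  have h4 := lim1_null (C := |F|) h2 (g := fun _ => F) (fun _ => le_rfl)
  have h5 := (h3.add h4).add_const (F * G)
  rw [zero_add, zero_add] at h5
  refine h5.congr ?_
  intro n
  have hn : ((n : ℝ) + 1) ≠ 0 := by positivity
  have h6 : ∑ k ∈ Finset.range (n + 1), (g k - G) * F =
      ∑ k ∈ Finset.range (n + 1), (g (n - k) - G) * F := by
    rw [← Finset.sum_range_reflect]
    refine Finset.sum_congr rfl fun k hk => ?_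
    rw [show n + 1 - 1 - k = n - k by omega]
  rw [h6, ← add_div, ← Finset.sum_add_distrib, div_add' _ _ _ hn]
  congr 1
  have h7 : F * G * ((n : ℝ) + 1) = ∑ k ∈ Finset.range (n + 1), F * G := by
    simp
    ring
  rw [h7, ← Finset.sum_add_distrib]
  refine Finset.sum_congr rfl fun k _ => ?_
  ring

theorem cesaro_coeff {f g : PowerSeries ℝ} {F G : ℝ}
    (hf : Tendsto (fun n => PowerSeries.coeff n f) atTop (𝓝 F))
    (hg : Tendsto (fun n => PowerSeries.coeff n g) atTop (𝓝 G)) :
    Tendsto (fun n : ℕ => PowerSeries.coeff n (f * g) / ((n : ℝ) + 1)) atTop (𝓝 (F * G)) := by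
  refine (lim1_cesaro hf hg).congr ?_
  intro n
  rw [lim1_coeff]

theorem cesaro_three {f g h : PowerSeries ℝ} {F G : ℝ} {N : ℕ}
    (hf : Tendsto (fun n => PowerSeries.coeff n f) atTop (𝓝 F))
    (hg : Tendsto (fun n => PowerSeries.coeff n g) atTop (𝓝 G))
    (hh : ∀ n, N ≤ n → PowerSeries.coeff n h = 0) :
    Tendsto (fun n : ℕ => PowerSeries.coeff n (h * (f * g)) / ((n : ℝ) + 1)) atTop
      (𝓝 ((∑ k ∈ Finset.range N, PowerSeries.coeff k h) * (F * G))) := by
  have h1 := cesaro_coeff hf hg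
  have h2 : ∀ k : ℕ, Tendsto (fun n : ℕ => PowerSeries.coeff (n - k) (f * g) / ((n : ℝ) + 1))
      atTop (𝓝 (F * G)) := by
    intro k
    have h3 : Tendsto (fun n : ℕ => ((n : ℝ) + 1) / ((n : ℝ) + k + 1)) atTop (𝓝 1) := by
      have h4 : Tendsto (fun n : ℕ => 1 - (k : ℝ) / ((n : ℝ) + k + 1)) atTop (𝓝 (1 - 0)) := by
        refine tendsto_const_nhds.sub ?_
        refine Tendsto.div_atTop tendsto_const_nhds ?_
        have : Tendsto (fun n : ℕ => ((n : ℝ) + (k + 1))) atTop atTop :=
          tendsto_atTop_add_const_right _ _ tendsto_natCast_atTop_atTop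
        refine this.congr ?_
        intro n
        ring
      rw [sub_zero] at h4
      refine h4.congr ?_
      intro n
      have : ((n : ℝ) + k + 1) ≠ 0 := by positivity
      field_simp
      ring
    have h5 : Tendsto (fun n : ℕ => PowerSeries.coeff n (f * g) / ((n : ℝ) + k + 1)) atTop
        (𝓝 (F * G)) := by
      have h6 := h1.mul h3
      rw [mul_one] at h6
      refine h6.congr ?_
      intro n
      have e1 : ((n : ℝ) + k + 1) ≠ 0 := by positivity
      have e2 : ((n : ℝ) + 1) ≠ 0 := by positivity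
      field_simp
    rw [← tendsto_add_atTop_iff_nat k]
    refine h5.congr ?_
    intro n
    rw [Nat.add_sub_cancel]
    push_cast
    rfl
  have h3 : Tendsto (fun n : ℕ => ∑ k ∈ Finset.range N, PowerSeries.coeff k h *
      (PowerSeries.coeff (n - k) (f * g) / ((n : ℝ) + 1))) atTop
      (𝓝 (∑ k ∈ Finset.range N, PowerSeries.coeff k h * (F * G))) :=
    tendsto_finsetSum _ fun k _ => (h2 k).const_mul _
  rw [← Finset.sum_mul] at h3
  refine h3.congr' ?_
  filter_upwards [eventually_ge_atTop N] with n hn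
  rw [lim1_coeff, Finset.sum_div]
  have h4 : Finset.range N ⊆ Finset.range (n + 1) := Finset.range_mono (by omega)
  rw [← Finset.sum_subset h4]
  · refine Finset.sum_congr rfl fun k _ => ?_
    ring
  · intro k _ hk
    rw [hh k (by simpa using hk)]
    simp

/-- Coefficients of a product are monotone in nonnegative factors. -/
theorem coeff_mul_le {f g f' g' : PowerSeries ℝ} (hf : ∀ n, 0 ≤ PowerSeries.coeff n f)
    (hg : ∀ n, 0 ≤ PowerSeries.coeff n g)
    (hff : ∀ n, PowerSeries.coeff n f ≤ PowerSeries.coeff n f')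
    (hgg : ∀ n, PowerSeries.coeff n g ≤ PowerSeries.coeff n g') (n : ℕ) :
    PowerSeries.coeff n (f * g) ≤ PowerSeries.coeff n (f' * g') := by
  rw [PowerSeries.coeff_mul, PowerSeries.coeff_mul]
  exact Finset.sum_le_sum fun q _ =>
    mul_le_mul (hff _) (hgg _) (hg _) ((hf _).trans (hff _))

theorem coeff_mul_nonneg {f g : PowerSeries ℝ} (hf : ∀ n, 0 ≤ PowerSeries.coeff n f)
    (hg : ∀ n, 0 ≤ PowerSeries.coeff n g) (n : ℕ) : 0 ≤ PowerSeries.coeff n (f * g) := by
  rw [PowerSeries.coeff_mul]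
  exact Finset.sum_nonneg fun q _ => mul_nonneg (hf _) (hg _)

end FB
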