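import Pool.Agent.Lib.MP_fb152f_pr.Alive2
import Pool.Agent.Lib.MP_fb152f_pr.Barrier

/-!
# ListBar: the barrier lemma for lists of steps (75 minutes)

`l = l1 ++ l2`, `k = l1.length`, `cc = ecol a (l1.map Prod.snd)` = colour of the point `k`.
All `ℓ > 0`, so `lpos ℓ l` is strictly increasing on `range (l.length + 1)`.
In the window `{j ≤ k}` the configuration `(a, l)` is the configuration `(a, l1)`
(`lpos`, `lcol` agree: `take j (l1 ++ l2) = take j l1` for `j ≤ k`); in the window `{k ≤ j}` it is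
the configuration `(cc, l2)` shifted by `k` (`alive_congr` with `e j = k + j`,
`lpos ℓ l (k + j) = lpos ℓ l k + lpos ℓ l2 j`, `lcol a l (k + j) = lcol cc l2 j`, from
`ecol a (cs1 ++ cs2) = ecol (ecol a cs1) cs2`).  Then use `barrier_iff` (`lb_iff`),
`barrier_left` (`lb_left`: if `k` is alive in `l` before `r` then for `r' ≤ r` the points
`j ≤ k` are alive in `l` iff they are alive in `l1`) and `barrier_right` (`lb_right`).
-/

set_option autoImplicit false

namespace FB

variable {ι : Type*}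

theorem ecol_append (a : Bool) (cs ds : List Bool) :
    ecol a (cs ++ ds) = ecol (ecol a cs) ds := by
  induction cs generalizing a with
  | nil => rfl
  | cons b cs ih => exact ih b

theorem aliveL_nil (ℓ : ι → ℝ) (a : Bool) (r : ℝ) : aliveL ℓ a [] r 0 := by
  refine alive_of_far (Finset.mem_range.mpr (Nat.succ_pos _)) fun j hj hj0 => ?_
  rw [Finset.mem_range, List.length_nil] at hj
  omega

theorem ListBar_llen_pos {ℓ : ι → ℝ} (hpos : ∀ i, 0 < ℓ i) :
    ∀ l : List (ι × Bool), 0 ≤ llen ℓ l ∧ (l ≠ [] → 0 < llen ℓ l) := by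
  intro l
  induction l with
  | nil =>
    refine ⟨le_of_eq rfl, fun h => absurd rfl h⟩
  | cons s l ih =>
    have h1 : llen ℓ (s :: l) = ℓ s.1 + llen ℓ l := by
      unfold llen
      rw [List.map_cons, List.sum_cons]
    have h2 := hpos s.1
    rw [h1]
    exact ⟨by linarith [ih.1], fun _ => by linarith [ih.1]⟩

theorem ListBar_mono {ℓ : ι → ℝ} (hpos : ∀ i, 0 < ℓ i) (l : List (ι × Bool)) :
    StrictMonoOn (lpos ℓ l) (Finset.range (l.length + 1) : Set ℕ) := by
  intro k hk k' hk' hlt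
  have hk2 : k' ≤ l.length := by
    have := Finset.mem_range.mp (Finset.mem_coe.mp hk')
    omega
  obtain ⟨d, hd, rfl⟩ : ∃ d, 0 < d ∧ k' = k + d := ⟨k' - k, by omega, by omega⟩
  have h1 : lpos ℓ l (k + d) = lpos ℓ l k + llen ℓ ((l.drop k).take d) := by
    unfold lpos llen
    rw [List.take_add, List.map_append, List.sum_append]
  have h2 : (l.drop k).take d ≠ [] := by
    intro h
    have := congrArg List.length h
    rw [List.length_take, List.length_drop, List.length_nil] at this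
    omega
  have h3 := (ListBar_llen_pos hpos _).2 h2
  rw [h1]
  linarith

theorem ListBar_take_left (l1 l2 : List (ι × Bool)) {j : ℕ} (hj : j ≤ l1.length) :
    (l1 ++ l2).take j = l1.take j := List.take_append_of_le_length hj

theorem ListBar_take_right (l1 l2 : List (ι × Bool)) (j : ℕ) :
    (l1 ++ l2).take (l1.length + j) = l1 ++ l2.take j := by
  rw [List.take_append, List.take_of_length_le (Nat.le_add_right _ _), Nat.add_sub_cancel_left]

theorem ListBar_left (ℓ : ι → ℝ) (a : Bool) (l1 l2 : List (ι × Bool)) (r : ℝ)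
    {j : ℕ} (hj : j ≤ l1.length) :
    alive (lpos ℓ (l1 ++ l2)) (lcol a (l1 ++ l2))
      ((Finset.range ((l1 ++ l2).length + 1)).filter (· ≤ l1.length)) r j ↔
      aliveL ℓ a l1 r j := by
  have e1 : (Finset.range ((l1 ++ l2).length + 1)).filter (· ≤ l1.length) =
      (Finset.range (l1.length + 1)).image id := by
    ext i
    simp only [Finset.mem_filter, Finset.mem_range, List.length_append, Finset.image_id]
    omega
  rw [e1]
  refine alive_congr (e := id) (fun _ _ _ _ h => h) ?_ ?_ r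
    (Finset.mem_range.mpr (Nat.lt_succ_iff.mpr hj))
  · intro i hi j hj
    have hi' : i ≤ l1.length := Nat.lt_succ_iff.mp (Finset.mem_range.mp hi)
    have hj' : j ≤ l1.length := Nat.lt_succ_iff.mp (Finset.mem_range.mp hj)
    unfold lpos
    rw [id, id, ListBar_take_left l1 l2 hi', ListBar_take_left l1 l2 hj']
  · intro i hi
    have hi' : i ≤ l1.length := Nat.lt_succ_iff.mp (Finset.mem_range.mp hi)
    unfold lcol
    rw [id, ListBar_take_left l1 l2 hi']

theorem ListBar_right (ℓ : ι → ℝ) (a : Bool) (l1 l2 : List (ι × Bool)) (r : ℝ)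
    {j : ℕ} (hj : j ≤ l2.length) :
    alive (lpos ℓ (l1 ++ l2)) (lcol a (l1 ++ l2))
      ((Finset.range ((l1 ++ l2).length + 1)).filter (l1.length ≤ ·)) r (l1.length + j) ↔
      aliveL ℓ (ecol a (l1.map Prod.snd)) l2 r j := by
  have e1 : (Finset.range ((l1 ++ l2).length + 1)).filter (l1.length ≤ ·) =
      (Finset.range (l2.length + 1)).image (fun i => l1.length + i) := by
    ext i
    simp only [Finset.mem_filter, Finset.mem_range, List.length_append, Finset.mem_image]
    constructor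
    · rintro ⟨h1, h2⟩
      exact ⟨i - l1.length, by omega, by omega⟩
    · rintro ⟨i', h1, rfl⟩
      omega
  rw [e1]
  refine alive_congr (e := fun i => l1.length + i)
    (fun _ _ _ _ h => Nat.add_left_cancel h) ?_ ?_ r
    (Finset.mem_range.mpr (Nat.lt_succ_iff.mpr hj))
  · intro i _ j _
    unfold lpos
    simp only [ListBar_take_right, List.map_append, List.sum_append]
    congr 1
    ring
  · intro i _
    unfold lcol
    simp only [ListBar_take_right, List.map_append, ecol_append]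

theorem ListBar_mem (l1 l2 : List (ι × Bool)) :
    l1.length ∈ Finset.range ((l1 ++ l2).length + 1) := by
  rw [Finset.mem_range, List.length_append]
  omega

/-- The cut point is alive iff it is alive on both sides. -/
theorem lb_iff {ℓ : ι → ℝ} (hpos : ∀ i, 0 < ℓ i) (a : Bool) (l1 l2 : List (ι × Bool)) (r : ℝ) :
    aliveL ℓ a (l1 ++ l2) r l1.length ↔
      EA ℓ a l1 r ∧ SA ℓ (ecol a (l1.map Prod.snd)) l2 r := by
  have h1 : aliveL ℓ a (l1 ++ l2) r l1.length ↔ _ :=
    barrier_iff (c := lcol a (l1 ++ l2)) (r := r) (ListBar_mono hpos (l1 ++ l2))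
      (ListBar_mem l1 l2)
  rw [h1]
  exact and_congr (ListBar_left ℓ a l1 l2 r le_rfl)
    (ListBar_right ℓ a l1 l2 r (Nat.zero_le _))

theorem lb_left {ℓ : ι → ℝ} (hpos : ∀ i, 0 < ℓ i) (a : Bool) (l1 l2 : List (ι × Bool))
    {r r' : ℝ} (hr : r' ≤ r) (h1 : EA ℓ a l1 r) (h2 : SA ℓ (ecol a (l1.map Prod.snd)) l2 r)
    {j : ℕ} (hj : j ≤ l1.length) : aliveL ℓ a (l1 ++ l2) r' j ↔ aliveL ℓ a l1 r' j := by
  have h3 : aliveL ℓ a (l1 ++ l2) r l1.length := (lb_iff hpos a l1 l2 r).mpr ⟨h1, h2⟩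
  have h4 : aliveL ℓ a (l1 ++ l2) r' j ↔ _ :=
    barrier_left (ListBar_mono hpos (l1 ++ l2)) (ListBar_mem l1 l2) h3 hr (i := j)
      (by rw [Finset.mem_range, List.length_append]; omega) hj
  rw [h4, ListBar_left ℓ a l1 l2 r' hj]

theorem lb_right {ℓ : ι → ℝ} (hpos : ∀ i, 0 < ℓ i) (a : Bool) (l1 l2 : List (ι × Bool))
    {r r' : ℝ} (hr : r' ≤ r) (h1 : EA ℓ a l1 r) (h2 : SA ℓ (ecol a (l1.map Prod.snd)) l2 r)
    {j : ℕ} (hj : j ≤ l2.length) : aliveL ℓ a (l1 ++ l2) r' (l1.length + j) ↔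
      aliveL ℓ (ecol a (l1.map Prod.snd)) l2 r' j := by
  have h3 : aliveL ℓ a (l1 ++ l2) r l1.length := (lb_iff hpos a l1 l2 r).mpr ⟨h1, h2⟩
  have h4 : aliveL ℓ a (l1 ++ l2) r' (l1.length + j) ↔ _ :=
    barrier_right (ListBar_mono hpos (l1 ++ l2)) (ListBar_mem l1 l2) h3 hr (i := l1.length + j)
      (by rw [Finset.mem_range, List.length_append]; omega) (Nat.le_add_right _ _)
  rw [h4, ListBar_right ℓ a l1 l2 r' hj]

theorem lb_SA {ℓ : ι → ℝ} (hpos : ∀ i, 0 < ℓ i) (a : Bool) (l1 l2 : List (ι × Bool)) {r r' : ℝ}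
    (hr : r' ≤ r) (h1 : EA ℓ a l1 r) (h2 : SA ℓ (ecol a (l1.map Prod.snd)) l2 r) :
    SA ℓ a (l1 ++ l2) r' ↔ SA ℓ a l1 r' :=
  lb_left hpos a l1 l2 hr h1 h2 (Nat.zero_le _)

theorem lb_EA {ℓ : ι → ℝ} (hpos : ∀ i, 0 < ℓ i) (a : Bool) (l1 l2 : List (ι × Bool)) {r r' : ℝ}
    (hr : r' ≤ r) (h1 : EA ℓ a l1 r) (h2 : SA ℓ (ecol a (l1.map Prod.snd)) l2 r) :
    EA ℓ a (l1 ++ l2) r' ↔ EA ℓ (ecol a (l1.map Prod.snd)) l2 r' := by
  have h := lb_right hpos a l1 l2 hr h1 h2 (le_refl l2.length)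
  unfold EA
  rw [List.length_append]
  exact h

end FB
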