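import Pool.Agent.Lib.MP_fb152f_pr.Defs

/-!
# Meas: measurability (45 minutes)
-/

set_option autoImplicit false

namespace FB

open MeasureTheory

theorem meas_aliveN {Ω : Type*} [MeasurableSpace Ω] {ι : Type*} {x : Ω → ι → ℝ}
    {c : Ω → ι → Bool} (hx : ∀ i, Measurable fun ω => x ω i)
    (hc : ∀ i, Measurable fun ω => c ω i) (W : Finset ι) (n : ℕ) :
    ∀ R : Ω → ℝ, Measurable R → ∀ i, MeasurableSet {ω | aliveN (x ω) (c ω) W n (R ω) i} := by
  induction n with
  | zero =>
    intro R _ i
    exact MeasurableSet.univ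
  | succ n ih =>
    intro R hR i
    have hset : {ω | aliveN (x ω) (c ω) W (n + 1) (R ω) i} = ⋂ j ∈ W,
        ({ω | j = i} ∪ ({ω | Compat (c ω i) (c ω j)}ᶜ ∪ ({ω | |x ω i - x ω j| < R ω}ᶜ ∪
          ({ω | aliveN (x ω) (c ω) W n |x ω i - x ω j| i} ∩
            {ω | aliveN (x ω) (c ω) W n |x ω i - x ω j| j})ᶜ))) := by
      ext ω
      simp only [Set.mem_iInter, Set.mem_union, Set.mem_compl_iff, Set.mem_inter_iff]
      change (∀ j ∈ W, j ≠ i → Compat (c ω i) (c ω j) → |x ω i - x ω j| < R ω →
        ¬ (aliveN (x ω) (c ω) W n |x ω i - x ω j| i ∧ aliveN (x ω) (c ω) W n |x ω i - x ω j| j)) ↔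
        ∀ j ∈ W, j = i ∨ ¬ Compat (c ω i) (c ω j) ∨ ¬ |x ω i - x ω j| < R ω ∨
        ¬ (aliveN (x ω) (c ω) W n |x ω i - x ω j| i ∧ aliveN (x ω) (c ω) W n |x ω i - x ω j| j)
      refine forall₂_congr fun j _ => ?_
      constructor
      · intro h
        by_cases h1 : j = i
        · exact Or.inl h1
        · by_cases h2 : Compat (c ω i) (c ω j)
          · by_cases h3 : |x ω i - x ω j| < R ω
            · exact Or.inr (Or.inr (Or.inr (h h1 h2 h3)))
            · exact Or.inr (Or.inr (Or.inl h3))
          · exact Or.inr (Or.inl h2)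
      · intro h h1 h2 h3
        rcases h with h | h | h | h
        · exact absurd h h1
        · exact absurd h2 h
        · exact absurd h3 h
        · exact h
    rw [hset]
    refine MeasurableSet.biInter W.countable_toSet fun j _ => ?_
    have hd : Measurable fun ω => |x ω i - x ω j| := ((hx i).sub (hx j)).abs
    refine MeasurableSet.union (MeasurableSet.const _) (MeasurableSet.union ?_
      (MeasurableSet.union ?_ ?_))
    · have h1 : {ω | Compat (c ω i) (c ω j)} =
          (fun ω => (c ω i, c ω j)) ⁻¹' {q : Bool × Bool | Compat q.1 q.2} := rfl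
      rw [h1]
      exact (((hc i).prodMk (hc j)) (MeasurableSet.of_discrete)).compl
    · exact (measurableSet_lt hd hR).compl
    · exact ((ih _ hd i).inter (ih _ hd j)).compl

theorem measurableSet_alive {Ω : Type*} [MeasurableSpace Ω] {ι : Type*} {x : Ω → ι → ℝ}
    {c : Ω → ι → Bool} {R : Ω → ℝ} (hx : ∀ i, Measurable fun ω => x ω i)
    (hc : ∀ i, Measurable fun ω => c ω i) (hR : Measurable R) (W : Finset ι) (i : ι) :
    MeasurableSet {ω | alive (x ω) (c ω) W (R ω) i} :=
  meas_aliveN hx hc W _ R hR i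

theorem meas_list_sum {ι : Type*} (l : List (ι × Bool)) :
    Measurable fun ℓ : ι → ℝ => (l.map fun s => ℓ s.1).sum := by
  induction l with
  | nil => simp
  | cons s l ih =>
    simp only [List.map_cons, List.sum_cons]
    exact (measurable_pi_apply s.1).add ih

theorem measurable_llen {ι : Type*} (l : List (ι × Bool)) :
    Measurable fun ℓ : ι → ℝ => llen ℓ l := meas_list_sum l

theorem measurable_slen {ι : Type*} (S : Finset ι) :
    Measurable fun ℓ : ι → ℝ => slen ℓ S := by
  unfold slen
  exact Finset.measurable_sum _ fun i _ => measurable_pi_apply i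

theorem meas_lpos {ι : Type*} (l : List (ι × Bool)) (k : ℕ) :
    Measurable fun ℓ : ι → ℝ => lpos ℓ l k := meas_list_sum (l.take k)

theorem measurableSet_SA {ι : Type*} {R : (ι → ℝ) → ℝ} (hR : Measurable R) (a : Bool)
    (l : List (ι × Bool)) : MeasurableSet {ℓ : ι → ℝ | SA ℓ a l (R ℓ)} :=
  measurableSet_alive (x := fun ℓ k => lpos ℓ l k) (c := fun _ k => lcol a l k)
    (fun k => meas_lpos l k) (fun _ => measurable_const) hR _ _

theorem measurableSet_EA {ι : Type*} {R : (ι → ℝ) → ℝ} (hR : Measurable R) (a : Bool)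
    (l : List (ι × Bool)) : MeasurableSet {ℓ : ι → ℝ | EA ℓ a l (R ℓ)} :=
  measurableSet_alive (x := fun ℓ k => lpos ℓ l k) (c := fun _ k => lcol a l k)
    (fun k => meas_lpos l k) (fun _ => measurable_const) hR _ _

theorem measurableSet_SAs (a : Bool) (n : ℕ) (r : ℝ) :
    MeasurableSet {ω : ℕ → ℝ × Bool | SAs a ω n r} := by
  refine measurableSet_alive (x := fun ω => spos ω) (c := fun ω => scol a ω) (fun k => ?_)
    (fun k => ?_) measurable_const _ _
  · unfold spos
    exact Finset.measurable_sum _ fun i _ => measurable_fst.comp (measurable_pi_apply i)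
  · cases k with
    | zero => exact measurable_const
    | succ k => exact measurable_snd.comp (measurable_pi_apply k)

theorem meas_ind_eq {Ω : Type*} (p : Ω → Prop) :
    (fun ω => ind (p ω)) = ({ω | p ω}).indicator (fun _ => (1 : ℝ)) := by
  funext ω
  unfold ind
  by_cases h : p ω
  · rw [if_pos h, Set.indicator_of_mem (show ω ∈ {ω | p ω} from h)]
  · rw [if_neg h, Set.indicator_of_notMem (show ω ∉ {ω | p ω} from h)]

theorem measurable_ind {Ω : Type*} [MeasurableSpace Ω] {p : Ω → Prop}
    (hp : MeasurableSet {ω | p ω}) : Measurable fun ω => ind (p ω) := by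
  rw [meas_ind_eq]
  exact measurable_const.indicator hp

theorem integral_ind {Ω : Type*} [MeasurableSpace Ω] {P : Measure Ω} [IsFiniteMeasure P]
    {p : Ω → Prop} (hp : MeasurableSet {ω | p ω}) :
    ∫ ω, ind (p ω) ∂P = P.real {ω | p ω} := by
  rw [meas_ind_eq, integral_indicator hp]
  simp

end FB
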