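import Pool.Agent.Lib.MP_fb152f_pr.Segs

/-!
# Point: pointwise crossing identities (90 minutes)

`ℓ` generic, `T ≠ ∅`, `r0 = slen ℓ T < r` and every `T'` with `slen ℓ T' < r` has `T' = T` or
`slen ℓ T' < r0`.  `l` has distinct labels (its segments are sets of labels, the length of a
segment is `slen` of its label set, `slen` is injective).

`point_SA`: by `SA_iff` at `r` and at `r0` the two differ only by the cuts `k` with
`r0 ≤ llen (l.take k) < r`, and then the label set of `l.take k` is `T` (hence `k = T.card` is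
unique), `llen (l.take k) = r0`.  If this cut has `Blk` and `SA (l.drop k) r0` then
`EA (l.take k) r0` and `SA (l.drop k) r0` hold, and `lb_SA` gives `SA l r0` (from
`SA (l.take k) r0`), while `SA l r` fails.  So `ind (SA l r) = ind (SA l r0) - ∑_k [...]`
(at most one term of the sum is different from 0).

`point_PP`: `SA l r ∧ EA l r` holds iff `SA l r0 ∧ EA l r0` and neither the start nor the end is
matched at `r0`.  The start is matched at `r0` and the end is alive before `r0` iff for the cut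
`k` with labels `T` : `Blk (l.take k)`, `SA (l.drop k) r0` and `EA (l.drop k) r0` (`lb_EA`); these
imply `SA l r0`, `EA l r0`.  Same for the end.  If both happen then the first `|T|` labels and the
last `|T|` labels both have the set `T`, hence `T` is the set of all labels, and the two
conditions are the same condition `Blk l` (`k = l.length`, resp. `k = 0`); this is corrected by the
last term.
-/

set_option autoImplicit false

namespace FB

variable {ι : Type*} [DecidableEq ι]

theorem point_ind_true {p : Prop} (h : p) : ind p = 1 := by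
  unfold ind
  exact if_pos h

theorem point_ind_false {p : Prop} (h : ¬ p) : ind p = 0 := by
  unfold ind
  exact if_neg h

theorem point_ind_and (p q : Prop) : ind p * ind q = ind (p ∧ q) := by
  by_cases hp : p
  · by_cases hq : q
    · rw [point_ind_true hp, point_ind_true hq, point_ind_true ⟨hp, hq⟩, one_mul]
    · rw [point_ind_false hq, point_ind_false (fun h : p ∧ q => hq h.2), mul_zero]
  · rw [point_ind_false hp, point_ind_false (fun h : p ∧ q => hp h.1), zero_mul]

theorem point_sum (n : ℕ) (P Q : ℕ → Prop) [DecidablePred P]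
    (h : ∀ k ≤ n, ∀ j ≤ n, P k → P j → k = j) :
    ∑ k ∈ Finset.range (n + 1), (if P k then ind (Q k) else 0) =
      ind (∃ k ≤ n, P k ∧ Q k) := by
  by_cases hex : ∃ k ≤ n, P k ∧ Q k
  · rw [point_ind_true hex]
    obtain ⟨k, hk, h1, h2⟩ := hex
    rw [Finset.sum_eq_single k]
    · rw [if_pos h1, point_ind_true h2]
    · intro j hj hne
      rw [if_neg]
      intro hP
      exact hne (h j (Nat.lt_succ_iff.mp (Finset.mem_range.mp hj)) k hk hP h1)
    · intro hk'
      exact absurd (Finset.mem_range.mpr (Nat.lt_succ_of_le hk)) hk'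
  · rw [point_ind_false hex]
    apply Finset.sum_eq_zero
    intro k hk
    split_ifs with hP
    · exact point_ind_false (fun hQ => hex ⟨k, Nat.lt_succ_iff.mp (Finset.mem_range.mp hk), hP, hQ⟩)
    · rfl

theorem point_llen (ℓ : ι → ℝ) {l : List (ι × Bool)} (hl : (l.map Prod.fst).Nodup) :
    llen ℓ l = slen ℓ (l.map Prod.fst).toFinset := by
  unfold llen slen
  rw [List.sum_toFinset _ hl, List.map_map]
  rfl

omit [DecidableEq ι] in
theorem point_take_nodup {l : List (ι × Bool)} (hl : (l.map Prod.fst).Nodup) (k : ℕ) :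
    ((l.take k).map Prod.fst).Nodup :=
  hl.sublist ((List.take_sublist k l).map Prod.fst)

omit [DecidableEq ι] in
theorem point_drop_nodup {l : List (ι × Bool)} (hl : (l.map Prod.fst).Nodup) (k : ℕ) :
    ((l.drop k).map Prod.fst).Nodup :=
  hl.sublist ((List.drop_sublist k l).map Prod.fst)

/-- a list of distinct labels of length below `r` has the label set `T` or is shorter -/
theorem point_dich {ℓ : ι → ℝ} {T : Finset ι} {r : ℝ}
    (hmax : ∀ T' : Finset ι, slen ℓ T' < r → T' = T ∨ slen ℓ T' < slen ℓ T)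
    {l : List (ι × Bool)} (hl : (l.map Prod.fst).Nodup) (h : llen ℓ l < r) :
    (l.map Prod.fst).toFinset = T ∨ llen ℓ l < slen ℓ T := by
  rw [point_llen ℓ hl] at h ⊢
  exact hmax _ h

theorem point_take_unique {l : List (ι × Bool)} (hl : (l.map Prod.fst).Nodup) {T : Finset ι}
    {k j : ℕ} (hk : k ≤ l.length) (hj : j ≤ l.length)
    (h1 : ((l.take k).map Prod.fst).toFinset = T) (h2 : ((l.take j).map Prod.fst).toFinset = T) :
    k = j := by
  have e1 := List.toFinset_card_of_nodup (point_take_nodup hl k)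
  have e2 := List.toFinset_card_of_nodup (point_take_nodup hl j)
  rw [h1] at e1
  rw [h2] at e2
  rw [List.length_map, List.length_take] at e1 e2
  omega

theorem point_drop_unique {l : List (ι × Bool)} (hl : (l.map Prod.fst).Nodup) {T : Finset ι}
    {k j : ℕ} (hk : k ≤ l.length) (hj : j ≤ l.length)
    (h1 : ((l.drop k).map Prod.fst).toFinset = T) (h2 : ((l.drop j).map Prod.fst).toFinset = T) :
    k = j := by
  have e1 := List.toFinset_card_of_nodup (point_drop_nodup hl k)
  have e2 := List.toFinset_card_of_nodup (point_drop_nodup hl j)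
  rw [h1] at e1
  rw [h2] at e2
  rw [List.length_map, List.length_drop] at e1 e2
  omega

/-- the start is matched at distance `slen T` (or there is a block with labels `T`) -/
def PointE (ℓ : ι → ℝ) (T : Finset ι) (a : Bool) (l : List (ι × Bool)) (k : ℕ) : Prop :=
  Blk ℓ a (l.take k) ∧ SA ℓ (ecol a ((l.take k).map Prod.snd)) (l.drop k) (slen ℓ T)

def PointF (ℓ : ι → ℝ) (T : Finset ι) (a : Bool) (l : List (ι × Bool)) (k : ℕ) : Prop :=
  Blk ℓ (ecol a ((l.take k).map Prod.snd)) (l.drop k) ∧ EA ℓ a (l.take k) (slen ℓ T)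

theorem point_SA_split {ℓ : ι → ℝ} (hpos : ∀ i, 0 < ℓ i) {T : Finset ι} {r : ℝ}
    (hr : slen ℓ T < r) (hmax : ∀ T' : Finset ι, slen ℓ T' < r → T' = T ∨ slen ℓ T' < slen ℓ T)
    (a : Bool) {l : List (ι × Bool)} (hl : (l.map Prod.fst).Nodup) :
    SA ℓ a l r ↔ SA ℓ a l (slen ℓ T) ∧
      ¬ ∃ k ≤ l.length, ((l.take k).map Prod.fst).toFinset = T ∧ PointE ℓ T a l k := by
  constructor
  · intro h
    refine ⟨SA_anti hr.le h, ?_⟩
    rintro ⟨k, hk, h1, h2, h3⟩
    have e : llen ℓ (l.take k) = slen ℓ T := by rw [point_llen ℓ (point_take_nodup hl k), h1]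
    have := (SA_iff hpos a l r).mp h k hk (by rw [e]; exact hr) h2
    rw [e] at this
    exact this h3
  · rintro ⟨h, hE⟩
    rw [SA_iff hpos a l r]
    intro k hk h1 h2
    rcases point_dich hmax (point_take_nodup hl k) h1 with h3 | h3
    · have e : llen ℓ (l.take k) = slen ℓ T := by rw [point_llen ℓ (point_take_nodup hl k), h3]
      rw [e]
      intro h4
      exact hE ⟨k, hk, h3, h2, h4⟩
    · exact (SA_iff hpos a l _).mp h k hk h3 h2

theorem point_EA_split {ℓ : ι → ℝ} (hpos : ∀ i, 0 < ℓ i) {T : Finset ι} {r : ℝ}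
    (hr : slen ℓ T < r) (hmax : ∀ T' : Finset ι, slen ℓ T' < r → T' = T ∨ slen ℓ T' < slen ℓ T)
    (a : Bool) {l : List (ι × Bool)} (hl : (l.map Prod.fst).Nodup) :
    EA ℓ a l r ↔ EA ℓ a l (slen ℓ T) ∧
      ¬ ∃ k ≤ l.length, ((l.drop k).map Prod.fst).toFinset = T ∧ PointF ℓ T a l k := by
  constructor
  · intro h
    refine ⟨EA_anti hr.le h, ?_⟩
    rintro ⟨k, hk, h1, h2, h3⟩
    have e : llen ℓ (l.drop k) = slen ℓ T := by rw [point_llen ℓ (point_drop_nodup hl k), h1]
    have := (EA_iff hpos a l r).mp h k hk (by rw [e]; exact hr) h2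
    rw [e] at this
    exact this h3
  · rintro ⟨h, hE⟩
    rw [EA_iff hpos a l r]
    intro k hk h1 h2
    rcases point_dich hmax (point_drop_nodup hl k) h1 with h3 | h3
    · have e : llen ℓ (l.drop k) = slen ℓ T := by rw [point_llen ℓ (point_drop_nodup hl k), h3]
      rw [e]
      intro h4
      exact hE ⟨k, hk, h3, h2, h4⟩
    · exact (EA_iff hpos a l _).mp h k hk h3 h2

/-- facts at a cut with first block `T` -/
theorem point_E {ℓ : ι → ℝ} (hpos : ∀ i, 0 < ℓ i) {T : Finset ι} {a : Bool}
    {l : List (ι × Bool)} (hl : (l.map Prod.fst).Nodup) {k : ℕ}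
    (h1 : ((l.take k).map Prod.fst).toFinset = T) (h2 : PointE ℓ T a l k) :
    SA ℓ a l (slen ℓ T) ∧ (EA ℓ a l (slen ℓ T) ↔
      EA ℓ (ecol a ((l.take k).map Prod.snd)) (l.drop k) (slen ℓ T)) := by
  have e : llen ℓ (l.take k) = slen ℓ T := by rw [point_llen ℓ (point_take_nodup hl k), h1]
  obtain ⟨⟨-, -, h4, h5⟩, h6⟩ := h2
  rw [e] at h4 h5
  have h7 := lb_SA hpos a (l.take k) (l.drop k) (le_refl (slen ℓ T)) h5 h6
  have h8 := lb_EA hpos a (l.take k) (l.drop k) (le_refl (slen ℓ T)) h5 h6
  rw [List.take_append_drop] at h7 h8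
  exact ⟨h7.mpr h4, h8⟩

/-- facts at a cut with last block `T` -/
theorem point_F {ℓ : ι → ℝ} (hpos : ∀ i, 0 < ℓ i) {T : Finset ι} {a : Bool}
    {l : List (ι × Bool)} (hl : (l.map Prod.fst).Nodup) {k : ℕ}
    (h1 : ((l.drop k).map Prod.fst).toFinset = T) (h2 : PointF ℓ T a l k) :
    EA ℓ a l (slen ℓ T) ∧ (SA ℓ a l (slen ℓ T) ↔ SA ℓ a (l.take k) (slen ℓ T)) := by
  have e : llen ℓ (l.drop k) = slen ℓ T := by rw [point_llen ℓ (point_drop_nodup hl k), h1]
  obtain ⟨⟨-, -, h4, h5⟩, h6⟩ := h2
  rw [e] at h4 h5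
  have h7 := lb_SA hpos a (l.take k) (l.drop k) (le_refl (slen ℓ T)) h6 h4
  have h8 := lb_EA hpos a (l.take k) (l.drop k) (le_refl (slen ℓ T)) h6 h4
  rw [List.take_append_drop] at h7 h8
  exact ⟨h8.mpr h5, h7⟩

open Classical in
theorem point_SA {ℓ : ι → ℝ} (hℓ : Generic ℓ) {T : Finset ι} (hT : T ≠ ∅) {r : ℝ}
    (hr : slen ℓ T < r) (hmax : ∀ T' : Finset ι, slen ℓ T' < r → T' = T ∨ slen ℓ T' < slen ℓ T)
    (a : Bool) {l : List (ι × Bool)} (hl : (l.map Prod.fst).Nodup) :
    ind (SA ℓ a l r) = ind (SA ℓ a l (slen ℓ T)) -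
      ∑ k ∈ Finset.range (l.length + 1),
        (if ((l.take k).map Prod.fst).toFinset = T then
          ind (Blk ℓ a (l.take k)) *
            ind (SA ℓ (ecol a ((l.take k).map Prod.snd)) (l.drop k) (slen ℓ T)) else 0) := by
  have hsum : ∑ k ∈ Finset.range (l.length + 1),
        (if ((l.take k).map Prod.fst).toFinset = T then
          ind (Blk ℓ a (l.take k)) *
            ind (SA ℓ (ecol a ((l.take k).map Prod.snd)) (l.drop k) (slen ℓ T)) else 0) =
      ind (∃ k ≤ l.length, ((l.take k).map Prod.fst).toFinset = T ∧ PointE ℓ T a l k) := by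
    rw [← point_sum l.length (fun k => ((l.take k).map Prod.fst).toFinset = T)
      (fun k => PointE ℓ T a l k) (fun k hk j hj h1 h2 => point_take_unique hl hk hj h1 h2)]
    apply Finset.sum_congr rfl
    intro k _
    rw [point_ind_and]
    rfl
  rw [hsum]
  have hsplit := point_SA_split hℓ.1 hr hmax a hl
  by_cases hE : ∃ k ≤ l.length, ((l.take k).map Prod.fst).toFinset = T ∧ PointE ℓ T a l k
  · obtain ⟨k, hk, h1, h2⟩ := hE
    have h3 := (point_E hℓ.1 hl h1 h2).1
    have h4 : ¬ SA ℓ a l r := fun h => (hsplit.mp h).2 ⟨k, hk, h1, h2⟩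
    rw [point_ind_false h4, point_ind_true h3, point_ind_true ⟨k, hk, h1, h2⟩]
    ring
  · rw [point_ind_false hE, sub_zero]
    by_cases h : SA ℓ a l (slen ℓ T)
    · rw [point_ind_true h, point_ind_true (hsplit.mpr ⟨h, hE⟩)]
    · rw [point_ind_false h, point_ind_false (fun h' => h (hsplit.mp h').1)]

open Classical in
theorem point_PP {ℓ : ι → ℝ} (hℓ : Generic ℓ) {T : Finset ι} (hT : T ≠ ∅) {r : ℝ}
    (hr : slen ℓ T < r) (hmax : ∀ T' : Finset ι, slen ℓ T' < r → T' = T ∨ slen ℓ T' < slen ℓ T)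
    (a : Bool) {l : List (ι × Bool)} (hl : (l.map Prod.fst).Nodup) :
    ind (SA ℓ a l r ∧ EA ℓ a l r) = ind (SA ℓ a l (slen ℓ T) ∧ EA ℓ a l (slen ℓ T)) -
      ∑ k ∈ Finset.range (l.length + 1),
        (if ((l.take k).map Prod.fst).toFinset = T then
          ind (Blk ℓ a (l.take k)) *
            ind (SA ℓ (ecol a ((l.take k).map Prod.snd)) (l.drop k) (slen ℓ T) ∧
              EA ℓ (ecol a ((l.take k).map Prod.snd)) (l.drop k) (slen ℓ T)) else 0) -
      ∑ k ∈ Finset.range (l.length + 1),
        (if ((l.drop k).map Prod.fst).toFinset = T then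
          ind (SA ℓ a (l.take k) (slen ℓ T) ∧ EA ℓ a (l.take k) (slen ℓ T)) *
            ind (Blk ℓ (ecol a ((l.take k).map Prod.snd)) (l.drop k)) else 0) +
      (if (l.map Prod.fst).toFinset = T then ind (Blk ℓ a l) else 0) := by
  set E1 : Prop := ∃ k ≤ l.length, ((l.take k).map Prod.fst).toFinset = T ∧
    (Blk ℓ a (l.take k) ∧ (SA ℓ (ecol a ((l.take k).map Prod.snd)) (l.drop k) (slen ℓ T) ∧
      EA ℓ (ecol a ((l.take k).map Prod.snd)) (l.drop k) (slen ℓ T))) with hE1
  set E2 : Prop := ∃ k ≤ l.length, ((l.drop k).map Prod.fst).toFinset = T ∧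
    ((SA ℓ a (l.take k) (slen ℓ T) ∧ EA ℓ a (l.take k) (slen ℓ T)) ∧
      Blk ℓ (ecol a ((l.take k).map Prod.snd)) (l.drop k)) with hE2
  have hsum1 : ∑ k ∈ Finset.range (l.length + 1),
        (if ((l.take k).map Prod.fst).toFinset = T then
          ind (Blk ℓ a (l.take k)) *
            ind (SA ℓ (ecol a ((l.take k).map Prod.snd)) (l.drop k) (slen ℓ T) ∧
              EA ℓ (ecol a ((l.take k).map Prod.snd)) (l.drop k) (slen ℓ T)) else 0) =
      ind E1 := by
    rw [hE1, ← point_sum l.length (fun k => ((l.take k).map Prod.fst).toFinset = T)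
      _ (fun k hk j hj h1 h2 => point_take_unique hl hk hj h1 h2)]
    apply Finset.sum_congr rfl
    intro k _
    rw [point_ind_and]
  have hsum2 : ∑ k ∈ Finset.range (l.length + 1),
        (if ((l.drop k).map Prod.fst).toFinset = T then
          ind (SA ℓ a (l.take k) (slen ℓ T) ∧ EA ℓ a (l.take k) (slen ℓ T)) *
            ind (Blk ℓ (ecol a ((l.take k).map Prod.snd)) (l.drop k)) else 0) = ind E2 := by
    rw [hE2, ← point_sum l.length (fun k => ((l.drop k).map Prod.fst).toFinset = T)
      _ (fun k hk j hj h1 h2 => point_drop_unique hl hk hj h1 h2)]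
    apply Finset.sum_congr rfl
    intro k _
    rw [point_ind_and]
  have hsum3 : (if (l.map Prod.fst).toFinset = T then ind (Blk ℓ a l) else 0) =
      ind (E1 ∧ E2) := by
    by_cases hlT : (l.map Prod.fst).toFinset = T
    · rw [if_pos hlT]
      by_cases hB : Blk ℓ a l
      · rw [point_ind_true hB, point_ind_true]
        refine ⟨⟨l.length, le_rfl, ?_, ?_, ?_, ?_⟩, ⟨0, Nat.zero_le _, ?_, ⟨?_, ?_⟩, ?_⟩⟩
        · rw [List.take_length]
          exact hlT
        · rw [List.take_length]
          exact hB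
        · rw [List.drop_length]
          exact aliveL_nil _ _ _
        · rw [List.drop_length]
          exact aliveL_nil _ _ _
        · rw [List.drop_zero]
          exact hlT
        · rw [List.take_zero]
          exact aliveL_nil _ _ _
        · rw [List.take_zero]
          exact aliveL_nil _ _ _
        · rw [List.drop_zero]
          exact hB
      · rw [point_ind_false hB, point_ind_false]
        rintro ⟨⟨k, hk, h1, h2, -⟩, -⟩
        have h3 := point_take_unique hl hk (le_refl l.length) h1 (by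
          rw [List.take_length]
          exact hlT)
        rw [h3, List.take_length] at h2
        exact hB h2
    · rw [if_neg hlT, point_ind_false]
      rintro ⟨⟨k, hk, h1, ⟨hne, -⟩, -⟩, ⟨j, hj, h3, -, hne', -⟩⟩
      apply hlT
      -- the first label lies in the last block
      have hk0 : k ≠ 0 := by
        rintro rfl
        exact hne (List.take_zero)
      have hjl : j < l.length := by
        by_contra hcon
        exact hne' (List.drop_eq_nil_of_le (by omega))
      have hj0 : j = 0 := by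
        by_contra hj0
        have hpos0 : 0 < l.length := by omega
        have hm : (l[0]'hpos0).1 ∈ ((l.take k).map Prod.fst).toFinset := by
          rw [List.mem_toFinset, List.mem_map]
          refine ⟨l[0]'hpos0, ?_, rfl⟩
          rw [List.mem_take_iff_getElem]
          exact ⟨0, by omega, rfl⟩
        rw [h1, ← h3, List.mem_toFinset, List.mem_map] at hm
        obtain ⟨x, hx, hx2⟩ := hm
        rw [List.mem_drop_iff_getElem] at hx
        obtain ⟨i, hi, hi2⟩ := hx
        have h5 : (l.map Prod.fst)[j + i]'(by rw [List.length_map]; omega) =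
            (l.map Prod.fst)[0]'(by rw [List.length_map]; omega) := by
          rw [List.getElem_map, List.getElem_map, hi2]
          exact hx2
        have h6 := (List.Nodup.getElem_inj_iff hl).mp h5
        omega
      rw [hj0, List.drop_zero] at h3
      exact h3
  rw [hsum1, hsum2, hsum3]
  have hs := point_SA_split hℓ.1 hr hmax a hl
  have he := point_EA_split hℓ.1 hr hmax a hl
  have hi : (SA ℓ a l r ∧ EA ℓ a l r) ↔ (SA ℓ a l (slen ℓ T) ∧ EA ℓ a l (slen ℓ T)) ∧ ¬ E1 ∧ ¬ E2 := by
    constructor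
    · rintro ⟨h1, h2⟩
      refine ⟨⟨SA_anti hr.le h1, EA_anti hr.le h2⟩, ?_, ?_⟩
      · rintro ⟨k, hk, h3, h4, h5, -⟩
        exact (hs.mp h1).2 ⟨k, hk, h3, h4, h5⟩
      · rintro ⟨k, hk, h3, ⟨-, h5⟩, h4⟩
        exact (he.mp h2).2 ⟨k, hk, h3, h4, h5⟩
    · rintro ⟨⟨h1, h2⟩, h3, h4⟩
      constructor
      · rw [hs]
        refine ⟨h1, ?_⟩
        rintro ⟨k, hk, h5, h6⟩
        have h7 := (point_E hℓ.1 hl h5 h6).2.mp h2
        exact h3 ⟨k, hk, h5, h6.1, h6.2, h7⟩
      · rw [he]
        refine ⟨h2, ?_⟩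
        rintro ⟨k, hk, h5, h6⟩
        have h7 := (point_F hℓ.1 hl h5 h6).2.mp h1
        exact h4 ⟨k, hk, h5, ⟨h7, h6.2⟩, h6.1⟩
  have h1imp : E1 → (SA ℓ a l (slen ℓ T) ∧ EA ℓ a l (slen ℓ T)) := by
    rintro ⟨k, hk, h5, h6, h7, h8⟩
    have h9 := point_E hℓ.1 hl h5 (show PointE ℓ T a l k from ⟨h6, h7⟩)
    exact ⟨h9.1, h9.2.mpr h8⟩
  have h2imp : E2 → (SA ℓ a l (slen ℓ T) ∧ EA ℓ a l (slen ℓ T)) := by
    rintro ⟨k, hk, h5, ⟨h7, h8⟩, h6⟩
    have h9 := point_F hℓ.1 hl h5 (show PointF ℓ T a l k from ⟨h6, h8⟩)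
    exact ⟨h9.2.mpr h7, h9.1⟩
  by_cases c1 : E1
  · have h0 := h1imp c1
    rw [point_ind_true h0, point_ind_true c1, point_ind_false (fun h => (hi.mp h).2.1 c1)]
    by_cases c2 : E2
    · rw [point_ind_true c2, point_ind_true ⟨c1, c2⟩]
      ring
    · rw [point_ind_false c2, point_ind_false (fun h => c2 h.2)]
      ring
  · rw [point_ind_false c1, point_ind_false (fun h : E1 ∧ E2 => c1 h.1)]
    by_cases c2 : E2
    · have h0 := h2imp c2
      rw [point_ind_true h0, point_ind_true c2, point_ind_false (fun h => (hi.mp h).2.2 c2)]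
      ring
    · rw [point_ind_false c2]
      by_cases h0 : SA ℓ a l (slen ℓ T) ∧ EA ℓ a l (slen ℓ T)
      · rw [point_ind_true h0, point_ind_true (hi.mpr ⟨h0, c1, c2⟩)]
        ring
      · rw [point_ind_false h0, point_ind_false (fun h => h0 (hi.mp h).1)]
        ring

end FB
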