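import Pool.Agent.Lib.MP_fb152f_pr.Alive2
import Pool.Agent.Lib.MP_fb152f_pr.Weights

/-!
# Rev: reversal of a configuration (60 minutes)

The configuration `(a, l)` read from its other end is `(ecol a l, revc a l)`.
* `revc_ecol`, `revc_revc`: `revc` is an involution on pairs; induction on `l` with the rule for
  `revc a (l ++ [(s, b)]) = (s, ecol a l) :: revc a l`.
* `EA_rev`: `alive_congr` with the reflection `e j = l.length - j` of `range (l.length + 1)`:
  distances and colours are preserved (`lpos ℓ (revc a l) (l.length - j) = llen ℓ l - lpos ℓ l j`,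
  `lcol (ecol a l) (revc a l) (l.length - j) = lcol a l j`).
* `pw_rev`: the same edges in the other order.
* `sum_rev`: bijection `l ↦ (ecol a l, revc a l)` of `cord A` onto the pairs `(b, l')`,
  `l' ∈ cord A`, `ecol b l' = a`.
-/

set_option autoImplicit false

namespace FB

variable {ι : Type*}

/-- The reversed list of steps. -/
def revc : Bool → List (ι × Bool) → List (ι × Bool)
  | _, [] => []
  | a, (s, b) :: l => revc b l ++ [(s, a)]

theorem Rev_ecol_append (a : Bool) (cs ds : List Bool) :
    ecol a (cs ++ ds) = ecol (ecol a cs) ds := by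
  induction cs generalizing a with
  | nil => rfl
  | cons b cs ih => exact ih b

theorem Rev_append (a : Bool) (l1 l2 : List (ι × Bool)) :
    revc a (l1 ++ l2) = revc (ecol a (l1.map Prod.snd)) l2 ++ revc a l1 := by
  induction l1 generalizing a with
  | nil => exact (List.append_nil _).symm
  | cons x l1 ih =>
    obtain ⟨s, b⟩ := x
    show revc b (l1 ++ l2) ++ [(s, a)] = revc (ecol b (l1.map Prod.snd)) l2 ++
      (revc b l1 ++ [(s, a)])
    rw [ih, List.append_assoc]

theorem Rev_length (a : Bool) (l : List (ι × Bool)) : (revc a l).length = l.length := by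
  induction l generalizing a with
  | nil => rfl
  | cons x l ih =>
    obtain ⟨s, b⟩ := x
    show (revc b l ++ [(s, a)]).length = l.length + 1
    rw [List.length_append, ih]
    rfl

theorem Rev_labels (a : Bool) (l : List (ι × Bool)) :
    (revc a l).map Prod.fst = (l.map Prod.fst).reverse := by
  induction l generalizing a with
  | nil => rfl
  | cons x l ih =>
    obtain ⟨s, b⟩ := x
    show (revc b l ++ [(s, a)]).map Prod.fst = _
    rw [List.map_append, ih]
    show (l.map Prod.fst).reverse ++ [s] = (s :: l.map Prod.fst).reverse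
    rw [List.reverse_cons]

theorem Rev_llen (ℓ : ι → ℝ) (a : Bool) (l : List (ι × Bool)) :
    llen ℓ (revc a l) = llen ℓ l := by
  induction l generalizing a with
  | nil => rfl
  | cons x l ih =>
    obtain ⟨s, b⟩ := x
    have h1 := ih b
    unfold llen at h1 ⊢
    show ((revc b l ++ [(s, a)]).map fun s => ℓ s.1).sum = _
    rw [List.map_append, List.sum_append, h1, List.map_cons, List.map_cons, List.sum_cons,
      List.sum_cons, List.map_nil, List.sum_nil]
    ring

theorem ecol_revc (a : Bool) (l : List (ι × Bool)) :
    ecol (ecol a (l.map Prod.snd)) ((revc a l).map Prod.snd) = a := by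
  cases l with
  | nil => rfl
  | cons x l =>
    obtain ⟨s, b⟩ := x
    show ecol _ ((revc b l ++ [(s, a)]).map Prod.snd) = a
    rw [List.map_append, Rev_ecol_append]
    rfl

theorem revc_revc (a : Bool) (l : List (ι × Bool)) :
    revc (ecol a (l.map Prod.snd)) (revc a l) = l := by
  induction l generalizing a with
  | nil => rfl
  | cons x l ih =>
    obtain ⟨s, b⟩ := x
    show revc (ecol b (l.map Prod.snd)) (revc b l ++ [(s, a)]) = (s, b) :: l
    rw [Rev_append, ecol_revc, ih]
    rfl

theorem Rev_take (a : Bool) (l : List (ι × Bool)) {j : ℕ} (hj : j ≤ l.length) :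
    (revc a l).take (l.length - j) = revc (ecol a ((l.take j).map Prod.snd)) (l.drop j) := by
  have h1 : revc a l = revc (ecol a ((l.take j).map Prod.snd)) (l.drop j) ++ revc a (l.take j) := by
    rw [← Rev_append, List.take_append_drop]
  rw [h1]
  have h2 : l.length - j = (revc (ecol a ((l.take j).map Prod.snd)) (l.drop j)).length := by
    rw [Rev_length, List.length_drop]
  rw [h2]
  exact List.take_left

theorem EA_revc (ℓ : ι → ℝ) (a : Bool) (l : List (ι × Bool)) (r : ℝ) :
    EA ℓ (ecol a (l.map Prod.snd)) (revc a l) r ↔ SA ℓ a l r := by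
  have h := alive_congr (x := lpos ℓ l) (c := lcol a l) (W := Finset.range (l.length + 1))
    (x' := lpos ℓ (revc a l)) (c' := lcol (ecol a (l.map Prod.snd)) (revc a l))
    (e := fun j => l.length - j) ?_ ?_ ?_ r (i := 0) (Finset.mem_range.mpr (Nat.succ_pos _))
  · have e1 : (Finset.range (l.length + 1)).image (fun j => l.length - j) =
        Finset.range ((revc a l).length + 1) := by
      ext i
      rw [Rev_length]
      simp only [Finset.mem_image, Finset.mem_range]
      constructor
      · rintro ⟨j, hj, rfl⟩
        omega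
      · intro hi
        exact ⟨l.length - i, by omega, by omega⟩
    rw [e1] at h
    unfold EA SA aliveL
    rw [← h, Rev_length]
    rfl
  · intro i hi j hj hij
    have hi' := Finset.mem_range.mp (Finset.mem_coe.mp hi)
    have hj' := Finset.mem_range.mp (Finset.mem_coe.mp hj)
    simp only at hij
    omega
  · intro i hi j hj
    have hi' : i ≤ l.length := Nat.lt_succ_iff.mp (Finset.mem_range.mp hi)
    have hj' : j ≤ l.length := Nat.lt_succ_iff.mp (Finset.mem_range.mp hj)
    have key : ∀ k ≤ l.length, lpos ℓ (revc a l) (l.length - k) = llen ℓ l - lpos ℓ l k := by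
      intro k hk
      have h1 : lpos ℓ (revc a l) (l.length - k) = llen ℓ (l.drop k) := by
        rw [← Rev_llen ℓ (ecol a ((l.take k).map Prod.snd)) (l.drop k), ← Rev_take a l hk]
        rfl
      have h2 : llen ℓ l = lpos ℓ l k + llen ℓ (l.drop k) := by
        unfold llen lpos
        rw [← List.sum_append, ← List.map_append, List.take_append_drop]
      rw [h1, h2]
      ring
    rw [key i hi', key j hj', ← abs_neg]
    congr 1
    ring
  · intro i hi
    have hi' : i ≤ l.length := Nat.lt_succ_iff.mp (Finset.mem_range.mp hi)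
    unfold lcol
    rw [Rev_take a l hi']
    have h1 : ecol a (l.map Prod.snd) =
        ecol (ecol a ((l.take i).map Prod.snd)) ((l.drop i).map Prod.snd) := by
      rw [← Rev_ecol_append, ← List.map_append, List.take_append_drop]
    rw [h1, ecol_revc]

theorem pw_revc (t : ℝ) (a : Bool) (l : List (ι × Bool)) :
    pw t (ecol a (l.map Prod.snd)) ((revc a l).map Prod.snd) = pw t a (l.map Prod.snd) := by
  induction l generalizing a with
  | nil => rfl
  | cons x l ih =>
    obtain ⟨s, b⟩ := x
    show pw t (ecol b (l.map Prod.snd)) ((revc b l ++ [(s, a)]).map Prod.snd) =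
      v t a * v t b * pw t b (l.map Prod.snd)
    rw [List.map_append, pw_append, ecol_revc, ih]
    show pw t b (l.map Prod.snd) * (v t b * v t a * 1) = _
    ring

theorem Rev_mem_cord [DecidableEq ι] {A : Finset ι} {l : List (ι × Bool)} (a : Bool)
    (h : l ∈ cord A) : revc a l ∈ cord A := by
  obtain ⟨h1, h2⟩ := mem_cord.mp h
  rw [mem_cord, Rev_labels, List.nodup_reverse, List.toFinset_reverse]
  exact ⟨h1, h2⟩

theorem sum_rev [DecidableEq ι] (A : Finset ι) (a : Bool) (F : Bool → List (ι × Bool) → ℝ) :
    ∑ l ∈ cord A, F (ecol a (l.map Prod.snd)) (revc a l) =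
      ∑ b : Bool, ∑ l ∈ cord A, ind (ecol b (l.map Prod.snd) = a) * F b l := by
  rw [← Finset.sum_product']
  have e1 : ∀ x ∈ (Finset.univ : Finset Bool) ×ˢ cord A,
      ind (ecol x.1 (x.2.map Prod.snd) = a) * F x.1 x.2 =
      if ecol x.1 (x.2.map Prod.snd) = a then F x.1 x.2 else 0 := by
    intro x _
    unfold ind
    split_ifs
    · rw [one_mul]
    · rw [zero_mul]
  rw [Finset.sum_congr rfl e1, ← Finset.sum_filter]
  refine Finset.sum_nbij' (fun l => (ecol a (l.map Prod.snd), revc a l))
    (fun x => revc x.1 x.2) ?_ ?_ ?_ ?_ ?_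
  · intro l hl
    rw [Finset.mem_filter, Finset.mem_product]
    exact ⟨⟨Finset.mem_univ _, Rev_mem_cord a hl⟩, ecol_revc a l⟩
  · rintro ⟨b, l⟩ hx
    rw [Finset.mem_filter, Finset.mem_product] at hx
    exact Rev_mem_cord b hx.1.2
  · intro l _
    exact revc_revc a l
  · rintro ⟨b, l⟩ hx
    rw [Finset.mem_filter] at hx
    obtain ⟨-, hx⟩ := hx
    simp only at hx
    subst hx
    simp only [ecol_revc, revc_revc]
  · intro l _
    rfl

end FB
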