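import Pool.Agent.Lib.MP_fb152f_pr.ListBar
import Pool.Agent.Lib.MP_fb152f_pr.Cord

/-!
# Segs: the matching of the start and of the end in a list configuration (75 minutes)

All `ℓ > 0`.  Points of the configuration `(a, l)` are `0, ..., l.length`; the distance of the
points `0` and `k` is `llen ℓ (l.take k)`, the distance of the points `k` and `l.length` is
`llen ℓ (l.drop k)` (`lpos` is a sum over `take`).

`SA_iff`: `alive_iff` for the point `0`: the start is alive before `r` iff there is no cut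
`l = l1 ++ l2` (`l1 ≠ []`, `l1 = l.take k`) with `llen l1 < r`, compatible colours
(colour of the point `k` is `ecol a (l1.map Prod.snd)`), and `0`, `k` both alive before
`d = llen l1`.  By `lb_iff` the point `k` is alive before `d` iff `EA l1 d` and `SA l2 d`; in this
case `lb_left` gives `SA l d ↔ SA l1 d`.

`EA_iff`: the same for the end (`lb_right`).

`SA_EA_far`: if start and end are compatible, `l ≠ []` and `llen ℓ l < r` then not both are alive
before `r` (`alive_sep`).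
-/

set_option autoImplicit false

namespace FB

variable {ι : Type*}

/-- The block `l1` (from a point of colour `a`) has compatible ends which are both alive inside the
block before its length. -/
def Blk (ℓ : ι → ℝ) (a : Bool) (l1 : List (ι × Bool)) : Prop :=
  l1 ≠ [] ∧ Compat a (ecol a (l1.map Prod.snd)) ∧ SA ℓ a l1 (llen ℓ l1) ∧ EA ℓ a l1 (llen ℓ l1)

theorem Segs_llen_nonneg {ℓ : ι → ℝ} (hpos : ∀ i, 0 < ℓ i) (l : List (ι × Bool)) :
    0 ≤ llen ℓ l := by
  unfold llen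
  refine List.sum_nonneg fun x hx => ?_
  rw [List.mem_map] at hx
  obtain ⟨s, -, rfl⟩ := hx
  exact (hpos s.1).le

theorem Segs_llen_append (ℓ : ι → ℝ) (l1 l2 : List (ι × Bool)) :
    llen ℓ (l1 ++ l2) = llen ℓ l1 + llen ℓ l2 := by
  unfold llen
  rw [List.map_append, List.sum_append]

theorem Segs_lpos (ℓ : ι → ℝ) (l : List (ι × Bool)) (k : ℕ) :
    lpos ℓ l k = llen ℓ (l.take k) := rfl

theorem Segs_lpos_zero (ℓ : ι → ℝ) (l : List (ι × Bool)) : lpos ℓ l 0 = 0 := by
  rw [Segs_lpos, List.take_zero]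
  rfl

theorem Segs_dist_left {ℓ : ι → ℝ} (hpos : ∀ i, 0 < ℓ i) (l : List (ι × Bool)) (k : ℕ) :
    |lpos ℓ l 0 - lpos ℓ l k| = llen ℓ (l.take k) := by
  rw [Segs_lpos_zero, zero_sub, abs_neg, Segs_lpos, abs_of_nonneg (Segs_llen_nonneg hpos _)]

theorem Segs_dist_right {ℓ : ι → ℝ} (hpos : ∀ i, 0 < ℓ i) (l : List (ι × Bool)) (k : ℕ) :
    |lpos ℓ l l.length - lpos ℓ l k| = llen ℓ (l.drop k) := by
  have h1 : llen ℓ l = llen ℓ (l.take k) + llen ℓ (l.drop k) := by
    rw [← Segs_llen_append, List.take_append_drop]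
  rw [Segs_lpos, Segs_lpos, List.take_length, h1, add_sub_cancel_left,
    abs_of_nonneg (Segs_llen_nonneg hpos _)]

theorem Segs_lcol_zero (a : Bool) (l : List (ι × Bool)) : lcol a l 0 = a := by
  unfold lcol
  rw [List.take_zero]
  rfl

theorem Segs_lcol_length (a : Bool) (l : List (ι × Bool)) :
    lcol a l l.length = ecol a (l.map Prod.snd) := by
  unfold lcol
  rw [List.take_length]

theorem Segs_compat_symm {a b : Bool} (h : Compat a b) : Compat b a :=
  fun h1 => h ⟨h1.2, h1.1⟩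

theorem Segs_cut {ℓ : ι → ℝ} (hpos : ∀ i, 0 < ℓ i) (a : Bool) (l : List (ι × Bool)) (r : ℝ)
    {k : ℕ} (hk : k ≤ l.length) : aliveL ℓ a l r k ↔
      EA ℓ a (l.take k) r ∧ SA ℓ (ecol a ((l.take k).map Prod.snd)) (l.drop k) r := by
  have h := lb_iff hpos a (l.take k) (l.drop k) r
  rw [List.take_append_drop, List.length_take, Nat.min_eq_left hk] at h
  exact h

theorem Segs_cut_SA {ℓ : ι → ℝ} (hpos : ∀ i, 0 < ℓ i) (a : Bool) (l : List (ι × Bool)) {r : ℝ}
    (k : ℕ) (h1 : EA ℓ a (l.take k) r)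
    (h2 : SA ℓ (ecol a ((l.take k).map Prod.snd)) (l.drop k) r) :
    SA ℓ a l r ↔ SA ℓ a (l.take k) r := by
  have h := lb_SA hpos a (l.take k) (l.drop k) le_rfl h1 h2
  rw [List.take_append_drop] at h
  exact h

theorem Segs_cut_EA {ℓ : ι → ℝ} (hpos : ∀ i, 0 < ℓ i) (a : Bool) (l : List (ι × Bool)) {r : ℝ}
    (k : ℕ) (h1 : EA ℓ a (l.take k) r)
    (h2 : SA ℓ (ecol a ((l.take k).map Prod.snd)) (l.drop k) r) :
    EA ℓ a l r ↔ EA ℓ (ecol a ((l.take k).map Prod.snd)) (l.drop k) r := by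
  have h := lb_EA hpos a (l.take k) (l.drop k) le_rfl h1 h2
  rw [List.take_append_drop] at h
  exact h

theorem SA_anti {ℓ : ι → ℝ} {a : Bool} {l : List (ι × Bool)} {r r' : ℝ} (h : r' ≤ r)
    (ha : SA ℓ a l r) : SA ℓ a l r' :=
  alive_anti (Finset.mem_range.mpr (Nat.succ_pos _)) h ha

theorem EA_anti {ℓ : ι → ℝ} {a : Bool} {l : List (ι × Bool)} {r r' : ℝ} (h : r' ≤ r)
    (ha : EA ℓ a l r) : EA ℓ a l r' :=
  alive_anti (Finset.mem_range.mpr (Nat.lt_succ_self _)) h ha

theorem SA_iff {ℓ : ι → ℝ} (hpos : ∀ i, 0 < ℓ i) (a : Bool) (l : List (ι × Bool)) (r : ℝ) :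
    SA ℓ a l r ↔ ∀ k ≤ l.length, llen ℓ (l.take k) < r → Blk ℓ a (l.take k) →
      ¬ SA ℓ (ecol a ((l.take k).map Prod.snd)) (l.drop k) (llen ℓ (l.take k)) := by
  have h0 : (0 : ℕ) ∈ Finset.range (l.length + 1) := Finset.mem_range.mpr (Nat.succ_pos _)
  have hrec : SA ℓ a l r ↔ _ := alive_iff h0
  rw [hrec]
  constructor
  · intro h k hk hr hB hS
    obtain ⟨b1, b2, b3, b4⟩ := hB
    have hk0 : k ≠ 0 := by
      rintro rfl
      exact b1 (List.take_zero)
    have h1 := h k (Finset.mem_range.mpr (Nat.lt_succ_iff.mpr hk)) hk0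
      (by rw [Segs_lcol_zero]; exact b2) (by rw [Segs_dist_left hpos]; exact hr)
    rw [Segs_dist_left hpos] at h1
    exact h1 ⟨(Segs_cut_SA hpos a l k b4 hS).mpr b3, (Segs_cut hpos a l _ hk).mpr ⟨b4, hS⟩⟩
  · intro h k hk hk0 hc hr hcon
    rw [Segs_lcol_zero] at hc
    rw [Segs_dist_left hpos] at hr hcon
    have hk' : k ≤ l.length := Nat.lt_succ_iff.mp (Finset.mem_range.mp hk)
    obtain ⟨c1, c2⟩ := hcon
    obtain ⟨c3, c4⟩ := (Segs_cut hpos a l _ hk').mp c2
    refine h k hk' hr ⟨fun hn => hk0 ?_, hc, (Segs_cut_SA hpos a l k c3 c4).mp c1, c3⟩ c4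
    have h5 := congrArg List.length hn
    rw [List.length_take, Nat.min_eq_left hk'] at h5
    exact h5

theorem EA_iff {ℓ : ι → ℝ} (hpos : ∀ i, 0 < ℓ i) (a : Bool) (l : List (ι × Bool)) (r : ℝ) :
    EA ℓ a l r ↔ ∀ k ≤ l.length, llen ℓ (l.drop k) < r →
      Blk ℓ (ecol a ((l.take k).map Prod.snd)) (l.drop k) →
      ¬ EA ℓ a (l.take k) (llen ℓ (l.drop k)) := by
  have h0 : l.length ∈ Finset.range (l.length + 1) := Finset.mem_range.mpr (Nat.lt_succ_self _)
  have hrec : EA ℓ a l r ↔ _ := alive_iff h0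
  have hcol : ∀ k, ecol (ecol a ((l.take k).map Prod.snd)) ((l.drop k).map Prod.snd) =
      lcol a l l.length := by
    intro k
    rw [← ecol_append, ← List.map_append, List.take_append_drop, Segs_lcol_length]
  rw [hrec]
  constructor
  · intro h k hk hr hB hS
    obtain ⟨b1, b2, b3, b4⟩ := hB
    have hk0 : k ≠ l.length := by
      rintro rfl
      exact b1 (List.drop_length)
    rw [hcol] at b2
    have h1 := h k (Finset.mem_range.mpr (Nat.lt_succ_iff.mpr hk)) hk0
      (Segs_compat_symm b2) (by rw [Segs_dist_right hpos]; exact hr)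
    rw [Segs_dist_right hpos] at h1
    exact h1 ⟨(Segs_cut_EA hpos a l k hS b3).mpr b4, (Segs_cut hpos a l _ hk).mpr ⟨hS, b3⟩⟩
  · intro h k hk hk0 hc hr hcon
    rw [Segs_dist_right hpos] at hr hcon
    have hk' : k ≤ l.length := Nat.lt_succ_iff.mp (Finset.mem_range.mp hk)
    obtain ⟨c1, c2⟩ := hcon
    obtain ⟨c3, c4⟩ := (Segs_cut hpos a l _ hk').mp c2
    refine h k hk' hr ⟨fun hn => hk0 ?_, ?_, c4, (Segs_cut_EA hpos a l k c3 c4).mp c1⟩ c3
    · have h5 := congrArg List.length hn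
      rw [List.length_drop, List.length_nil] at h5
      omega
    · rw [hcol]
      exact Segs_compat_symm hc

theorem SA_EA_far {ℓ : ι → ℝ} (hpos : ∀ i, 0 < ℓ i) {a : Bool} {l : List (ι × Bool)} {r : ℝ}
    (hl : l ≠ []) (hc : Compat a (ecol a (l.map Prod.snd))) (h1 : SA ℓ a l r)
    (h2 : EA ℓ a l r) : r ≤ llen ℓ l := by
  have h0 : (0 : ℕ) ≠ l.length := by
    intro h
    exact hl (List.length_eq_zero_iff.mp h.symm)
  have h3 := alive_sep (x := lpos ℓ l) (c := lcol a l) (W := Finset.range (l.length + 1))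
    (Finset.mem_range.mpr (Nat.succ_pos _)) (Finset.mem_range.mpr (Nat.lt_succ_self _)) h0
    (by rw [Segs_lcol_zero, Segs_lcol_length]; exact hc) h1 h2
  rw [Segs_dist_left hpos, List.take_length] at h3
  exact h3

end FB
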