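import Pool.Agent.Lib.MP_fb152f_pr.Alive1

/-!
# SepDet: living red points are separated (40 minutes)

The red points of the window which are alive before `r` are pairwise at distance `≥ r`
(`alive_sep`; red-red is compatible).  A set of `N` points of `[x 0, x n]` with pairwise distances
`≥ r` satisfies `(N - 1) r ≤ x n - x 0`.  (Induction on `n`: for `F k` = the number of living red
points `≤ k`, show `F k ≥ 1 → (F k - 1) r ≤ x m - x 0` where `m ≤ k` is the last living red point
`≤ k`.)
-/

set_option autoImplicit false

namespace FB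

/-- A finite set of naturals (points with increasing positions) with separated positions. -/
theorem sepDet_aux {x : ℕ → ℝ} {r : ℝ} (n : ℕ) (hx : StrictMonoOn x (Finset.range (n + 1) : Set ℕ)) :
    ∀ (s : ℕ) (F : Finset ℕ), F.card = s → F ⊆ Finset.range (n + 1) →
      (∀ i ∈ F, ∀ j ∈ F, i ≠ j → r ≤ |x i - x j|) → ∀ M ∈ F, (∀ j ∈ F, j ≤ M) →
        ((s : ℝ) - 1) * r ≤ x M - x 0 := by
  intro s
  induction s with
  | zero =>
    intro F hF _ _ M hM _
    rw [Finset.card_eq_zero.mp hF] at hM
    simp at hM
  | succ s ih =>
    intro F hF hsub hsep M hM hmax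
    have h0 : (0 : ℕ) ∈ (Finset.range (n + 1) : Set ℕ) := by simp
    have hMr : M ∈ (Finset.range (n + 1) : Set ℕ) := by exact_mod_cast hsub hM
    by_cases he : (F.erase M).Nonempty
    · obtain ⟨M', hM', hmax'⟩ := Finset.exists_max_image (F.erase M) id he
      have h1 := ih (F.erase M) (by rw [Finset.card_erase_of_mem hM, hF]; rfl)
        ((Finset.erase_subset _ _).trans hsub)
        (fun i hi j hj hij => hsep i (Finset.mem_of_mem_erase hi) j (Finset.mem_of_mem_erase hj) hij)
        M' hM' (fun j hj => hmax' j hj)
      have hM'F := Finset.mem_of_mem_erase hM'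
      have hne : M ≠ M' := (Finset.ne_of_mem_erase hM').symm
      have hlt : M' < M := lt_of_le_of_ne (hmax M' hM'F) hne.symm
      have hM'r : M' ∈ (Finset.range (n + 1) : Set ℕ) := by exact_mod_cast hsub hM'F
      have h2 := hsep M hM M' hM'F hne
      have h3 : x M' < x M := hx hM'r hMr hlt
      rw [abs_of_pos (by linarith)] at h2
      push_cast
      nlinarith
    · rw [Finset.not_nonempty_iff_eq_empty] at he
      have h1 : F.card = 1 := by
        have := Finset.card_erase_of_mem hM
        rw [he] at this
        simp at this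
        have h2 : 0 < F.card := Finset.card_pos.mpr ⟨M, hM⟩
        omega
      have hs : s = 0 := by omega
      subst hs
      have h2 : x 0 ≤ x M := hx.monotoneOn h0 hMr (Nat.zero_le M)
      push_cast
      linarith

open Classical in
theorem sep_det (n : ℕ) (x : ℕ → ℝ) (hx : StrictMonoOn x (Finset.range (n + 1) : Set ℕ))
    (c : ℕ → Bool) {r : ℝ} (hr : 0 < r) :
    (((Finset.range (n + 1)).filter fun k => c k = false ∧
      alive x c (Finset.range (n + 1)) r k).card : ℝ) ≤ 1 + (x n - x 0) / r := by
  set F := (Finset.range (n + 1)).filter fun k => c k = false ∧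
      alive x c (Finset.range (n + 1)) r k with hF
  have h0 : (0 : ℕ) ∈ (Finset.range (n + 1) : Set ℕ) := by simp
  have hn : n ∈ (Finset.range (n + 1) : Set ℕ) := by simp
  by_cases he : F.Nonempty
  · obtain ⟨M, hM, hmax⟩ := Finset.exists_max_image F id he
    have hsub : F ⊆ Finset.range (n + 1) := Finset.filter_subset _ _
    have h1 := sepDet_aux (r := r) n hx F.card F rfl hsub ?_ M hM (fun j hj => hmax j hj)
    · have hMr : M ∈ (Finset.range (n + 1) : Set ℕ) := by exact_mod_cast hsub hM
      have hMn : M ≤ n := by
        have := hsub hM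
        rw [Finset.mem_range] at this
        omega
      have h2 : x M ≤ x n := hx.monotoneOn hMr hn hMn
      have h3 : ((F.card : ℝ) - 1) ≤ (x n - x 0) / r := by
        rw [le_div_iff₀ hr]
        linarith
      linarith
    · intro i hi j hj hij
      rw [hF, Finset.mem_filter] at hi hj
      refine alive_sep hi.1 hj.1 hij ?_ hi.2.2 hj.2.2
      intro hh
      rw [hi.2.1] at hh
      exact absurd hh.1 (by decide)
  · rw [Finset.not_nonempty_iff_eq_empty] at he
    rw [he]
    have h2 : x 0 ≤ x n := hx.monotoneOn h0 hn (Nat.zero_le n)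
    have : 0 ≤ (x n - x 0) / r := div_nonneg (by linarith) hr.le
    simp
    linarith

end FB
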