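import Pool.Agent.Lib.MP_fb152f_pr.Rev
import Pool.Agent.Lib.MP_fb152f_pr.SepDet
import Pool.Agent.Lib.MP_fb152f_pr.ListBar
import Pool.Agent.Lib.MP_fb152f_pr.Base

/-!
# SepSF: living red points are sparse, set functions (75 minutes)

`(psi_R * psi_R) S = ∑_{A ⊆ S} ∑_{l1 ∈ cord A} ∑_{l2 ∈ cord (S \ A)} pw R l1 v(ecol l1) [SA R l1 r]
  pw R l2 v(ecol l2) [SA R l2 r]`.
Reverse `l1` (`sum_rev`, `pw_revc`, `EA_revc`, `ecol_revc`): the sum over `l1` becomes
`∑_b ∑_{l1 ∈ cord A} [ecol b l1 = R] pw b l1 v b [EA b l1 r]`.  By `cut_lemma` (backwards),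
`pw_append`, `ecol_append`, `lb_iff` the total is
`∑_b ∑_{l ∈ cord S} v b * pw b l * v (ecol b l) * #{k ≤ l.length : lcol b l k = R and aliveL ℓ b l r k}`
(`lcol b l k = ecol b ((l.take k).map snd)`), and by `sep_det` (positions `lpos ℓ l`, strictly
increasing, `lpos ℓ l l.length = llen ℓ l = slen ℓ S`, `lpos 0 = 0`) the number is
`≤ 1 + slen ℓ S / r`.  Finally `∑_b v_b ∑_l pw v = |S|! ∑_b v_b^2 = |S|!` (`sum_cord_colours`,
`sum_pw_v`).
-/

set_option autoImplicit false

namespace FB

variable {ι : Type*} [DecidableEq ι]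

omit [DecidableEq ι] in
theorem sepsf_lpos_mono {ℓ : ι → ℝ} (hpos : ∀ i, 0 < ℓ i) (l : List (ι × Bool)) :
    StrictMonoOn (lpos ℓ l) (Finset.range (l.length + 1) : Set ℕ) := by
  have key : ∀ j, j < l.length → lpos ℓ l j < lpos ℓ l (j + 1) := by
    intro j hj
    unfold lpos
    rw [List.take_add_one, List.map_append, List.sum_append]
    have : l[j]? = some l[j] := List.getElem?_eq_getElem hj
    rw [this]
    simp
    exact hpos _
  have h2 : ∀ i j, i < j → j ≤ l.length → lpos ℓ l i < lpos ℓ l j := by
    intro i j hij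
    induction j, hij using Nat.le_induction with
    | base =>
      intro h
      exact key i (by omega)
    | succ j hj ih =>
      intro h
      exact (ih (by omega)).trans (key j (by omega))
  intro i _ j hj hij
  have hj' : j ∈ Finset.range (l.length + 1) := by exact_mod_cast hj
  rw [Finset.mem_range] at hj'
  exact h2 i j hij (by omega)

omit [DecidableEq ι] in
/-- the number of living red points -/
theorem sepsf_count {ℓ : ι → ℝ} (hpos : ∀ i, 0 < ℓ i) {r : ℝ} (hr : 0 < r) (b : Bool)
    (l : List (ι × Bool)) :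
    ∑ k ∈ Finset.range (l.length + 1),
      ind (ecol b ((l.take k).map Prod.snd) = false ∧ aliveL ℓ b l r k) ≤ 1 + llen ℓ l / r := by
  classical
  have h1 := sep_det l.length (lpos ℓ l) (sepsf_lpos_mono hpos l) (lcol b l) hr
  have h2 : lpos ℓ l l.length - lpos ℓ l 0 = llen ℓ l := by
    simp [lpos, llen]
  rw [h2] at h1
  refine le_trans (le_of_eq ?_) h1
  rw [Finset.card_filter]
  push_cast
  refine Finset.sum_congr rfl fun k _ => ?_
  unfold ind lcol aliveL lcol
  congr 1

theorem sep_sf {ℓ : ι → ℝ} (hpos : ∀ i, 0 < ℓ i) {r : ℝ} (hr : 0 < r) {t : ℝ}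
    (ht : t ∈ Set.Icc 0 (Real.pi / 2)) (S : Finset ι) :
    (psi ℓ r t false * psi ℓ r t false) S ≤ (S.card.factorial : ℝ) * (1 + slen ℓ S / r) := by
  classical
  -- reverse the left part
  have hrev : ∀ A : Finset ι, psi ℓ r t false A = ∑ b : Bool, ∑ l ∈ cord A,
      ind (ecol b (l.map Prod.snd) = false) *
        (v t b * pw t b (l.map Prod.snd) * ind (EA ℓ b l r)) := by
    intro A
    rw [← sum_rev A false (fun b l => v t b * pw t b (l.map Prod.snd) * ind (EA ℓ b l r))]
    unfold psi
    refine Finset.sum_congr rfl fun l _ => ?_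
    have e : ind (EA ℓ (ecol false (l.map Prod.snd)) (revc false l) r) = ind (SA ℓ false l r) := by
      congr 1
      exact propext (EA_revc ℓ false l r)
    rw [pw_revc, e]
    ring
  -- the product as a sum over cuts
  have hprod : (psi ℓ r t false * psi ℓ r t false) S = ∑ b : Bool, ∑ A ∈ S.powerset,
      ∑ l1 ∈ cord A, ∑ l2 ∈ cord (S \ A),
        (ind (ecol b (l1.map Prod.snd) = false) *
          (v t b * pw t b (l1.map Prod.snd) * ind (EA ℓ b l1 r))) *
        (pw t false (l2.map Prod.snd) * v t (ecol false (l2.map Prod.snd)) *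
          ind (SA ℓ false l2 r)) := by
    rw [SF.mul_apply, Finset.sum_comm]
    refine Finset.sum_congr rfl fun A _ => ?_
    rw [hrev A, Finset.sum_mul]
    refine Finset.sum_congr rfl fun b _ => ?_
    rw [Finset.sum_mul]
    refine Finset.sum_congr rfl fun l1 _ => ?_
    unfold psi
    rw [Finset.mul_sum]
  rw [hprod]
  have hcut : ∀ b : Bool, ∑ A ∈ S.powerset,
      ∑ l1 ∈ cord A, ∑ l2 ∈ cord (S \ A),
        (ind (ecol b (l1.map Prod.snd) = false) *
          (v t b * pw t b (l1.map Prod.snd) * ind (EA ℓ b l1 r))) *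
        (pw t false (l2.map Prod.snd) * v t (ecol false (l2.map Prod.snd)) *
          ind (SA ℓ false l2 r)) =
      ∑ l ∈ cord S, v t b * (pw t b (l.map Prod.snd) * v t (ecol b (l.map Prod.snd))) *
        ∑ k ∈ Finset.range (l.length + 1),
          ind (ecol b ((l.take k).map Prod.snd) = false ∧ aliveL ℓ b l r k) := by
    intro b
    rw [← cut_lemma S (fun l1 l2 => (ind (ecol b (l1.map Prod.snd) = false) *
          (v t b * pw t b (l1.map Prod.snd) * ind (EA ℓ b l1 r))) *
        (pw t false (l2.map Prod.snd) * v t (ecol false (l2.map Prod.snd)) *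
          ind (SA ℓ false l2 r)))]
    refine Finset.sum_congr rfl fun l _ => ?_
    rw [Finset.mul_sum]
    refine Finset.sum_congr rfl fun k hk => ?_
    rw [Finset.mem_range] at hk
    have hlen : (l.take k).length = k := by
      rw [List.length_take]
      omega
    have hsplit : l.take k ++ l.drop k = l := List.take_append_drop k l
    by_cases hc : ecol b ((l.take k).map Prod.snd) = false
    · have e1 := lb_iff hpos b (l.take k) (l.drop k) r
      rw [hsplit, hlen, hc] at e1
      have e2 : pw t b (l.map Prod.snd) = pw t b ((l.take k).map Prod.snd) *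
          pw t false ((l.drop k).map Prod.snd) := by
        rw [← hc, ← pw_append, ← List.map_append, hsplit]
      have e3 : ecol b (l.map Prod.snd) = ecol false ((l.drop k).map Prod.snd) := by
        rw [← hc, ← ecol_append, ← List.map_append, hsplit]
      by_cases ha : aliveL ℓ b l r k
      · obtain ⟨a1, a2⟩ := e1.mp ha
        rw [Base_ind_true hc, Base_ind_true a1, Base_ind_true a2, Base_ind_true ⟨hc, ha⟩, e2, e3]
        ring
      · rw [Base_ind_false (p := ecol b ((l.take k).map Prod.snd) = false ∧ aliveL ℓ b l r k)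
          (fun h => ha h.2)]
        by_cases a1 : EA ℓ b (l.take k) r
        · have a2 : ¬ SA ℓ false (l.drop k) r := fun h => ha (e1.mpr ⟨a1, h⟩)
          rw [Base_ind_false a2]
          ring
        · rw [Base_ind_false a1]
          ring
    · rw [Base_ind_false hc, Base_ind_false
        (p := ecol b ((l.take k).map Prod.snd) = false ∧ aliveL ℓ b l r k) (fun h => hc h.1)]
      ring
  simp only [hcut]
  have hbd : ∀ b : Bool, ∑ l ∈ cord S, v t b * (pw t b (l.map Prod.snd) *
        v t (ecol b (l.map Prod.snd))) * ∑ k ∈ Finset.range (l.length + 1),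
          ind (ecol b ((l.take k).map Prod.snd) = false ∧ aliveL ℓ b l r k) ≤
      (S.card.factorial : ℝ) * v t b ^ 2 * (1 + slen ℓ S / r) := by
    intro b
    have h3 : ∑ l ∈ cord S, (pw t b (l.map Prod.snd) * v t (ecol b (l.map Prod.snd))) =
        (S.card.factorial : ℝ) * v t b := by
      rw [sum_cord_colours S (fun cs => pw t b cs * v t (ecol b cs)), sum_pw_v]
    calc _ ≤ ∑ l ∈ cord S, v t b * (pw t b (l.map Prod.snd) *
        v t (ecol b (l.map Prod.snd))) * (1 + slen ℓ S / r) := by
          refine Finset.sum_le_sum fun l hl => ?_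
          refine mul_le_mul_of_nonneg_left ?_ ?_
          · have := sepsf_count hpos hr b l
            rwa [slen_of_mem_cord ℓ hl] at this
          · exact mul_nonneg (v_nonneg ht b) (mul_nonneg (pw_nonneg ht b _) (v_nonneg ht _))
      _ = _ := by
          rw [← Finset.sum_mul, ← Finset.mul_sum, h3]
          ring
  refine (Finset.sum_le_sum fun b _ => hbd b).trans (le_of_eq ?_)
  rw [Fintype.sum_bool]
  have := v_sq_add t
  linear_combination ((S.card.factorial : ℝ) * (1 + slen ℓ S / r)) * this

end FB
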