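import Pool.Agent.Lib.MP_fb152f_pr.ZDefs
import Pool.Agent.Lib.MP_fb152f_pr.Alive2

/-!
# StabA: locality in the infinite configuration (75 minutes)

`cluster`: for `GoodZ x`, `r`, and `k` there are `a0 ≤ k ≤ b0` with `r ≤ x a0 - x (a0 - 1)` and
`r ≤ x (b0 + 1) - x b0` (`GoodZ.left` for `n = k - 1`, `a0` = the found index `+ 1`; `GoodZ.right` for
`n = k`).  For all `a ≤ a0`, `b ≥ b0`, all `i ∈ [a0, b0]` and `r' ≤ r`:
`alive x c (Icc a b) r' i ↔ alive x c (Icc a0 b0) r' i` (`alive_local`: points of `[a, b]` outside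
`[a0, b0]` are at distance `≥ r` from the points of `[a0, b0]` because `x` is increasing).

`aliveZ_iff_of_cluster`: hence `aliveZ x c r' i ↔ alive x c (Icc a0 b0) r' i` for `i ∈ [a0, b0]`,
`r' ≤ r` (`winZ i n` contains `[a0, b0]` for large `n`).

`aliveZ_stab`: for every `r, k` the truth value of `alive x c (winZ k n) r k` is constant for
large `n`.

`aliveZ_rec`: the recursion for `aliveZ` on the whole of `ℤ`: take a cluster for `(r, k)`; the
points `j` outside are at distance `≥ r` from `k`, for the points `j` inside the cluster and levels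
`≤ r` replace `aliveZ` by `alive x c (Icc a0 b0)`, `alive_iff`.
-/

set_option autoImplicit false

namespace FB

open Filter

theorem cluster {x : ℤ → ℝ} (hx : GoodZ x) (r : ℝ) (k : ℤ) :
    ∃ a0 b0 : ℤ, a0 ≤ k ∧ k ≤ b0 ∧
      (∀ i ∈ Finset.Icc a0 b0, ∀ j : ℤ, j ∉ Finset.Icc a0 b0 → r ≤ |x i - x j|) := by
  obtain ⟨k1, hk1, hr1⟩ := hx.left r (k - 1)
  obtain ⟨k2, hk2, hr2⟩ := hx.right r k
  refine ⟨k1 + 1, k2, by omega, hk2, ?_⟩
  intro i hi j hj
  rw [Finset.mem_Icc] at hi hj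
  by_cases h : j < k1 + 1
  · have h1 : x j ≤ x k1 := hx.mono.monotone (by omega)
    have h2 : x (k1 + 1) ≤ x i := hx.mono.monotone hi.1
    have h3 : x i - x j ≤ |x i - x j| := le_abs_self _
    linarith
  · have h0 : k2 + 1 ≤ j := by
      by_contra hc
      exact hj ⟨by omega, by omega⟩
    have h1 : x (k2 + 1) ≤ x j := hx.mono.monotone h0
    have h2 : x i ≤ x k2 := hx.mono.monotone hi.2
    have h3 : -(x i - x j) ≤ |x i - x j| := neg_le_abs _
    linarith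

theorem staba_win {x : ℤ → ℝ} (c : ℤ → Bool) {r : ℝ} {a0 b0 : ℤ}
    (hfar : ∀ i ∈ Finset.Icc a0 b0, ∀ j : ℤ, j ∉ Finset.Icc a0 b0 → r ≤ |x i - x j|)
    {r' : ℝ} (hr : r' ≤ r) {i : ℤ} (hi : i ∈ Finset.Icc a0 b0) :
    ∀ᶠ n : ℕ in atTop, (alive x c (winZ i n) r' i ↔ alive x c (Finset.Icc a0 b0) r' i) := by
  filter_upwards [eventually_ge_atTop ((i - a0).toNat + (b0 - i).toNat)] with n hn
  refine alive_local ?_ (fun i' hi' j _ hj => hfar i' hi' j hj) hr hi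
  unfold winZ
  apply Finset.Icc_subset_Icc
  · omega
  · omega

theorem aliveZ_iff_of_cluster {x : ℤ → ℝ} (c : ℤ → Bool) {r : ℝ} {a0 b0 : ℤ}
    (hfar : ∀ i ∈ Finset.Icc a0 b0, ∀ j : ℤ, j ∉ Finset.Icc a0 b0 → r ≤ |x i - x j|)
    {r' : ℝ} (hr : r' ≤ r) {i : ℤ} (hi : i ∈ Finset.Icc a0 b0) :
    aliveZ x c r' i ↔ alive x c (Finset.Icc a0 b0) r' i := by
  unfold aliveZ
  rw [eventually_congr (staba_win c hfar hr hi)]
  exact eventually_const

theorem aliveZ_stab {x : ℤ → ℝ} (hx : GoodZ x) (c : ℤ → Bool) (r : ℝ) (k : ℤ) :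
    ∀ᶠ n : ℕ in atTop, (alive x c (winZ k n) r k ↔ aliveZ x c r k) := by
  obtain ⟨a0, b0, h1, h2, hfar⟩ := cluster hx r k
  have hk : k ∈ Finset.Icc a0 b0 := Finset.mem_Icc.mpr ⟨h1, h2⟩
  filter_upwards [staba_win c hfar le_rfl hk] with n hn
  rw [hn, aliveZ_iff_of_cluster c hfar le_rfl hk]

theorem aliveZ_rec {x : ℤ → ℝ} (hx : GoodZ x) (c : ℤ → Bool) (r : ℝ) (k : ℤ) :
    aliveZ x c r k ↔ ∀ j : ℤ, j ≠ k → Compat (c k) (c j) → |x k - x j| < r →
      ¬ (aliveZ x c |x k - x j| k ∧ aliveZ x c |x k - x j| j) := by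
  obtain ⟨a0, b0, h1, h2, hfar⟩ := cluster hx r k
  have hk : k ∈ Finset.Icc a0 b0 := Finset.mem_Icc.mpr ⟨h1, h2⟩
  rw [aliveZ_iff_of_cluster c hfar le_rfl hk, alive_iff hk]
  constructor
  · intro h j hjk hc hd
    by_cases hj : j ∈ Finset.Icc a0 b0
    · rw [aliveZ_iff_of_cluster c hfar hd.le hk, aliveZ_iff_of_cluster c hfar hd.le hj]
      exact h j hj hjk hc hd
    · exact absurd (hfar k hk j hj) (not_le.mpr hd)
  · intro h j hj hjk hc hd
    have h3 := h j hjk hc hd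
    rw [aliveZ_iff_of_cluster c hfar hd.le hk, aliveZ_iff_of_cluster c hfar hd.le hj] at h3
    exact h3

theorem aliveZ_anti {x : ℤ → ℝ} (hx : GoodZ x) {c : ℤ → Bool} {r r' : ℝ} {k : ℤ} (h : r' ≤ r)
    (ha : aliveZ x c r k) : aliveZ x c r' k := by
  obtain ⟨a0, b0, h1, h2, hfar⟩ := cluster hx r k
  have hk : k ∈ Finset.Icc a0 b0 := Finset.mem_Icc.mpr ⟨h1, h2⟩
  rw [aliveZ_iff_of_cluster c hfar le_rfl hk] at ha
  rw [aliveZ_iff_of_cluster c hfar h hk]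
  exact alive_anti hk h ha

end FB
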