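import Pool.Agent.Lib.MP_fb152f_pr.EvoDefs

/-!
# Step: the evolution equations are preserved by a crossing (75 minutes, pure algebra)

`z = zz T`, `z * z = 0`, `M = [[0, m], [m, n]]` real functions of `t`.
New state: `P+ = P - z (M P + P M) + z M`, i.e. (symmetric `P`)
`P11+ = P11 - 2 m z P12`, `P12+ = P12 - z (m P22 + m P11 + n P12) + m z`,
`P22+ = P22 - 2 z (m P12 + n P22) + n z`, `s+ = s - z M s`.
New `W+ = W - z ([M, W] + M')`:
`w1+ = w1 + z m (w2 - w3)`, `w2+ = w2 - z (m w4 - m w1 - n w2 + m')`,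
`w3+ = w3 - z (m w1 + n w3 - m w4 + m')`, `w4+ = w4 - z (m (w2 - w3) + n')`.
(Background: `F+ = (1 - z M) F (1 - z M)`, `s+ = (1 - z M) s`, `(1 - z M)^{-1} = 1 + z M`,
`W+ = (1 - z M) W (1 + z M) - z M'`.)
Proof: compute the derivatives of the new functions with `HD.add, HD.sub, HD.mul, HD.smul,
HD.const`, then compare with the right-hand sides: a polynomial identity in the commutative ring
`SF ι` modulo `z * z = 0` (`linear_combination (...) * hz`, after writing `a • f = (a • 1) * f`,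
`sf_smul_eq`).  For `d12` the function is `2 * P12`.
-/

set_option autoImplicit false

namespace FB

variable {ι : Type*} [DecidableEq ι]

omit [DecidableEq ι] in
theorem step_congr {f g : ℝ → SF ι} {f' g' : SF ι} {t : ℝ} (h : HD f f' t) (h1 : g = f)
    (h2 : g' = f') : HD g g' t := by
  rw [h1, h2]
  exact h

theorem step {P11 P12 P22 s1 s2 w1 w2 w3 w4 : ℝ → SF ι}
    (h : EqState P11 P12 P22 s1 s2 w1 w2 w3 w4) {T : Finset ι} (hT : T ≠ ∅)
    {m n m' n' : ℝ → ℝ} (hm : ∀ t, HasDerivAt m (m' t) t) (hn : ∀ t, HasDerivAt n (n' t) t) :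
    EqState
      (fun t => P11 t - zz T * (2 * (m t • P12 t)))
      (fun t => P12 t - zz T * (m t • P22 t + m t • P11 t + n t • P12 t) + m t • zz T)
      (fun t => P22 t - zz T * (2 * (m t • P12 t + n t • P22 t)) + n t • zz T)
      (fun t => s1 t - zz T * (m t • s2 t))
      (fun t => s2 t - zz T * (m t • s1 t + n t • s2 t))
      (fun t => w1 t + zz T * (m t • (w2 t - w3 t)))
      (fun t => w2 t - zz T * (m t • w4 t - m t • w1 t - n t • w2 t + m' t • (1 : SF ι)))
      (fun t => w3 t - zz T * (m t • w1 t + n t • w3 t - m t • w4 t + m' t • (1 : SF ι)))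
      (fun t => w4 t - zz T * (m t • (w2 t - w3 t) + n' t • (1 : SF ι))) := by
  have hz : (zz T : SF ι) * zz T = 0 := zz_mul_self hT
  obtain ⟨c, hc⟩ : ∃ c : ℝ → SF ι, ∀ (a : ℝ) (f : SF ι), a • f = c a * f :=
    ⟨fun a => a • (1 : SF ι), sf_smul_eq⟩
  have h2P11 : ∀ t, HD (fun t => 2 * P11 t) (0 * P11 t + 2 * (w1 t * (2 * P11 t - 1) +
      2 * (w2 t * P12 t))) t := fun t => HD.mul (HD.const 2 t) (h.d11 t)
  have h2P22 : ∀ t, HD (fun t => 2 * P22 t) (0 * P22 t + 2 * (2 * (w3 t * P12 t) +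
      w4 t * (2 * P22 t - 1))) t := fun t => HD.mul (HD.const 2 t) (h.d22 t)
  constructor
  · intro t
    refine step_congr (HD.sub (h.d11 t) (HD.mul (HD.const (zz T) t) (HD.smul (hm t) (h.d12 t))))
      ?_ ?_
    · funext t
      simp only [hc]
      ring
    · simp only [hc]
      linear_combination (-4 * c (m t) ^ 2 * (w2 t - w3 t) * P12 t + 2 * (c (m t) * w4 t -
        c (m t) * w1 t - c (n t) * w2 t + c (m' t)) * (c (m t) * P22 t + c (m t) * P11 t +
        c (n t) * P12 t - c (m t))) * hz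
  · intro t
    refine step_congr (HD.add (HD.sub (h.d12 t) (HD.mul (HD.const (zz T) t)
      (HD.add (HD.add (HD.smul (hm t) (h2P22 t)) (HD.smul (hm t) (h2P11 t)))
        (HD.smul (hn t) (h.d12 t))))) (HD.smul (hm t) (HD.const (2 * zz T) t))) ?_ ?_
    · funext t
      simp only [hc]
      ring
    · simp only [hc]
      linear_combination (-(w1 t * c (m t) * P22 t * c (n t) * 4) + w1 t * c (m t) * c (n t) * 2
        - c (m t) * w2 t * P12 t * c (n t) * 4 + c (m t) * w3 t * P12 t * c (n t) * 4 + c (m t) *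
        P12 t * c (m' t) * 8 + c (m t) * P22 t * c (n t) * w4 t * 4 + c (m t) * P22 t * c (n' t)
        * 2 + c (m t) * P11 t * c (n' t) * 2 - c (m t) * c (n t) * w4 t * 2 - c (m t) * c (n' t)
        * 2 - w2 t * P22 t * c (n t) ^ 2 * 4 + w2 t * c (n t) ^ 2 * 2 + P12 t * c (n t) * c (n'
        t) * 2 + P22 t * c (n t) * c (m' t) * 4 - c (n t) * c (m' t) * 2) * hz
  · intro t
    refine step_congr (HD.add (HD.sub (h.d22 t) (HD.mul (HD.const (zz T) t)
      (HD.add (HD.smul (hm t) (h.d12 t)) (HD.smul (hn t) (h2P22 t)))))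
      (HD.smul (hn t) (HD.const (zz T) t))) ?_ ?_
    · funext t
      simp only [hc]
      ring
    · simp only [hc]
      linear_combination (-(w3 t * c (m t) * c (n t) * P22 t * 2) + w3 t * c (m t) * c (n t) *
        P11 t * 2 - w3 t * c (m t) ^ 2 * P12 t * 4 + w3 t * c (n t) ^ 2 * P12 t * 2 + c (m t) *
        w1 t * c (n t) * P12 t * 2 - c (m t) * c (n t) * w4 t * P12 t * 2 + c (m t) * c (n t) *
        P22 t * w2 t * 4 - c (m t) * c (n t) * w2 t * 2 - c (m t) * c (m' t) * 2 + c (m t) * c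
        (m' t) * P22 t * 2 + c (m t) * c (m' t) * P11 t * 2 + c (m t) * P12 t * c (n' t) * 4 - c
        (m t) ^ 2 * w1 t * 2 + c (m t) ^ 2 * w1 t * P22 t * 2 + c (m t) ^ 2 * w1 t * P11 t * 2 +
        c (m t) ^ 2 * w4 t * 2 - c (m t) ^ 2 * w4 t * P22 t * 2 - c (m t) ^ 2 * w4 t * P11 t * 2
        + c (m t) ^ 2 * P12 t * w2 t * 4 + c (n t) * c (m' t) * P12 t * 2 + c (n t) * P22 t * c
        (n' t) * 4 - c (n t) * c (n' t) * 2) * hz
  · intro t
    refine step_congr (HD.sub (h.d1 t) (HD.mul (HD.const (zz T) t) (HD.smul (hm t) (h.d2 t))))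
      ?_ ?_
    · funext t
      simp only [hc]
    · simp only [hc]
      linear_combination (-(w1 t * c (m t) * s2 t * c (n t)) - w1 t * c (m t) ^ 2 * s1 t - c (m
        t) * w2 t * s1 t * c (n t) + c (m t) * s1 t * c (m' t) + c (m t) * s2 t * w4 t * c (n t)
        - c (m t) ^ 2 * w2 t * s2 t + c (m t) ^ 2 * w3 t * s2 t + c (m t) ^ 2 * s1 t * w4 t - w2
        t * s2 t * c (n t) ^ 2 + s2 t * c (n t) * c (m' t)) * hz
  · intro t
    refine step_congr (HD.sub (h.d2 t) (HD.mul (HD.const (zz T) t)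
      (HD.add (HD.smul (hm t) (h.d1 t)) (HD.smul (hn t) (h.d2 t))))) ?_ ?_
    · funext t
      simp only [hc]
    · simp only [hc]
      linear_combination (-(w3 t * c (m t) ^ 2 * s1 t) + c (m t) * c (n t) * s2 t * w2 t + c (m
        t) * c (m' t) * s2 t + c (m t) * s1 t * c (n' t) + c (m t) ^ 2 * w1 t * s2 t - c (m t) ^
        2 * w4 t * s2 t + c (m t) ^ 2 * s1 t * w2 t + c (n t) * s2 t * c (n' t)) * hz

end FB
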