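import Pool.Agent.Lib.MP_fb152f_pr.ZDefs
import Pool.Agent.Lib.MP_fb152f_pr.Alive2
import Pool.Agent.Lib.MP_fb152f_pr.Barrier

/-!
# WinS: the window around a point and the two one-sided sequences (60 minutes)

`x` strictly increasing.  `barrier_iff` for `W = winZ k n = Icc (k - n) (k + n)`: the point `k` is
alive in `W` iff it is alive in `Icc (k - n) k` and in `Icc k (k + n)`.
`Icc k (k + n)` is the image of `range (n + 1)` under `j ↦ k + j`, and
`x (k + j) - x k = spos (Rseq x c k) j`, `c (k + j) = scol (c k) (Rseq x c k) j`; so by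
`alive_congr` the point `k` is alive in `Icc k (k + n)` iff `SAs (c k) (Rseq x c k) n r`.
`Icc (k - n) k` is the image of `range (n + 1)` under `j ↦ k - j`, and
`x k - x (k - j) = spos (Lseq x c k) j`, `c (k - j) = scol (c k) (Lseq x c k) j`.
-/

set_option autoImplicit false

namespace FB

theorem wins_spos_R (x : ℤ → ℝ) (c : ℤ → Bool) (k : ℤ) (j : ℕ) :
    spos (Rseq x c k) j = x (k + j) - x k := by
  unfold spos Rseq
  have h := Finset.sum_range_sub (fun i : ℕ => x (k + i)) j
  simp only [Nat.cast_add, Nat.cast_one, ← add_assoc] at h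
  simpa using h

theorem wins_spos_L (x : ℤ → ℝ) (c : ℤ → Bool) (k : ℤ) (j : ℕ) :
    spos (Lseq x c k) j = x k - x (k - j) := by
  unfold spos Lseq
  have h := Finset.sum_range_sub (fun i : ℕ => - x (k - i)) j
  simp only [Nat.cast_add, Nat.cast_one, ← sub_sub] at h
  simp only [Nat.cast_zero, sub_zero] at h
  rw [show x k - x (k - j) = - x (k - j) - - x k by ring, ← h]
  refine Finset.sum_congr rfl fun i _ => ?_
  ring

theorem wins_scol_R (x : ℤ → ℝ) (c : ℤ → Bool) (k : ℤ) (j : ℕ) :
    scol (c k) (Rseq x c k) j = c (k + j) := by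
  cases j with
  | zero => simp [scol]
  | succ j => simp [scol, Rseq, add_assoc]

theorem wins_scol_L (x : ℤ → ℝ) (c : ℤ → Bool) (k : ℤ) (j : ℕ) :
    scol (c k) (Lseq x c k) j = c (k - j) := by
  cases j with
  | zero => simp [scol]
  | succ j => simp [scol, Lseq, sub_sub]

theorem wins_right (x : ℤ → ℝ) (c : ℤ → Bool) (k : ℤ) (n : ℕ) (r : ℝ) :
    alive x c (Finset.Icc k (k + n)) r k ↔ SAs (c k) (Rseq x c k) n r := by
  have himg : Finset.Icc k (k + n) = (Finset.range (n + 1)).image fun j : ℕ => k + (j : ℤ) := by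
    ext m
    simp only [Finset.mem_Icc, Finset.mem_image, Finset.mem_range]
    constructor
    · intro h
      exact ⟨(m - k).toNat, by omega, by omega⟩
    · rintro ⟨j, hj, rfl⟩
      omega
  have h := alive_congr (x := spos (Rseq x c k)) (c := scol (c k) (Rseq x c k))
    (W := Finset.range (n + 1)) (x' := x) (c' := c) (e := fun j : ℕ => k + (j : ℤ))
    (by intro a _ b _ hab; simpa using hab)
    (by
      intro i _ j _
      rw [wins_spos_R, wins_spos_R]
      congr 1
      ring)
    (by
      intro i _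
      rw [wins_scol_R]) r (i := 0) (by simp)
  rw [himg]
  unfold SAs
  simpa using h

theorem wins_left (x : ℤ → ℝ) (c : ℤ → Bool) (k : ℤ) (n : ℕ) (r : ℝ) :
    alive x c (Finset.Icc (k - n) k) r k ↔ SAs (c k) (Lseq x c k) n r := by
  have himg : Finset.Icc (k - n) k = (Finset.range (n + 1)).image fun j : ℕ => k - (j : ℤ) := by
    ext m
    simp only [Finset.mem_Icc, Finset.mem_image, Finset.mem_range]
    constructor
    · intro h
      exact ⟨(k - m).toNat, by omega, by omega⟩
    · rintro ⟨j, hj, rfl⟩
      omega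
  have h := alive_congr (x := spos (Lseq x c k)) (c := scol (c k) (Lseq x c k))
    (W := Finset.range (n + 1)) (x' := x) (c' := c) (e := fun j : ℕ => k - (j : ℤ))
    (by intro a _ b _ hab; simpa using hab)
    (by
      intro i _ j _
      rw [wins_spos_L, wins_spos_L, ← abs_neg]
      congr 1
      ring)
    (by
      intro i _
      rw [wins_scol_L]) r (i := 0) (by simp)
  rw [himg]
  unfold SAs
  simpa using h

theorem winZ_iff {x : ℤ → ℝ} (hx : StrictMono x) (c : ℤ → Bool) (k : ℤ) (n : ℕ) (r : ℝ) :
    alive x c (winZ k n) r k ↔ SAs (c k) (Lseq x c k) n r ∧ SAs (c k) (Rseq x c k) n r := by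
  have hk : k ∈ winZ k n := by
    unfold winZ
    rw [Finset.mem_Icc]
    omega
  rw [barrier_iff (hx.strictMonoOn _) hk]
  have h1 : (winZ k n).filter (· ≤ k) = Finset.Icc (k - n) k := by
    ext m
    simp only [winZ, Finset.mem_filter, Finset.mem_Icc]
    omega
  have h2 : (winZ k n).filter (k ≤ ·) = Finset.Icc k (k + n) := by
    ext m
    simp only [winZ, Finset.mem_filter, Finset.mem_Icc]
    omega
  rw [h1, h2, wins_left, wins_right]

end FB
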