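import Pool.Agent.Lib.MP_fb152f_pr.LawZ
import Pool.Agent.Lib.MP_fb152f_pr.GoodAE
import Pool.Agent.Lib.MP_fb152f_pr.WinS
import Pool.Agent.Lib.MP_fb152f_pr.CVB
import Pool.Agent.Lib.MP_fb152f_pr.Meas

/-!
# WinK: living blue points in `(0, L]`, windows of radius `n` (90 minutes)

`win_k`: for `k = K + 1`: by `winZ_iff` (a.s. `X` is increasing, `ae_good`), `Lseq_eq`, `spos_Lraw`,
`Rseq_eq` the event `X_k ≤ L, c_k = blue, alive (winZ k n) r k` is
`spos Lraw (K+1) ≤ L`, `c_k = blue`, `SAs blue (addGap Lraw K g_0) n r`, `SAs blue R n r`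
with the four independent variables of `law_parts`.  So its probability is
`p * qq true n r p * ∫⁻ h, ∫⁻ u, F (spos h (K+1), addGap h K u)` with
`F (x, h) = 1` if `x ≤ L` and `SAs true h n r`, else `0`.  Use `cv`.

`win_sum`: `sum_cv`: `∑_K = ∫⁻ h, ∫⁻ x in Ioi 0, F (x, h) = L * qq true n r p`.
-/

set_option autoImplicit false

namespace FB

open MeasureTheory ProbabilityTheory

theorem winK_spos_meas (k : ℕ) : Measurable (fun h : ℕ → ℝ × Bool => spos h k) := by
  unfold spos
  exact Finset.measurable_fun_sum _ fun i _ => measurable_fst.comp (measurable_pi_apply i)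

theorem winK_addGap_meas (K : ℕ) :
    Measurable (fun q : (ℕ → ℝ × Bool) × ℝ => addGap q.1 K q.2) := by
  rw [measurable_pi_iff]
  intro i
  by_cases hi : i = K
  · subst hi
    have h : (fun q : (ℕ → ℝ × Bool) × ℝ => addGap q.1 i q.2 i) =
        fun q => ((q.1 i).1 + q.2, (q.1 i).2) := by
      funext q
      simp [addGap]
    rw [h]
    have h1 : Measurable (fun q : (ℕ → ℝ × Bool) × ℝ => q.1 i) :=
      (measurable_pi_apply i).comp measurable_fst
    exact ((measurable_fst.comp h1).add measurable_snd).prodMk (measurable_snd.comp h1)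
  · have h : (fun q : (ℕ → ℝ × Bool) × ℝ => addGap q.1 K q.2 i) = fun q => q.1 i := by
      funext q
      simp [addGap, Function.update_of_ne hi]
    rw [h]
    exact (measurable_pi_apply i).comp measurable_fst

/-- the event of the left part -/
noncomputable def winK_F (L : ℝ) (n : ℕ) (r : ℝ) : ℝ × (ℕ → ℝ × Bool) → ENNReal :=
  Set.indicator {q | q.1 ≤ L ∧ SAs true q.2 n r} (fun _ => 1)

theorem winK_set_meas (L : ℝ) (n : ℕ) (r : ℝ) :
    MeasurableSet {q : ℝ × (ℕ → ℝ × Bool) | q.1 ≤ L ∧ SAs true q.2 n r} := by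
  have h1 : MeasurableSet {q : ℝ × (ℕ → ℝ × Bool) | q.1 ≤ L} :=
    measurableSet_le measurable_fst measurable_const
  have h2 : MeasurableSet {q : ℝ × (ℕ → ℝ × Bool) | SAs true q.2 n r} :=
    measurable_snd (measurableSet_SAs true n r)
  exact h1.inter h2

theorem winK_F_meas (L : ℝ) (n : ℕ) (r : ℝ) : Measurable (winK_F L n r) :=
  measurable_const.indicator (winK_set_meas L n r)

/-- the set of the four parts -/
def winK_G (L : ℝ) (n : ℕ) (r : ℝ) (K : ℕ) :
    Set ((ℕ → ℝ × Bool) × ℝ × Bool × (ℕ → ℝ × Bool)) :=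
  {y | (spos y.1 (K + 1) ≤ L ∧ SAs true (addGap y.1 K y.2.1) n r) ∧ y.2.2.1 = true ∧
    SAs true y.2.2.2 n r}

theorem winK_G_meas (L : ℝ) (n : ℕ) (r : ℝ) (K : ℕ) : MeasurableSet (winK_G L n r K) := by
  have m1 : Measurable (fun y : (ℕ → ℝ × Bool) × ℝ × Bool × (ℕ → ℝ × Bool) =>
      (spos y.1 (K + 1), addGap y.1 K y.2.1)) := by
    have a1 : Measurable (fun y : (ℕ → ℝ × Bool) × ℝ × Bool × (ℕ → ℝ × Bool) =>
        spos y.1 (K + 1)) := (winK_spos_meas (K + 1)).comp measurable_fst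
    have a2 : Measurable (fun y : (ℕ → ℝ × Bool) × ℝ × Bool × (ℕ → ℝ × Bool) =>
        (y.1, y.2.1)) := measurable_fst.prodMk (measurable_fst.comp measurable_snd)
    exact a1.prodMk ((winK_addGap_meas K).comp a2)
  have m2 : Measurable (fun y : (ℕ → ℝ × Bool) × ℝ × Bool × (ℕ → ℝ × Bool) => y.2.2.1) :=
    measurable_fst.comp (measurable_snd.comp measurable_snd)
  have m3 : Measurable (fun y : (ℕ → ℝ × Bool) × ℝ × Bool × (ℕ → ℝ × Bool) => y.2.2.2) :=
    measurable_snd.comp (measurable_snd.comp measurable_snd)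
  exact (m1 (winK_set_meas L n r)).inter
    ((m2 (measurableSet_singleton true)).inter (m3 (measurableSet_SAs true n r)))

theorem winK_colour {p : ℝ} (hp : p ∈ Set.Icc (0 : ℝ) 1) :
    colourLaw p {true} = ENNReal.ofReal p := by
  unfold colourLaw
  simp

theorem winK_seq {p : ℝ} (hp : p ∈ Set.Icc (0 : ℝ) 1) (n : ℕ) (r : ℝ) :
    seqLaw p {ω | SAs true ω n r} = ENNReal.ofReal (qq true n r p) := by
  have := isProb_seqLaw hp
  unfold qq
  rw [ofReal_measureReal]

/-- the measure of `winK_G` -/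
theorem winK_G_law {p : ℝ} (hp : p ∈ Set.Icc (0 : ℝ) 1) (L : ℝ) (n : ℕ) (r : ℝ) (K : ℕ) :
    ((seqLaw p).prod ((expMeasure 1).prod ((colourLaw p).prod (seqLaw p)))) (winK_G L n r K) =
      (∫⁻ h, ∫⁻ u, winK_F L n r (spos h (K + 1), addGap h K u) ∂(expMeasure 1) ∂(seqLaw p)) *
        (ENNReal.ofReal p * ENNReal.ofReal (qq true n r p)) := by
  have := isProb_seqLaw hp
  have := isProb_colourLaw hp
  rw [Measure.prod_apply (winK_G_meas L n r K)]
  have hκ : ENNReal.ofReal p * ENNReal.ofReal (qq true n r p) ≠ ⊤ :=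
    ENNReal.mul_ne_top ENNReal.ofReal_ne_top ENNReal.ofReal_ne_top
  rw [← lintegral_mul_const' _ _ hκ]
  apply lintegral_congr
  intro h
  have hslice : Prod.mk h ⁻¹' (winK_G L n r K) =
      {u : ℝ | spos h (K + 1) ≤ L ∧ SAs true (addGap h K u) n r} ×ˢ
        (({true} : Set Bool) ×ˢ {ω | SAs true ω n r}) := by
    ext y
    rfl
  have hms : MeasurableSet {u : ℝ | spos h (K + 1) ≤ L ∧ SAs true (addGap h K u) n r} := by
    have m : Measurable (fun u : ℝ => (spos h (K + 1), addGap h K u)) := by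
      have a2 : Measurable (fun u : ℝ => (h, u)) := measurable_const.prodMk measurable_id
      exact measurable_const.prodMk ((winK_addGap_meas K).comp a2)
    exact m (winK_set_meas L n r)
  rw [hslice, Measure.prod_prod, Measure.prod_prod, winK_colour hp, winK_seq hp]
  congr 1
  have hF : ∀ u : ℝ, winK_F L n r (spos h (K + 1), addGap h K u) =
      Set.indicator {u : ℝ | spos h (K + 1) ≤ L ∧ SAs true (addGap h K u) n r}
        (fun _ => (1 : ENNReal)) u := by
    intro u
    rfl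
  simp only [hF]
  rw [lintegral_indicator hms]
  simp

theorem winK_half {p : ℝ} (hp : p ∈ Set.Icc (0 : ℝ) 1) {L : ℝ} (hL : 0 ≤ L) (n : ℕ) (r : ℝ) :
    ∫⁻ h, (∫⁻ x in Set.Ioi 0, winK_F L n r (x, h)) ∂(seqLaw p) =
      ENNReal.ofReal L * ENNReal.ofReal (qq true n r p) := by
  have hin : ∀ h : ℕ → ℝ × Bool, (∫⁻ x in Set.Ioi 0, winK_F L n r (x, h)) =
      ENNReal.ofReal L * Set.indicator {ω | SAs true ω n r} (fun _ => (1 : ENNReal)) h := by
    intro h
    by_cases hS : SAs true h n r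
    · have hF : ∀ x : ℝ, winK_F L n r (x, h) =
          Set.indicator (Set.Iic L) (fun _ => (1 : ENNReal)) x := by
        intro x
        unfold winK_F
        by_cases hx : x ≤ L
        · rw [Set.indicator_of_mem (show (x, h) ∈ {q : ℝ × (ℕ → ℝ × Bool) | q.1 ≤ L ∧
            SAs true q.2 n r} from ⟨hx, hS⟩), Set.indicator_of_mem (show x ∈ Set.Iic L from hx)]
        · rw [Set.indicator_of_notMem (fun h' : (x, h) ∈ {q : ℝ × (ℕ → ℝ × Bool) | q.1 ≤ L ∧
            SAs true q.2 n r} => hx h'.1), Set.indicator_of_notMem (fun h' : x ∈ Set.Iic L => hx h')]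
      simp only [hF]
      rw [lintegral_indicator measurableSet_Iic, Measure.restrict_restrict measurableSet_Iic,
        Set.indicator_of_mem (show h ∈ {ω | SAs true ω n r} from hS), mul_one]
      have hset : Set.Iic L ∩ Set.Ioi 0 = Set.Ioc 0 L := by
        ext x
        simp [and_comm]
      rw [hset, lintegral_const, one_mul, Measure.restrict_apply_univ, Real.volume_Ioc, sub_zero]
    · have hF : ∀ x : ℝ, winK_F L n r (x, h) = 0 := by
        intro x
        exact Set.indicator_of_notMem (fun h' : (x, h) ∈ {q : ℝ × (ℕ → ℝ × Bool) | q.1 ≤ L ∧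
            SAs true q.2 n r} => hS h'.2) _
      simp only [hF]
      rw [Set.indicator_of_notMem (fun h' : h ∈ {ω | SAs true ω n r} => hS h'), mul_zero,
        lintegral_zero]
  simp only [hin]
  rw [lintegral_const_mul' _ _ ENNReal.ofReal_ne_top, lintegral_indicator (measurableSet_SAs true n r)]
  rw [lintegral_const, one_mul, Measure.restrict_apply_univ, winK_seq hp]

theorem winK_parts_meas {Ω : Type*} [MeasurableSpace Ω] {X : ℤ → Ω → ℝ} {c : ℤ → Ω → Bool}
    (hX : ∀ k, Measurable (X k)) (hc : ∀ k, Measurable (c k)) (K : ℕ) :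
    Measurable (fun ω => (Lraw (fun j => X j ω) (fun j => c j ω) ((K : ℤ) + 1),
        gap (fun j => X j ω) 0, c ((K : ℤ) + 1) ω,
        fun i : ℕ => (gap (fun j => X j ω) ((K : ℤ) + 1 + i + 1), c ((K : ℤ) + 1 + i + 1) ω))) := by
  have hg := lawZ_gap_meas hX
  refine Measurable.prodMk ?_ (Measurable.prodMk (hg 0) (Measurable.prodMk (hc _) ?_))
  · rw [measurable_pi_iff]
    intro i
    unfold Lraw
    refine Measurable.prodMk ?_ (hc _)
    split_ifs
    · exact hg _
    · exact hg _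
  · rw [measurable_pi_iff]
    intro i
    exact (hg _).prodMk (hc _)

theorem win_sum {p : ℝ} (hp : p ∈ Set.Icc (0 : ℝ) 1) {Ω : Type*} [MeasurableSpace Ω]
    {P : Measure Ω} [IsProbabilityMeasure P] {X : ℤ → Ω → ℝ} {c : ℤ → Ω → Bool}
    (h : IsColouredPoisson p P X c) (n : ℕ) (r : ℝ) {L : ℝ} (hL : 0 ≤ L) :
    ∑' K : ℕ, P {ω | X ((K : ℤ) + 1) ω ≤ L ∧ c ((K : ℤ) + 1) ω = true ∧
        alive (fun j => X j ω) (fun j => c j ω) (winZ ((K : ℤ) + 1) n) r ((K : ℤ) + 1)} =
      ENNReal.ofReal (p * L * qq true n r p ^ 2) := by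
  have hterm : ∀ K : ℕ, P {ω | X ((K : ℤ) + 1) ω ≤ L ∧ c ((K : ℤ) + 1) ω = true ∧
        alive (fun j => X j ω) (fun j => c j ω) (winZ ((K : ℤ) + 1) n) r ((K : ℤ) + 1)} =
      (∫⁻ h, (∫⁻ x in Set.Ioc (spos h K) (spos h (K + 1)), winK_F L n r (x, h)) ∂(seqLaw p)) *
        (ENNReal.ofReal p * ENNReal.ofReal (qq true n r p)) := by
    intro K
    rw [← cv hp (winK_F_meas L n r) K, ← winK_G_law hp L n r K, ← law_parts hp h K,
      Measure.map_apply (winK_parts_meas h.measX h.measc K) (winK_G_meas L n r K)]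
    apply measure_congr
    filter_upwards [ae_good hp h] with ω hω
    apply propext
    have hw := winZ_iff hω.1.mono (fun j => c j ω) ((K : ℤ) + 1) n r
    have hR : Rseq (fun j => X j ω) (fun j => c j ω) ((K : ℤ) + 1) =
        fun i : ℕ => (gap (fun j => X j ω) ((K : ℤ) + 1 + i + 1), c ((K : ℤ) + 1 + i + 1) ω) := by
      funext i
      exact Rseq_eq (fun j => X j ω) (fun j => c j ω) (by omega) i
    constructor
    · rintro ⟨h1, h2, h3⟩
      obtain ⟨h4, h5⟩ := hw.mp h3
      rw [h2] at h4 h5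
      rw [Lseq_eq] at h4
      rw [hR] at h5
      refine ⟨⟨?_, h4⟩, h2, h5⟩
      show spos (Lraw (fun j => X j ω) (fun j => c j ω) ((K : ℤ) + 1)) (K + 1) ≤ L
      rw [spos_Lraw]
      exact h1
    · rintro ⟨⟨h1, h4⟩, h2, h5⟩
      have h1' : spos (Lraw (fun j => X j ω) (fun j => c j ω) ((K : ℤ) + 1)) (K + 1) ≤ L := h1
      have h2' : c ((K : ℤ) + 1) ω = true := h2
      rw [spos_Lraw] at h1'
      refine ⟨h1', h2', hw.mpr ?_⟩
      rw [h2', Lseq_eq, hR]
      exact ⟨h4, h5⟩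
  simp only [hterm]
  rw [ENNReal.tsum_mul_right, sum_cv hp (winK_F_meas L n r), winK_half hp hL]
  have hq0 : 0 ≤ qq true n r p := measureReal_nonneg
  rw [← ENNReal.ofReal_mul hL, ← ENNReal.ofReal_mul hp.1,
    ← ENNReal.ofReal_mul (mul_nonneg hL hq0)]
  congr 1
  ring

end FB
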