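import Pool.Agent.Lib.MP_fb152f_pr.Defs

/-!
# ZDefs: the infinite process (definitions)
-/

set_option autoImplicit false

namespace FB

open Filter MeasureTheory ProbabilityTheory

/-- The window of radius `n` around `k`. -/
noncomputable def winZ (k : ℤ) (n : ℕ) : Finset ℤ := Finset.Icc (k - n) (k + n)

/-- Increasing, arbitrarily large gaps in both directions, distinct distances. -/
structure GoodZ (x : ℤ → ℝ) : Prop where
  mono : StrictMono x
  right : ∀ (r : ℝ) (n : ℤ), ∃ k, n ≤ k ∧ r ≤ x (k + 1) - x k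
  left : ∀ (r : ℝ) (n : ℤ), ∃ k, k ≤ n ∧ r ≤ x (k + 1) - x k
  distinct : ∀ i j k l : ℤ, i < j → k < l → x j - x i = x l - x k → i = k ∧ j = l

/-- Alive before `r` in the whole configuration. -/
def aliveZ (x : ℤ → ℝ) (c : ℤ → Bool) (r : ℝ) (k : ℤ) : Prop :=
  ∀ᶠ n : ℕ in atTop, alive x c (winZ k n) r k

/-- The steps seen from the point `k` to the left. -/
def Lseq (x : ℤ → ℝ) (c : ℤ → Bool) (k : ℤ) : ℕ → ℝ × Bool := fun i =>
  (x (k - i) - x (k - i - 1), c (k - i - 1))

/-- The steps seen from the point `k` to the right. -/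
def Rseq (x : ℤ → ℝ) (c : ℤ → Bool) (k : ℤ) : ℕ → ℝ × Bool := fun i =>
  (x (k + i + 1) - x (k + i), c (k + i + 1))

/-- The left steps with the spacing `gap x 0` omitted (`k ≥ 1`): spacings number
`k, k-1, ..., 1, -1, -2, ...`, colours number `k-1, k-2, ...`. -/
def Lraw (x : ℤ → ℝ) (c : ℤ → Bool) (k : ℤ) : ℕ → ℝ × Bool := fun i =>
  (if (i : ℤ) < k then gap x (k - i) else gap x (k - 1 - i), c (k - 1 - i))

/-- Add `u` to the spacing number `j`. -/
def addGap (h : ℕ → ℝ × Bool) (j : ℕ) (u : ℝ) : ℕ → ℝ × Bool :=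
  Function.update h j ((h j).1 + u, (h j).2)

end FB
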